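import Mathlib

set_option autoImplicit false

namespace Pool.Agent.Lib.MP_4b70aa_gt.Alg

open Equiv

theorem eq_one_of_dvd {m : ℕ} (h0 : 0 < m) (h : m ∣ 2 ^ m - 1) : m = 1 := by
  by_contra h1
  have hp := Nat.minFac_prime h1
  have : Fact m.minFac.Prime := ⟨hp⟩
  have h2 : (2 : ZMod m.minFac) ^ m = 1 := by
    have h3 := (ZMod.natCast_eq_zero_iff _ _).2 ((Nat.minFac_dvd m).trans h)
    rw [Nat.cast_sub Nat.one_le_two_pow] at h3
    simpa [sub_eq_zero] using h3
  have h3 : (2 : ZMod m.minFac) ≠ 0 := fun e => by simp [e, h0.ne'] at h2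
  have h4 := pow_gcd_eq_one.2 ⟨ZMod.pow_card_sub_one_eq_one h3, h2⟩
  have h5 : Nat.Coprime m (m.minFac - 1) :=
    Nat.coprime_of_lt_minFac (by have := hp.two_le; omega) (by have := hp.two_le; omega)
  rw [h5.symm.gcd_eq_one, pow_one] at h4
  have h6 : (1 : ZMod m.minFac) = 0 := by linear_combination h4
  exact one_ne_zero h6

theorem fin_triv {G : Type} [Group G] [Finite G] {a b t : G} (h1 : b * a = a * a * b)
    (h2 : t * a = b * t) : a = 1 := by
  have h3 : orderOf a = orderOf b := SemiconjBy.orderOf_eq t h2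
  have h4 : ∀ n : ℕ, b ^ n * a = a ^ 2 ^ n * b ^ n := fun n => by
    induction n with
    | zero => simp
    | succ n ih =>
      have h5 : SemiconjBy b (a ^ 2 ^ n) ((a * a) ^ 2 ^ n) := SemiconjBy.pow_right h1 _
      rw [pow_succ', mul_assoc, ih, ← mul_assoc, h5.eq, ← pow_two, ← pow_mul, ← pow_succ',
        mul_assoc]
  have h5 := h4 (orderOf a)
  rw [h3, pow_orderOf_eq_one, one_mul, mul_one, ← h3] at h5
  have h6 : a ^ (2 ^ orderOf a - 1) = 1 := by
    apply mul_right_cancel (b := a)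
    rw [← pow_succ, Nat.sub_add_cancel Nat.one_le_two_pow, one_mul, ← h5]
  exact orderOf_eq_one_iff.1 (eq_one_of_dvd (orderOf_pos a) (orderOf_dvd_of_pow_eq_one h6))

section ne
variable (L : Type) {S : Type} [Group L] [MulAction L S] (F : Set S)

/-- The equivariant permutations preserving a set. -/
def Hs : Subgroup (Perm S) where
  carrier := {f | (∀ (l : L) σ, f (l • σ) = l • f σ) ∧ ∀ σ, f σ ∈ F ↔ σ ∈ F}
  mul_mem' := fun {f g} hf hg => ⟨fun l σ => by rw [Perm.mul_apply, hg.1, hf.1, Perm.mul_apply],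
    fun σ => by rw [Perm.mul_apply, hf.2, hg.2]⟩
  one_mem' := ⟨fun _ _ => rfl, fun _ => Iff.rfl⟩
  inv_mem' := fun {f} hf => ⟨fun l σ => f.injective (by rw [hf.1]; simp),
    fun σ => by rw [← hf.2]; simp⟩

/-- The action on the orbits. -/
@[reducible] def act : MulAction (Hs L F) (Quotient.mk (MulAction.orbitRel L S) '' F) where
  smul f x := ⟨Quotient.map' f.1 (by
      rintro _ σ ⟨l, rfl⟩
      exact ⟨l, (f.2.1 l σ).symm⟩) x.1, by
    obtain ⟨_, σ, hσ, rfl⟩ := x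
    exact ⟨f.1 σ, (f.2.2 σ).2 hσ, rfl⟩⟩
  one_smul := by
    rintro ⟨_, σ, hσ, rfl⟩
    rfl
  mul_smul := by
    rintro f g ⟨_, σ, hσ, rfl⟩
    rfl

variable {L F}

theorem fix_a (hL : ∀ α β γ : L, β⁻¹ * α⁻¹ * β * α * γ = γ * (β⁻¹ * α⁻¹ * β * α))
    (hfin : (Quotient.mk (MulAction.orbitRel L S) '' F).Finite) {a b t : Hs L F}
    (h1 : b * a = a * a * b) (h2 : t * a = b * t) {σ : S} (hσ : σ ∈ F) : a.1 σ = σ := by
  have := hfin.to_subtype
  let _ := act L F
  let ψ := MulAction.toPermHom (Hs L F) (Quotient.mk (MulAction.orbitRel L S) '' F)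
  have ha : ψ a = 1 := fin_triv (b := ψ b) (t := ψ t) (by simp only [← map_mul, h1])
    (by simp only [← map_mul, h2])
  have hb : ψ b = 1 := by
    have := congrArg ψ h2
    rw [map_mul, map_mul, ha, mul_one] at this
    exact right_eq_mul.1 this
  have key : ∀ f : Hs L F, ψ f = 1 → ∃ l : L, f.1 σ = l • σ := fun f hf => by
    have h3 := congrArg (fun g : Perm _ => (g ⟨_, σ, hσ, rfl⟩).1) hf
    obtain ⟨l, hl⟩ := Quotient.exact h3
    exact ⟨l, hl.symm⟩
  obtain ⟨α, hα⟩ := key a ha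
  obtain ⟨β, hβ⟩ := key b hb
  have h4 : ∀ α : L, a.1 σ = α • σ → (β⁻¹ * α⁻¹ * β * α)⁻¹ • σ = a.1 σ := fun α hα => by
    have h5 : b.1 (a.1 σ) = a.1 (a.1 (b.1 σ)) := congrArg (fun g : Hs L F => g.1 σ) h1
    rw [hα, b.2.1, hβ, a.2.1, a.2.1, hα, a.2.1, hα] at h5
    have h6 : (β⁻¹ * α⁻¹ * β * α) • α • σ = σ := by
      rw [mul_assoc, mul_assoc, mul_smul, mul_smul, mul_smul, ← h5, inv_smul_smul, inv_smul_smul]
    rw [hα, inv_smul_eq_iff, h6]
  have h5 := h4 _ (h4 α hα).symm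
  have h6 := hL α β β
  generalize β⁻¹ * α⁻¹ * β * α = c at h5 h6
  have h7 : β⁻¹ * c⁻¹⁻¹ * β * c⁻¹ = 1 := by
    rw [inv_inv, mul_assoc β⁻¹, h6]
    simp
  rw [h7, inv_one, one_smul] at h5
  exact h5.symm

end ne

/-- The word whose commutator with the last generator is central. -/
def hh {G : Type} [Group G] (a r q : G) : G := a * (r * a * r⁻¹) * q * (r * a * r⁻¹)⁻¹

theorem fix_comm {L S : Type} [Group L] [MulAction L S] {F : Set S} {a r q u : Hs L F}
    (ha : ∀ σ ∈ F, a.1 σ = σ) (h3 : u * q = q * u) {σ : S} (hσ : σ ∈ F) :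
    (u * hh a r q * u⁻¹ * (hh a r q)⁻¹).1 σ = σ := by
  have hc : ∀ τ ∈ F, (r * a * r⁻¹).1 τ = τ := fun τ hτ => by
    change r.1 (a.1 (r⁻¹.1 τ)) = τ
    rw [ha _ ((r⁻¹.2.2 τ).2 hτ)]
    simp
  have hc' : ∀ τ ∈ F, (r * a * r⁻¹)⁻¹.1 τ = τ := fun τ hτ => by
    conv_lhs => rw [← hc τ hτ]
    exact (r * a * r⁻¹).1.symm_apply_apply τ
  have hq : ∀ τ ∈ F, (hh a r q).1 τ = q.1 τ := fun τ hτ => by
    change a.1 ((r * a * r⁻¹).1 (q.1 ((r * a * r⁻¹)⁻¹.1 τ))) = _
    rw [hc' τ hτ, hc _ ((q.2.2 τ).2 hτ), ha _ ((q.2.2 τ).2 hτ)]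
  obtain ⟨τ, rfl⟩ := (hh a r q).1.surjective σ
  have hτ := ((hh a r q).2.2 τ).1 hσ
  change u.1 ((hh a r q).1 (u⁻¹.1 ((hh a r q).1.symm ((hh a r q).1 τ)))) = _
  rw [symm_apply_apply, hq _ ((u⁻¹.2.2 τ).2 hτ), hq τ hτ]
  have h4 : u * q * u⁻¹ = q := by rw [h3, mul_inv_cancel_right]
  exact congrArg (fun g : Hs L F => g.1 τ) h4

/-- The countable set carrying the permutations. -/
abbrev Om : Type := (ℤ × ℤ) × ℤ

theorem exists_model : ∃ (a b t : Perm Om) (n : Om → ℤ),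
    b * a = a * a * b ∧ t * a = b * t ∧ ∀ s, n (a s) = n s + 1 := by
  let β : Perm (ℤ × ℤ) :=
    ⟨fun p => (p.1 / 2, 2 * p.2 + p.1 % 2), fun p => (2 * p.1 + p.2 % 2, p.2 / 2),
      fun p => Prod.ext (by dsimp only; omega) (by dsimp only; omega),
      fun p => Prod.ext (by dsimp only; omega) (by dsimp only; omega)⟩
  let a : Perm Om :=
    ⟨fun p => ((p.1.1, p.1.2 + 1), p.2), fun p => ((p.1.1, p.1.2 - 1), p.2),
      fun p => by simp, fun p => by simp⟩
  let b : Perm Om :=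
    ⟨fun p => (β p.1, p.2 + 1), fun p => (β⁻¹ p.1, p.2 - 1), fun p => by simp, fun p => by simp⟩
  let t : Perm Om :=
    ⟨fun p => ((β ^ p.1.2) (p.1.1, p.2), p.1.2),
      fun p => ((((β ^ p.2)⁻¹ p.1).1, p.2), ((β ^ p.2)⁻¹ p.1).2), fun p => by simp, fun p => by simp⟩
  refine ⟨a, b, t, fun p => p.1.2, ext fun p => ?_, ext fun p => ?_, fun _ => rfl⟩
  · exact Prod.ext (Prod.ext rfl (by
      change 2 * (p.1.2 + 1) + p.1.1 % 2 = 2 * p.1.2 + p.1.1 % 2 + 1 + 1
      ring)) rfl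
  · refine Prod.ext ?_ rfl
    change (β ^ (p.1.2 + 1)) (p.1.1, p.2) = β ((β ^ p.1.2) (p.1.1, p.2))
    rw [add_comm, zpow_one_add, Perm.mul_apply]

/-- Permutations with labels. -/
@[ext] structure Wr (S H : Type) where
  π : Perm S
  c : S → H

section wr
variable {S H : Type} [Group H]

instance : Mul (Wr S H) := ⟨fun g' g => ⟨g'.π * g.π, fun s => g'.c (g.π s) * g.c s⟩⟩
instance : One (Wr S H) := ⟨⟨1, fun _ => 1⟩⟩
instance : Inv (Wr S H) := ⟨fun g => ⟨g.π⁻¹, fun s => (g.c (g.π⁻¹ s))⁻¹⟩⟩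

@[simp] theorem Wr.mul_π (g' g : Wr S H) : (g' * g).π = g'.π * g.π := rfl
@[simp] theorem Wr.mul_c (g' g : Wr S H) (s : S) : (g' * g).c s = g'.c (g.π s) * g.c s := rfl
@[simp] theorem Wr.one_π : (1 : Wr S H).π = 1 := rfl
@[simp] theorem Wr.one_c (s : S) : (1 : Wr S H).c s = 1 := rfl
@[simp] theorem Wr.inv_π (g : Wr S H) : g⁻¹.π = g.π⁻¹ := rfl
@[simp] theorem Wr.inv_c (g : Wr S H) (s : S) : g⁻¹.c s = (g.c (g.π⁻¹ s))⁻¹ := rfl

instance : Group (Wr S H) := Group.ofLeftAxioms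
  (fun _ _ _ => Wr.ext (mul_assoc _ _ _) (funext fun s => by simp [mul_assoc]))
  (fun _ => Wr.ext (one_mul _) (funext fun s => by simp))
  fun _ => Wr.ext (inv_mul_cancel _) (funext fun s => by simp)

end wr

/-- Pairs of labelled permutations that agree off a finite set. -/
def G0 (H : Type) [Group H] : Subgroup (Wr (Option Om) H × Wr Om H) where
  carrier := {g | ∀ᶠ s in Filter.cofinite,
    g.1.π (some s) = some (g.2.π s) ∧ g.1.c (some s) = g.2.c s}
  mul_mem' := fun {g' g} hg' hg => by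
    filter_upwards [hg, g.2.π.injective.tendsto_cofinite.eventually hg'] with s h1 h2
    simp [h1, h2]
  one_mem' := by
    change ∀ᶠ s in Filter.cofinite, _
    exact Filter.Eventually.of_forall fun _ => ⟨rfl, rfl⟩
  inv_mem' := fun {g} hg => by
    filter_upwards [g.2.π⁻¹.injective.tendsto_cofinite.eventually hg] with s h1
    have h2 : g.1.π⁻¹ (some s) = some (g.2.π⁻¹ s) := by
      rw [Perm.inv_eq_iff_eq, h1.1]; simp
    exact ⟨h2, by simp only [Prod.fst_inv, Prod.snd_inv, Wr.inv_c, h2, h1.2]⟩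

theorem mem_G0 {H : Type} [Group H] {g : Wr (Option Om) H × Wr Om H}
    (h : ∀ s, g.1.π (some s) = some (g.2.π s) ∧ g.1.c (some s) = g.2.c s) : g ∈ G0 H := by
  change ∀ᶠ s in Filter.cofinite, _
  exact Filter.Eventually.of_forall h

section gens
variable {H : Type} [Group H]

/-- The constant labels. -/
def cst (h : H) : G0 H :=
  ⟨(⟨1, fun _ => h⟩, ⟨1, fun _ => h⟩), mem_G0 fun _ => ⟨rfl, rfl⟩⟩

theorem cst_mul (h h' : H) : cst (h * h') = cst h * cst h' := rfl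

theorem cst_comm {h : H} (hc : ∀ g, h * g = g * h) (g : G0 H) : cst h * g = g * cst h :=
  Subtype.ext (Prod.ext (Wr.ext (by simp [cst]) (funext fun s => by simp [cst, hc]))
    (Wr.ext (by simp [cst]) (funext fun s => by simp [cst, hc])))

/-- The unlabelled permutations. -/
def io : Perm Om →* G0 H where
  toFun π := ⟨(⟨optionCongr π, fun _ => 1⟩, ⟨π, fun _ => 1⟩),
    mem_G0 fun _ => ⟨rfl, rfl⟩⟩
  map_one' := Subtype.ext (Prod.ext (Wr.ext (ext fun s => by cases s <;> rfl) rfl) rfl)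
  map_mul' π π' := Subtype.ext (Prod.ext
    (Wr.ext (ext fun s => by cases s <;> rfl) (funext fun s => by simp))
    (Wr.ext rfl (funext fun s => by simp)))

theorem exists_gens {x y : H} {z : ℤ → H} (hz : ∀ i j, z (i + j) = z i * z j)
    (hc : ∀ i g, z i * g = g * z i) (hxy : x * y = z (-1) * y * x) :
    ∃ a b t r q u : G0 H, b * a = a * a * b ∧ t * a = b * t ∧ u * q = q * u ∧
      u * hh a r q = cst (z (-1)) * hh a r q * u := by
  classical
  obtain ⟨a, b, t, n, h1, h2, h3⟩ := exists_model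
  let r : G0 H := ⟨(⟨swap none (some 0), fun _ => 1⟩, 1), by
    filter_upwards [Filter.eventually_cofinite_ne 0] with s hs
    exact ⟨swap_apply_of_ne_of_ne (by simp) (by simpa using hs), rfl⟩⟩
  let Y : G0 H := ⟨(⟨1, fun s => s.elim y fun _ => 1⟩, 1),
    mem_G0 fun _ => ⟨rfl, rfl⟩⟩
  let u : G0 H := ⟨(⟨1, fun s => s.elim x fun s => z (-n s)⟩, ⟨1, fun s => z (-n s)⟩),
    mem_G0 fun _ => ⟨rfl, rfl⟩⟩
  have h4 : a 0 ≠ 0 := fun e => by simpa [e] using h3 0
  have h5 : hh (io a) r ((r * io a * r⁻¹)⁻¹ * Y * (r * io a * r⁻¹)) = io a * Y := by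
    unfold hh; group
  have h6 : ∀ s, z (-n (a s)) = z (-1) * z (-n s) := fun s => by
    rw [← hz, h3]; congr 1; ring
  refine ⟨io a, io b, io t, r, (r * io a * r⁻¹)⁻¹ * Y * (r * io a * r⁻¹), u,
    by simp only [← map_mul, h1], by simp only [← map_mul, h2], ?_, ?_⟩
  · have h7 : (r * io a * r⁻¹ : G0 H).1.1.π none = some (a 0) := by
      change swap none (some 0) (optionCongr a ((swap none (some 0))⁻¹ none)) = _
      rw [swap_inv, swap_apply_left]
      exact swap_apply_of_ne_of_ne (by simp) (by simpa using h4)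
    generalize (r * io a * r⁻¹ : G0 H) = g at h7
    refine Subtype.ext (Prod.ext (Wr.ext (by simp [u]) (funext fun s => ?_))
      (Wr.ext (by simp [u]) (funext fun s => by simp [u, Y])))
    cases s with
    | none =>
      have h8 : g.1.1.π.symm (some (a 0)) = none := by rw [← h7, symm_apply_apply]
      simp [u, Y, h7, h8]
    | some s => simp [u, Y, hc]
  · rw [h5]
    refine Subtype.ext (Prod.ext (Wr.ext (by simp [u, cst]) (funext fun s => ?_))
      (Wr.ext (by simp [u, cst]) (funext fun s => by simp [u, Y, cst, io, h6])))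
    cases s with
    | none => simp [u, Y, cst, io, hxy]
    | some s => simp [u, Y, cst, io, h6]

end gens

end Pool.Agent.Lib.MP_4b70aa_gt.Alg
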