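import Pool.Agent.Lib.MP_4b70aa_gt.Iface
import Pool.Agent.Lib.MP_4b70aa_gt.AlgA

set_option autoImplicit false

namespace Pool.Agent.Lib.MP_4b70aa_gt

namespace Alg

open Equiv

/-- The vertices. -/
abbrev VV : Type := Bool ⊕ (Fin 7 × Bool) ⊕ (Fin 4 × Fin 18 × Bool)

/-- The base vertex. -/
abbrev vo : VV := .inl false

/-- The cone vertex. -/
abbrev vC : VV := .inl true

/-- The ends of the edge of a generator. -/
abbrev vX (g : Fin 7) (ε : Bool) : VV := .inr (.inl (g, ε))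

/-- The ends of an edge of a polygon. -/
abbrev vP (ρ : Fin 4) (n : Fin 18) (ε : Bool) : VV := .inr (.inr (ρ, n, ε))

/-- The relators, read from the right. -/
def wl : Fin 4 → List (Fin 7 × Bool) :=
  ![[(1, false), (1, false), (2, false), (1, true), (2, true)],
    [(2, false), (3, false), (1, true), (3, true)],
    [(5, false), (6, false), (5, true), (6, true)],
    [(1, false), (4, false), (1, false), (4, true), (5, false), (4, false), (1, true), (4, true),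
      (6, false), (4, false), (1, false), (4, true), (5, true), (4, false), (1, true), (4, true),
      (1, true), (6, true)]]

/-- The letters. -/
def wd (ρ : Fin 4) (n : ℕ) : Fin 7 × Bool := (wl ρ).getD n (0, true)

section words
variable {G : Type} [Group G]

/-- The value of a letter. -/
def lt (f : Fin 7 → G) (p : Fin 7 × Bool) : G := if p.2 then f p.1 else (f p.1)⁻¹

/-- The value of an initial segment of a relator. -/
def Wd (f : Fin 7 → G) (ρ : Fin 4) : ℕ → G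
  | 0 => 1
  | n + 1 => lt f (wd ρ n) * Wd f ρ n

theorem Wd_eval (f : Fin 7 → G) (h0 : f 0 = 1) :
    Wd f 0 18 = f 2 * f 1 * (f 1 * f 1 * f 2)⁻¹ ∧ Wd f 1 18 = f 3 * f 1 * (f 2 * f 3)⁻¹ ∧
      Wd f 2 18 = f 6 * f 5 * (f 5 * f 6)⁻¹ ∧
      Wd f 3 18 = f 6 * hh (f 1) (f 4) (f 5) * (f 6)⁻¹ * (hh (f 1) (f 4) (f 5))⁻¹ := by
  refine ⟨?_, ?_, ?_, ?_⟩ <;> simp [Wd, wd, wl, lt, h0, hh, mul_assoc]

end words

/-- The direction along a polygon. -/
def km (ρ : Fin 4) (m : ℕ) : Fin 4 := if ρ = 3 ∧ m ≤ 3 then Fin.ofNat 4 m else 0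

/-- The winding along a polygon. -/
def Dm (ρ : Fin 4) (m : ℕ) : ℤ := if ρ = 3 ∧ 4 ≤ m then 1 else 0

/-- The direction of a vertex. -/
def kv : VV → Fin 4
  | .inr (.inr p) => km p.1 (p.2.1 + p.2.2.toNat)
  | _ => 0

/-- The approximate phase. -/
def a1 (i j : VV) : ℤ :=
  if i = vC then (if j = vC then 0 else (kv j : ℕ)) else if j = vC then -(kv i : ℕ) else 0

/-- The cocycle. -/
def d1 (i j l : VV) : ℤ := (a1 j l + a1 i j - a1 i l + 1) / 4

theorem d1_zero {i j l : VV} (hi : i ≠ vC) (hj : j ≠ vC) (hl : l ≠ vC) : d1 i j l = 0 := by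
  simp [d1, a1, hi, hj, hl]

theorem d1_cone {i j : VV} (hi : i ≠ vC) (hj : j ≠ vC) :
    d1 i j vC = ((kv i : ℕ) - (kv j : ℕ) + 1) / 4 := by
  simp only [d1, a1, hi, hj, if_true, if_false]
  congr 1
  ring

theorem d1_self (i : VV) : d1 i i vC = 0 := by
  by_cases h : i = vC <;> simp [d1, a1, h]

theorem d1_coc {i j m : VV} (h1 : i ≠ vC → j ≠ vC → kv i ≠ kv j + 2)
    (h2 : j ≠ vC → m ≠ vC → kv j ≠ kv m + 2) (h3 : i ≠ vC → m ≠ vC → kv i ≠ kv m + 2) :
    -d1 j m vC + -d1 i j vC + d1 i j m = -d1 i m vC := by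
  by_cases hi : i = vC <;> by_cases hj : j = vC <;> by_cases hm : m = vC <;>
    simp only [d1, a1, hi, hj, hm, if_true, if_false, ne_eq, not_true, not_false_iff,
      forall_true_left, IsEmpty.forall_iff] at h1 h2 h3 ⊢ <;>
    revert h1 h2 h3 <;> generalize kv i = x <;> generalize kv j = y <;> generalize kv m = w <;>
    revert x y w <;> decide

theorem d1_edge : ∀ (ρ : Fin 4) (n : Fin 18),
    ((km ρ n : ℕ) - (km ρ (n + 1) : ℕ) + 1 : ℤ) / 4 = Dm ρ (n + 1) - Dm ρ n ∧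
    ((km ρ (n + 1) : ℕ) - (km ρ n : ℕ) + 1 : ℤ) / 4 = Dm ρ n - Dm ρ (n + 1) ∧
      km ρ n ≠ km ρ (n + 1) + 2 ∧ km ρ (n + 1) ≠ km ρ n + 2 := by
  decide

/-- The height over the edge of a generator. -/
def ht : VV → ℤ
  | .inl _ => 0
  | .inr (.inl p) => if p.2 then 1 else 0
  | .inr (.inr p) => if p.2.2 = (wd p.1 p.2.1).2 then 1 else 0

/-- A group with elements satisfying the relators up to central elements. -/
structure Pres (G : Type) [Group G] where
  zz : ℤ → G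
  add : ∀ i j, zz (i + j) = zz i * zz j
  comm : ∀ i g, zz i * g = g * zz i
  val : Fin 7 → G
  e0 : val 0 = 1
  rel : ∀ ρ, zz (Dm ρ 18) * Wd val ρ 18 = 1

namespace Pres

variable {G : Type} [Group G] (P : Pres G)

theorem zz_zero : P.zz 0 = 1 := by simpa using P.add 0 0

theorem cancel (a : ℤ) (g g' : G) : P.zz a * g * (P.zz a * g')⁻¹ = g * g'⁻¹ := by
  rw [P.comm a g, P.comm a g', mul_inv_rev, mul_assoc, mul_inv_cancel_left]

/-- The position of a vertex of a polygon. -/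
def pos : VV → G
  | .inr (.inr p) => P.zz (Dm p.1 (p.2.1 + p.2.2.toNat)) * Wd P.val p.1 (p.2.1 + p.2.2.toNat)
  | _ => 1

/-- The label of an ordered pair of vertices. -/
def lab : VV → VV → G
  | .inl false, _ => 1
  | _, .inl false => 1
  | .inr (.inl p), j => P.val p.1 ^ (ht j - ht (.inr (.inl p)))
  | i, .inr (.inl p) => P.val p.1 ^ (ht (.inr (.inl p)) - ht i)
  | i, j => P.zz (-d1 i j vC) * P.pos j * (P.pos i)⁻¹

/-- The faces. -/
def Face (σ : Finset VV) : Prop :=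
  (∀ i ∈ σ, ∀ j ∈ σ, ∀ l ∈ σ, P.lab j l * P.lab i j * P.zz (d1 i j l) = P.lab i l) ∧
    (vC ∈ σ → ∀ l ∈ σ, ∀ l' ∈ σ, l ≠ vC → l' ≠ vC → kv l ≠ kv l' + 2)

theorem lab_o (i : VV) : P.lab i vo = 1 := by
  rcases i with (_ | _) | _ | _ <;> rfl

theorem lab_self (i : VV) : P.lab i i = 1 := by
  rcases i with (_ | _) | _ | _ <;> simp [lab, d1_self, P.zz_zero]

variable {P}

theorem Face.down {σ τ : Finset VV} (h : P.Face σ) (hτ : τ ⊆ σ) : P.Face τ :=
  ⟨fun i hi j hj l hl => h.1 i (hτ hi) j (hτ hj) l (hτ hl),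
    fun hC l hl l' hl' => h.2 (hτ hC) l (hτ hl) l' (hτ hl')⟩

theorem face_ht {σ : Finset VV} (g : G) (hC : vC ∉ σ)
    (hl : ∀ i ∈ σ, ∀ j ∈ σ, P.lab i j = g ^ (ht j - ht i)) : P.Face σ := by
  refine ⟨fun i hi j hj l hl' => ?_, fun h => absurd h hC⟩
  rw [hl j hj l hl', hl i hi j hj, hl i hi l hl', d1_zero (ne_of_mem_of_not_mem hi hC)
    (ne_of_mem_of_not_mem hj hC) (ne_of_mem_of_not_mem hl' hC), P.zz_zero, mul_one, ← zpow_add]
  congr 1
  ring

theorem face_one {i j : VV} (hi : i ≠ vC) (hj : j ≠ vC) (h1 : P.lab i j = 1)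
    (h2 : P.lab j i = 1) : P.Face {vo, i, j} := by
  refine face_ht 1 (by simp [hi.symm, hj.symm]) fun a ha b hb => ?_
  simp only [Finset.mem_insert, Finset.mem_singleton] at ha hb
  rw [one_zpow]
  rcases ha with rfl | rfl | rfl <;> rcases hb with rfl | rfl | rfl <;>
    first | rfl | exact P.lab_o _ | exact P.lab_self _ | assumption

theorem face_cone {ρ : Fin 4} {n n' : Fin 18} {ε ε' : Bool}
    (h1 : kv (vP ρ n ε) ≠ kv (vP ρ n' ε') + 2) (h2 : kv (vP ρ n' ε') ≠ kv (vP ρ n ε) + 2) :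
    P.Face {vC, vP ρ n ε, vP ρ n' ε'} := by
  have h0 : ∀ x : Fin 4, x ≠ x + 2 := by decide
  have hk : ∀ l ∈ ({vC, vP ρ n ε, vP ρ n' ε'} : Finset VV),
      ∀ l' ∈ ({vC, vP ρ n ε, vP ρ n' ε'} : Finset VV), l ≠ vC → l' ≠ vC → kv l ≠ kv l' + 2 := by
    intro a ha b hb
    simp only [Finset.mem_insert, Finset.mem_singleton] at ha hb
    rcases ha with rfl | rfl | rfl <;> rcases hb with rfl | rfl | rfl <;> intro ha hb <;>
      first | exact absurd rfl ha | exact absurd rfl hb | exact h0 _ | assumption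
  have hl : ∀ i ∈ ({vC, vP ρ n ε, vP ρ n' ε'} : Finset VV),
      ∀ j ∈ ({vC, vP ρ n ε, vP ρ n' ε'} : Finset VV),
        P.lab i j = P.zz (-d1 i j vC) * P.pos j * (P.pos i)⁻¹ := by
    intro a ha b hb
    simp only [Finset.mem_insert, Finset.mem_singleton] at ha hb
    rcases ha with rfl | rfl | rfl <;> rcases hb with rfl | rfl | rfl <;> rfl
  refine ⟨fun i hi j hj l hl' => ?_, fun _ => hk⟩
  rw [hl j hj l hl', hl i hi j hj, hl i hi l hl', ← d1_coc (hk i hi j hj) (hk j hj l hl')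
    (hk i hi l hl'), P.add, P.add, ← P.comm, mul_assoc (P.zz (-d1 i j vC)), P.comm (-d1 i j vC)]
  simp only [mul_assoc, inv_mul_cancel_left]
  rw [← P.comm (-d1 i j vC), ← mul_assoc (P.pos l), ← P.comm (-d1 i j vC),
    ← mul_assoc (P.zz (d1 i j l)), P.comm (d1 i j l)]
  simp only [mul_assoc]
  rw [← mul_assoc (P.zz (d1 i j l)), P.comm (d1 i j l), mul_assoc]

theorem lab_edge (ρ : Fin 4) (n : Fin 18) (ε ε' : Bool) :
    P.lab (vP ρ n ε) (vP ρ n ε') = P.val (wd ρ n).1 ^ (ht (vP ρ n ε') - ht (vP ρ n ε)) := by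
  have h1 : P.lab (vP ρ n false) (vP ρ n true) = lt P.val (wd ρ n) := by
    change P.zz (-d1 _ _ _) * (P.zz (Dm ρ (n + 1)) * (_ * Wd P.val ρ n)) *
      (P.zz (Dm ρ n) * Wd P.val ρ n)⁻¹ = _
    rw [d1_cone (by simp) (by simp)]
    change P.zz (-(((km ρ n : ℕ) - (km ρ (n + 1) : ℕ) + 1 : ℤ) / 4)) * _ * _ = _
    rw [(d1_edge ρ n).1, ← mul_assoc, ← P.add, neg_sub, sub_add_cancel, P.cancel]
    simp
  have h2 : P.lab (vP ρ n true) (vP ρ n false) = (lt P.val (wd ρ n))⁻¹ := by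
    change P.zz (-d1 _ _ _) * (P.zz (Dm ρ n) * Wd P.val ρ n) *
      (P.zz (Dm ρ (n + 1)) * (_ * Wd P.val ρ n))⁻¹ = _
    rw [d1_cone (by simp) (by simp)]
    change P.zz (-(((km ρ (n + 1) : ℕ) - (km ρ n : ℕ) + 1 : ℤ) / 4)) * _ * _ = _
    rw [(d1_edge ρ n).2.1, ← mul_assoc, ← P.add, neg_sub, sub_add_cancel, P.cancel]
    simp
  cases ε <;> cases ε' <;> simp only [P.lab_self, sub_self, zpow_zero, h1, h2] <;>
    cases h : (wd ρ n).2 <;> simp [lt, ht, h]

theorem face_edge (ρ : Fin 4) (n : Fin 18) :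
    P.Face {vX (wd ρ n).1 false, vX (wd ρ n).1 true, vP ρ n false, vP ρ n true} := by
  refine face_ht (P.val (wd ρ n).1) (by simp) fun a ha b hb => ?_
  simp only [Finset.mem_insert, Finset.mem_singleton] at ha hb
  rcases ha with rfl | rfl | rfl | rfl <;> rcases hb with rfl | rfl | rfl | rfl <;>
    first | exact lab_edge _ _ _ _ | rfl

theorem face_gen (g : Fin 7) : P.Face {vX g false, vX g true} := by
  refine face_ht (P.val g) (by simp) fun a ha b hb => ?_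
  simp only [Finset.mem_insert, Finset.mem_singleton] at ha hb
  rcases ha with rfl | rfl <;> rcases hb with rfl | rfl <;> rfl

theorem link (ρ : Fin 4) (n : Fin 18) : kv (vP ρ (n + 1) false) = kv (vP ρ n true) ∧
    P.pos (vP ρ (n + 1) false) = P.pos (vP ρ n true) := by
  by_cases h : n = 17
  · subst h
    refine ⟨by revert ρ; decide, ?_⟩
    change P.zz (Dm ρ 0) * 1 = P.zz (Dm ρ 18) * Wd P.val ρ 18
    rw [P.rel, mul_one, ← P.zz_zero]
    simp [Dm]
  · have h1 : ((n + 1 : Fin 18) : ℕ) = n + 1 := by revert n; decide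
    constructor
    · change km ρ ((n + 1 : Fin 18) : ℕ) = km ρ (n + 1)
      rw [h1]
    · change P.zz (Dm ρ ((n + 1 : Fin 18) : ℕ)) * Wd P.val ρ ((n + 1 : Fin 18) : ℕ) =
        P.zz (Dm ρ (n + 1)) * Wd P.val ρ (n + 1)
      rw [h1]

end Pres

theorem z_add {κ : Type} {b : κ} (i j : ℤ) : (Lam.z (i + j) : Lam κ b) = Lam.z i * Lam.z j :=
  Lam.ext (by simp [Lam.z]) (by simp [Lam.z])

theorem z_comm {κ : Type} {b : κ} (i : ℤ) (g : Lam κ b) : Lam.z i * g = g * Lam.z i :=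
  Lam.ext (by simp [Lam.z]) (by simp [Lam.z, add_comm])

theorem z_zero {κ : Type} {b : κ} : (Lam.z 0 : Lam κ b) = 1 := rfl

theorem lam_comm {κ : Type} {b : κ} (α β γ : Lam κ b) :
    β⁻¹ * α⁻¹ * β * α * γ = γ * (β⁻¹ * α⁻¹ * β * α) :=
  Lam.ext (by simp [add_comm]) (by simp; ring)

theorem dl_eq {X : Cx VV} (hC : X.C = vC) (hk : X.k = kv) : X.dl = d1 := by
  funext i j l
  simp only [Cx.dl, Cx.a0, hC, hk, d1, a1]

theorem ne_of {G : Type} [Group G] (P : Pres G) (X : Cx VV) (ho : X.o = vo) (hC : X.C = vC)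
    (hk : X.k = kv) (hF : X.Face = P.Face) : X.NEgrp := by
  intro S S' _ F E c e he _ hfin hE hEo hc3 hinj hcone
  rw [ho] at hEo
  simp only [hC, hF, dl_eq hC hk] at hE hEo hc3 hinj hcone
  have one : ∀ {i j : VV}, i ≠ vC → j ≠ vC → P.lab i j = 1 → P.lab j i = 1 → E i j = 1 :=
    fun {i j} hi hj h1 h2 => by
      have h3 := hc3 vo i j (by simp) hi hj (Pres.face_one hi hj h1 h2)
      rwa [hEo i hi, hEo j hj, mul_one] at h3
  let φ : Fin 7 → Hs X.Λ F := fun g =>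
    ⟨E (vX g false) (vX g true), hE _ _ (by simp) (by simp) (Pres.face_gen g)⟩
  have h0 : φ 0 = 1 := Subtype.ext (one (by simp) (by simp) (by simp [Pres.lab, P.e0])
    (by simp [Pres.lab, P.e0]))
  have edge : ∀ ρ n, E (vP ρ n false) (vP ρ n true) = (lt φ (wd ρ n)).1 := fun ρ n => by
    have h1 : ∀ i j l : VV, i ≠ vC → j ≠ vC → l ≠ vC → ({i, j, l} : Finset VV) ⊆
        {vX (wd ρ n).1 false, vX (wd ρ n).1 true, vP ρ n false, vP ρ n true} →
        E j l * E i j = E i l :=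
      fun i j l hi hj hl h => hc3 i j l hi hj hl ((Pres.face_edge ρ n).down h)
    have h2 : ∀ ε ε', ht (vP ρ n ε') = ht (vX (wd ρ n).1 ε) →
        E (vX (wd ρ n).1 ε) (vP ρ n ε') = 1 := fun ε ε' h =>
      one (by simp) (by simp) (by simp [Pres.lab, h]) (by simp [Pres.lab, h])
    cases h : (wd ρ n).2
    · have h3 := h1 (vX (wd ρ n).1 true) (vP ρ n false) (vP ρ n true) (by simp) (by simp) (by simp)
        (by simp)
      have h4 := h1 (vX (wd ρ n).1 false) (vX (wd ρ n).1 true) (vP ρ n true) (by simp) (by simp)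
        (by simp) (by simp [Finset.insert_subset_iff])
      rw [h2 true false (by simp [ht, h]), mul_one] at h3
      rw [h2 false true (by simp [ht, h]), ← h3] at h4
      simp only [lt, h, Bool.false_eq_true, if_false]
      exact eq_inv_of_mul_eq_one_left h4
    · have h3 := h1 (vX (wd ρ n).1 false) (vP ρ n false) (vP ρ n true) (by simp) (by simp) (by simp)
        (by simp [Finset.insert_subset_iff])
      have h4 := h1 (vX (wd ρ n).1 false) (vX (wd ρ n).1 true) (vP ρ n true) (by simp) (by simp)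
        (by simp) (by simp [Finset.insert_subset_iff])
      rw [h2 false false (by simp [ht, h]), mul_one] at h3
      rw [h2 true true (by simp [ht, h]), one_mul, ← h3] at h4
      simp only [lt, h, if_true]
      exact h4.symm
  have step : ∀ ρ (n : Fin 18) σ, c (vP ρ (n + 1) false) ((lt φ (wd ρ n)).1 σ) =
      c (vP ρ n false) ((Lam.z (e * (Dm ρ (n + 1) - Dm ρ n)) : X.Λ) • σ) := fun ρ n σ => by
    have h0 : ∀ x : Fin 4, x ≠ x + 2 := by decide
    obtain ⟨h1, h2⟩ := P.link ρ n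
    have h3 : ∀ {i j : VV}, i ≠ vC → j ≠ vC → kv i = kv j → d1 i j vC = 0 :=
      fun hi hj h => by simp [d1_cone hi hj, h]
    have h4 := hcone (vP ρ n true) (vP ρ (n + 1) false) (by simp) (by simp)
      (Pres.face_cone (h1 ▸ h0 _) (h1 ▸ h0 _)) ((lt φ (wd ρ n)).1 σ)
    have h5 := hcone (vP ρ n false) (vP ρ n true) (by simp) (by simp)
      (Pres.face_cone (d1_edge ρ n).2.2.1 (d1_edge ρ n).2.2.2) σ
    have h6 : E (vP ρ n true) (vP ρ (n + 1) false) = 1 := by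
      refine one (by simp) (by simp) ?_ ?_
      · change P.zz (-d1 _ _ _) * _ * _ = 1
        rw [h3 (by simp) (by simp) h1.symm, h2, neg_zero, P.zz_zero, one_mul, mul_inv_cancel]
      · change P.zz (-d1 _ _ _) * _ * _ = 1
        rw [h3 (by simp) (by simp) h1, h2, neg_zero, P.zz_zero, one_mul, mul_inv_cancel]
    rw [h6, h3 (by simp) (by simp) h1.symm, mul_zero, z_zero, one_smul, Perm.one_apply] at h4
    rw [h4, ← edge, h5, d1_cone (by simp) (by simp), ← (d1_edge ρ n).1]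
    rfl
  have round : ∀ ρ (m : ℕ), m ≤ 18 → ∀ σ, c (vP ρ (Fin.ofNat 18 m) false) ((Wd φ ρ m).1 σ) =
      c (vP ρ 0 false) ((Lam.z (e * Dm ρ m) : X.Λ) • σ) := fun ρ m => by
    induction m with
    | zero => exact fun _ σ => by simp [Wd, Dm, z_zero]
    | succ m ih =>
      intro hm σ
      have h1 : Fin.ofNat 18 (m + 1) = ⟨m, hm⟩ + 1 := Fin.ext (by simp [Fin.val_add])
      have h2 : Fin.ofNat 18 m = ⟨m, hm⟩ := Fin.ext (by simp; omega)
      have h3 := step ρ ⟨m, hm⟩ ((Wd φ ρ m).1 σ)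
      rw [← (Wd φ ρ m).2.1, ← h2, ih (by omega), ← mul_smul, ← z_add, h2, ← h1] at h3
      refine h3.trans ?_
      congr 3
      ring
  have full : ∀ ρ σ, (Wd φ ρ 18).1 σ = (Lam.z (e * Dm ρ 18) : X.Λ) • σ := fun ρ σ => by
    have h0 : ∀ x : Fin 4, x ≠ x + 2 := by decide
    refine hinj (vP ρ 0 false) (by simp) ?_ (round ρ 18 le_rfl σ)
    exact (Pres.face_cone (ρ := ρ) (n := 0) (ε := false) (h0 _) (h0 _)).down (by simp)
  have rel : ∀ ρ, ρ ≠ 3 → Wd φ ρ 18 = 1 := fun ρ hρ =>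
    Subtype.ext (Equiv.ext fun σ => by simp [full, Dm, hρ, z_zero])
  obtain ⟨w0, w1, w2, w3⟩ := Wd_eval φ h0
  rw [rel _ (by decide), eq_comm, mul_inv_eq_one] at w0 w1 w2
  intro σ hσ
  have h1 := fix_comm (r := φ 4) (fun σ hσ => fix_a lam_comm hfin w0 w1 hσ) w2 hσ
  rw [← w3, full] at h1
  rcases he with rfl | rfl
  · exact h1
  · conv_lhs => rw [← h1, ← mul_smul, ← z_add]
    exact one_smul _ σ

/-- The embedding of the Heisenberg group. -/
def emb {κ : Type} (b : κ) : Lam Unit () →* Lam κ b where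
  toFun l := ⟨fun _ c => if c = 2 then 0 else l.m () c, l.j⟩
  map_one' := Lam.ext (by funext _ c; simp) rfl
  map_mul' l a := Lam.ext (by funext _ c; by_cases h : c = 2 <;> simp [h]) (by simp)

theorem emb_z {κ : Type} (b : κ) (j : ℤ) : emb b (Lam.z j) = Lam.z j :=
  Lam.ext (by funext _ c; simp [emb, Lam.z]) rfl

theorem iso_of (P : Pres (G0 (Lam Unit ()))) (hz : ∀ j, P.zz j = cst (Lam.z j)) (X : Cx VV)
    (hC : X.C = vC) (hk : X.k = kv) (hF : X.Face = P.Face) : Nonempty (X.IsoData (Option Om)) := by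
  refine ⟨⟨none,
    fun ε i j s => if ε then (P.lab i j).1.1.π s else s.map (P.lab i j).1.2.π,
    fun ε i j s => emb X.b₀ (if ε then (P.lab i j).1.1.c s else s.elim 1 (P.lab i j).1.2.c),
    fun i j s hs => by simpa using hs, fun ε i s _ hs => ?_, fun ε i j l s h hs => ?_, ?_,
    fun ε i j s => by simp [emb]⟩⟩
  · rw [P.lab_self]
    cases ε <;> cases s <;> simp
  · rw [hF] at h
    rw [dl_eq hC hk, ← h.1 i (by simp) j (by simp) l (by simp), hz, ← emb_z X.b₀, ← map_mul,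
      ← map_mul]
    cases ε
    · cases s with
      | none => exact absurd rfl (hs rfl)
      | some s => exact ⟨rfl, rfl⟩
    · exact ⟨rfl, rfl⟩
  · refine ((Set.finite_singleton none).union (Set.finite_iUnion fun i => Set.finite_iUnion fun j =>
      (Filter.eventually_cofinite.1 (P.lab i j).2).image some)).subset ?_
    rintro (_ | s) ⟨i, j, h⟩
    · simp
    · refine Or.inr (Set.mem_iUnion.2 ⟨i, Set.mem_iUnion.2 ⟨j, s, fun h' => ?_, rfl⟩⟩)
      simp [h'.1, h'.2] at h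

theorem exists_pres : ∃ P : Pres (G0 (Lam Unit ())), ∀ j, P.zz j = cst (Lam.z j) := by
  obtain ⟨a, b, t, r, q, u, h1, h2, h3, h4⟩ := exists_gens (H := Lam Unit ())
    (x := ⟨fun _ => ![1, 0, 0], 0⟩) (y := ⟨fun _ => ![0, 1, 0], 0⟩) z_add z_comm
    (Lam.ext (by simp [Lam.z, add_comm]) (by simp [Lam.z]))
  refine ⟨⟨fun j => cst (Lam.z j), fun i j => by rw [z_add, cst_mul],
    fun i => cst_comm (z_comm i), ![1, a, b, t, r, q, u], rfl, fun ρ => ?_⟩, fun _ => rfl⟩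
  obtain ⟨w0, w1, w2, w3⟩ := Wd_eval ![1, a, b, t, r, q, u] rfl
  have h0 : (cst (Lam.z 0) : G0 (Lam Unit ())) = 1 := rfl
  fin_cases ρ
  · exact (congrArg₂ (· * ·) h0 w0).trans ((one_mul _).trans (mul_inv_eq_one.2 h1))
  · exact (congrArg₂ (· * ·) h0 w1).trans ((one_mul _).trans (mul_inv_eq_one.2 h2))
  · exact (congrArg₂ (· * ·) h0 w2).trans ((one_mul _).trans (mul_inv_eq_one.2 h3))
  · refine (congrArg (cst (Lam.z 1) * ·) w3).trans ?_
    change cst (Lam.z 1) * (u * hh a r q * u⁻¹ * (hh a r q)⁻¹) = 1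
    rw [h4, mul_inv_cancel_right, mul_inv_cancel_right, ← cst_mul, ← z_add]
    rfl

theorem exists_par (N : ℕ) : ∃ η η₀ d ρ : ℝ, 0 < η₀ ∧ 0 < d ∧ 0 < ρ ∧ 4 * N * η ≤ 1 ∧
    2 * (N : ℝ) ^ 2 * η₀ ≤ η ∧ d ^ 2 < η₀ ^ N ∧ 8 * (2 ^ N + 1) * ρ ^ 2 ≤ d ^ 2 ∧
      4 * ρ ^ 2 ≤ η := by
  obtain ⟨η, h1, h2⟩ : ∃ η : ℝ, 0 < η ∧ 4 * (N + 1) * η = 1 :=
    ⟨1 / (4 * (N + 1)), by positivity, by field_simp⟩
  obtain ⟨η₀, h3, h4⟩ : ∃ η₀ : ℝ, 0 < η₀ ∧ 2 * (N ^ 2 + 1) * η₀ = η :=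
    ⟨η / (2 * (N ^ 2 + 1)), by positivity, by field_simp⟩
  have h5 : 0 < η₀ ^ N := by positivity
  have h6 : (0 : ℝ) < 8 * (2 ^ N + 1) := by positivity
  refine ⟨η, η₀, √(η₀ ^ N / 2), √(min (η₀ ^ N / 2 / (8 * (2 ^ N + 1))) (η / 4)), h3,
    by positivity, by positivity, by linarith, by linarith, ?_, ?_, ?_⟩
  · rw [Real.sq_sqrt (by positivity)]
    linarith
  · rw [Real.sq_sqrt (by positivity), Real.sq_sqrt (by positivity), mul_comm, ← le_div_iff₀ h6]
    exact min_le_left _ _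
  · rw [Real.sq_sqrt (by positivity)]
    linarith [min_le_right (η₀ ^ N / 2 / (8 * (2 ^ N + 1))) (η / 4)]

end Alg

open Alg in
theorem exists_cx : ∃ (V : Type) (_ : Fintype V) (_ : DecidableEq V) (X : Cx V) (S : Type)
    (_ : Countable S), X.NEgrp ∧ Nonempty (X.IsoData S) := by
  obtain ⟨P, hP⟩ := exists_pres
  obtain ⟨η, η₀, d, ρ, h1, h2, h3, h4, h5, h6, h7, h8⟩ := exists_par (Fintype.card VV)
  let X : Cx VV := ⟨vo, vC, by simp, P.Face, Pres.Face.down,
    fun i hi => (Pres.face_one hi hi (P.lab_self i) (P.lab_self i)).down (by simp), kv,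
    fun l l' hl hl' h => h.2 (by simp) l (by simp) l' (by simp) hl hl', η, η₀, d, ρ, h1, h2, h3,
    h4, h5, h6, h7, h8⟩
  exact ⟨VV, _, _, X, Option Om, inferInstance, ne_of P X rfl rfl rfl rfl,
    iso_of P hP X rfl rfl rfl⟩

end Pool.Agent.Lib.MP_4b70aa_gt
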