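import Pool.Agent.Lib.MP_4b70aa_gt.Kit

-- part Pool.Agent.Lib.MP_4b70aa_gt.Bridge
section

set_option autoImplicit false
set_option linter.unusedSectionVars false

open MeasureTheory Filter Set Topology
open scoped Manifold ContDiff Bundle

namespace Pool.Agent.Lib.MP_4b70aa_gt

theorem norm_sub_sq_angle {V : Type} [NormedAddCommGroup V] [InnerProductSpace ℝ V] {x y : V}
    (hx : ‖x‖ = 1) (hy : ‖y‖ = 1) :
    ‖x - y‖ ^ 2 = 2 - 2 * Real.cos (InnerProductGeometry.angle x y) := by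
  rw [norm_sub_sq_real, InnerProductGeometry.cos_angle, hx, hy]; ring

theorem chord_le_angle {V : Type} [NormedAddCommGroup V] [InnerProductSpace ℝ V] {x y : V}
    (hx : ‖x‖ = 1) (hy : ‖y‖ = 1) : ‖x - y‖ ≤ InnerProductGeometry.angle x y := by
  refine (pow_le_pow_iff_left₀ (norm_nonneg _) (InnerProductGeometry.angle_nonneg _ _)
    two_ne_zero).1 ?_
  rw [norm_sub_sq_angle hx hy]
  linarith [Real.one_sub_sq_div_two_le_cos (x := InnerProductGeometry.angle x y)]

theorem angle_le_chord {V : Type} [NormedAddCommGroup V] [InnerProductSpace ℝ V] {x y : V}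
    (hx : ‖x‖ = 1) (hy : ‖y‖ = 1) : InnerProductGeometry.angle x y ≤ 2 * ‖x - y‖ := by
  refine (pow_le_pow_iff_left₀ (InnerProductGeometry.angle_nonneg _ _) (by positivity)
    two_ne_zero).1 ?_
  rw [mul_pow, norm_sub_sq_angle hx hy]
  have h1 := Real.cos_le_one_sub_mul_cos_sq (x := InnerProductGeometry.angle x y)
    (by rw [abs_of_nonneg (InnerProductGeometry.angle_nonneg _ _)]
        exact InnerProductGeometry.angle_le_pi _ _)
  have h2 : 1 / 8 ≤ 2 / Real.pi ^ 2 := by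
    rw [div_le_div_iff₀ (by norm_num) (by positivity)]
    nlinarith [Real.pi_le_four, Real.pi_pos]
  nlinarith [sq_nonneg (InnerProductGeometry.angle x y)]

theorem lift_convex {Y X V : Type} [TopologicalSpace Y] [TopologicalSpace X] [AddCommGroup V]
    [Module ℝ V] [TopologicalSpace V] [IsTopologicalAddGroup V] [ContinuousSMul ℝ V] {p : Y → X}
    (hp : IsCoveringMap p) {Q : Set V} (hQ : Convex ℝ Q) {J : V → X} (hJ : ContinuousOn J Q)
    {q₀ : V} (hq : q₀ ∈ Q) {y₀ : Y} (h : p y₀ = J q₀) :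
    ∃ s : V → Y, ContinuousOn s Q ∧ (∀ q ∈ Q, p (s q) = J q) ∧ s q₀ = y₀ := by
  classical
  let H : C(unitInterval × Q, X) := ⟨fun z => J (q₀ + (z.1 : ℝ) • ((z.2 : V) - q₀)),
    hJ.comp_continuous (by fun_prop) fun z => hQ.add_smul_sub_mem hq z.2.2 z.1.2⟩
  have H0 : ∀ a : Q, H (0, a) = p (ContinuousMap.const Q y₀ a) := fun a => by simp [H, h]
  let G := hp.liftHomotopy H (ContinuousMap.const Q y₀) H0
  have hG : ∀ z, p (G z) = H z := congrFun (hp.liftHomotopy_lifts H _ H0)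
  refine ⟨fun q => if hq : q ∈ Q then G (1, ⟨q, hq⟩) else y₀, ?_, fun q hq => ?_, ?_⟩
  · rw [continuousOn_iff_continuous_domRestrict]
    refine Continuous.congr (f := fun q : Q => G (1, q)) (by fun_prop) fun q => ?_
    simp [q.2]
  · simp [hq, hG, H]
  · simp only [hq, dif_pos]
    rw [← hp.const_of_comp (g := fun t => G (t, ⟨q₀, hq⟩)) (by fun_prop)
      (fun t t' => by simp [hG, H]) 0 1]
    exact hp.liftHomotopy_zero H _ H0 _

variable {n : ℕ} {A W : Type} [NormedAddCommGroup A] [NormedSpace ℝ A] [FiniteDimensional ℝ A]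
  [NormedAddCommGroup W] [NormedSpace ℝ W] [FiniteDimensional ℝ W] {L : Lev n A W}

theorem sys_atlas (Y : ORM n) : Sys (atlas (E n) Y.X) := by
  refine ⟨fun y => ⟨_, chart_mem_atlas _ y, mem_chart_source _ y⟩, fun e he e' he' y hy hy' => ?_,
    fun e he e' he' y hy hy' => Y.oriented e he e' he' y ⟨hy, hy'⟩⟩
  have h1 : ContMDiffAt (𝓡 n) (𝓡 n) ∞ e' (e.symm (e y)) :=
    contMDiffAt_of_mem_maximalAtlas (IsManifold.subset_maximalAtlas he') (by rwa [e.left_inv hy])
  exact (contMDiffAt_iff_contDiffAt.1 (h1.comp _ (contMDiffAt_symm_of_mem_maximalAtlas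
    (IsManifold.subset_maximalAtlas he) (e.map_source hy)))).of_le (by simp)

/-- The Euclidean structure on the ambient space. -/
noncomputable def amb (A : Type) [NormedAddCommGroup A] [NormedSpace ℝ A] [FiniteDimensional ℝ A] :
    A →L[ℝ] EuclideanSpace ℝ (Fin (Module.finrank ℝ A)) := (toEuclidean (E := A) : A →L[ℝ] _)

/-- `p` is a local homeomorphism onto the level set inducing the metric. -/
structure Isom (L : Lev n A W) (Y : ORM n) (p : Y.X → L.Z) : Prop where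
  loc : IsLocalHomeomorph p
  smooth : ContMDiff (𝓡 n) 𝓘(ℝ, A) ∞ fun y => (p y : A)
  inner : ∀ y u v, Y.g.inner y u v =
    inner ℝ (amb A (mfderiv (𝓡 n) 𝓘(ℝ, A) (fun y => (p y : A)) y u))
      (amb A (mfderiv (𝓡 n) 𝓘(ℝ, A) (fun y => (p y : A)) y v))

theorem Isom.good_smooth {Y : ORM n} {p : Y.X → L.Z} (h : Isom L Y p) {e : Ch Y.X (E n)}
    (he : e ∈ L.Good p) {y : Y.X} (hy : y ∈ e.source) : ContMDiffAt (𝓡 n) (𝓡 n) ∞ e y := by
  obtain ⟨q, he⟩ := he
  refine (q.contMDiff.contMDiffAt.comp y (h.smooth y)).congr_of_eventuallyEq ?_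
  filter_upwards [e.open_source.mem_nhds hy] with z hz using he.eq z hz

theorem Isom.good_symm {Y : ORM n} {p : Y.X → L.Z} (h : Isom L Y p) {e : Ch Y.X (E n)}
    (he : e ∈ L.Good p) {y : Y.X} (hy : y ∈ e.source) :
    ContMDiffAt (𝓡 n) (𝓡 n) ∞ e.symm (e y) := by
  have h1 := h.good_smooth he hy
  obtain ⟨q, he⟩ := he
  set c := chartAt (E n) y with hc
  have hyc : y ∈ c.source := mem_chart_source _ y
  have hcs : ContMDiffAt (𝓡 n) (𝓡 n) ∞ c.symm (c y) :=
    contMDiffAt_symm_of_mem_maximalAtlas (IsManifold.chart_mem_maximalAtlas y) (c.map_source hyc)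
  have h2 : ContDiffAt ℝ ∞ (e ∘ c.symm) (c y) := contMDiffAt_iff_contDiffAt.1
    (ContMDiffAt.comp_of_eq h1 hcs (c.left_inv hyc))
  have h3 : ContDiffAt ℝ ∞ ((fun y => (p y : A)) ∘ c.symm) (c y) := contMDiffAt_iff_contDiffAt.1
    (ContMDiffAt.comp_of_eq (h.smooth y) hcs (c.left_inv hyc))
  set D := fderiv ℝ ((fun y => (p y : A)) ∘ c.symm) (c y) with hD
  have hDm : mfderiv (𝓡 n) 𝓘(ℝ, A) (fun y => (p y : A)) y = D := by
    rw [((h.smooth y).mdifferentiableAt (by simp)).mfderiv]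
    simp [hD, hc, writtenInExtChartAt, extChartAt]
  have h4 : fderiv ℝ (e ∘ c.symm) (c y) = q.comp D := by
    have : (e ∘ c.symm) =ᶠ[𝓝 (c y)] q ∘ (fun y => (p y : A)) ∘ c.symm := by
      filter_upwards [eventually_chart hyc (e.open_source.mem_nhds hy)] with x hx using he.eq _ hx
    rw [this.fderiv_eq]
    exact (q.hasFDerivAt.comp _ (h3.differentiableAt (by simp)).hasFDerivAt).fderiv
  have h5 : ∀ a, fderiv ℝ L.F (p y) (D a) = 0 := by
    intro a
    have h0 : HasFDerivAt L.F (fderiv ℝ L.F (p y)) (((fun y => (p y : A)) ∘ c.symm) (c y)) := by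
      simp only [Function.comp, c.left_inv hyc]
      exact ((L.smooth _ (p y).2.1).differentiableAt (by simp)).hasFDerivAt
    have h6 := (h0.comp _ (h3.differentiableAt (by simp)).hasFDerivAt).fderiv
    have h7 : (L.F ∘ (fun y => (p y : A)) ∘ c.symm) = fun _ => 0 := funext fun x => (p _).2.2
    rw [h7, fderiv_fun_const] at h6
    exact (congrArg (fun T => T a) h6).symm
  have h6 : Function.Injective (q.comp D) := by
    rw [injective_iff_map_eq_zero]
    intro a ha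
    by_contra h0
    have h7 := Y.g.pos y a h0
    have h8 : D a = 0 := Lev.sgn_inj (he.pos y hy).ne' ha (h5 a)
    rw [h.inner, hDm] at h7
    change 0 < Inner.inner ℝ (amb A (D a)) (amb A (D a)) at h7
    simp [h8] at h7
  set T : E n ≃L[ℝ] E n := (LinearEquiv.ofInjectiveEndo (q.comp D : E n →L[ℝ] E n).toLinearMap
    h6).toContinuousLinearEquiv with hT
  have hm : e y ∈ (c.symm.trans e).target := ⟨e.map_source hy, by simpa [e.left_inv hy] using hyc⟩
  have hs : (c.symm.trans e).symm (e y) = c y := by simp [e.left_inv hy]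
  have h7 := (c.symm.trans e).contDiffAt_symm (𝕜 := ℝ) (n := ∞) (f₀' := T) hm (by
    rw [hs]
    have := (h2.differentiableAt (by simp)).hasFDerivAt
    rw [h4] at this
    exact this) (hs ▸ h2)
  refine (ContMDiffAt.comp_of_eq hcs (contMDiffAt_iff_contDiffAt.2 h7) hs).congr_of_eventuallyEq ?_
  filter_upwards [eventually_chart hy (c.open_source.mem_nhds hyc)] with x hx
  simp [c.left_inv hx]

theorem Isom.contMDiffAt {Y : ORM n} {p : Y.X → L.Z} (h : Isom L Y p) {E' H N : Type}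
    [NormedAddCommGroup E'] [NormedSpace ℝ E'] [TopologicalSpace H] {I : ModelWithCorners ℝ E' H}
    [TopologicalSpace N] [ChartedSpace H N] {γ : N → Y.X} {t : N} {k : WithTop ℕ∞} (hk : k ≤ ∞)
    (hγ : ContinuousAt γ t) (h' : ContMDiffAt I 𝓘(ℝ, A) k (fun s => (p (γ s) : A)) t) :
    ContMDiffAt I (𝓡 n) k γ t := by
  obtain ⟨e, he, hy⟩ := Lev.exists_chart h.loc (γ t)
  have h1 := (h.good_symm he hy).of_le hk
  obtain ⟨q, he⟩ := he
  refine (ContMDiffAt.comp_of_eq h1 (q.contMDiff.contMDiffAt.comp t h')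
    (he.eq _ hy).symm).congr_of_eventuallyEq ?_
  filter_upwards [hγ.eventually (e.open_source.mem_nhds hy)] with s hs
  simp [← he.eq _ hs, e.left_inv hs]

theorem Isom.comp {Y X : ORM n} {p : X.X → L.Z} (h : Isom L X p) {r : Y.X → X.X}
    (hr : IsLocalHomeomorph r) (hi : LocalIsometry Y X r) : Isom L Y (p ∘ r) := by
  refine ⟨h.loc.comp hr, h.smooth.comp hi.1, fun y u v => ?_⟩
  have := mfderiv_comp (I' := 𝓡 n) y ((h.smooth (r y)).mdifferentiableAt (by simp))
    ((hi.1 y).mdifferentiableAt (by simp))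
  exact (hi.2 y u v).symm.trans ((h.inner _ _ _).trans
    (congrArg (fun T => Inner.inner ℝ (amb A (T u)) (amb A (T v))) this).symm)

theorem Isom.localIsometry {Y X : ORM n} {p : X.X → L.Z} (h : Isom L X p) {r : Y.X → X.X}
    (hr : Continuous r) (h' : Isom L Y (p ∘ r)) : LocalIsometry Y X r := by
  have h1 : ContMDiff (𝓡 n) (𝓡 n) ∞ r := fun y =>
    h.contMDiffAt le_rfl hr.continuousAt (h'.smooth y)
  refine ⟨h1, fun y u v => ?_⟩
  have := mfderiv_comp (I' := 𝓡 n) y ((h.smooth (r y)).mdifferentiableAt (by simp))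
    ((h1 y).mdifferentiableAt (by simp))
  exact (h.inner _ _ _).trans ((congrArg (fun T => Inner.inner ℝ (amb A (T u)) (amb A (T v)))
    this).symm.trans (h'.inner y u v).symm)

theorem Isom.exists_sign {Y : ORM n} {p : Y.X → L.Z} (h : Isom L Y p) :
    ∃ s : ℝ, (s = 1 ∨ s = -1) ∧ ∀ e ∈ L.Good p, ∀ c ∈ atlas (E n) Y.X, Compat s e c := by
  refine MP_4b70aa_gt.exists_sign (Lev.sys h.loc) (sys_atlas Y) fun e he c hc y hy hy' => ⟨?_, ?_⟩
  · exact (contMDiffAt_iff_contDiffAt.1 (ContMDiffAt.comp_of_eq (contMDiffAt_of_mem_maximalAtlas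
      (IsManifold.subset_maximalAtlas hc) hy') (h.good_symm he hy) (e.left_inv hy))).of_le (by simp)
  · exact (contMDiffAt_iff_contDiffAt.1 (ContMDiffAt.comp_of_eq (h.good_smooth he hy)
      (contMDiffAt_symm_of_mem_maximalAtlas (IsManifold.subset_maximalAtlas hc) (c.map_source hy'))
      (c.left_inv hy'))).differentiableAt (by simp)

theorem dens_closure {Y : ORM n} {p : Y.X → L.Z} {f : Y.X → Sph n}
    (hf : ∀ y, AL p (fun y => (f y : E (n + 1))) y) {K : Set Y.X} (hK : IsCompact K)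
    (hout : ∀ x, x ∉ K → f x = pt n) :
    Dens volume (L.Good p) (Jd fun y => (f y : E (n + 1))) (closure {y | f y ≠ pt n}) := by
  refine ⟨law_Jd _, fun e he => tame_Jd (Lev.locLip hf) he, fun e _ y hy hy' => ?_,
    hK.of_isClosed_subset isClosed_closure (closure_minimal
      (fun y hy => by_contra fun h => hy (hout y h)) hK.isClosed)⟩
  refine Jd_const L.hn hy (c := pt n) ?_
  filter_upwards [isClosed_closure.isOpen_compl.mem_nhds hy'] with z hz
  exact congrArg Subtype.val (by_contra fun h => hz (subset_closure h))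

theorem Isom.int_ne_zero {Y : ORM n} {p : Y.X → L.Z} (h : Isom L Y p) {f : Y.X → Sph n}
    (hf : ∀ y, AL p (fun y => (f y : E (n + 1))) y) {K : Set Y.X} (hK : IsCompact K)
    (hout : ∀ x, x ∉ K → f x = pt n) (hd : NonzeroDegree Y f) :
    Int volume (L.Good p) (Jd fun y => (f y : E (n + 1))) ≠ 0 := by
  obtain ⟨m, c, ρ, h1, h2, h3⟩ := hd
  obtain ⟨s, hs, hc⟩ := h.exists_sign
  have hF : Fam (closure {y | f y ≠ pt n}) c ρ := ⟨fun i => (h1 i).2.1, fun i => (h1 i).2.2.2,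
    fun y hy => closure_minimal (t := {y | ∑ i, ρ i y = 1}) h2 (isClosed_eq
      (continuous_finsetSum _ fun i _ => (h1 i).2.1) continuous_const) hy⟩
  rw [(dens_closure hf hK hout).int_eq (Lev.sys h.loc) hs hF fun i e he => hc e he _ (h1 i).1]
  exact mul_ne_zero (by rcases hs with h | h <;> simp [h]) h3

theorem Isom.nonzeroDegree {Y : ORM n} {p : Y.X → L.Z} (h : Isom L Y p) {f : Y.X → Sph n}
    (hf : ∀ y, AL p (fun y => (f y : E (n + 1))) y) {K : Set Y.X} (hK : IsCompact K)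
    (hout : ∀ x, x ∉ K → f x = pt n)
    (hd : Int volume (L.Good p) (Jd fun y => (f y : E (n + 1))) ≠ 0) : NonzeroDegree Y f := by
  obtain ⟨s, hs, hc⟩ := h.exists_sign
  have hD := dens_closure hf hK hout
  obtain ⟨m, c, ρ, U, -, hKU, he, hF, -, hρ⟩ := (sys_atlas Y).exists_fam hD.cpt
  rw [hD.int_eq (Lev.sys h.loc) hs (hF.mono hKU) fun i e he' => hc e he' _ (he i)] at hd
  exact ⟨m, c, ρ, fun i => ⟨he i, hF.cont i, hρ i, hF.supp i⟩,
    fun y hy => hF.one y (hKU (subset_closure hy)), right_ne_zero_of_mul hd⟩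

theorem Isom.length {Y : ORM n} {p : Y.X → L.Z} (h : Isom L Y p) {γ : ℝ → Y.X}
    (hγ : ContMDiffOn 𝓘(ℝ, ℝ) (𝓡 n) 1 γ (Icc 0 1)) :
    letI : Bundle.RiemannianBundle (fun x : Y.X => TangentSpace (𝓡 n) x) :=
      ⟨Y.g.toRiemannianMetric⟩
    Manifold.pathELength (𝓡 n) γ 0 1 =
      ∫⁻ t in Icc 0 1, ‖deriv (fun s => amb A (p (γ s))) t‖ₑ := by
  let : Bundle.RiemannianBundle (fun x : Y.X => TangentSpace (𝓡 n) x) :=
    ⟨Y.g.toRiemannianMetric⟩
  rw [Manifold.pathELength_eq_lintegral_mfderiv_Ioo, ← restrict_Ioo_eq_restrict_Icc]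
  refine setLIntegral_congr_fun measurableSet_Ioo fun t ht => ?_
  have h1 : MDifferentiableAt 𝓘(ℝ, ℝ) (𝓡 n) γ t :=
    (hγ.contMDiffAt (Icc_mem_nhds ht.1 ht.2)).mdifferentiableAt one_ne_zero
  have h2 := (((h.smooth (γ t)).mdifferentiableAt (by simp)).hasMFDerivAt.comp t h1.hasMFDerivAt)
  rw [hasMFDerivAt_iff_hasFDerivAt] at h2
  have h3 := ((amb A).hasFDerivAt.comp t h2).hasDerivAt.deriv
  have h4 : deriv (fun s => amb A (p (γ s))) t = amb A (mfderiv (𝓡 n) 𝓘(ℝ, A)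
    (fun y => (p y : A)) (γ t) (mfderiv 𝓘(ℝ, ℝ) (𝓡 n) γ t 1)) := h3
  rw [h4, ← ofReal_norm, ← ofReal_norm, norm_eq_sqrt_real_inner,
    norm_eq_sqrt_real_inner, ← h.inner]
  rfl

theorem local_to_global {F G : Type} [NormedAddCommGroup F] [NormedAddCommGroup G]
    [NormedSpace ℝ G] [CompleteSpace G] {φ : ℝ → F} {ψ : ℝ → G} (hψ : ContDiffOn ℝ 1 ψ (Icc 0 1))
    {c : ℝ} (hc : 0 ≤ c) (h : ∀ t : Icc (0 : ℝ) 1, ∀ᶠ z in 𝓝 t ×ˢ 𝓝 t,
      ‖φ z.1 - φ z.2‖ ≤ c * ‖ψ z.1 - ψ z.2‖) :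
    ‖φ 1 - φ 0‖ₑ ≤ ENNReal.ofReal c * ∫⁻ t in Icc 0 1, ‖deriv ψ t‖ₑ := by
  choose U hU hU' using fun t => mem_prod_self_iff.1 (h t)
  obtain ⟨t, h0, hm, ⟨m, h1⟩, ht⟩ := exists_monotone_Icc_subset_open_cover_Icc zero_le_one
    (c := fun t => interior (U t)) (fun _ => isOpen_interior)
    fun t _ => mem_iUnion.2 ⟨t, mem_interior_iff_mem_nhds.2 (hU t)⟩
  have key : ∀ k, ‖φ (t k) - φ 0‖ₑ ≤ ENNReal.ofReal c * 
      ∫⁻ t in Ioc (0 : ℝ) (t k), ‖deriv ψ t‖ₑ := by
    intro k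
    induction k with
    | zero => simp [h0]
    | succ k ih =>
      obtain ⟨i, hi⟩ := ht k
      have h2 : t k ≤ t (k + 1) := hm (Nat.le_succ k)
      have h3 : ‖φ (t (k + 1)) - φ (t k)‖ ≤ c * ‖ψ (t (k + 1)) - ψ (t k)‖ :=
        hU' i (mk_mem_prod (interior_subset (hi (right_mem_Icc.2 h2)))
          (interior_subset (hi (left_mem_Icc.2 h2))))
      have h4 := enorm_sub_le_lintegral_deriv_of_contDiffOn_Icc
        (hψ.mono (Icc_subset_Icc (t k).2.1 (t (k + 1)).2.2)) h2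
      rw [← restrict_Ioc_eq_restrict_Icc] at h4
      have h5 : ‖φ (t (k + 1)) - φ (t k)‖ₑ ≤ ENNReal.ofReal c *
          ∫⁻ t in Ioc (t k : ℝ) (t (k + 1)), ‖deriv ψ t‖ₑ := by
        refine le_trans ?_ (mul_le_mul_right h4 _)
        rw [← ofReal_norm, ← ofReal_norm, ← ENNReal.ofReal_mul hc]
        exact ENNReal.ofReal_le_ofReal h3
      rw [← Ioc_union_Ioc_eq_Ioc (t k).2.1 h2, lintegral_union measurableSet_Ioc
        (Ioc_disjoint_Ioc_of_le le_rfl), mul_add, ← sub_add_sub_cancel _ (φ (t k)), add_comm]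
      exact (enorm_add_le _ _).trans (add_le_add ih h5)
  have := key m
  rwa [h1 m le_rfl, restrict_Ioc_eq_restrict_Icc] at this

theorem Isom.lipschitz {Y : ORM n} {p : Y.X → L.Z} (h : Isom L Y p) {f : Y.X → Sph n} {c ε : ℝ}
    (hc : 0 ≤ c) (hf : ∀ y, ALipAt p c (fun y => (f y : E (n + 1))) y)
    (hε : 2 * (c * ‖(toEuclidean (E := A)).symm.toContinuousLinearMap‖) ≤ ε) (h0 : 0 < ε) (x y : Y.X) :
    ENNReal.ofReal (InnerProductGeometry.angle (f x : E (n + 1)) (f y : E (n + 1))) ≤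
      ENNReal.ofReal ε * Y.dist x y := by
  let : Bundle.RiemannianBundle (fun x : Y.X => TangentSpace (𝓡 n) x) :=
    ⟨Y.g.toRiemannianMetric⟩
  set c' := c * ‖(toEuclidean (E := A)).symm.toContinuousLinearMap‖ with hc'
  have hc0 : 0 ≤ c' := by positivity
  rw [← ENNReal.div_le_iff' (by simpa using h0) ENNReal.ofReal_ne_top]
  refine le_of_forall_gt_imp_ge_of_dense fun r hr => ?_
  rw [ENNReal.div_le_iff' (by simpa using h0) ENNReal.ofReal_ne_top]
  obtain ⟨γ, h1, h2, h3, h4⟩ := Manifold.exists_lt_of_riemannianEDist_lt hr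
  rw [h.length h3] at h4
  have h5 : ContDiffOn ℝ 1 (fun s => amb A (p (γ s))) (Icc 0 1) :=
    (amb A).contDiff.comp_contDiffOn (contMDiffOn_iff_contDiffOn.1
      ((h.smooth.of_le (by simp)).comp_contMDiffOn h3))
  have h6 := local_to_global (φ := fun s => (f (γ s) : E (n + 1))) h5 hc0 fun t => by
    have h7 : ContinuousAt (fun s : Icc (0 : ℝ) 1 => γ s) t :=
      (continuousOn_iff_continuous_domRestrict.1 h3.continuousOn).continuousAt
    filter_upwards [(h7.tendsto.prodMap h7.tendsto).eventually (hf (γ t))] with z hz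
    rw [← dist_eq_norm]
    refine hz.trans ?_
    rw [hc', mul_assoc, ← map_sub]
    refine mul_le_mul_of_nonneg_left ?_ hc
    refine le_trans ?_ (ContinuousLinearMap.le_opNorm _ _)
    simp [amb, Subtype.dist_eq, dist_eq_norm]
  rw [h1, h2] at h6
  calc _ ≤ ENNReal.ofReal (2 * ‖(f y : E (n + 1)) - f x‖) := by
        rw [norm_sub_rev]
        exact ENNReal.ofReal_le_ofReal (angle_le_chord (by simp) (by simp))
    _ = ENNReal.ofReal 2 * ‖(f y : E (n + 1)) - f x‖ₑ := by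
        rw [ENNReal.ofReal_mul zero_le_two, ofReal_norm]
    _ ≤ ENNReal.ofReal 2 * (ENNReal.ofReal c' * r) :=
        mul_le_mul_right (h6.trans (mul_le_mul_right h4.le _)) _
    _ ≤ _ := by
        rw [← mul_assoc, ← ENNReal.ofReal_mul zero_le_two]
        exact mul_le_mul_left (ENNReal.ofReal_le_ofReal hε) _

/-- Control of the oscillation on small connected sets. -/
def Ctrl {Y X F : Type} [TopologicalSpace Y] [PseudoMetricSpace X] [NormedAddCommGroup F]
    (δ c : ℝ) (p : Y → X) (g : Y → F) : Prop :=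
  ∀ m S, IsPreconnected S → (∀ a ∈ S, p a ∈ Metric.ball m δ) → ∀ a ∈ S, ∀ b ∈ S,
    ‖g a - g b‖ ≤ c * dist (p a) (p b)

theorem exists_ctrl (hZ : IsCompact L.Z) : ∃ δ C : ℝ, 0 < δ ∧ 0 ≤ C ∧
    ∀ (Y : ORM n) (p : Y.X → L.Z), Isom L Y p → IsCoveringMap p → ∀ (ε : ℝ) (f : Y.X → Sph n),
    0 ≤ ε → (∀ x y, ENNReal.ofReal (InnerProductGeometry.angle (f x : E (n + 1))
      (f y : E (n + 1))) ≤ ENNReal.ofReal ε * Y.dist x y) →
    Ctrl δ (ε * C) p fun y => (f y : E (n + 1)) := by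
  have : CompactSpace L.Z := isCompact_iff_compactSpace.1 hZ
  have loc : ∀ m : L.Z, ∃ V : Set L.Z, IsOpen V ∧ m ∈ V ∧ ∃ C : ℝ, 0 ≤ C ∧ ∀ (Y : ORM n)
      (p : Y.X → L.Z), Isom L Y p → IsCoveringMap p → ∀ S, IsPreconnected S → (∀ a ∈ S, p a ∈ V) →
      ∀ a ∈ S, ∀ b ∈ S, Y.dist a b ≤ ENNReal.ofReal (C * dist (p a) (p b)) := by
    intro m
    obtain ⟨c, ⟨q, hc⟩, hm⟩ := Lev.exists_chart_Z m
    obtain ⟨r, hr, hrs⟩ := Metric.nhds_basis_closedBall.mem_iff.1
      (c.open_target.mem_nhds (c.map_source hm))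
    set σ : E n → A := fun x => (c.symm x : A) with hσ
    obtain ⟨B, hB⟩ := (isCompact_closedBall (c m) r).exists_bound_of_continuousOn
      (f := fderiv ℝ σ) fun x hx =>
        ((hc.smooth x (hrs hx)).continuousAt_fderiv (by simp)).continuousWithinAt
    have hB0 : 0 ≤ B := (norm_nonneg _).trans (hB _ (Metric.mem_closedBall_self hr.le))
    refine ⟨c.source ∩ c ⁻¹' Metric.ball (c m) r, c.isOpen_inter_preimage Metric.isOpen_ball,
      ⟨hm, Metric.mem_ball_self hr⟩, ‖amb A‖ * (B * ‖q‖), by positivity,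
      fun Y p h hp S hS hSV a ha b hb => ?_⟩
    let : Bundle.RiemannianBundle (fun x : Y.X => TangentSpace (𝓡 n) x) :=
      ⟨Y.g.toRiemannianMetric⟩
    have hbt : Metric.ball (c m) r ⊆ c.target := Metric.ball_subset_closedBall.trans hrs
    obtain ⟨s, hs, hps, hsa⟩ := lift_convex hp (convex_ball (c m) r)
      (c.continuousOn_symm.mono hbt) (hSV a ha).2 (c.left_inv (hSV a ha).1).symm
    have hsb : s (c (p b)) = b := hp.eqOn_of_comp_eqOn hS (g₁ := fun z => s (c (p z))) (g₂ := id)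
      (hs.comp (c.continuousOn.comp hp.continuous.continuousOn fun z hz => (hSV z hz).1)
        fun z hz => (hSV z hz).2) continuousOn_id
      (fun z hz => (hps _ (hSV z hz).2).trans (c.left_inv (hSV z hz).1)) ha hsa hb
    set ℓ : ℝ → E n := fun t => c (p a) + t • (c (p b) - c (p a)) with hℓ
    have hℓm : ∀ t ∈ Icc (0 : ℝ) 1, ℓ t ∈ Metric.ball (c m) r := fun t ht =>
      (convex_ball _ _).add_smul_sub_mem (hSV a ha).2 (hSV b hb).2 ht
    have hℓc : ContDiff ℝ 1 ℓ := by fun_prop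
    have hev : ∀ t ∈ Icc (0 : ℝ) 1, (fun u => (p (s (ℓ u)) : A)) =ᶠ[𝓝 t] σ ∘ ℓ := by
      intro t ht
      filter_upwards [hℓc.continuous.continuousAt.eventually
        (Metric.isOpen_ball.mem_nhds (hℓm t ht))] with u hu using congrArg Subtype.val (hps _ hu)
    have hσℓ : ∀ t ∈ Icc (0 : ℝ) 1, ContDiffAt ℝ 1 σ (ℓ t) := fun t ht =>
      (hc.smooth _ (hbt (hℓm t ht))).of_le (by simp)
    have hγ : ContMDiffOn 𝓘(ℝ, ℝ) (𝓡 n) 1 (fun t => s (ℓ t)) (Icc 0 1) := fun t ht =>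
      (h.contMDiffAt (by simp) ((hs.continuousAt (Metric.isOpen_ball.mem_nhds (hℓm t ht))).comp
        hℓc.continuous.continuousAt) (contMDiffAt_iff_contDiffAt.2
          (((hσℓ t ht).comp t hℓc.contDiffAt).congr_of_eventuallyEq (hev t ht)))).contMDiffWithinAt
    refine (Manifold.riemannianEDist_le_pathELength hγ (by simp [hℓ, hsa]) (by simp [hℓ, hsb])
      zero_le_one).trans ?_
    rw [h.length hγ]
    refine (setLIntegral_mono' measurableSet_Icc (g := fun _ => ENNReal.ofReal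
      (‖amb A‖ * (B * ‖q‖) * dist (p a) (p b))) fun t ht => ?_).trans (by simp)
    have h1 : HasDerivAt ℓ (c (p b) - c (p a)) t := by
      have := ((hasDerivAt_id t).smul_const (c (p b) - c (p a))).const_add (c (p a))
      rwa [one_smul] at this
    have h2 := ((amb A).hasFDerivAt.comp_hasDerivAt t ((((hσℓ t ht).differentiableAt
      one_ne_zero).hasFDerivAt.comp_hasDerivAt t h1).congr_of_eventuallyEq (hev t ht))).deriv
    rw [show deriv (fun u => amb A (p (s (ℓ u)))) t = _ from h2, ← ofReal_norm]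
    refine ENNReal.ofReal_le_ofReal (((amb A).le_opNorm _).trans ?_)
    rw [mul_assoc, mul_assoc]
    refine mul_le_mul_of_nonneg_left (((fderiv ℝ σ (ℓ t)).le_opNorm _).trans ?_) (norm_nonneg _)
    refine mul_le_mul (hB _ (Metric.ball_subset_closedBall (hℓm t ht))) ?_ (norm_nonneg _) hB0
    rw [hc.eq _ (hSV a ha).1, hc.eq _ (hSV b hb).1, ← map_sub, dist_comm, Subtype.dist_eq,
      dist_eq_norm]
    exact q.le_opNorm _
  choose V hV hm C hC h using loc
  obtain ⟨t, ht⟩ := isCompact_univ.elim_finite_subcover V hV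
    fun m _ => mem_iUnion.2 ⟨m, hm m⟩
  obtain ⟨δ, hδ, hδ'⟩ := lebesgue_number_lemma_of_metric (c := fun i : t => V i) isCompact_univ
    (fun i => hV i) fun x hx => by
      obtain ⟨i, hi, h⟩ := mem_iUnion₂.1 (ht hx)
      exact mem_iUnion.2 ⟨⟨i, hi⟩, h⟩
  refine ⟨δ, ∑ i ∈ t, C i, hδ, Finset.sum_nonneg fun i _ => hC i,
    fun Y p hi hp ε f hε hf m S hS hSm a ha b hb => ?_⟩
  obtain ⟨i, hi'⟩ := hδ' m (mem_univ m)
  have h1 := (hf a b).trans (mul_le_mul_right (h i Y p hi hp S hS (fun z hz => hi' (hSm z hz))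
    a ha b hb) _)
  rw [← ENNReal.ofReal_mul hε, ENNReal.ofReal_le_ofReal_iff
    (mul_nonneg hε (mul_nonneg (hC _) dist_nonneg))] at h1
  refine (chord_le_angle (by simp) (by simp)).trans (h1.trans ?_)
  rw [mul_assoc]
  exact mul_le_mul_of_nonneg_left (mul_le_mul_of_nonneg_right
    (Finset.single_le_sum (fun i _ => hC i) i.2) dist_nonneg) hε

theorem Ctrl.aLipAt {Y X F : Type} [TopologicalSpace Y] [LocallyConnectedSpace Y]
    [PseudoMetricSpace X] [NormedAddCommGroup F] {δ c : ℝ} {p : Y → X} {g : Y → F}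
    (h : Ctrl δ c p g) (hδ : 0 < δ) (hp : Continuous p) (y : Y) : ALipAt p c g y := by
  obtain ⟨S, hS, hS', hSp⟩ := (locallyConnectedSpace_iff_subsets_isOpen_isConnected.1 ‹_›) y _
    (hp.continuousAt.preimage_mem_nhds (Metric.ball_mem_nhds (p y) hδ))
  filter_upwards [ev_prod (hS'.mem_nhds hSp.1)] with z hz
  rw [dist_eq_norm]
  exact h _ S hSp.2.isPreconnected hS _ hz.1 _ hz.2

section orm

variable {Y : Type} [TopologicalSpace Y] {p : Y → L.Z}

/-- The charted space of good charts. -/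
@[reducible] noncomputable def goodCS (hp : IsLocalHomeomorph p) : ChartedSpace (E n) Y where
  atlas := L.Good p
  chartAt y := (Lev.exists_chart hp y).choose
  mem_chart_source y := (Lev.exists_chart hp y).choose_spec.2
  chart_mem_atlas y := (Lev.exists_chart hp y).choose_spec.1

theorem good_mfd (hp : IsLocalHomeomorph p) : letI := goodCS hp; IsManifold (𝓡 n) ∞ Y := by
  let := goodCS hp
  refine isManifold_of_contDiffOn _ _ _ ?_
  rintro e e' ⟨q, he⟩ ⟨q', he'⟩ x hx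
  have h1 : x ∈ e.target ∧ e.symm x ∈ e'.source := by simpa using hx
  have := he.trans_smooth he' (e.map_target h1.1) h1.2
  rw [e.right_inv h1.1] at this
  exact this.contDiffWithinAt

theorem good_smooth (hp : IsLocalHomeomorph p) : letI := goodCS hp
    ContMDiff (𝓡 n) 𝓘(ℝ, A) ∞ fun y => (p y : A) := by
  let := goodCS hp
  intro y
  rw [contMDiffAt_iff_source]
  obtain ⟨q, hq⟩ := chart_mem_atlas (E n) y
  exact (contMDiffAt_iff_contDiffAt.2 (hq.smooth _ (mem_chart_target _ y))).contMDiffWithinAt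

theorem good_mfderiv (hp : IsLocalHomeomorph p) (y : Y) : letI := goodCS hp
    ∃ q : A →L[ℝ] E n, ∀ u, q (mfderiv (𝓡 n) 𝓘(ℝ, A) (fun y => (p y : A)) y u) = u := by
  let := goodCS hp
  obtain ⟨q, hq⟩ := chart_mem_atlas (E n) y
  refine ⟨q, fun u => ?_⟩
  rw [((good_smooth hp y).mdifferentiableAt (by simp)).mfderiv]
  have := hq.proj (mem_chart_source _ y) u
  simp only [writtenInExtChartAt, extChartAt, mfld_simps, fderivWithin_univ]
  exact this

/-- The bilinear form induced by a linear map. -/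
noncomputable def indB (T : E n →L[ℝ] A) : E n →L[ℝ] E n →L[ℝ] ℝ :=
  (innerSL ℝ).bilinearComp ((amb A).comp T) ((amb A).comp T)

theorem indB_apply (T : E n →L[ℝ] A) (u v : E n) :
    indB T u v = inner ℝ (amb A (T u)) (amb A (T v)) := rfl

/-- The induced metric. -/
noncomputable def goodMetric (hp : IsLocalHomeomorph p) : letI := goodCS hp; letI := good_mfd hp
    Bundle.ContMDiffRiemannianMetric (𝓡 n) ∞ (E n) (fun x : Y => TangentSpace (𝓡 n) x) :=
  letI := goodCS hp; letI := good_mfd hp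
  { inner := fun y => indB (A := A) (mfderiv (𝓡 n) 𝓘(ℝ, A) (fun y => (p y : A)) y)
    symm := fun y u v => (indB_apply _ u v).trans ((real_inner_comm _ _).trans
      (indB_apply _ v u).symm)
    pos := fun y u hu => by
      obtain ⟨q, hq⟩ := good_mfderiv hp y
      refine lt_of_lt_of_eq (real_inner_self_pos.2 fun h => hu ?_) (indB_apply _ u u).symm
      exact (hq u).symm.trans ((congrArg q ((toEuclidean (E := A)).map_eq_zero_iff.1 h)).trans
        q.map_zero)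
    isVonNBounded := fun y => by
      obtain ⟨q, hq⟩ := good_mfderiv hp y
      refine ((NormedSpace.isVonNBounded_ball ℝ _ 1).image
        (q.comp (toEuclidean (E := A)).symm.toContinuousLinearMap)).subset fun u hu => ?_
      refine ⟨amb A (mfderiv (𝓡 n) 𝓘(ℝ, A) (fun y => (p y : A)) y u), ?_, ?_⟩
      · rw [mem_ball_zero_iff, norm_eq_sqrt_real_inner, Real.sqrt_lt' one_pos, one_pow]
        exact hu
      · simpa [amb] using hq u
    contMDiff := fun y => by
      rw [Bundle.contMDiffAt_section]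
      have h1 := (good_smooth hp y).mfderiv_const (m := ∞) (by simp)
      have h2 : ContDiff ℝ ∞ (indB : (E n →L[ℝ] A) → _) := by
        rw [contDiff_clm_apply_iff]
        intro u
        rw [contDiff_clm_apply_iff]
        intro v
        exact ContDiff.inner ℝ (f := fun T : E n →L[ℝ] A => amb A (T u))
          (g := fun T : E n →L[ℝ] A => amb A (T v)) (by fun_prop) (by fun_prop)
      refine (h2.contMDiff.contMDiffAt.comp y h1).congr_of_eventuallyEq ?_
      filter_upwards [(chartAt (E n) y).open_source.mem_nhds (mem_chart_source _ y)] with x hx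
      ext u v
      rw [hom_trivializationAt_apply, inCoordinates_apply_eq₂ (by simpa using hx)
        (by simpa using hx) (by simp)]
      simp only [Function.comp, inTangentCoordinates, ContinuousLinearMap.inCoordinates,
        TangentBundle.continuousLinearMapAt_model_space]
      have h3 := fun u => Bundle.Trivialization.symmL_apply (R := ℝ)
        (trivializationAt (E n) (TangentSpace (𝓡 n)) y) (b := x) (by simpa using hx) u
      simp
      rw [← h3, ← h3]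
      rfl }

/-- The manifold defined by good charts. -/
noncomputable def orm [T2Space Y] [SecondCountableTopology Y] [ConnectedSpace Y]
    (hp : IsLocalHomeomorph p) : ORM n :=
  @ORM.mk n Y _ _ _ _ (goodCS hp) (good_mfd hp)
    (fun c hc c' hc' x hx => (Lev.sys hp).pos c hc c' hc' x hx.1 hx.2) (goodMetric hp)

theorem isom_orm [T2Space Y] [SecondCountableTopology Y] [ConnectedSpace Y]
    (hp : IsLocalHomeomorph p) : Isom L (orm hp) p :=
  ⟨hp, good_smooth hp, fun _ _ _ => rfl⟩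

end orm

end Pool.Agent.Lib.MP_4b70aa_gt
end

-- part Pool.Agent.Lib.MP_4b70aa_gt.Red
section

set_option autoImplicit false
set_option linter.unusedSectionVars false

open MeasureTheory Filter Set Topology
open scoped Manifold ContDiff Bundle

namespace Pool.Agent.Lib.MP_4b70aa_gt

variable {n : ℕ} {A W : Type} [NormedAddCommGroup A] [NormedSpace ℝ A] [FiniteDimensional ℝ A]
  [NormedAddCommGroup W] [NormedSpace ℝ W] [FiniteDimensional ℝ W] {L : Lev n A W}

/-- The integral of `χ` times the pulled back volume form. -/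
noncomputable def IJ {Y : Type} [TopologicalSpace Y] (p : Y → L.Z) (χ : Y → ℝ)
    (g : Y → E (n + 1)) : ℝ := Int volume (L.Good p) (mulD χ (Jd g))

theorem IJ_one {Y : Type} [TopologicalSpace Y] (p : Y → L.Z) (g : Y → E (n + 1)) :
    IJ p (fun _ => 1) g = Int volume (L.Good p) (Jd g) := by
  unfold IJ
  congr 1
  ext e x
  simp [mulD]

/-- Standing hypotheses on an integrand. -/
structure Ok {Y : Type} [TopologicalSpace Y] (p : Y → L.Z) (χ : Y → ℝ) (g : Y → E (n + 1))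
    (K : Set Y) : Prop where
  loc : IsLocalHomeomorph p
  al : ∀ y, AL p g y
  cont : Continuous χ
  cpt : IsCompact K
  out : ∀ y ∉ K, χ y = 0 ∨ ∃ c, g =ᶠ[𝓝 y] fun _ => c

theorem Ok.dens {Y : Type} [TopologicalSpace Y] {p : Y → L.Z} {χ : Y → ℝ} {g : Y → E (n + 1)}
    {K : Set Y} (h : Ok p χ g K) : Dens volume (L.Good p) (mulD χ (Jd g)) K :=
  dens_Jd L.hn (Lev.locLip h.al) h.cont h.cpt h.out

theorem Ok.comp {Y Y₀ : Type} [TopologicalSpace Y] [TopologicalSpace Y₀] {p : Y → L.Z}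
    {χ : Y → ℝ} {g : Y → E (n + 1)} {K : Set Y} (h : Ok p χ g K) {j : Y₀ → Y}
    (hj : IsOpenEmbedding j) (hK : IsCompact (j ⁻¹' K)) :
    Ok (p ∘ j) (χ ∘ j) (g ∘ j) (j ⁻¹' K) :=
  ⟨h.loc.comp hj.isLocalHomeomorph, fun y => (h.al (j y)).trans hj.continuous.continuousAt
    (aLipAt_self _ _).al, h.cont.comp hj.continuous, hK, fun y hy => (h.out _ hy).imp id
      fun ⟨c, hc⟩ => ⟨c, hj.continuous.continuousAt.eventually hc⟩⟩

theorem Ok.restrict {Y Y₀ : Type} [TopologicalSpace Y] [TopologicalSpace Y₀] [T2Space Y]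
    {p : Y → L.Z} {χ : Y → ℝ} {g : Y → E (n + 1)} {K : Set Y} (h : Ok p χ g K) {j : Y₀ → Y}
    (hj : IsOpenEmbedding j) (hK : IsCompact (j ⁻¹' K)) :
    IJ (p ∘ j) (χ ∘ j) (g ∘ j) =
      Int volume (L.Good p) (mulD ((range j).indicator 1) (mulD χ (Jd g))) := by
  have : T2Space Y₀ := hj.isEmbedding.t2Space
  have h1 := h.dens.indicator hj.isOpen_range
  refine int_transport (Lev.sys h.loc) (Lev.sys (h.comp hj hK).loc) hj
    (fun e he => Lev.good_lift hj he) (h.comp hj hK).dens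
    ⟨h1.law, h1.tame, fun e he y hy hy' => ?_, hK.image hj.continuous⟩ fun e _ => ?_
  · by_cases hr : y ∈ range j
    · exact h1.van e he y hy fun h => hy' (by rw [image_preimage_eq_inter_range]; exact ⟨h, hr⟩)
    · simp [mulD, e.left_inv hy, hr]
  · ext x
    simp only [mulD, OpenPartialHomeomorph.lift_openEmbedding_symm, Function.comp,
      indicator_of_mem (mem_range_self _), Pi.one_apply, one_mul]
    rfl

theorem Ok.homeo {Y Y₀ : Type} [TopologicalSpace Y] [TopologicalSpace Y₀] [T2Space Y]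
    {p : Y → L.Z} {χ : Y → ℝ} {g : Y → E (n + 1)} {K : Set Y} (h : Ok p χ g K) (j : Y₀ ≃ₜ Y) :
    IJ (p ∘ j) (χ ∘ j) (g ∘ j) = IJ p χ g := by
  rw [h.restrict j.isOpenEmbedding (j.isCompact_preimage.2 h.cpt), IJ]
  congr 1
  ext e x
  simp [mulD]

theorem Ok.zero {Y : Type} [TopologicalSpace Y] [T2Space Y] {p : Y → L.Z} {χ : Y → ℝ}
    {g : Y → E (n + 1)} {K : Set Y} (h : Ok p χ g K)
    (h0 : ∀ e ∈ L.Good p, ∀ y ∈ e.source, χ y = 0 ∨ Jd g e (e y) = 0) : IJ p χ g = 0 :=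
  int_zero (Lev.sys h.loc) h.dens fun e he y hy => by
    simpa [mulD, e.left_inv hy] using h0 e he y hy

theorem Ok.cpt_inter {Y κ : Type} [TopologicalSpace Y] {K : Set Y} (hK : IsCompact K)
    {O : κ → Set Y} (hO : ∀ k, IsOpen (O k)) (hd : Pairwise (Function.onFun Disjoint O))
    (hc : K ⊆ ⋃ k, O k) (k : κ) : IsCompact ((Subtype.val : O k → Y) ⁻¹' K) := by
  rw [Topology.IsInducing.subtypeVal.isCompact_iff, image_preimage_eq_inter_range,
    Subtype.range_coe]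
  have : K ∩ O k = K \ ⋃ j : {j // j ≠ k}, O j := by
    ext y
    refine and_congr_right fun hy => ⟨fun h h' => ?_, fun h => ?_⟩
    · obtain ⟨j, hj⟩ := mem_iUnion.1 h'
      exact Set.disjoint_left.1 (hd j.2) hj h
    · obtain ⟨j, hj⟩ := mem_iUnion.1 (hc hy)
      by_contra h'
      exact h (mem_iUnion.2 ⟨⟨j, fun e => h' (e ▸ hj)⟩, hj⟩)
  rw [this]
  exact hK.diff (isOpen_iUnion fun j => hO _)

theorem Ok.split {Y κ : Type} [TopologicalSpace Y] [T2Space Y] {p : Y → L.Z} {χ : Y → ℝ}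
    {g : Y → E (n + 1)} {K : Set Y} (h : Ok p χ g K) {O : κ → Set Y} (hO : ∀ k, IsOpen (O k))
    (hd : Pairwise (Function.onFun Disjoint O)) (hc : K ⊆ ⋃ k, O k) :
    ∃ s : Finset κ, (∀ k ∉ s, IJ (p ∘ (Subtype.val : O k → Y)) (χ ∘ Subtype.val)
      (g ∘ Subtype.val) = 0) ∧ IJ p χ g = ∑ k ∈ s, IJ (p ∘ (Subtype.val : O k → Y))
        (χ ∘ Subtype.val) (g ∘ Subtype.val) := by
  obtain ⟨s, hs⟩ := h.cpt.elim_finite_subcover O hO hc
  have hcp := Ok.cpt_inter h.cpt hO hd hc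
  refine ⟨s, fun k hk => ?_, ?_⟩
  · have h1 := h.comp (hO k).isOpenEmbedding_subtypeVal (hcp k)
    refine int_zero (Lev.sys h1.loc) h1.dens fun e he y hy => h1.dens.van e he y hy fun hy' => ?_
    obtain ⟨j, hj, hj'⟩ := mem_iUnion₂.1 (hs hy')
    exact Set.disjoint_left.1 (hd (fun e : j = k => hk (e ▸ hj))) hj' y.2
  · rw [Finset.sum_congr rfl fun k _ => h.restrict (hO k).isOpenEmbedding_subtypeVal (hcp k)]
    refine int_sum (Lev.sys h.loc) s h.dens (fun k _ => h.dens.indicator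
      (hO k).isOpenEmbedding_subtypeVal.isOpen_range) fun e he => Eventually.of_forall
        fun x hx => ?_
    by_cases hK : e.symm x ∈ K
    · obtain ⟨j, hj, hj'⟩ := mem_iUnion₂.1 (hs hK)
      rw [Finset.sum_eq_single j (fun k _ hk => ?_) fun h => (h hj).elim]
      · simp [mulD, hj']
      · have : e.symm x ∉ O k := fun h => Set.disjoint_left.1 (hd hk) h hj'
        simp [mulD, this]
    · have := h.dens.van e he _ (e.map_target hx) hK
      rw [e.right_inv hx] at this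
      simp only [mulD] at this ⊢
      simp [this]

theorem reduction (hZ : IsCompact L.Z)
    (hNE : ∀ δ : ℝ, 0 < δ → ∃ c : ℝ, 0 < c ∧ ∀ (Y : Type) [TopologicalSpace Y] [T2Space Y]
      (p : Y → L.Z), IsCoveringMap p → ∀ g : Y → E (n + 1), (∀ y, ‖g y‖ = 1) →
      (∃ K c, IsCompact K ∧ ∀ y ∉ K, g y = c) → Ctrl δ c p g → IJ p (fun _ => 1) g = 0)
    (hIE : ∀ c : ℝ, 0 < c → ∃ (Y : Type) (_ : TopologicalSpace Y) (_ : T2Space Y)
      (_ : SecondCountableTopology Y) (p : Y → L.Z) (f : Y → Sph n), IsLocalHomeomorph p ∧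
      (∀ y, ALipAt p c (fun y => (f y : E (n + 1))) y) ∧ (∃ K, IsCompact K ∧ ∀ y ∉ K, f y = pt n) ∧
      IJ p (fun _ => 1) (fun y => (f y : E (n + 1))) ≠ 0) :
    ∃ X : ORM n, CompactSpace X.X ∧ IsoEnlargeable X ∧ ¬ Enlargeable X := by
  have : CompactSpace L.Z := isCompact_iff_compactSpace.1 hZ
  have : LocallyConnectedSpace L.Z := Lev.locConn (p := id) (Homeomorph.refl _).isLocalHomeomorph
  have hco : ∀ m : L.Z, ConnectedSpace (connectedComponent m) := fun m =>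
    isConnected_iff_connectedSpace.1 isConnected_connectedComponent
  have hl : ∀ m : L.Z, IsLocalHomeomorph (Subtype.val : connectedComponent m → L.Z) := fun m =>
    isOpen_connectedComponent.isOpenEmbedding_subtypeVal.isLocalHomeomorph
  have hne : ∀ m, ¬ Enlargeable (orm (hl m)) := by
    intro m hE
    obtain ⟨δ, C, hδ, hC, hctrl⟩ := exists_ctrl hZ
    obtain ⟨c, hc, hNE⟩ := hNE δ hδ
    obtain ⟨Y, r, hr, hi, f, hf, ⟨K, hK, hout⟩, hd⟩ := hE (c / (C + 1)) (by positivity)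
    have h1 := (isom_orm (hl m)).comp hr.isLocalHomeomorph hi
    have h2 : IsCoveringMap (Subtype.val ∘ r : Y.X → L.Z) := by
      intro x
      by_cases hx : x ∈ connectedComponent m
      · exact (IsEvenlyCovered.subtypeVal_comp _ isOpen_connectedComponent
          (hr ⟨x, hx⟩)).to_isEvenlyCovered_preimage
      · refine (IsEvenlyCovered.of_preimage_eq_empty (I := Empty)
          (isClosed_connectedComponent.isOpen_compl.mem_nhds hx) ?_).to_isEvenlyCovered_preimage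
        exact eq_empty_of_forall_notMem fun y hy => hy (r y).2
    have h3 := hctrl Y _ h1 h2 _ f (by positivity) hf
    have h4 : Ctrl δ c (Subtype.val ∘ r : Y.X → L.Z) fun y => (f y : E (n + 1)) := by
      intro m S hS hSm a ha b hb
      refine (h3 m S hS hSm a ha b hb).trans (mul_le_mul_of_nonneg_right ?_ dist_nonneg)
      rw [div_mul_eq_mul_div, div_le_iff₀ (by positivity)]
      nlinarith
    have := Lev.locConn h1.loc
    refine h1.int_ne_zero (fun y => (h4.aLipAt hδ h2.continuous y).al) hK hout hd ?_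
    rw [← IJ_one]
    exact hNE _ _ h2 _ (by simp) ⟨K, _, hK, fun y hy => congrArg Subtype.val (hout y hy)⟩ h4
  by_contra hcon
  have hie : ∀ m, ∃ ε : ℝ, 0 < ε ∧ ∀ (Y : ORM n) (r : Y.X → (orm (hl m)).X),
      LocalIsometry Y (orm (hl m)) r → ¬ Hyperspherical ε Y := by
    intro m
    by_contra h
    push Not at h
    exact hcon ⟨orm (hl m), isCompact_iff_compactSpace.1 isClosed_connectedComponent.isCompact,
      h, hne m⟩
  choose ε hε hie using hie
  obtain ⟨t, ht⟩ := isCompact_univ.elim_finite_subcover (fun m : L.Z => connectedComponent m)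
    (fun _ => isOpen_connectedComponent) fun m _ => mem_iUnion.2 ⟨m, mem_connectedComponent⟩
  obtain ⟨ε₀, hε₀, hle⟩ : ∃ ε₀ : ℝ, 0 < ε₀ ∧ ∀ m ∈ t, ε₀ ≤ ε m := by
    rcases t.eq_empty_or_nonempty with h | h
    · exact ⟨1, one_pos, by simp [h]⟩
    · obtain ⟨m, -, hm⟩ := t.exists_min_image ε h
      exact ⟨ε m, hε m, hm⟩
  set B := ‖(toEuclidean (E := A)).symm.toContinuousLinearMap‖ with hB
  obtain ⟨Y, _, _, _, p, f, hp, hf, ⟨K, hK, hout⟩, hI⟩ := hIE (ε₀ / (2 * (B + 1))) (by positivity)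
  have := Lev.locConn hp
  have hok : Ok p (fun _ => 1) (fun y => (f y : E (n + 1))) K := ⟨hp, fun y => (hf y).al,
    continuous_const, hK, fun y hy => Or.inr ⟨pt n, by
      filter_upwards [hK.isClosed.isOpen_compl.mem_nhds hy] with z hz using
        congrArg Subtype.val (hout z hz)⟩⟩
  set O : ConnectedComponents Y → Set Y := fun k => ConnectedComponents.mk ⁻¹' {k} with hO
  have hOc : ∀ y, O (ConnectedComponents.mk y) = connectedComponent y := fun _ =>
    connectedComponents_preimage_singleton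
  have hOo : ∀ k, IsOpen (O k) := fun k => by
    obtain ⟨y, rfl⟩ := ConnectedComponents.surjective_coe k
    exact hOc y ▸ isOpen_connectedComponent
  have hd : Pairwise (Function.onFun Disjoint O) := fun k k' h =>
    Disjoint.preimage _ (disjoint_singleton.2 h)
  have hcov : K ⊆ ⋃ k, O k := fun y _ => mem_iUnion.2 ⟨_, rfl⟩
  obtain ⟨s, -, hs⟩ := hok.split hOo hd hcov
  rw [hs] at hI
  obtain ⟨k, -, hk⟩ := Finset.exists_ne_zero_of_sum_ne_zero hI
  obtain ⟨y, rfl⟩ := ConnectedComponents.surjective_coe k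
  obtain ⟨m, hm, hym⟩ := mem_iUnion₂.1 (ht (mem_univ (p y)))
  have : ConnectedSpace (O (ConnectedComponents.mk y)) :=
    isConnected_iff_connectedSpace.1 (hOc y ▸ isConnected_connectedComponent)
  have h1 := hok.comp (hOo _).isOpenEmbedding_subtypeVal (Ok.cpt_inter hK hOo hd hcov
    (ConnectedComponents.mk y))
  have h2 : ∀ z : O (ConnectedComponents.mk y), p z ∈ connectedComponent m := fun z => by
    rw [connectedComponent_eq hym]
    exact hp.continuous.image_connectedComponent_subset y ⟨z, hOc y ▸ z.2, rfl⟩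
  refine hie m (orm h1.loc) (fun z => ⟨p z.1, h2 z⟩) ((isom_orm (hl m)).localIsometry
    (h1.loc.continuous.subtype_mk _) (isom_orm h1.loc)) ⟨fun z => f z.1, ?_,
      ⟨_, h1.cpt, fun z hz => hout _ hz⟩, (isom_orm h1.loc).nonzeroDegree h1.al h1.cpt
        (fun z hz => hout _ hz) (by rwa [← IJ_one])⟩
  refine (isom_orm h1.loc).lipschitz (c := ε₀ / (2 * (B + 1)) * 1) (by positivity)
    (fun z => (hf z.1).trans (by positivity) continuous_subtype_val.continuousAt
      (aLipAt_self _ _)) (le_trans ?_ (hle m hm)) (hε m)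
  rw [← hB, mul_one, div_mul_eq_mul_div, ← mul_div_assoc, div_le_iff₀ (by positivity)]
  nlinarith [norm_nonneg (toEuclidean (E := A)).symm.toContinuousLinearMap]

end Pool.Agent.Lib.MP_4b70aa_gt
end

-- part Pool.Agent.Lib.MP_4b70aa_gt.Cover
section

set_option autoImplicit false
set_option linter.unusedSectionVars false

open MeasureTheory Filter Set Topology

namespace Pool.Agent.Lib.MP_4b70aa_gt

section lifts

variable {Y X A : Type} [TopologicalSpace Y] [TopologicalSpace X] [TopologicalSpace A]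
  {p : Y → X}

/-- Continuous lifts. -/
def Lf (p : Y → X) (J : A → X) : Type := {ℓ : A → Y // Continuous ℓ ∧ ∀ a, p (ℓ a) = J a}

theorem Lf.ext_at [PreconnectedSpace A] (hp : IsCoveringMap p) {J : A → X} {ℓ ℓ' : Lf p J} {a : A}
    (h : ℓ.1 a = ℓ'.1 a) : ℓ = ℓ' :=
  Subtype.ext (hp.eq_of_comp_eq ℓ.2.1 ℓ'.2.1 (funext fun b => (ℓ.2.2 b).trans (ℓ'.2.2 b).symm) a h)

/-- Every point of the fibre lies on a lift. -/
def Triv (p : Y → X) (J : A → X) : Prop := ∀ a y, p y = J a → ∃ ℓ : Lf p J, ℓ.1 a = y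

theorem Triv.comp {A' : Type} [TopologicalSpace A'] {J : A → X} (h : Triv p J) {φ : A' → A}
    (hφ : Continuous φ) {J' : A' → X} (hJ : ∀ a, J' a = J (φ a)) : Triv p J' := by
  intro a y hy
  obtain ⟨ℓ, hℓ⟩ := h (φ a) y (hy.trans (hJ a))
  exact ⟨⟨ℓ.1 ∘ φ, ℓ.2.1.comp hφ, fun b => (ℓ.2.2 _).trans (hJ b).symm⟩, hℓ⟩

variable {V : Type} [AddCommGroup V] [Module ℝ V] [TopologicalSpace V] [IsTopologicalAddGroup V]
  [ContinuousSMul ℝ V]

theorem lift_family (hp : IsCoveringMap p) {Q : Set V} (hQ : Convex ℝ Q) {J : V → A → X}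
    (hJ : ContinuousOn (fun z : V × A => J z.1 z.2) (Q ×ˢ univ)) {q₀ : V} (hq : q₀ ∈ Q)
    (ℓ : Lf p (J q₀)) : ∃ s : V → A → Y, ContinuousOn (fun z : V × A => s z.1 z.2) (Q ×ˢ univ) ∧
      (∀ q ∈ Q, ∀ a, p (s q a) = J q a) ∧ s q₀ = ℓ.1 := by
  classical
  let H : C(unitInterval × (Q × A), X) := ⟨fun z => J (q₀ + (z.1 : ℝ) • ((z.2.1 : V) - q₀)) z.2.2,
    hJ.comp_continuous (f := fun z : unitInterval × (Q × A) =>
      (q₀ + (z.1 : ℝ) • ((z.2.1 : V) - q₀), z.2.2)) (by fun_prop)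
      fun z => ⟨hQ.add_smul_sub_mem hq z.2.1.2 z.1.2, mem_univ _⟩⟩
  let f : C(Q × A, Y) := ⟨fun z => ℓ.1 z.2, ℓ.2.1.comp continuous_snd⟩
  have H0 : ∀ a : Q × A, H (0, a) = p (f a) := fun a => by simp [H, f, ℓ.2.2]
  let G := hp.liftHomotopy H f H0
  have hG : ∀ z, p (G z) = H z := congrFun (hp.liftHomotopy_lifts H _ H0)
  refine ⟨fun q a => if hq : q ∈ Q then G (1, ⟨q, hq⟩, a) else ℓ.1 a, ?_, fun q hq a => ?_, ?_⟩
  · rw [continuousOn_iff_continuous_domRestrict]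
    refine Continuous.congr (f := fun z : ↥(Q ×ˢ (univ : Set A)) => G (1, ⟨z.1.1, z.2.1⟩, z.1.2))
      (by fun_prop) fun z => ?_
    simp [z.2.1]
  · simp [hq, hG, H]
  · ext a
    simp only [hq, dif_pos]
    rw [← hp.const_of_comp (g := fun t => G (t, ⟨q₀, hq⟩, a)) (by fun_prop)
      (fun t t' => by simp [hG, H]) 0 1]
    exact hp.liftHomotopy_zero H _ H0 _

theorem slice_left {Z : Type} [TopologicalSpace Z] {Q : Set V} {s : V → A → Z}
    (hs : ContinuousOn (fun z : V × A => s z.1 z.2) (Q ×ˢ univ)) (a : A) :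
    ContinuousOn (fun q => s q a) Q :=
  hs.comp (f := fun q => (q, a)) (by fun_prop) fun _ hq => ⟨hq, mem_univ _⟩

theorem slice_right {Z : Type} [TopologicalSpace Z] {Q : Set V} {s : V → A → Z}
    (hs : ContinuousOn (fun z : V × A => s z.1 z.2) (Q ×ˢ univ)) {q : V} (hq : q ∈ Q) :
    Continuous (s q) :=
  hs.comp_continuous (f := fun a => (q, a)) (by fun_prop) fun _ => ⟨hq, mem_univ _⟩

/-- The lifts `ℓ` and `ℓ'` are the ends of a family of lifts. -/
def Rel (p : Y → X) (Q : Set V) (J : V → A → X) (q q' : V) (ℓ ℓ' : A → Y) : Prop :=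
  ∃ s : V → A → Y, ContinuousOn (fun z : V × A => s z.1 z.2) (Q ×ˢ univ) ∧
    (∀ q ∈ Q, ∀ a, p (s q a) = J q a) ∧ s q = ℓ ∧ s q' = ℓ'

theorem Rel.symm {Q : Set V} {J : V → A → X} {q q' : V} {ℓ ℓ' : A → Y} (h : Rel p Q J q q' ℓ ℓ') :
    Rel p Q J q' q ℓ' ℓ := let ⟨s, h1, h2, h3, h4⟩ := h; ⟨s, h1, h2, h4, h3⟩

theorem Rel.unique (hp : IsCoveringMap p) {Q : Set V} (hQ : Convex ℝ Q) {J : V → A → X} {q q' : V}
    (hq : q ∈ Q) (hq' : q' ∈ Q) {ℓ ℓ' m m' : A → Y} (h : Rel p Q J q q' ℓ ℓ')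
    (h' : Rel p Q J q q' m m') {a : A} (ha : ℓ a = m a) : ℓ' a = m' a := by
  obtain ⟨s, h1, h2, rfl, rfl⟩ := h
  obtain ⟨s', h1', h2', rfl, rfl⟩ := h'
  exact hp.eqOn_of_comp_eqOn hQ.isPreconnected (slice_left h1 a) (slice_left h1' a)
    (fun r hr => (h2 r hr a).trans (h2' r hr a).symm) hq ha hq'

theorem exists_rel (hp : IsCoveringMap p) {Q : Set V} (hQ : Convex ℝ Q) {J : V → A → X}
    (hJ : ContinuousOn (fun z : V × A => J z.1 z.2) (Q ×ˢ univ)) {q q' : V} (hq : q ∈ Q)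
    (hq' : q' ∈ Q) (ℓ : Lf p (J q)) : ∃ ℓ' : Lf p (J q'), Rel p Q J q q' ℓ.1 ℓ'.1 := by
  obtain ⟨s, h1, h2, h3⟩ := lift_family hp hQ hJ hq ℓ
  exact ⟨⟨s q', slice_right h1 hq', h2 q' hq'⟩, s, h1, h2, h3, rfl⟩

theorem exists_transport (hp : IsCoveringMap p) {Q : Set V} (hQ : Convex ℝ Q) {J : V → A → X}
    (hJ : ContinuousOn (fun z : V × A => J z.1 z.2) (Q ×ˢ univ)) {q q' : V} (hq : q ∈ Q)
    (hq' : q' ∈ Q) : ∃ τ : Lf p (J q) ≃ Lf p (J q'), ∀ ℓ, Rel p Q J q q' ℓ.1 (τ ℓ).1 := by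
  choose f hf using exists_rel hp hQ hJ hq hq'
  choose g hg using exists_rel hp hQ hJ hq' hq
  exact ⟨⟨f, g, fun ℓ => Subtype.ext (funext fun a => (hg _).unique hp hQ hq' hq (hf ℓ).symm rfl),
    fun ℓ => Subtype.ext (funext fun a => (hf _).unique hp hQ hq hq' (hg ℓ).symm rfl)⟩, hf⟩

theorem Triv.family (hp : IsCoveringMap p) {Q : Set V} (hQ : Convex ℝ Q) {J : V → A → X}
    (hJ : ContinuousOn (fun z : V × A => J z.1 z.2) (Q ×ˢ univ)) {q q' : V} (hq : q ∈ Q)
    (hq' : q' ∈ Q) (h : Triv p (J q')) : Triv p (J q) := by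
  intro a y hy
  obtain ⟨γ, h1, h2, h3⟩ := lift_convex hp hQ (slice_left hJ a) hq hy
  obtain ⟨ℓ, hℓ⟩ := h a (γ q') (h2 q' hq')
  obtain ⟨ℓ', s, h4, h5, h6, h7⟩ := exists_rel hp hQ hJ hq' hq ℓ
  refine ⟨ℓ', ?_⟩
  rw [← h7, ← h3]
  exact hp.eqOn_of_comp_eqOn hQ.isPreconnected (slice_left h4 a) h1
    (fun r hr => (h5 r hr a).trans (h2 r hr).symm) hq' ((congrFun h6 a).trans hℓ) hq

theorem triv_const (x : X) : Triv p fun _ : A => x :=
  fun _ y hy => ⟨⟨fun _ => y, continuous_const, fun _ => hy⟩, rfl⟩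

end lifts

section chain

variable {X A : Type} [PseudoMetricSpace X] [TopologicalSpace A]

/-- The values of a controlled function at the lifts of `a` and `b` are uniformly close. -/
def Cls (F : Type) [NormedAddCommGroup F] (δ C : ℝ) (J : A → X) (S : Set A) (a b : A) : Prop :=
  ∀ (Y : Type) [TopologicalSpace Y] (p : Y → X) (g : Y → F) (c : ℝ), 0 ≤ c → Ctrl δ c p g →
    ∀ ℓ : A → Y, ContinuousOn ℓ S → (∀ a ∈ S, p (ℓ a) = J a) → ‖g (ℓ a) - g (ℓ b)‖ ≤ c * C

theorem Cls.mono {F : Type} [NormedAddCommGroup F] {δ C C' : ℝ} {J : A → X} {S : Set A} {a b : A}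
    (h : Cls F δ C J S a b) (hC : C ≤ C') : Cls F δ C' J S a b :=
  fun Y _ p g c hc hg ℓ h1 h2 => (h Y p g c hc hg ℓ h1 h2).trans (mul_le_mul_of_nonneg_left hC hc)

theorem Cls.trans {F : Type} [NormedAddCommGroup F] {δ C C' : ℝ} {J : A → X} {S : Set A}
    {a b d : A} (h : Cls F δ C J S a b) (h' : Cls F δ C' J S b d) : Cls F δ (C + C') J S a d :=
  fun Y _ p g c hc hg ℓ h1 h2 => by
    rw [mul_add]
    exact (norm_sub_le_norm_sub_add_norm_sub _ _ _).trans
      (add_le_add (h Y p g c hc hg ℓ h1 h2) (h' Y p g c hc hg ℓ h1 h2))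

theorem Cls.symm {F : Type} [NormedAddCommGroup F] {δ C : ℝ} {J : A → X} {S : Set A}
    {a b : A} (h : Cls F δ C J S a b) : Cls F δ C J S b a :=
  fun Y _ p g c hc hg ℓ h1 h2 => by rw [norm_sub_rev]; exact h Y p g c hc hg ℓ h1 h2

theorem exists_cls (F : Type) [NormedAddCommGroup F] {δ : ℝ} (hδ : 0 < δ) {J : A → X} {S : Set A}
    (hS : IsPreconnected S) (hJ : ContinuousOn J S)
    (hl : ∀ a ∈ S, ∀ U ∈ 𝓝[S] a, ∃ T ∈ 𝓝[S] a, T ⊆ U ∧ IsPreconnected T) {K : Set A}
    (hK : IsCompact K) (hKS : K ⊆ S) {a₀ : A} (h₀ : a₀ ∈ S) :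
    ∃ C, 0 ≤ C ∧ ∀ a ∈ K, Cls F δ C J S a a₀ := by
  have loc : ∀ a ∈ S, ∀ᶠ b in 𝓝[S] a, Cls F δ δ J S b a := by
    intro a ha
    obtain ⟨T, hT, hTU, hTc⟩ := hl a ha _ (inter_mem self_mem_nhdsWithin
      ((hJ a ha).preimage_mem_nhdsWithin (Metric.ball_mem_nhds (J a) hδ)))
    filter_upwards [hT] with b hb Y _ p g c hc hg ℓ h1 h2
    have haT := mem_of_mem_nhdsWithin ha hT
    refine (hg (J a) (ℓ '' T) (hTc.image _ (h1.mono fun x hx => (hTU hx).1)) ?_ _
      ⟨b, hb, rfl⟩ _ ⟨a, haT, rfl⟩).trans (mul_le_mul_of_nonneg_left ?_ hc)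
    · rintro _ ⟨x, hx, rfl⟩
      rw [h2 x (hTU hx).1]; exact (hTU hx).2
    · rw [h2 a ha, h2 b (hTU hb).1]; exact le_of_lt (hTU hb).2
  have all : ∀ a ∈ S, ∃ C, Cls F δ C J S a a₀ := fun a ha =>
    hS.induction₂ (fun a b => ∃ C, Cls F δ C J S a b)
      (fun a ha => (loc a ha).mono fun b hb => ⟨_, hb.symm⟩)
      (fun _ _ _ _ _ _ ⟨_, h⟩ ⟨_, h'⟩ => ⟨_, h.trans h'⟩) (fun _ _ _ _ ⟨_, h⟩ => ⟨_, h.symm⟩) ha h₀
  refine hK.induction_on (p := fun K => ∃ C, 0 ≤ C ∧ ∀ a ∈ K, Cls F δ C J S a a₀)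
    ⟨0, le_rfl, by simp⟩ (fun s t hst ⟨c, hc, h⟩ => ⟨c, hc, fun y hy => h y (hst hy)⟩)
    (fun s t ⟨c, hc, h⟩ ⟨c', _, h'⟩ => ⟨max c c', le_max_of_le_left hc, fun y hy => ?_⟩)
    fun a ha => ?_
  · rcases hy with hy | hy
    · exact (h y hy).mono (le_max_left _ _)
    · exact (h' y hy).mono (le_max_right _ _)
  · obtain ⟨C, hC⟩ := all a (hKS ha)
    exact ⟨_, nhdsWithin_mono a hKS (loc a (hKS ha)), max (δ + C) 0, le_max_right _ _,
      fun b hb => (Cls.trans hb hC).mono (le_max_left _ _)⟩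

theorem exists_cls_convex (F : Type) [NormedAddCommGroup F] {δ : ℝ} (hδ : 0 < δ) {V : Type}
    [NormedAddCommGroup V] [NormedSpace ℝ V] {J : V → X} {Q : Set V} (hQ : Convex ℝ Q)
    (hJ : ContinuousOn J Q) {q q' : V} (hq : q ∈ Q) (hq' : q' ∈ Q) :
    ∃ C, 0 ≤ C ∧ Cls F δ C J Q q q' := by
  obtain ⟨C, hC, h⟩ := exists_cls F hδ hQ.isPreconnected hJ (fun a ha U hU => by
    obtain ⟨r, hr, h⟩ := Metric.mem_nhdsWithin_iff.1 hU
    exact ⟨_, inter_mem (mem_nhdsWithin_of_mem_nhds (Metric.ball_mem_nhds a hr))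
      self_mem_nhdsWithin, h, ((convex_ball a r).inter hQ).isPreconnected⟩)
    (isCompact_singleton (x := q)) (by simpa using hq) hq'
  exact ⟨C, hC, h q rfl⟩

theorem exists_cls_univ (F : Type) [NormedAddCommGroup F] {δ : ℝ} (hδ : 0 < δ) {J : A → X}
    [PreconnectedSpace A] [LocallyConnectedSpace A] (hJ : Continuous J) {K : Set A}
    (hK : IsCompact K) (a₀ : A) : ∃ C, 0 ≤ C ∧ ∀ a ∈ K, Cls F δ C J univ a a₀ :=
  exists_cls F hδ isPreconnected_univ hJ.continuousOn (fun a _ U hU => by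
    rw [nhdsWithin_univ] at hU ⊢
    obtain ⟨T, h1, h2, h3, h4⟩ := (locallyConnectedSpace_iff_subsets_isOpen_isConnected.1 ‹_›) a U hU
    exact ⟨T, h2.mem_nhds h3, h1, h4.isPreconnected⟩) hK (subset_univ _) (mem_univ _)

theorem Ctrl.path {Y F : Type} [TopologicalSpace Y] [NormedAddCommGroup F] {δ c C : ℝ}
    {p : Y → X} {g : Y → F} (h : Ctrl δ c p g) (hδ : 0 < δ) (hc : 0 ≤ c) (hC : 0 ≤ C) {γ : ℝ → Y}
    (hγ : Continuous γ) (hp : ∀ s t, dist (p (γ s)) (p (γ t)) ≤ C * |s - t|) {s : ℝ}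
    (hs : s ∈ Icc (0 : ℝ) 1) : ‖g (γ s) - g (γ 0)‖ ≤ c * C := by
  have h1 := local_to_global (φ := fun t => g (γ (s * t))) (ψ := fun t => t) contDiffOn_id
    (mul_nonneg hc hC) fun t => by
      have h2 : ∀ᶠ u : Icc (0 : ℝ) 1 in 𝓝 t, (u : ℝ) ∈ Metric.ball (t : ℝ) (δ / (C + 1)) :=
        continuous_subtype_val.continuousAt.eventually (Metric.ball_mem_nhds _ (by positivity))
      have h3 : ∀ u v : ℝ, dist (p (γ (s * u))) (p (γ (s * v))) ≤ C * |u - v| := fun u v => by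
        refine (hp _ _).trans (mul_le_mul_of_nonneg_left ?_ hC)
        rw [← mul_sub, abs_mul, abs_of_nonneg hs.1]
        exact mul_le_of_le_one_left (abs_nonneg _) hs.2
      filter_upwards [ev_prod h2] with z hz
      refine (h (p (γ (s * t))) ((fun u => γ (s * u)) '' Metric.ball (t : ℝ) (δ / (C + 1)))
        ((convex_ball _ _).isPreconnected.image _ (by fun_prop)) ?_ _ ⟨_, hz.1, rfl⟩ _
        ⟨_, hz.2, rfl⟩).trans ?_
      · rintro _ ⟨u, hu, rfl⟩
        refine (h3 _ _).trans_lt ?_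
        have h4 : |u - t| < δ / (C + 1) := hu
        rw [lt_div_iff₀ (by positivity)] at h4
        nlinarith [abs_nonneg (u - t)]
      · rw [mul_assoc]
        exact mul_le_mul_of_nonneg_left (h3 _ _) hc
  simp only [deriv_id'', enorm_one, lintegral_const, mul_one, mul_zero] at h1
  rw [← ENNReal.ofReal_le_ofReal_iff (mul_nonneg hc hC), ofReal_norm]
  simpa using h1

end chain

section flow

variable {Y X F : Type} [TopologicalSpace Y] [PseudoMetricSpace X] [NormedAddCommGroup F]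
  [NormedSpace ℝ F] [CompleteSpace F]

/-- A periodic flow on an open set. -/
structure Flow' (p : Y → X) (U : Set Y) (φ : ℝ → Y → Y) : Prop where
  op : IsOpen U
  maps : ∀ s, ∀ y ∈ U, φ s y ∈ U
  cont : ContinuousOn (fun z : ℝ × Y => φ z.1 z.2) (univ ×ˢ U)
  add : ∀ s t, ∀ y ∈ U, φ (s + t) y = φ s (φ t y)
  per : ∀ s, ∀ y ∈ U, φ (s + 1) y = φ s y
  lip : ∃ C, ∀ s, ∀ a ∈ U, ∀ b ∈ U, dist (p (φ s a)) (p (φ s b)) ≤ C * dist (p a) (p b)

/-- The average over the flow. -/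
noncomputable def avg (φ : ℝ → Y → Y) (g : Y → F) (y : Y) : F := ∫ s in (0 : ℝ)..1, g (φ s y)

theorem Flow'.contAt {p : Y → X} {U : Set Y} {φ : ℝ → Y → Y} (h : Flow' p U φ) (s : ℝ) {y : Y}
    (hy : y ∈ U) : ContinuousAt (fun z : ℝ × Y => φ z.1 z.2) (s, y) :=
  h.cont.continuousAt ((isOpen_univ.prod h.op).mem_nhds ⟨mem_univ _, hy⟩)

theorem Flow'.orbit {p : Y → X} {U : Set Y} {φ : ℝ → Y → Y} (h : Flow' p U φ) {y : Y}
    (hy : y ∈ U) : Continuous fun s => φ s y :=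
  h.cont.comp_continuous (f := fun s => (s, y)) (by fun_prop) fun _ => ⟨mem_univ _, hy⟩

theorem Flow'.avg_inv {p : Y → X} {U : Set Y} {φ : ℝ → Y → Y} (h : Flow' p U φ) (g : Y → F)
    {y : Y} (hy : y ∈ U) (t : ℝ) : avg φ g (φ t y) = avg φ g y := by
  have h1 : Function.Periodic (fun s => g (φ s y)) 1 := fun s => by simp only [h.per s y hy]
  have h2 := h1.intervalIntegral_add_eq t 0
  simp only [avg, ← h.add _ t y hy]
  rw [intervalIntegral.integral_comp_add_right (fun s => g (φ s y)) t, zero_add, add_comm 1 t, h2,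
    zero_add]

theorem Flow'.avg_close {p : Y → X} {U : Set Y} {φ : ℝ → Y → Y} (h : Flow' p U φ) {g : Y → F}
    (hg : ContinuousOn g U) {y : Y} (hy : y ∈ U) {b : F} {r : ℝ}
    (hr : ∀ s ∈ Icc (0 : ℝ) 1, ‖g (φ s y) - b‖ ≤ r) : ‖avg φ g y - b‖ ≤ r := by
  have h1 : Continuous fun s => g (φ s y) := hg.comp_continuous (h.orbit hy) fun s => h.maps s y hy
  have : avg φ g y - b = ∫ s in (0 : ℝ)..1, (g (φ s y) - b) := by
    rw [intervalIntegral.integral_sub (h1.intervalIntegrable _ _) (by simp)]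
    simp [avg]
  rw [this]
  simpa using intervalIntegral.norm_integral_le_of_norm_le_const (a := 0) (b := 1)
    fun s hs => hr s (by rw [uIoc_of_le zero_le_one] at hs; exact Ioc_subset_Icc_self hs)

theorem Flow'.avg_al {p : Y → X} {U : Set Y} {φ : ℝ → Y → Y} (h : Flow' p U φ) (hp : Continuous p)
    {g : Y → F} (hg : ∀ y ∈ U, AL p g y) {y : Y} (hy : y ∈ U) : AL p (avg φ g) y := by
  obtain ⟨C, hC⟩ := h.lip
  obtain ⟨c, hc, h1⟩ := exists_unif (isCompact_Icc.image (h.orbit hy) (s := Icc (0 : ℝ) 1))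
    (by rintro _ ⟨s, -, rfl⟩; exact hg _ (h.maps s y hy))
  have hgc : ContinuousOn g U := fun z hz =>
    ((hg z hz).continuousAt hp.continuousAt).continuousWithinAt
  have h2 : ∀ᶠ z in 𝓝 (y, y), ∀ s ∈ Icc (0 : ℝ) 1, dist (g (φ s z.1)) (g (φ s z.2)) ≤
      c * dist (p (φ s z.1)) (p (φ s z.2)) := by
    refine isCompact_Icc.eventually_forall_of_forall_eventually fun s hs => ?_
    have h3 : Tendsto (fun z : (Y × Y) × ℝ => (φ z.2 z.1.1, φ z.2 z.1.2)) (𝓝 ((y, y), s))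
        (𝓝 (φ s y) ×ˢ 𝓝 (φ s y)) :=
      Tendsto.prodMk ((h.contAt s hy).comp_of_eq (f := fun z : (Y × Y) × ℝ => (z.2, z.1.1))
        (by fun_prop) rfl) ((h.contAt s hy).comp_of_eq (f := fun z : (Y × Y) × ℝ => (z.2, z.1.2))
        (by fun_prop) rfl)
    exact h3.eventually (h1 _ ⟨s, hs, rfl⟩)
  refine ALipAt.al (c := c * C) ?_
  rw [nhds_prod_eq] at h2
  filter_upwards [h2, ev_prod (h.op.mem_nhds hy)] with z hz hz'
  have h3 : ∀ y ∈ U, IntervalIntegrable (fun s => g (φ s y)) volume 0 1 := fun y hy =>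
    (hgc.comp_continuous (h.orbit hy) fun s => h.maps s y hy).intervalIntegrable _ _
  rw [dist_eq_norm, avg, avg, ← intervalIntegral.integral_sub (h3 _ hz'.1) (h3 _ hz'.2)]
  simpa using intervalIntegral.norm_integral_le_of_norm_le_const (a := 0) (b := 1)
    (C := c * C * dist (p z.1) (p z.2)) fun s hs => by
      rw [uIoc_of_le zero_le_one] at hs
      rw [← dist_eq_norm, mul_assoc]
      exact (hz s (Ioc_subset_Icc_self hs)).trans
        (mul_le_mul_of_nonneg_left (hC s _ hz'.1 _ hz'.2) hc)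

theorem avg_const {φ : ℝ → Y → Y} {g : Y → F} {b : F} {y : Y}
    (h : ∀ s ∈ Icc (0 : ℝ) 1, g (φ s y) = b) : avg φ g y = b := by
  rw [avg, intervalIntegral.integral_congr (g := fun _ => b) fun s hs => h s
    (by rwa [uIcc_of_le zero_le_one] at hs)]
  simp

/-- The saturation of a set. -/
def sat (φ : ℝ → Y → Y) (K : Set Y) : Set Y := (fun z : ℝ × Y => φ z.1 z.2) '' (Icc 0 1 ×ˢ K)

theorem Flow'.sat_cpt {p : Y → X} {U : Set Y} {φ : ℝ → Y → Y} (h : Flow' p U φ) {K : Set Y}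
    (hK : IsCompact K) (hKU : K ⊆ U) : IsCompact (sat φ K) :=
  (isCompact_Icc.prod hK).image_of_continuousOn (h.cont.mono (prod_mono (subset_univ _) hKU))

theorem Flow'.mem_sat {p : Y → X} {U : Set Y} {φ : ℝ → Y → Y} (h : Flow' p U φ) {y : Y}
    (hy : y ∈ U) (h0 : φ 0 y = y) {K : Set Y} {s : ℝ} (hs : s ∈ Icc (0 : ℝ) 1) (hK : φ s y ∈ K) :
    y ∈ sat φ K :=
  ⟨(1 - s, φ s y), ⟨⟨by linarith [hs.2], by linarith [hs.1]⟩, hK⟩, by
    show φ (1 - s) (φ s y) = y
    rw [← h.add _ _ y hy, sub_add_cancel, ← zero_add (1 : ℝ), h.per 0 y hy, h0]⟩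

theorem exists_flow_lift {p : Y → X} (hp : IsCoveringMap p) {O : Set X} (hO : IsOpen O)
    {R : ℝ → X → X} (hc : ContinuousOn (fun z : ℝ × X => R z.1 z.2) (univ ×ˢ O))
    (hm : ∀ s, ∀ x ∈ O, R s x ∈ O) (h0 : ∀ x ∈ O, R 0 x = x)
    (ha : ∀ s t, ∀ x ∈ O, R (s + t) x = R s (R t x)) :
    ∃ φ : ℝ → Y → Y, ContinuousOn (fun z : ℝ × Y => φ z.1 z.2) (univ ×ˢ (p ⁻¹' O)) ∧
      (∀ s y, p y ∈ O → p (φ s y) = R s (p y)) ∧ (∀ y, p y ∈ O → φ 0 y = y) ∧
      ∀ s t y, p y ∈ O → φ (s + t) y = φ s (φ t y) := by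
  classical
  obtain ⟨s, h1, h2, h3⟩ := lift_family hp (A := p ⁻¹' O) convex_univ
    (J := fun s y => R s (p y)) (hc.comp (f := fun z : ℝ × (p ⁻¹' O) => (z.1, p z.2))
      (by have := hp.continuous; fun_prop) fun z _ => ⟨mem_univ _, z.2.2⟩) (mem_univ 0)
      ⟨Subtype.val, continuous_subtype_val, fun y => (h0 _ y.2).symm⟩
  set φ : ℝ → Y → Y := fun t y => if h : p y ∈ O then s t ⟨y, h⟩ else y with hφ
  have hφs : ∀ t y (h : p y ∈ O), φ t y = s t ⟨y, h⟩ := fun t y h => dif_pos h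
  have hφc : ContinuousOn (fun z : ℝ × Y => φ z.1 z.2) (univ ×ˢ (p ⁻¹' O)) := by
    rw [continuousOn_iff_continuous_domRestrict]
    rw [univ_prod_univ, continuousOn_univ] at h1
    refine (h1.comp (f := fun z : ↥((univ : Set ℝ) ×ˢ (p ⁻¹' O)) => 
      (z.1.1, (⟨z.1.2, z.2.2⟩ : p ⁻¹' O))) (by fun_prop)).congr fun z => (hφs _ _ z.2.2).symm
  have hφp : ∀ s y, p y ∈ O → p (φ s y) = R s (p y) := fun t y h => by
    rw [hφs t y h]; exact h2 t (mem_univ _) _
  have hφ0 : ∀ y, p y ∈ O → φ 0 y = y := fun y h => by rw [hφs 0 y h, h3]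
  have horb : ∀ y, p y ∈ O → Continuous fun s => φ s y := fun y hy =>
    hφc.comp_continuous (f := fun s => (s, y)) (by fun_prop) fun _ => ⟨mem_univ _, hy⟩
  refine ⟨φ, hφc, hφp, hφ0, fun s t y hy => ?_⟩
  have hy' : p (φ t y) ∈ O := by rw [hφp t y hy]; exact hm _ _ hy
  refine congrFun (hp.eq_of_comp_eq (g₁ := fun s => φ (s + t) y) (g₂ := fun s => φ s (φ t y))
    ((horb y hy).comp (continuous_add_const t)) (horb _ hy') (funext fun s => ?_) 0
    (by simp [hφ0 _ hy'])) s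
  simp only [Function.comp, hφp _ y hy, hφp _ _ hy', ha s t _ hy]

end flow

end Pool.Agent.Lib.MP_4b70aa_gt
end
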