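import Pool.Agent.Lib.MP_4b70aa_gt.Iface

-- part Pool.Agent.Lib.MP_4b70aa_gt.Neck
section

set_option autoImplicit false
set_option linter.unusedSectionVars false

open Filter Set Topology Complex
open scoped ContDiff ComplexConjugate

namespace Pool.Agent.Lib.MP_4b70aa_gt

section join

variable {κ W T : Type} [Fintype κ] [DecidableEq κ] [NormedAddCommGroup W] [NormedSpace ℝ W]
  [NormedAddCommGroup T] [NormedSpace ℝ T]

theorem convex_slice (b : κ) (y : W) : Convex ℝ {v : (κ → W) × T | v.1 b = y} := by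
  intro v hv w hw s t _ _ h
  simp only [mem_ofPred_eq] at *
  simp [hv, hw, ← add_smul, h]

theorem preconn_join (h3 : ∀ b c : κ, ∃ e, e ≠ b ∧ e ≠ c) {G : Set W} (h0 : (0 : W) ∈ G) :
    IsPreconnected {v : (κ → W) × T | ∃ b, v.1 b ∈ G} := by
  refine isPreconnected_of_forall 0 fun v ⟨b, hb⟩ => ?_
  obtain ⟨e, he, -⟩ := h3 b b
  refine ⟨{w | w.1 e = 0} ∪ {w | w.1 b = v.1 b}, ?_, Or.inl rfl, Or.inr rfl,
    (convex_slice e 0).isPreconnected.union (Pi.single b (v.1 b), 0) (by simp [he]) (by simp)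
      (convex_slice b _).isPreconnected⟩
  rintro w (hw | hw)
  exacts [⟨e, hw ▸ h0⟩, ⟨b, hw ▸ hb⟩]

theorem triv_join {Y X : Type} [TopologicalSpace Y] [TopologicalSpace X] {p : Y → X}
    (hp : IsCoveringMap p) (h3 : ∀ b c : κ, ∃ e, e ≠ b ∧ e ≠ c) {G : Set W} (hG : IsOpen G)
    (h0 : (0 : W) ∈ G) {f : (κ → W) × T → X} (hf : ContinuousOn f {v | ∃ b, v.1 b ∈ G}) :
    Triv p fun a : {v : (κ → W) × T | ∃ b, v.1 b ∈ G} => f a := by
  rintro ⟨a₀, b₀, hb₀⟩ y hy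
  let IsL : κ → W → ((κ → W) × T → Y) → Prop := fun b w s =>
    ContinuousOn s {v | v.1 b = w} ∧ ∀ v : (κ → W) × T, v.1 b = w → p (s v) = f v
  have ex : ∀ b, ∀ w ∈ G, ∀ v : (κ → W) × T, v.1 b = w → ∀ y, p y = f v →
      ∃ s, IsL b w s ∧ s v = y := fun b w hw v hv y hy => by
    obtain ⟨s, h1, h2, h3⟩ := lift_convex hp (convex_slice b w)
      (hf.mono fun v hv => ⟨b, hv ▸ hw⟩) hv hy
    exact ⟨s, ⟨h1, h2⟩, h3⟩
  have un : ∀ {b w s c w' s'}, IsL b w s → IsL c w' s' → ∀ {v v' : (κ → W) × T}, v.1 b = w →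
      v.1 c = w' → s v = s' v → v'.1 b = w → v'.1 c = w' → s v' = s' v' :=
    fun h h' v v' h1 h2 h3 h4 h5 => hp.eqOn_of_comp_eqOn
      ((convex_slice _ _).inter (convex_slice _ _)).isPreconnected (h.1.mono inter_subset_left)
      (h'.1.mono inter_subset_right) (fun z hz => (h.2 z hz.1).trans (h'.2 z hz.2).symm)
      ⟨h1, h2⟩ h3 ⟨h4, h5⟩
  let r : κ → (κ → W) × T → (κ → W) × T := fun b v => (Pi.single b (v.1 b), 0)
  have r1 : ∀ b v, (r b v).1 b = v.1 b := fun b v => by simp [r]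
  have r2 : ∀ b v e, e ≠ b → (r b v).1 e = 0 := fun b v e he => by simp [r, he]
  choose e he he' using h3
  obtain ⟨s₁, hs₁, e₁⟩ := ex b₀ _ hb₀ a₀ rfl y hy
  obtain ⟨s₂, hs₂, e₂⟩ := ex (e b₀ b₀) 0 h0 _ (r2 b₀ a₀ _ (he _ _)) _ (hs₁.2 _ (r1 b₀ a₀))
  choose t ht ht0 using fun c => ex c 0 h0 0 rfl _ (hs₂.2 0 rfl)
  have key : ∀ b, ∃ l : {v : (κ → W) × T // v.1 b ∈ G} → Y, Continuous l ∧ (∀ a, p (l a) = f a) ∧
      ∀ (a : {v : (κ → W) × T // v.1 b ∈ G}) s c, IsL b (a.1.1 b) s → c ≠ b →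
        s (r b a) = t c (r b a) → l a = s a := fun b => by
    have c1 : Continuous fun a : {v : (κ → W) × T // v.1 b ∈ G} => r b a :=
      ((continuous_single b).comp (by fun_prop)).prodMk continuous_const
    have m1 : ∀ (τ : ℝ) (a : (κ → W) × T), (r b a + τ • (a - r b a)).1 b = a.1 b := fun τ a => by
      simp [r1]
    obtain ⟨S, h1, h2, h3⟩ := lift_family hp (convex_Icc (0 : ℝ) 1)
      (J := fun τ (a : {v : (κ → W) × T // v.1 b ∈ G}) => f (r b a + τ • (a - r b a)))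
      (hf.comp (Continuous.continuousOn ((c1.comp continuous_snd).add (continuous_fst.smul
        ((continuous_subtype_val.comp continuous_snd).sub (c1.comp continuous_snd))))) fun z _ => ⟨b, (m1 _ _).symm ▸ z.2.2⟩) (left_mem_Icc.2 zero_le_one)
      ⟨fun a => t (e b b) (r b a), (ht _).1.comp_continuous c1 fun a => r2 _ _ _ (he _ _),
        fun a => by simpa using (ht _).2 _ (r2 _ _ _ (he _ _))⟩
    refine ⟨S 1, slice_right h1 (right_mem_Icc.2 zero_le_one), fun a => by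
      simpa using h2 1 (right_mem_Icc.2 zero_le_one) a, fun a s c hs hc h4 => ?_⟩
    have := hp.eqOn_of_comp_eqOn isPreconnected_Icc (slice_left h1 a)
      (g₂ := fun τ : ℝ => s (r b a + τ • (a - r b a))) (hs.1.comp (by fun_prop) fun τ _ => m1 _ _)
      (fun τ hτ => (h2 τ hτ a).trans (hs.2 _ (m1 _ _)).symm) (left_mem_Icc.2 zero_le_one)
      (by
        simp only [h3, zero_smul, add_zero, h4]
        exact un (ht _) (ht _) rfl rfl ((ht0 _).trans (ht0 _).symm) (r2 _ _ _ (he _ _))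
          (r2 _ _ _ hc)) (right_mem_Icc.2 zero_le_one)
    simpa using this
  choose l l1 l2 l3 using key
  have cmp : ∀ b c a (hb : a.1 b ∈ G) (hc : a.1 c ∈ G), l b ⟨a, hb⟩ = l c ⟨a, hc⟩ := by
    intro b c a hb hc
    by_cases hbc : b = c
    · subst hbc; rfl
    obtain ⟨s, hs, es⟩ := ex b _ hb _ (r1 b a) _ ((ht (e b c)).2 _ (r2 b a _ (he _ _)))
    obtain ⟨s', hs', es'⟩ := ex c _ hc _ (r1 c a) _ ((ht (e b c)).2 _ (r2 c a _ (he' _ _)))
    have q1 : (r b a + r c a).1 b = a.1 b := by simp [r1, r2 c a b hbc]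
    have q2 : (r b a + r c a).1 c = a.1 c := by simp [r1, r2 b a c (Ne.symm hbc)]
    have q3 : (r b a + r c a).1 (e b c) = 0 := by simp [r2 b a _ (he _ _), r2 c a _ (he' _ _)]
    rw [l3 b ⟨a, hb⟩ s _ hs (he _ _) es, l3 c ⟨a, hc⟩ s' _ hs' (he' _ _) es']
    exact un hs hs' q1 q2 ((un hs (ht _) (r1 _ _) (r2 _ _ _ (he _ _)) es q1 q3).trans
      (un hs' (ht _) (r1 _ _) (r2 _ _ _ (he' _ _)) es' q2 q3).symm) rfl rfl
  refine ⟨⟨fun a => l a.2.choose ⟨a, a.2.choose_spec⟩, continuous_iff_continuousAt.2 fun a => ?_,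
    fun a => l2 _ _⟩, ?_⟩
  · obtain ⟨b, hb⟩ := a.2
    classical
    have h1 : ∀ᶠ z : {v : (κ → W) × T | ∃ b, v.1 b ∈ G} in 𝓝 a, z.1.1 b ∈ G :=
      (show Continuous fun z : {v : (κ → W) × T | ∃ b, v.1 b ∈ G} => z.1.1 b by
        fun_prop).continuousAt.eventually_mem (hG.mem_nhds hb)
    refine ContinuousAt.congr (f := fun z => l b (if h : z.1.1 b ∈ G then ⟨z.1, h⟩ else ⟨a.1, hb⟩))
      ((l1 b).continuousAt.comp (Topology.IsInducing.subtypeVal.continuousAt_iff.2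
        (continuous_subtype_val.continuousAt.congr (h1.mono fun z hz => by simp [hz])))) ?_
    filter_upwards [h1] with z hz
    rw [dif_pos hz]
    exact cmp _ _ _ _ _
  · refine (cmp _ b₀ a₀ _ hb₀).trans ((l3 b₀ ⟨a₀, hb₀⟩ s₁ _ hs₁ (he b₀ b₀) ?_).trans e₁)
    exact e₂.symm.trans (un hs₂ (ht _) rfl rfl (ht0 _).symm (r2 _ _ _ (he _ _)) (r2 _ _ _ (he _ _)))

end join

section push

/-- The normalising factor of the push. -/
noncomputable def pA (y : Fin 3 → ℝ) : ℝ := max (∑ c, (ex (y c)).im ^ 2) (1 / 2)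

/-- The pushed point of the torus. -/
noncomputable def pu (y : Fin 3 → ℝ) (Δ : ℝ) (c : Fin 3) : ℂ :=
  ((ex (y c)).re + Δ * ((ex (y c)).im ^ 2 / pA y) : ℝ) + ((ex (y c)).im *
    √(1 - (2 * Δ * (ex (y c)).re + Δ ^ 2 * ((ex (y c)).im ^ 2 / pA y)) / pA y) : ℝ) * I

/-- The pushed point. -/
noncomputable def psh (y : Fin 3 → ℝ) (Δ : ℝ) (c : Fin 3) : ℝ :=
  y c + lg (pu y Δ c * conj (ex (y c)))

theorem pA_ge (y : Fin 3 → ℝ) : 1 / 2 ≤ pA y := le_max_right _ _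

theorem pu_spec (y : Fin 3 → ℝ) {Δ : ℝ} (h : |Δ| ≤ 1 / 10) (c : Fin 3) :
    normSq (pu y Δ c) = 1 ∧ 0 < (pu y Δ c * conj (ex (y c))).re := by
  have h1 := pA_ge y
  have h2 : (ex (y c)).im ^ 2 ≤ pA y := le_max_of_le_left (Finset.single_le_sum
    (f := fun c => (ex (y c)).im ^ 2) (fun _ _ => sq_nonneg _) (Finset.mem_univ c))
  have h3 := normSq_ex (y c)
  rw [normSq_apply] at h3
  unfold pu
  generalize (ex (y c)) = u at *
  generalize pA y = A at *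
  have hA : 0 < A := by linarith
  obtain ⟨ψ, hψ⟩ : ∃ ψ, ψ = u.im ^ 2 / A := ⟨_, rfl⟩
  have h4 : 0 ≤ ψ ∧ ψ ≤ 1 := hψ ▸ ⟨by positivity, (div_le_one hA).2 h2⟩
  have h5 : |u.re| ≤ 1 := abs_le_one_iff_mul_self_le_one.2 (by nlinarith)
  have h6 : |Δ * u.re| ≤ 1 / 10 := by rw [abs_mul]; nlinarith [abs_nonneg Δ, abs_nonneg u.re]
  have h7 : Δ ^ 2 ≤ 1 / 100 := by nlinarith [abs_nonneg Δ, sq_abs Δ]
  obtain ⟨h8, h9⟩ := abs_le.1 h6
  rw [← hψ]
  have h10 : 1 / 4 ≤ 1 - (2 * Δ * u.re + Δ ^ 2 * ψ) / A := by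
    have : (2 * Δ * u.re + Δ ^ 2 * ψ) / A ≤ 3 / 4 := by
      rw [div_le_iff₀ hA]; nlinarith [h4.1, h4.2, sq_nonneg Δ]
    linarith
  have h11 := Real.mul_self_sqrt (le_trans (by norm_num) h10)
  have h12 : 1 / 2 ≤ √(1 - (2 * Δ * u.re + Δ ^ 2 * ψ) / A) := Real.le_sqrt_of_sq_le (by linarith)
  generalize √(1 - (2 * Δ * u.re + Δ ^ 2 * ψ) / A) = r at *
  have h13 : u.im ^ 2 = ψ * A := by rw [hψ]; field_simp
  simp only [normSq_apply, add_re, add_im, mul_re, mul_im, ofReal_re, ofReal_im, I_re, I_im,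
    conj_re, conj_im]
  constructor
  · have : u.im ^ 2 * (r * r) = u.im ^ 2 - ψ * (2 * Δ * u.re + Δ ^ 2 * ψ) := by
      rw [h11, h13]; field_simp
    linear_combination this + h3
  · nlinarith [h4.1, h4.2, mul_self_nonneg u.im, mul_self_nonneg u.re]

theorem ex_psh (y : Fin 3 → ℝ) {Δ : ℝ} (h : |Δ| ≤ 1 / 10) (c : Fin 3) :
    ex (psh y Δ c) = pu y Δ c := by
  rw [psh, ex_add, ex_lg (by simp [(pu_spec y h c).1]), mul_left_comm, mul_conj]; simp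

theorem psh_zero (y : Fin 3 → ℝ) : psh y 0 = y := by
  ext c; simp [psh, pu, mul_conj]

theorem psh_sum (y : Fin 3 → ℝ) {Δ : ℝ} (h : |Δ| ≤ 1 / 10) (h' : (∑ c, (ex (y c)).re) ^ 2 ≤ 1 / 2) :
    ∑ c, (ex (psh y Δ c)).re = ∑ c, (ex (y c)).re + Δ := by
  have h1 : pA y = ∑ c, (ex (y c)).im ^ 2 :=
    max_eq_left (by linarith [unit_sum fun c => normSq_ex (y c)])
  have h2 := pA_ge y
  simp only [ex_psh y h, pu, add_re, ofReal_re, re_ofReal_mul, I_re, mul_zero, add_zero,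
    Finset.sum_add_distrib, ← Finset.mul_sum, ← Finset.sum_div, ← h1]
  rw [div_self (by linarith), mul_one]

theorem psh_cont {p : (Fin 3 → ℝ) × ℝ} (h : |p.2| ≤ 1 / 10) :
    ContinuousAt (fun p : (Fin 3 → ℝ) × ℝ => psh p.1 p.2) p := by
  refine continuousAt_pi.2 fun c => ContinuousAt.add (by fun_prop) ?_
  refine ContinuousAt.comp (g := lg) (lg_smooth (k := 0) (Or.inl (pu_spec _ h c).2)).continuousAt
    (Continuous.continuousAt ?_)
  have h1 : Continuous pA := by unfold pA; fun_prop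
  unfold pu
  fun_prop (disch := exact fun p => (lt_of_lt_of_le one_half_pos (pA_ge _)).ne')

end push

namespace Cx

variable {V : Type} [Fintype V] [DecidableEq V] (X : Cx V)

/-- The squared size of the collapsing map. -/
noncomputable def mu (s : ℝ) : ℝ := X.g0 s ^ 2 * s

/-- The inverse of `mu`. -/
noncomputable def Sinv : ℝ → ℝ := Function.invFunOn X.mu (Ioo 0 (X.ρ ^ 2))

theorem g0_pos {s : ℝ} (h : s ∈ Ioo 0 (X.ρ ^ 2)) : 0 < X.g0 s :=
  div_pos (expNegInvGlue.pos_of_pos (sub_pos.2 h.2)) h.1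

theorem g0_zero {s : ℝ} (h : X.ρ ^ 2 ≤ s) : X.g0 s = 0 := by
  simp [g0, expNegInvGlue.zero_of_nonpos (sub_nonpos.2 h)]

theorem g0_smooth {k : ℕ∞} {s : ℝ} (h : s ≠ 0) : ContDiffAt ℝ k X.g0 s := by
  unfold g0; fun_prop (disch := exact h)

theorem mu_eq {s : ℝ} (h : 0 < s) : X.mu s = gl (X.ρ ^ 2 - s) ^ 2 / s := by
  unfold mu g0; field_simp

theorem mu_anti {s t : ℝ} (h : 0 < s) (h' : s ≤ t) : X.mu t ≤ X.mu s := by
  rw [X.mu_eq h, X.mu_eq (h.trans_le h')]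
  exact div_le_div₀ (sq_nonneg _) (pow_le_pow_left₀ (expNegInvGlue.nonneg _)
    (expNegInvGlue.monotone (by linarith)) 2) h h'

theorem mu_deriv {s : ℝ} (h : s ∈ Ioo 0 (X.ρ ^ 2)) : ∃ a, a < 0 ∧ HasDerivAt X.mu a s := by
  obtain ⟨g', h1, h2⟩ := X.g0_deriv h.1 (X.g0_pos h).ne'
  refine ⟨_, ?_, (h1.fun_pow 2).fun_mul (hasDerivAt_id s)⟩
  simp only [Nat.cast_ofNat, Nat.add_one_sub_one, pow_one, id]
  nlinarith [mul_neg_of_pos_of_neg (X.g0_pos h) h2]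

theorem Sinv_mu {s : ℝ} (h : s ∈ Ioo 0 (X.ρ ^ 2)) : X.Sinv (X.mu s) = s :=
  (strictAntiOn_of_deriv_neg (convex_Ioo _ _) (fun t ht => let ⟨_, _, h⟩ := X.mu_deriv ht;
    h.continuousAt.continuousWithinAt) fun t ht => let ⟨_, h1, h⟩ := X.mu_deriv (interior_subset ht);
    h.deriv ▸ h1).injOn.leftInvOn_invFunOn h

theorem exists_mu {y : ℝ} (h : 0 < y) : ∃ s ∈ Ioo 0 (X.ρ ^ 2), X.mu s = y := by
  have h0 := pow_pos X.ρ_pos 2
  have h1 := expNegInvGlue.pos_of_pos (half_pos h0)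
  set a := min (X.ρ ^ 2 / 2) (gl (X.ρ ^ 2 / 2) ^ 2 / y)
  have h2 : 0 < a := by positivity
  have h3 : a ≤ X.ρ ^ 2 / 2 := min_le_left _ _
  have h4 : y ≤ X.mu a := by
    have h5 := (le_div_iff₀ h).1 (min_le_right _ _ : a ≤ _)
    have h6 : gl (X.ρ ^ 2 / 2) ≤ gl (X.ρ ^ 2 - a) := expNegInvGlue.monotone (by linarith)
    rw [X.mu_eq h2, le_div_iff₀ h2]
    nlinarith
  have h5 : X.mu (X.ρ ^ 2) = 0 := by simp [mu, X.g0_zero le_rfl]
  obtain ⟨s, hs, e⟩ := intermediate_value_Icc' (show a ≤ X.ρ ^ 2 by linarith) (f := X.mu)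
    (fun t ht => (((X.g0_smooth (k := 0) (h2.trans_le ht.1).ne').continuousAt.pow 2).mul
      continuousAt_id).continuousWithinAt) ⟨h5 ▸ h.le, h4⟩
  exact ⟨s, ⟨h2.trans_le hs.1, lt_of_le_of_ne hs.2 fun e' => by rw [e', h5] at e; linarith⟩, e⟩

theorem Sinv_spec {y : ℝ} (h : 0 < y) : X.Sinv y ∈ Ioo 0 (X.ρ ^ 2) ∧ X.mu (X.Sinv y) = y :=
  Function.invFunOn_pos (X.exists_mu h)

theorem Sinv_smooth {y : ℝ} (h : 0 < y) : ContDiffAt ℝ 1 X.Sinv y := by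
  obtain ⟨s, hs, rfl⟩ := X.exists_mu h
  obtain ⟨a, h1, h2⟩ := X.mu_deriv hs
  have h3 : ContDiffAt ℝ 1 X.mu s := ((X.g0_smooth (k := 1) hs.1.ne').pow 2).mul contDiffAt_id
  refine (h3.to_localInverse (h2.hasFDerivAt_equiv h1.ne) one_ne_zero).congr_of_eventuallyEq
    ((h3.hasStrictFDerivAt' (h2.hasFDerivAt_equiv h1.ne) one_ne_zero).localInverse_unique ?_)
  filter_upwards [Ioo_mem_nhds hs.1 hs.2] with t ht using X.Sinv_mu ht

/-- The point of the sphere with given coordinates. -/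
noncomputable def wOf (ξ : X.κ → ℝ) : V → ℝ := (X.unxi (√(1 - ∑ j, ξ (Sum.inl j) ^ 2)) 0 ξ).1

/-- The normal vector with given coordinates. -/
noncomputable def vOf (ξ : X.κ → ℝ) : ℝ × ℂ :=
  (√(X.d ^ 2 - X.phi (X.wOf ξ) - (ξ (Sum.inr 0) ^ 2 + ξ (Sum.inr 1) ^ 2)),
    ξ (Sum.inr 0) + ξ (Sum.inr 1) * I)

/-- The point of the neck with given coordinates. -/
noncomputable def mkA (q : XT X.κ) (ξ : X.κ → ℝ) : X.Amb :=
  (Ex q.1, X.wOf ξ, X.vOf ξ, ex q.2 • Zs (q.1 X.b₀ 0) (q.1 X.b₀ 1))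

theorem xi_of (ξ : X.κ → ℝ) : X.xi (X.wOf ξ) (X.vOf ξ) = ξ := by
  ext (j | j)
  · simp [xi, wOf, unxi, j.2]
  · fin_cases j <;> simp [xi, vOf]

theorem sum_erase_o (w : V → ℝ) :
    ∑ j ∈ Finset.univ.erase X.o, w j ^ 2 = ∑ j : {j // j ≠ X.o}, w j ^ 2 :=
  Finset.sum_subtype (Finset.univ.erase X.o) (p := fun j => j ≠ X.o) (F := inferInstance)
    (by simp) _

variable {X}

theorem rad_pos {ξ : X.κ → ℝ} (h : ∑ b, ξ b ^ 2 ≤ 4 * X.ρ ^ 2) :
    0 < 1 - ∑ j, ξ (Sum.inl j) ^ 2 ∧ ∑ i, X.wOf ξ i ^ 2 = 1 ∧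
      0 < X.d ^ 2 - X.phi (X.wOf ξ) - (ξ (Sum.inr 0) ^ 2 + ξ (Sum.inr 1) ^ 2) := by
  rw [Fintype.sum_sum_type, Fin.sum_univ_two] at h
  have h0 : 0 ≤ ∑ j, ξ (Sum.inl j) ^ 2 := Finset.sum_nonneg fun _ _ => sq_nonneg _
  have h1 : 0 < 1 - ∑ j, ξ (Sum.inl j) ^ 2 := by nlinarith [X.hρη, X.η_le]
  have h2 : ∑ j ∈ Finset.univ.erase X.o, X.wOf ξ j ^ 2 = ∑ j, ξ (Sum.inl j) ^ 2 := by
    rw [sum_erase_o]
    exact Finset.sum_congr rfl fun j _ => by simp [wOf, unxi, j.2]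
  have h3 : ∑ i, X.wOf ξ i ^ 2 = 1 := by
    rw [← Finset.add_sum_erase _ _ (Finset.mem_univ X.o), h2]
    simp [wOf, unxi, Real.sq_sqrt h1.le]
  have h4 := phi_le (X := X) h3
  have h6 : (0 : ℝ) < 2 ^ Fintype.card V := by positivity
  rw [h2] at h4
  exact ⟨h1, h3, by nlinarith [X.hρ, pow_pos X.ρ_pos 2]⟩

theorem inB_of {ξ : X.κ → ℝ} (h : ∑ b, ξ b ^ 2 ≤ 4 * X.ρ ^ 2) :
    X.InB (X.wOf ξ) (X.vOf ξ) ∧ X.D3 (X.wOf ξ) (X.vOf ξ) = ∑ b, ξ b ^ 2 := by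
  obtain ⟨h1, h2, h3⟩ := rad_pos h
  have hB : X.InB (X.wOf ξ) (X.vOf ξ) := ⟨h2, by
    simp only [vOf, Real.sq_sqrt h3.le, normSq_add_mul_I]; ring⟩
  have hs : X.s (X.wOf ξ) (X.vOf ξ) = ∑ b, ξ b ^ 2 := by rw [s, xi_of]
  refine ⟨hB, ?_⟩
  rcases hB.cases (hs ▸ h) with h4 | h4 | h4
  · rw [D3, X.T_one h4.1.le h4.2.le, hs]; ring
  · exact absurd h4 (by simp [wOf, unxi])
  · exact absurd h4 (by simp [vOf])

theorem mkA_smooth {k : ℕ∞} {p : XT X.κ × (X.κ → ℝ)} (h : ∑ b, p.2 b ^ 2 ≤ 4 * X.ρ ^ 2) :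
    ContDiffAt ℝ k (fun p : XT X.κ × (X.κ → ℝ) => X.mkA p.1 p.2) p := by
  obtain ⟨h1, -, h3⟩ := rad_pos h
  have h4 : ContDiffAt ℝ k (fun p : XT X.κ × (X.κ → ℝ) => X.wOf p.2) p := by
    refine contDiffAt_pi.2 fun j => ?_
    by_cases hj : j = X.o
    · simp only [wOf, unxi, hj, dif_pos]; fun_prop (disch := exact h1.ne')
    · simp only [wOf, unxi, hj, dif_neg, not_false_eq_true]; fun_prop
  unfold mkA vOf
  fun_prop (disch := exact h3.ne')

/-- The equations of the neck in coordinates. -/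
structure OkN (q : XT X.κ) (ξ : X.κ → ℝ) : Prop where
  pos : 0 < ∑ b, ξ b ^ 2
  lt : ∑ b, ξ b ^ 2 < 4 * X.ρ ^ 2
  ph : X.Ph (Ex q.1) = X.g0 (∑ b, ξ b ^ 2) • ξ

theorem InB.o_big {w : V → ℝ} {v : ℝ × ℂ} (h : X.InB w v) (hs : X.D3 w v ≤ 4 * X.ρ ^ 2) :
    X.η < w X.o ^ 2 := by
  linarith [(h.near ((h.neck hs).2.2 ▸ hs)).1, X.η_le]

theorem sec_o (x : X.κ → Fin 3 → ℝ) (w : V → ℝ) : X.sec X.o x w = Zs (x X.b₀ 0) (x X.b₀ 1) :=
  if_neg X.hoC

theorem OkN.inZ {q : XT X.κ} {ξ : X.κ → ℝ} (h : OkN q ξ) : X.InZ (X.mkA q ξ) := by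
  obtain ⟨h1, h2⟩ := inB_of h.lt.le
  refine ⟨fun _ _ => normSq_ex _, h1, h2 ▸ h.pos, ?_, ?_⟩
  · simp only [mkA, h1.gam_eq (h2 ▸ h.lt.le), s, xi_of, h.ph]
  · have := sec_spec (x := q.1) h1 (fun e => absurd e X.hoC) fun _ => by
      unfold sg2; linarith [sq_add_le h1.sw X.hoC, h1.o_big (h2 ▸ h.lt.le)]
    rw [sec_o] at this
    exact (hopf_smul _ (normSq_ex _)).trans this.2

/-- The collar function on the level set. -/
noncomputable def DZ (m : X.lev.Z) : ℝ := X.D3 m.1.2.1 m.1.2.2.1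

theorem DZ_lip {f : ℝ → ℝ} (hf : ContDiff ℝ 1 f) (m : X.lev.Z) : LipAt (fun m => f (DZ m)) m :=
  (ContDiffAt.lipAt (f := fun m : X.Amb => f (X.D3 m.2.1 m.2.2.1)) (by
    have := X.D3_smooth (k := 1); fun_prop)).comp'
    (LipschitzWith.lipAt isometry_subtype_coe.lipschitz _)

@[fun_prop] theorem DZ_cont : Continuous (DZ : X.lev.Z → ℝ) :=
  continuous_iff_continuousAt.2 fun m => (DZ_lip contDiff_id m).continuousAt

/-- The cover of the neck. -/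
def N (X : Cx V) : Type := {a : X.Lift X.o // DZ a.1.1 < 4 * X.ρ ^ 2}

noncomputable instance : TopologicalSpace X.N := instTopologicalSpaceSubtype

/-- The projection of the cover of the neck. -/
def N.J (a : X.N) : X.lev.Z := a.1.1.1

/-- The coordinates in the nilpotent group. -/
def N.q (a : X.N) : XT X.κ := a.1.1.2

/-- The normal coordinates. -/
def N.ξ (a : X.N) : X.κ → ℝ := X.xi a.J.1.2.1 a.J.1.2.2.1

theorem N.emb : IsOpenEmbedding (Subtype.val : X.N → X.Lift X.o) :=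
  (isOpen_lt (DZ_cont.comp (Lift.loc _).continuous) continuous_const).isOpenEmbedding_subtypeVal

theorem N.loc : IsLocalHomeomorph (N.J : X.N → _) := (Lift.loc _).comp N.emb.isLocalHomeomorph

@[fun_prop] theorem N.J_cont : Continuous (N.J : X.N → _) := N.loc.continuous

@[fun_prop] theorem N.q_cont : Continuous (N.q : X.N → _) :=
  continuous_snd.comp (continuous_subtype_val.comp continuous_subtype_val)

@[fun_prop] theorem N.ξ_cont : Continuous (N.ξ : X.N → _) :=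
  (X.xi_smooth (k := 0)).continuous.comp (f := fun a : X.N => (a.J.1.2.1, a.J.1.2.2.1))
    (by fun_prop)

theorem N.ext' {a b : X.N} (h : a.J = b.J) (h' : a.q = b.q) : a = b :=
  Subtype.ext (Subtype.ext (Prod.ext h h'))

theorem N.cont_iff {T : Type} [TopologicalSpace T] {f : T → X.N} (h : Continuous fun t => ((f t).J : X.Amb))
    (h' : Continuous fun t => (f t).q) : Continuous f :=
  continuous_induced_rng.2 (continuous_induced_rng.2 ((continuous_induced_rng.2 h).prodMk h'))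

theorem N.sum_ξ (a : X.N) : ∑ b, a.ξ b ^ 2 = DZ a.J := ((inZ a.J).B.neck a.2.le).2.2.symm

theorem N.ok (a : X.N) : OkN a.q a.ξ := by
  refine ⟨a.sum_ξ ▸ (inZ a.J).pos, a.sum_ξ ▸ a.2, ?_⟩
  rw [← show _ = Ex a.q.1 from a.1.2.2.1]
  exact (inZ a.J).ph.trans (by rw [(inZ a.J).B.gam_eq a.2.le]; rfl)

theorem N.mk_eq (a : X.N) : X.mkA a.q a.ξ = a.J := by
  have hB := (inZ a.J).B
  obtain ⟨⟨h1, h2⟩, -⟩ := hB.neck a.2.le
  have h3 : X.wOf a.ξ = a.J.1.2.1 := by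
    ext j
    by_cases hj : j = X.o
    · subst hj
      have := Finset.add_sum_erase _ (fun i => a.J.1.2.1 i ^ 2) (Finset.mem_univ X.o)
      rw [sum_erase_o, hB.sw] at this
      simp only [wOf, unxi, dif_pos, N.ξ, xi, Sum.elim_inl]
      rw [← this, add_sub_cancel_right, Real.sqrt_sq (by linarith)]
    · simp [wOf, unxi, hj, N.ξ, xi]
  refine Prod.ext a.1.2.2.1.symm (Prod.ext h3 (Prod.ext (Prod.ext ?_ ?_) ?_))
  · have := hB.sv
    rw [normSq_apply] at this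
    simp only [mkA, vOf, h3]
    rw [← Real.sqrt_sq (show 0 ≤ a.J.1.2.2.1.1 by linarith [X.d_pos])]
    congr 1
    simp [N.ξ, xi]
    linarith
  · simp [mkA, vOf, N.ξ, xi]
  · exact (a.1.2.2.2.trans (by rw [sec_o]; rfl)).symm

/-- The point of the cover of the neck with given coordinates. -/
noncomputable def OkN.mk' {q : XT X.κ} {ξ : X.κ → ℝ} (h : OkN q ξ) : X.N :=
  ⟨⟨(⟨X.mkA q ξ, mem_Z.2 h.inZ⟩, q), h.inZ.B.o_big ((inB_of h.lt.le).2.trans_le h.lt.le), rfl,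
    by rw [sec_o]; rfl⟩, (inB_of h.lt.le).2.trans_lt h.lt⟩

theorem OkN.mk'_ξ {q : XT X.κ} {ξ : X.κ → ℝ} (h : OkN q ξ) : h.mk'.ξ = ξ := X.xi_of ξ

theorem OkN.eq_mk' {q : XT X.κ} {ξ : X.κ → ℝ} (h : OkN q ξ) {a : X.N} (h1 : a.q = q)
    (h2 : a.ξ = ξ) : h.mk' = a := by
  subst h1 h2; exact N.ext' (Subtype.ext a.mk_eq) rfl

theorem OkN.cont {T : Type} [TopologicalSpace T] {q : T → XT X.κ} {ξ : T → X.κ → ℝ}
    (hq : Continuous q) (hξ : Continuous ξ) (h : ∀ t, OkN (q t) (ξ t)) :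
    Continuous fun t => (h t).mk' :=
  N.cont_iff (continuous_iff_continuousAt.2 fun t => (mkA_smooth (k := 0) (p := (q t, ξ t))
    (h t).lt.le).continuousAt.comp (f := fun t => (q t, ξ t)) (by fun_prop)) hq

/-- The normal coordinates as a function of the torus coordinates. -/
noncomputable def xiOf (x : X.κ → Fin 3 → ℝ) : X.κ → ℝ :=
  (X.g0 (X.Sinv (∑ b, X.Ph (Ex x) b ^ 2)))⁻¹ • X.Ph (Ex x)

theorem sum_sq_pos {ι : Type} [Fintype ι] {y : ι → ℝ} (h : y ≠ 0) : 0 < ∑ b, y b ^ 2 := by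
  obtain ⟨b, hb⟩ := Function.ne_iff.1 h
  exact Finset.sum_pos' (fun _ _ => sq_nonneg _) ⟨b, Finset.mem_univ _, sq_pos_of_ne_zero hb⟩

theorem ok_xiOf {q : XT X.κ} (h : X.Ph (Ex q.1) ≠ 0) :
    OkN q (xiOf q.1) ∧ ∑ b, xiOf q.1 b ^ 2 < X.ρ ^ 2 := by
  obtain ⟨h1, h2⟩ := X.Sinv_spec (sum_sq_pos h)
  have h3 := (X.g0_pos h1).ne'
  have h4 : ∑ b, xiOf q.1 b ^ 2 = X.Sinv (∑ b, X.Ph (Ex q.1) b ^ 2) := by
    simp only [xiOf, Pi.smul_apply, smul_eq_mul, mul_pow, ← Finset.mul_sum]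
    nth_rewrite 2 [← h2]
    unfold mu
    field_simp
  refine ⟨⟨h4 ▸ h1.1, h4 ▸ by nlinarith [h1.2, sq_nonneg X.ρ], ?_⟩, h4 ▸ h1.2⟩
  rw [h4, xiOf, smul_inv_smul₀ h3]

theorem OkN.xiOf_eq {q : XT X.κ} {ξ : X.κ → ℝ} (h : OkN q ξ) (h' : ∑ b, ξ b ^ 2 < X.ρ ^ 2) :
    X.Ph (Ex q.1) ≠ 0 ∧ xiOf q.1 = ξ := by
  have h1 := (X.g0_pos ⟨h.pos, h'⟩).ne'
  refine ⟨h.ph ▸ smul_ne_zero h1 fun e => by simpa [e] using h.pos, ?_⟩
  simp only [xiOf, h.ph, Pi.smul_apply, smul_eq_mul, mul_pow, ← Finset.mul_sum]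
  rw [← mu, X.Sinv_mu ⟨h.pos, h'⟩, inv_smul_smul₀ h1]

theorem xiOf_smooth {x : X.κ → Fin 3 → ℝ} (h : X.Ph (Ex x) ≠ 0) : ContDiffAt ℝ 1 xiOf x := by
  obtain ⟨h1, -⟩ := X.Sinv_spec (sum_sq_pos h)
  have h2 : ContDiff ℝ 1 fun x : X.κ → Fin 3 → ℝ => X.Ph (Ex x) :=
    (X.Ph_smooth (k := 1)).comp Ex_smooth
  exact ((ContDiffAt.comp (g := X.g0) x (X.g0_smooth (k := 1) h1.1.ne') ((X.Sinv_smooth (sum_sq_pos h)).comp x
    (f := fun x => ∑ b, X.Ph (Ex x) b ^ 2) (by fun_prop))).inv (X.g0_pos h1).ne').smul h2.contDiffAt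

/-- The inner part of the neck in coordinates. -/
def P0 (X : Cx V) : Set (XT X.κ) := {q | ∃ b, q.1 b ∈ {y : Fin 3 → ℝ | ∑ c, (ex (y c)).re ≠ 0}}

theorem mem_P0 {q : XT X.κ} : q ∈ X.P0 ↔ X.Ph (Ex q.1) ≠ 0 := Function.ne_iff.symm

theorem three (b c : X.κ) : ∃ e, e ≠ b ∧ e ≠ c := by
  by_contra h
  push Not at h
  have h1 := h (Sum.inl ⟨X.C, X.hoC.symm⟩)
  have h2 := h (Sum.inr 0)
  have h3 := h (Sum.inr 1)
  rcases b with b | b
  · simpa using (h2 (by simp)).trans (h3 (by simp)).symm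
  · fin_cases b
    · simpa using (h1 (by simp)).trans (h3 (by simp)).symm
    · simpa using (h1 (by simp)).trans (h2 (by simp)).symm

theorem P0_conn : IsPreconnected X.P0 := preconn_join three (by simp)

theorem P0_open : IsOpen X.P0 := by
  simp only [P0, ofPred_exists]
  exact isOpen_iUnion fun b => isOpen_ne_fun (by fun_prop) continuous_const

/-- The parametrisation of the inner part of the neck. -/
noncomputable def jP (q : X.P0) : X.N := (ok_xiOf (mem_P0.1 q.2)).1.mk'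

theorem jP_cont : Continuous (jP : X.P0 → X.N) :=
  OkN.cont continuous_subtype_val (continuous_iff_continuousAt.2 fun q =>
    (xiOf_smooth (mem_P0.1 q.2)).continuousAt.comp (f := fun q : X.P0 => q.1.1) (by fun_prop)) _

theorem exists_push (X : Cx V) : ∃ h : ℝ → X.N → X.N, Continuous (fun z : ℝ × X.N => h z.1 z.2) ∧
    (∀ a, h 0 a = a) ∧ ∀ a, ∃ hq : (h 1 a).q ∈ X.P0, jP ⟨_, hq⟩ = h 1 a := by
  obtain ⟨⟨r0, r1⟩, r2⟩ := X.Sinv_spec (show (0 : ℝ) < 1 / 400 by norm_num)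
  set r := X.Sinv (1 / 400)
  let τ : ℝ → ℝ := fun t => max 0 (min t 1)
  let S : ℝ × X.N → ℝ := fun z => DZ z.2.J - τ z.1 * max (DZ z.2.J - r) 0
  let ξ : ℝ × X.N → X.κ → ℝ := fun z => √(S z / DZ z.2.J) • z.2.ξ
  let Δ : ℝ × X.N → X.κ → ℝ := fun z => X.g0 (S z) • ξ z - X.g0 (DZ z.2.J) • z.2.ξ
  let q : ℝ × X.N → XT X.κ := fun z => (fun b => psh (z.2.q.1 b) (Δ z b), z.2.q.2)
  have hp : ∀ a : X.N, 0 < DZ a.J := fun a => (inZ a.J).pos
  have hτ : ∀ t, 0 ≤ τ t ∧ τ t ≤ 1 := fun t => ⟨le_max_left _ _, max_le zero_le_one (min_le_right _ _)⟩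
  have hS : ∀ z, S z = DZ z.2.J ∨ (r ≤ S z ∧ S z ≤ DZ z.2.J) := fun z => by
    rcases le_total (DZ z.2.J - r) 0 with h | h
    · simp [S, max_eq_right h]
    · simp only [S, max_eq_left h]
      exact Or.inr ⟨by nlinarith [hτ z.1], by nlinarith [hτ z.1]⟩
  have hS' : ∀ z, 0 < S z ∧ S z ≤ DZ z.2.J := fun z => (hS z).elim
    (fun h => ⟨h ▸ hp _, h.le⟩) fun h => ⟨r0.trans_le h.1, h.2⟩
  have h1 : ∀ z, ∑ b, ξ z b ^ 2 = S z := fun z => by
    simp only [ξ, Pi.smul_apply, smul_eq_mul, mul_pow, ← Finset.mul_sum, N.sum_ξ]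
    rw [Real.sq_sqrt (div_pos (hS' z).1 (hp _)).le, div_mul_cancel₀ _ (hp _).ne']
  have h2 : ∀ z, S z = DZ z.2.J → ξ z = z.2.ξ ∧ Δ z = 0 := fun z h => by
    have : ξ z = z.2.ξ := by simp [ξ, h, (hp _).ne']
    exact ⟨this, by simp [Δ, h, this]⟩
  have h3 : ∀ (y : X.κ → ℝ) b, r ≤ ∑ b, y b ^ 2 → |X.g0 (∑ b, y b ^ 2) * y b| ≤ 1 / 20 := by
    intro y b h
    have h4 := X.mu_anti r0 h
    have h5 := Finset.single_le_sum (f := fun b => y b ^ 2) (fun _ _ => sq_nonneg _)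
      (Finset.mem_univ b)
    refine abs_le_of_sq_le_sq ?_ (by norm_num)
    rw [r2, mu] at h4
    nlinarith [sq_nonneg (X.g0 (∑ b, y b ^ 2))]
  have h4 : ∀ z b, |Δ z b| ≤ 1 / 10 := fun z b => by
    rcases hS z with h | h
    · simp [(h2 z h).2]
    · have h5 := h3 (ξ z) b (h1 z ▸ h.1)
      have h6 := h3 z.2.ξ b (z.2.sum_ξ ▸ h.1.trans h.2)
      rw [h1] at h5
      rw [N.sum_ξ] at h6
      exact (abs_sub _ _).trans (by simp only [Pi.smul_apply, smul_eq_mul]; linarith)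
  have h5 : ∀ z, OkN (q z) (ξ z) := fun z => by
    refine ⟨h1 z ▸ (hS' z).1, h1 z ▸ (hS' z).2.trans_lt z.2.2, ?_⟩
    have h6 := z.2.ok.ph
    rw [N.sum_ξ] at h6
    rcases hS z with h | h
    · simp only [q, h2 z h, Pi.zero_apply, psh_zero, N.sum_ξ, h6]
    · ext b
      have h7 := h3 z.2.ξ b (z.2.sum_ξ ▸ h.1.trans h.2)
      have h8 : ∑ c, (ex (z.2.q.1 b c)).re = X.g0 (DZ z.2.J) * z.2.ξ b := congrFun h6 b
      rw [N.sum_ξ, ← h8] at h7
      refine (psh_sum _ (h4 z b) (by nlinarith [abs_le.1 h7])).trans ?_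
      simp [h8, Δ, h1]
  have c1 : Continuous S := by simp only [S, τ]; fun_prop
  have c2 : Continuous ξ := by simp only [ξ]; fun_prop (disch := exact fun z => (hp _).ne')
  have c0 : ∀ f : ℝ × X.N → ℝ, Continuous f → (∀ z, 0 < f z) → Continuous fun z => X.g0 (f z) :=
    fun f hf h => continuous_iff_continuousAt.2 fun z =>
      (X.g0_smooth (k := 0) (h z).ne').continuousAt.comp hf.continuousAt
  have c3 : Continuous Δ := ((c0 _ c1 fun z => (hS' z).1).smul c2).sub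
    ((c0 _ (by fun_prop) fun z => hp _).smul (by fun_prop))
  have c4 : Continuous q := (continuous_pi fun b => continuous_iff_continuousAt.2 fun z =>
    (psh_cont (p := (z.2.q.1 b, Δ z b)) (h4 z b)).comp (f := fun z => (z.2.q.1 b, Δ z b))
      (by fun_prop)).prodMk (by fun_prop)
  refine ⟨fun t a => (h5 (t, a)).mk', OkN.cont c4 c2 h5, fun a => ?_, fun a => ?_⟩
  · have := h2 (0, a) (by simp [S, τ])
    exact (h5 _).eq_mk' (by simp [q, this.2, psh_zero]) this.1.symm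
  · have := (h5 (1, a)).xiOf_eq (by
      rw [h1]; simp only [S, τ, min_self, max_eq_right zero_le_one, one_mul]
      linarith [le_max_left (DZ a.J - r) 0])
    exact ⟨mem_P0.2 this.1, OkN.eq_mk' _ rfl ((OkN.mk'_ξ _).trans this.2.symm)⟩

instance : PreconnectedSpace X.N := by
  obtain ⟨h, h1, h2, h3⟩ := X.exists_push
  have := isPreconnected_iff_preconnectedSpace.1 (P0_conn (X := X))
  refine ⟨isPreconnected_of_forall (jP ⟨0, X.b₀, by simp⟩) fun a _ => ?_⟩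
  obtain ⟨hq, e⟩ := h3 a
  exact ⟨range jP ∪ range (h · a), subset_univ _, Or.inl ⟨_, rfl⟩, Or.inr ⟨0, h2 a⟩,
    (isPreconnected_range jP_cont).union (h 1 a) ⟨_, e⟩ ⟨1, rfl⟩
      (isPreconnected_range (h1.comp (f := fun t : ℝ => (t, a)) (by fun_prop)))⟩

theorem N.triv (Y : Type) [TopologicalSpace Y] (p : Y → X.lev.Z) (hp : IsCoveringMap p) :
    Triv p (N.J : X.N → _) := by
  classical
  obtain ⟨h, h1, h2, h3⟩ := X.exists_push
  choose hq e using h3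
  have h4 := triv_join hp three (G := {y : Fin 3 → ℝ | ∑ c, (ex (y c)).re ≠ 0})
    (isOpen_ne_fun (by fun_prop) continuous_const) (by simp) (f := fun q : XT X.κ =>
      if h : q ∈ X.P0 then (jP ⟨q, h⟩).J else (jP ⟨0, X.b₀, by simp⟩).J)
    (continuousOn_iff_continuous_domRestrict.2 ((N.J_cont.comp jP_cont).congr fun q => by
      simp only [domRestrict_apply, dif_pos (show q.1 ∈ X.P0 from q.2)]; rfl))
  have h5 := Triv.family hp convex_univ (J := fun t a => (h t a).J) (N.J_cont.comp h1).continuousOn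
    (mem_univ 0) (mem_univ 1) (h4.comp (φ := fun a => ⟨_, hq a⟩)
      ((N.q_cont.comp (h1.comp (f := fun a : X.N => (1, a)) (by fun_prop))).subtype_mk _)
      fun a => by rw [dif_pos (hq a), e])
  simpa only [h2] using h5

end Cx

end Pool.Agent.Lib.MP_4b70aa_gt
end

-- part Pool.Agent.Lib.MP_4b70aa_gt.Data
section

set_option autoImplicit false
set_option linter.unusedSectionVars false

open Filter Set Topology Complex
open scoped ContDiff ComplexConjugate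

namespace Pool.Agent.Lib.MP_4b70aa_gt

namespace Cx

variable {V : Type} [Fintype V] [DecidableEq V] {X : Cx V}

theorem Lift.cpt {i : V} {C : Set (X.lev.Z × XT X.κ)} (hC : IsClosed C) {M : ℝ}
    (h : ∀ z ∈ C, X.η < z.1.1.2.1 i ^ 2 ∧ ‖z.2‖ ≤ M) : IsCompact {a : X.Lift i | a.1 ∈ C} := by
  have := isCompact_iff_compactSpace.1 X.cpt
  refine Topology.IsInducing.subtypeVal.isCompact_iff.2 (((isCompact_univ (X := X.lev.Z)).prod
    (isCompact_closedBall (0 : XT X.κ) M)).of_isClosed_subset ?_ ?_)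
  · have h1 : IsClosed ({z ∈ C | z.1.1.1 = Ex z.2.1} ∩
        {z ∈ C | z.1.1.2.2.2 = ex z.2.2 • X.sec i z.2.1 z.1.1.2.1}) := by
      have c := (Ex_smooth (κ := X.κ) (k := 0)).continuous
      refine (hC.isClosed_eq (by fun_prop) (by fun_prop)).inter (hC.isClosed_eq (by fun_prop)
        (ContinuousOn.smul (f := fun z : X.lev.Z × XT X.κ => ex z.2.2) (by fun_prop) fun z hz => ContinuousAt.continuousWithinAt ?_))
      exact (sec_smooth (k := 0) (inZ z.1).B (fun e => X.η₀_lt.trans (e ▸ (h z hz).1))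
        z.2.1).continuousAt.comp (f := fun z : X.lev.Z × XT X.κ => (z.2.1, z.1.1.2.1))
        (by fun_prop)
    convert h1 using 1
    ext z
    exact ⟨fun ⟨a, ha, e⟩ => e ▸ ⟨⟨ha, a.2.2.1⟩, ha, a.2.2.2⟩,
      fun hz => ⟨⟨z, (h z hz.1.1).1, hz.1.2, hz.2.2⟩, hz.1.1, rfl⟩⟩
  · rintro _ ⟨a, ha, rfl⟩
    exact ⟨mem_univ _, mem_closedBall_zero_iff.2 (h _ ha).2⟩

theorem N.cpt {r : ℝ} (hr : r < 4 * X.ρ ^ 2) (M : ℝ) :
    IsCompact {a : X.N | DZ a.J ≤ r ∧ ‖a.q‖ ≤ M} := by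
  refine N.emb.isInducing.isCompact_iff.2 ?_
  convert Lift.cpt (X := X) (i := X.o) (C := {z | DZ z.1 ≤ r ∧ ‖z.2‖ ≤ M}) (M := M)
    ((isClosed_le (by fun_prop) continuous_const).and (isClosed_le (by fun_prop) continuous_const))
    fun z hz => ⟨(inZ z.1).B.o_big (hz.1.trans hr.le), hz.2⟩ using 1
  ext a
  exact ⟨fun ⟨b, hb, e⟩ => e ▸ hb, fun ha => ⟨⟨a, ha.1.trans_lt hr⟩, ha, rfl⟩⟩

noncomputable instance : MulAction X.Λ X.N where
  smul l a := ⟨⟨(a.J, l • a.q), a.1.2.1, a.1.2.2.smul l⟩, a.2⟩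
  one_smul a := N.ext' rfl (one_smul _ a.q)
  mul_smul l l' a := N.ext' rfl (mul_smul l l' a.q)

theorem N.smul_q (l : X.Λ) (a : X.N) : (l • a).q = l • a.q := rfl

theorem N.smul_J (l : X.Λ) (a : X.N) : (l • a).J = a.J := rfl

open Classical in
/-- A point of the level set, with a default value. -/
noncomputable def toZ (x : X.lev.Z) (m : X.Amb) : X.lev.Z :=
  if h : X.InZ m then ⟨m, mem_Z.2 h⟩ else x

theorem toZ_val (x : X.lev.Z) {m : X.Amb} (h : X.InZ m) : (toZ x m : X.Amb) = m := by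
  rw [toZ, dif_pos h]

/-- Change of the normal vector. -/
def chg (m : X.Amb) (v : ℝ × ℂ) : X.Amb := (m.1, m.2.1, v, m.2.2.2)

theorem InZ.chg {m : X.Amb} (h : X.InZ m) (h0 : X.ρ ^ 2 ≤ X.D3 m.2.1 m.2.2.1) {v : ℝ × ℂ}
    (h1 : v.1 ^ 2 + normSq v.2 = m.2.2.1.1 ^ 2 + normSq m.2.2.1.2)
    (h2 : X.ρ ^ 2 ≤ X.s m.2.1 v ∨ m.2.1 X.o ≤ 0 ∨ v.1 ≤ 0) : X.InZ (chg m v) := by
  refine ⟨h.u, ⟨h.B.sw, h1 ▸ h.B.sv⟩, ?_, ?_, h.hf⟩
  · have := X.s_nonneg m.2.1 v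
    have h3 := (X.T_mem m.2.1 v).2
    rcases h2 with h2 | h2
    · simp only [Cx.chg, D3]; linarith [pow_pos X.ρ_pos 2]
    · simp only [Cx.chg, D3, X.T_zero h2]; linarith
  · simp only [Cx.chg, X.gam_zero h2, (h.ph_zero h0).2, zero_smul]

theorem s_mono (w : V → ℝ) {v v' : ℝ × ℂ} (h : normSq v.2 ≤ normSq v'.2) : X.s w v ≤ X.s w v' := by
  rw [s_eq, s_eq]; linarith

theorem s_rot (w : V → ℝ) (v : ℝ × ℂ) {l : ℂ} (h : normSq l = 1) : X.s w (v.1, l * v.2) = X.s w v := by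
  simp [s_eq, h]

theorem D3_rot (w : V → ℝ) (v : ℝ × ℂ) {l : ℂ} (h : normSq l = 1) :
    X.D3 w (v.1, l * v.2) = X.D3 w v := by
  simp only [D3, s_rot w v h, T]

theorem InZ.rot {m : X.Amb} (h : X.InZ m) (h0 : X.ρ ^ 2 < X.D3 m.2.1 m.2.2.1) {l : ℂ}
    (hl : normSq l = 1) : X.InZ (Cx.chg m (m.2.2.1.1, l * m.2.2.1.2)) :=
  h.chg h0.le (by simp [hl]) (by
    rw [s_rot _ _ hl]; exact (h.B.out h0).imp le_of_lt (Or.imp le_of_lt le_of_lt))

/-- Rotation of the normal vector. -/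
noncomputable def rotR (s : ℝ) (x : X.lev.Z) : X.lev.Z :=
  toZ x (chg x.1 (x.1.2.2.1.1, ex s * x.1.2.2.1.2))

theorem rotR_val (s : ℝ) {x : X.lev.Z} (h : X.ρ ^ 2 < DZ x) :
    (rotR s x : X.Amb) = chg x.1 (x.1.2.2.1.1, ex s * x.1.2.2.1.2) :=
  toZ_val _ ((inZ x).rot h (normSq_ex _))

theorem DZ_rotR (s : ℝ) {x : X.lev.Z} (h : X.ρ ^ 2 < DZ x) : DZ (rotR s x) = DZ x := by
  rw [DZ, rotR_val s h]; exact D3_rot _ _ (normSq_ex _)

theorem rot_R : Rot X.lev {x | X.ρ ^ 2 < DZ x} rotR 7 := by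
  refine ⟨isOpen_lt continuous_const DZ_cont, ?_, fun s x h => lt_of_lt_of_eq h (DZ_rotR s h).symm,
    fun x h => Subtype.ext (by simp [rotR_val _ h, chg]), fun s t x h => Subtype.ext ?_,
    by norm_num, fun s a ha b hb => ?_, fun s t a ha => ?_, fun x h => ?_⟩
  · exact Topology.IsInducing.subtypeVal.continuousOn_iff.2 (ContinuousOn.congr
      (f := fun z : ℝ × X.lev.Z => chg z.2.1 (z.2.1.2.2.1.1, ex z.1 * z.2.1.2.2.1.2))
      (by unfold chg; fun_prop) fun z hz => rotR_val _ hz.2)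
  · rw [rotR_val _ h, rotR_val _ ((DZ_rotR t h).symm ▸ h), rotR_val _ h]
    simp [chg, ex_add, mul_assoc]
  · rw [Subtype.dist_eq, Subtype.dist_eq, rotR_val _ ha, rotR_val _ hb]
    refine le_trans (le_of_eq ?_) (le_mul_of_one_le_left dist_nonneg (by norm_num))
    simp only [chg, Prod.dist_eq, dist_eq_norm (ex s * _), ← mul_sub, norm_mul, norm_ex, one_mul,
      dist_eq_norm a.1.2.2.1.2]
  · rw [Subtype.dist_eq, rotR_val _ ha, rotR_val _ ha]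
    have h1 : ‖a.1.2.2.1.2‖ ≤ 1 :=
      norm_le_one_of_normSq (by nlinarith [(inZ a).v_le, sq_nonneg a.1.2.2.1.1])
    simp only [chg, Prod.dist_eq, dist_self, dist_eq_norm (ex s * _), ← sub_mul, norm_mul,
      max_le_iff]
    have := ex_lip s t
    refine ⟨by positivity, by positivity, ⟨by positivity, ?_⟩, by positivity⟩
    nlinarith [norm_nonneg (ex s - ex t)]
  by_cases h0 : x.1.2.2.1.2 = 0
  · refine Or.inr ⟨fun s => Subtype.ext (by rw [rotR_val _ h, h0, mul_zero, ← h0]; rfl),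
      (ContinuousLinearMap.id ℝ _).prodMap ((ContinuousLinearMap.id ℝ _).prodMap
        (((ContinuousLinearMap.id ℝ _).prodMap (-ContinuousLinearMap.id ℝ ℂ)).prodMap
        (ContinuousLinearMap.id ℝ _))), (0, 0, (0, 1), 0), by simp, by simp, fun y hy => ?_, ?_⟩
    · rw [rotR_val _ hy, ex_half, neg_one_mul]; rfl
    · have c1 : Continuous fun m : X.Amb => X.s m.2.1 m.2.2.1 :=
        (X.s_smooth (k := 0)).continuous.comp (f := fun m : X.Amb => (m.2.1, m.2.2.1)) (by fun_prop)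
      have h1 : ∀ᶠ m : X.Amb in 𝓝 x.1, X.ρ ^ 2 ≤ X.s m.2.1 m.2.2.1 ∨ m.2.1 X.o ≤ 0 ∨
          m.2.2.1.1 ≤ 0 := by
        rcases (inZ x).B.out h with h1 | h1 | h1
        · exact ((c1.tendsto _).eventually_const_le h1).mono fun _ => Or.inl
        · exact (((show Continuous fun m : X.Amb => m.2.1 X.o by fun_prop).tendsto
            _).eventually_le_const h1).mono fun _ h => Or.inr (Or.inl h)
        · exact (((show Continuous fun m : X.Amb => m.2.2.1.1 by fun_prop).tendsto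
            _).eventually_le_const h1).mono fun _ h => Or.inr (Or.inr h)
      filter_upwards [h1] with m hm
      have h2 : X.gam m.2.1 (m.2.2.1.1, -m.2.2.1.2) = 0 := X.gam_zero (by
        rwa [← neg_one_mul, s_rot _ _ (by simp)])
      change X.F (m.1, m.2.1, (m.2.2.1.1, -m.2.2.1.2), m.2.2.2) = X.F m
      simp only [F, h2, X.gam_zero hm, zero_smul, normSq_neg]
  · refine Or.inl ⟨(0, 0, (0, 2 * Real.pi * I * ex 0 * x.1.2.2.1.2), 0), by simp [h0], ?_⟩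
    simp only [rotR_val _ h]
    exact (hasDerivAt_const _ _).prodMk ((hasDerivAt_const _ _).prodMk (((hasDerivAt_const _
      _).prodMk ((ex_deriv 0).mul_const _)).prodMk (hasDerivAt_const _ _)))

theorem contr_R (x : X.lev.Z) (h : X.ρ ^ 2 < DZ x) : ∃ H : ℝ → ℝ → X.lev.Z,
    ContinuousOn (fun z : ℝ × ℝ => H z.1 z.2) (Icc 0 1 ×ˢ univ) ∧ (∀ s, H 0 s = rotR s x) ∧
      (∀ s, H 1 s = H 1 0) ∧ ∀ t ∈ Icc (0 : ℝ) 1, H t 1 = H t 0 := by
  set v := x.1.2.2.1 with hv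
  set r := √(v.1 ^ 2 + normSq v.2)
  have h1 : r ^ 2 = v.1 ^ 2 + normSq v.2 := Real.sq_sqrt (add_nonneg (sq_nonneg _) (normSq_nonneg _))
  have h2 : |v.1| ≤ r := Real.abs_le_sqrt (le_add_of_nonneg_right (normSq_nonneg _))
  obtain ⟨h3, h4⟩ := abs_le.1 h2
  let G : ℝ → ℝ → X.Amb := fun t s => chg x.1 ((1 - t) * v.1 - t * r,
    ex s * ((√(r ^ 2 - ((1 - t) * v.1 - t * r) ^ 2) : ℝ) * ex (lg v.2)))
  have h5 : ∀ t ∈ Icc (0 : ℝ) 1, ∀ s, X.InZ (G t s) := fun t ht s => by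
    have h6 : (1 - t) * v.1 - t * r ≤ v.1 := by nlinarith [ht.1]
    have h7 : -r ≤ (1 - t) * v.1 - t * r := by nlinarith [ht.2]
    have h8 : normSq (ex s * ((√(r ^ 2 - ((1 - t) * v.1 - t * r) ^ 2) : ℝ) * ex (lg v.2))) =
        r ^ 2 - ((1 - t) * v.1 - t * r) ^ 2 := by
      simp only [map_mul, normSq_ex, normSq_ofReal, one_mul, mul_one]
      exact Real.mul_self_sqrt (by nlinarith)
    refine (inZ x).chg h.le (by rw [h8, ← h1]; ring) ?_
    rcases le_or_gt ((1 - t) * v.1 - t * r) 0 with h9 | h9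
    · exact Or.inr (Or.inr h9)
    rcases (inZ x).B.out h with h10 | h10 | h10
    · exact Or.inl (h10.le.trans (s_mono _ (by rw [h8]; nlinarith)))
    · exact Or.inr (Or.inl h10.le)
    · linarith
  refine ⟨fun t s => toZ x (G t s), Topology.IsInducing.subtypeVal.continuousOn_iff.2
    (ContinuousOn.congr (f := fun z : ℝ × ℝ => G z.1 z.2) (by simp only [G, chg]; fun_prop)
      fun z hz => toZ_val _ (h5 _ hz.1 _)), fun s => ?_, fun s => by simp [G], fun t _ => by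
    simp [G]⟩
  simp only [G, rotR, sub_zero, one_mul, zero_mul, h1, add_sub_cancel_left, ← norm_def, ex_lg', hv]

/-- Rotation of the fibre. -/
noncomputable def rotT (s : ℝ) (x : X.lev.Z) : X.lev.Z :=
  ⟨(x.1.1, x.1.2.1, x.1.2.2.1, ex s • x.1.2.2.2), mem_Z.2 ⟨(inZ x).u, (inZ x).B, (inZ x).pos,
    (inZ x).ph, (hopf_smul _ (normSq_ex _)).trans (inZ x).hf⟩⟩

theorem norm_ex_smul (s : ℝ) (ζ : ℂ × ℂ) : ‖ex s • ζ‖ = ‖ζ‖ := by simp [norm_smul]

theorem rot_T : Rot X.lev univ rotT 7 := by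
  have hz : ∀ x : X.lev.Z, ‖x.1.2.2.2‖ ≤ 1 := fun x => norm_prod_le_iff.2
    ⟨norm_le_one_of_normSq (by linarith [(inZ x).zeta, normSq_nonneg x.1.2.2.2.2]),
      norm_le_one_of_normSq (by linarith [(inZ x).zeta, normSq_nonneg x.1.2.2.2.1])⟩
  refine ⟨isOpen_univ, Continuous.continuousOn (by unfold rotT; fun_prop), fun _ _ _ => trivial,
    fun x _ => Subtype.ext (by simp [rotT]), fun s t x _ => Subtype.ext (by
      simp [rotT, ex_add, mul_smul]), by norm_num, fun s a _ b _ => ?_, fun s t a _ => ?_,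
    fun x _ => Or.inl ⟨(0, 0, 0, (2 * Real.pi * I * ex 0) • x.1.2.2.2), ?_, ?_⟩⟩
  · rw [Subtype.dist_eq, Subtype.dist_eq]
    refine le_trans (le_of_eq ?_) (le_mul_of_one_le_left dist_nonneg (by norm_num))
    simp only [rotT, Prod.dist_eq, Prod.smul_fst, Prod.smul_snd, dist_smul₀, norm_ex, one_mul]
  · rw [Subtype.dist_eq]
    have h1 : dist (ex s • a.1.2.2.2) (ex t • a.1.2.2.2) ≤ 7 * |s - t| := by
      rw [dist_eq_norm, ← sub_smul, norm_smul]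
      nlinarith [norm_nonneg (ex s - ex t), hz a, ex_lip s t]
    exact max_le (by simp [rotT]) (max_le (by simp [rotT]) (max_le (by simp [rotT]) h1))
  · have : x.1.2.2.2 ≠ 0 := fun h => by simpa [h] using (inZ x).zeta
    simp [this]
  · exact (hasDerivAt_const _ _).prodMk ((hasDerivAt_const _ _).prodMk ((hasDerivAt_const _
      _).prodMk ((ex_deriv 0).smul_const _)))

/-- The cutoff function of the neck. -/
noncomputable def chi (x : X.lev.Z) : ℝ := st ((3 * X.ρ ^ 2 - DZ x) / (X.ρ ^ 2 / 2))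

theorem chi_lip (x : X.lev.Z) : LipAt chi x :=
  DZ_lip (f := fun s => st ((3 * X.ρ ^ 2 - s) / (X.ρ ^ 2 / 2))) (by
    have := st_smooth (k := 1); fun_prop) x

theorem chi_zero {x : X.lev.Z} (h : 3 * X.ρ ^ 2 ≤ DZ x) : chi x = 0 :=
  Real.smoothTransition.zero_of_nonpos (div_nonpos_of_nonpos_of_nonneg (by linarith)
    (by positivity))

theorem chi_one {x : X.lev.Z} (h : DZ x ≤ 5 / 2 * X.ρ ^ 2) : chi x = 1 :=
  Real.smoothTransition.one_of_one_le ((one_le_div (half_pos (pow_pos X.ρ_pos 2))).2 (by linarith))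

/-- The data for non-enlargeability. -/
noncomputable def data (a₀ : X.N) : NEData X.lev X.Λ X.N where
  J := N.J
  hJ := N.loc
  conn := inferInstance
  cact l := N.cont_iff (continuous_subtype_val.comp N.J_cont)
    ((l.smooth (k := 0)).continuous.comp N.q_cont)
  inv _ _ := rfl
  trans a b h := let ⟨l, hl⟩ := Lifts.exists_smul (inZ b.J) b.1.2.1 (h ▸ a.1.2.2) b.1.2.2
    ⟨l, N.ext' h hl⟩
  triv := N.triv
  a₀ := a₀
  K₀ := {a | DZ a.J ≤ 7 / 2 * X.ρ ^ 2 ∧ ‖a.q‖ ≤ 1 / 2}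
  hK₀ := N.cpt (by linarith [pow_pos X.ρ_pos 2]) _
  U := {x | DZ x < 7 / 2 * X.ρ ^ 2}
  hU := isOpen_lt DZ_cont continuous_const
  hUK x hx := by
    have h1 : DZ x < 4 * X.ρ ^ 2 := lt_trans hx (by linarith [pow_pos X.ρ_pos 2])
    obtain ⟨q, h2, h3⟩ := (inZ x).exists_lift ((inZ x).B.o_big h1.le)
    exact ⟨⟨⟨(x, q), (inZ x).B.o_big h1.le, h3⟩, h1⟩, ⟨le_of_lt hx, h2⟩, rfl⟩
  O := {x | X.ρ ^ 2 < DZ x}
  R := rotR
  CR := 7
  rot := rot_R
  contr := contr_R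
  O₁ := {x | 2 * X.ρ ^ 2 < DZ x}
  hO₁ := isOpen_lt continuous_const DZ_cont
  sub₁ x hx := show X.ρ ^ 2 < DZ x by
    linarith [pow_pos X.ρ_pos 2, show 2 * X.ρ ^ 2 < DZ x from hx]
  maps₁ s x hx := by
    simp only [mem_ofPred_eq] at *
    rw [DZ_rotR s (by linarith [pow_pos X.ρ_pos 2])]
    exact ⟨hx, id⟩
  lam x := st ((DZ x - 3 / 2 * X.ρ ^ 2) / (X.ρ ^ 2 / 2))
  lam_lip := DZ_lip (f := fun s => st ((s - 3 / 2 * X.ρ ^ 2) / (X.ρ ^ 2 / 2))) (by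
    have := st_smooth (k := 1); fun_prop)
  lam_mem _ := ⟨Real.smoothTransition.nonneg _, Real.smoothTransition.le_one _⟩
  lam_supp := (closure_minimal (t := {x | 3 / 2 * X.ρ ^ 2 ≤ DZ x}) (fun x hx => by
    by_contra h
    exact hx (Real.smoothTransition.zero_of_nonpos (div_nonpos_of_nonpos_of_nonneg
      (sub_nonpos.2 (not_le.1 h).le) (by positivity)))) (isClosed_le continuous_const DZ_cont)).trans
    fun x hx => show X.ρ ^ 2 < DZ x by
      linarith [pow_pos X.ρ_pos 2, show 3 / 2 * X.ρ ^ 2 ≤ DZ x from hx]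
  lam_inv s x hx := by rw [DZ_rotR s hx]
  lam_one x hx := Real.smoothTransition.one_of_one_le ((one_le_div (half_pos
    (pow_pos X.ρ_pos 2))).2 (by linarith [show 2 * X.ρ ^ 2 < DZ x from hx]))
  χ := chi
  χ_lip := chi_lip
  χ_supp := (closure_minimal (t := {x | DZ x ≤ 3 * X.ρ ^ 2}) (fun x hx => by
    by_contra h
    exact hx (chi_zero (not_le.1 h).le)) (isClosed_le DZ_cont continuous_const)).trans
    fun x hx => show DZ x < 7 / 2 * X.ρ ^ 2 by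
      linarith [pow_pos X.ρ_pos 2, show DZ x ≤ 3 * X.ρ ^ 2 from hx]
  χ_inv s x hx := by
    rw [chi, DZ_rotR s (by linarith [pow_pos X.ρ_pos 2, show 2 * X.ρ ^ 2 < DZ x from hx]), chi]
  χ_one x hx := ((DZ_cont.tendsto x).eventually_le_const (show DZ x < 5 / 2 * X.ρ ^ 2 by
    linarith [pow_pos X.ρ_pos 2, show DZ x ≤ 2 * X.ρ ^ 2 from not_lt.1 hx])).mono fun _ => chi_one
  T := rotT
  CT := 7
  rotT := rot_T
  mapsT _ _ := ⟨id, id⟩
  comm s t x hx := by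
    have h1 : X.ρ ^ 2 < DZ x := by linarith [pow_pos X.ρ_pos 2, show 2 * X.ρ ^ 2 < DZ x from hx]
    refine Subtype.ext ?_
    rw [rotR_val t (x := rotT s x) h1]
    simp only [rotT, rotR_val t h1, chg]
  z := Lam.z 1
  sh s a := ⟨⟨(rotT s a.J, (a.q.1, a.q.2 + s)), a.1.2.1, a.1.2.2.1, by
    rw [add_comm, ex_add, mul_smul]; exact congrArg (ex s • ·) a.1.2.2.2⟩, a.2⟩
  sh_cont a := N.cont_iff (by simp only [N.J, rotT]; fun_prop) (by simp only [N.q]; fun_prop)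
  sh_J _ _ := rfl
  sh_zero a := N.ext' (rot_T.zero _ trivial) (by simp [N.q])
  sh_one a := N.ext' (Subtype.ext (by simp [N.J, rotT]; rfl)) (by
    rw [N.smul_q, Lam.z_smul]; simp [N.q])

end Cx

end Pool.Agent.Lib.MP_4b70aa_gt
end
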