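import Mathlib

set_option autoImplicit false

open scoped Manifold ContDiff Topology ENNReal Bundle

namespace Pool.Agent.Lib.MP_4b70aa_gt

/-- Euclidean `n`-space. -/
abbrev E (n : ℕ) : Type := EuclideanSpace ℝ (Fin n)

section

variable {F H : Type} [NormedAddCommGroup F] [NormedSpace ℝ F] [TopologicalSpace H]
  {I : ModelWithCorners ℝ F H} {X Y : Type} [TopologicalSpace X] [ChartedSpace H X]
  [IsManifold I ∞ X] [TopologicalSpace Y] [ChartedSpace H Y] [IsManifold I ∞ Y]

variable (I X) in
/-- A smooth Riemannian metric on the manifold `X`. -/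
abbrev RMet : Type := Bundle.ContMDiffRiemannianMetric I ∞ F (fun x : X => TangentSpace I x)

/-- The scalar product of two tangent vectors at `x`. -/
noncomputable abbrev RMet.ip (g : RMet I X) (x : X) (u v : TangentSpace I x) : ℝ := g.inner x u v

/-- The Riemannian distance: the infimum of the lengths of `C^1` paths. -/
noncomputable abbrev RMet.dist (g : RMet I X) (x y : X) : ℝ≥0∞ :=
  letI : Bundle.RiemannianBundle (fun x : X => TangentSpace I x) := ⟨g.toRiemannianMetric⟩
  Manifold.riemannianEDist I x y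

/-- A smooth map whose differential preserves the metrics. -/
abbrev RMet.Preserves (h : RMet I Y) (g : RMet I X) (p : Y → X) : Prop :=
  ContMDiff I I ∞ p ∧ ∀ (y : Y) (u v : TangentSpace I y),
    g.ip (p y) (mfderiv I I p y u) (mfderiv I I p y v) = h.ip y u v

end

/-- A connected oriented smooth Riemannian `n`-manifold without boundary. The orientation is an
oriented atlas: all chart transitions have positive Jacobian determinant. -/
structure ORM (n : ℕ) : Type 1 where
  X : Type
  [top : TopologicalSpace X]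
  [t2 : T2Space X]
  [sc : SecondCountableTopology X]
  [conn : ConnectedSpace X]
  [cs : ChartedSpace (E n) X]
  [mfd : IsManifold (𝓡 n) ∞ X]
  oriented : ∀ c ∈ atlas (E n) X, ∀ c' ∈ atlas (E n) X, ∀ x ∈ c.source ∩ c'.source,
    0 < (fderiv ℝ (c' ∘ c.symm) (c x)).det
  g : RMet (𝓡 n) X

attribute [instance] ORM.top ORM.t2 ORM.sc ORM.conn ORM.cs ORM.mfd

/-- The Riemannian distance of `Y`. -/
noncomputable def ORM.dist {n : ℕ} (Y : ORM n) (x y : Y.X) : ℝ≥0∞ := Y.g.dist x y

/-- The unit sphere `S^n`. -/
abbrev Sph (n : ℕ) : Type := Metric.sphere (0 : E (n + 1)) 1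

/-- The base point of `S^n`. -/
noncomputable def pt (n : ℕ) : Sph n := ⟨EuclideanSpace.single 0 1, by simp⟩

/-- The determinant `det (v, L e_1, ..., L e_n)`. -/
noncomputable def jacL {n : ℕ} (v : E (n + 1)) (L : E n →L[ℝ] E (n + 1)) : ℝ :=
  Matrix.det (Matrix.of fun i j : Fin (n + 1) =>
    (Fin.cons v (fun k : Fin n => L (EuclideanSpace.single k 1)) : Fin (n + 1) → E (n + 1)) i j)

/-- For `F` with values in `S^n`, the density at `x` of the pullback of the volume form of `S^n`:
`det (F x, d_1 F x, ..., d_n F x)`. -/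
noncomputable def jac {n : ℕ} (F : E n → E (n + 1)) (x : E n) : ℝ := jacL (F x) (fderiv ℝ F x)

/-- The integral over `Y` of the pullback by `f` of the volume form of `S^n` (which is
`deg f` times the volume of `S^n`) is not zero. The integral is computed in positively oriented
charts, with a finite partition of unity over the set where `f` differs from the base point. -/
def NonzeroDegree {n : ℕ} (Y : ORM n) (f : Y.X → Sph n) : Prop :=
  ∃ (m : ℕ) (c : Fin m → OpenPartialHomeomorph Y.X (E n)) (ρ : Fin m → Y.X → ℝ),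
    (∀ i, c i ∈ atlas (E n) Y.X ∧ Continuous (ρ i) ∧ IsCompact (tsupport (ρ i)) ∧
      tsupport (ρ i) ⊆ (c i).source) ∧
    (∀ x, f x ≠ pt n → ∑ i, ρ i x = 1) ∧
    ∑ i, ∫ x in (c i).target,
      ρ i ((c i).symm x) * jac (fun z => (f ((c i).symm z) : E (n + 1))) x ≠ 0

/-- `Y` is `ε`-hyperspherical: it has an `ε`-Lipschitz map to the round unit sphere (where the
distance is the angle), constant at infinity, of non-zero degree. -/
def Hyperspherical {n : ℕ} (ε : ℝ) (Y : ORM n) : Prop :=
  ∃ f : Y.X → Sph n,
    (∀ x y, ENNReal.ofReal (InnerProductGeometry.angle (f x : E (n + 1)) (f y : E (n + 1))) ≤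
      ENNReal.ofReal ε * Y.dist x y) ∧
    (∃ K : Set Y.X, IsCompact K ∧ ∀ x, x ∉ K → f x = pt n) ∧
    NonzeroDegree Y f

/-- A Riemannian local isometry: a smooth map whose differential preserves the metrics. -/
def LocalIsometry {n : ℕ} (Y X : ORM n) (p : Y.X → X.X) : Prop := Y.g.Preserves X.g p

/-- Enlargeable: for every `ε > 0` some connected Riemannian covering is `ε`-hyperspherical. -/
def Enlargeable {n : ℕ} (X : ORM n) : Prop :=
  ∀ ε : ℝ, 0 < ε → ∃ (Y : ORM n) (p : Y.X → X.X),
    IsCoveringMap p ∧ LocalIsometry Y X p ∧ Hyperspherical ε Y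

/-- Iso-enlargeable (with a witness without boundary): for every `ε > 0` some `ε`-hyperspherical
manifold has a Riemannian local isometry to `X`. -/
def IsoEnlargeable {n : ℕ} (X : ORM n) : Prop :=
  ∀ ε : ℝ, 0 < ε → ∃ (Y : ORM n) (p : Y.X → X.X), LocalIsometry Y X p ∧ Hyperspherical ε Y

end Pool.Agent.Lib.MP_4b70aa_gt
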