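import Pool.Agent.Lib.MP_4b70aa_gt.Cover

-- part Pool.Agent.Lib.MP_4b70aa_gt.NE
section

set_option autoImplicit false
set_option linter.unusedSectionVars false

open MeasureTheory Filter Set Topology

namespace Pool.Agent.Lib.MP_4b70aa_gt

variable {n : ℕ} {A W : Type} [NormedAddCommGroup A] [NormedSpace ℝ A] [FiniteDimensional ℝ A]
  [NormedAddCommGroup W] [NormedSpace ℝ W] [FiniteDimensional ℝ W] {L : Lev n A W}

/-- A flow on an open part of the level set. -/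
structure Rot (L : Lev n A W) (O : Set L.Z) (R : ℝ → L.Z → L.Z) (C : ℝ) : Prop where
  op : IsOpen O
  cont : ContinuousOn (fun z : ℝ × L.Z => R z.1 z.2) (univ ×ˢ O)
  maps : ∀ s, ∀ x ∈ O, R s x ∈ O
  zero : ∀ x ∈ O, R 0 x = x
  add : ∀ s t, ∀ x ∈ O, R (s + t) x = R s (R t x)
  nn : 0 ≤ C
  lip : ∀ s, ∀ a ∈ O, ∀ b ∈ O, dist (R s a) (R s b) ≤ C * dist a b
  speed : ∀ s t, ∀ a ∈ O, dist (R s a) (R t a) ≤ C * |s - t|
  ker : ∀ x ∈ O, (∃ w, w ≠ 0 ∧ HasDerivAt (fun s => (R s x : A)) w 0) ∨ ((∀ s, R s x = x) ∧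
    ∃ (T : A →L[ℝ] A) (w : A), w ≠ 0 ∧ T w = -w ∧ (∀ x' ∈ O, (R (1 / 2) x' : A) = T x') ∧
      L.F ∘ T =ᶠ[𝓝 (x : A)] L.F)

theorem Rot.ker_lift {O O₁ : Set L.Z} {R : ℝ → L.Z → L.Z} {C : ℝ} (hR : Rot L O R C)
    (hO₁ : IsOpen O₁) (hO : O₁ ⊆ O) {Y Y₀ : Type} [TopologicalSpace Y] [TopologicalSpace Y₀]
    {p : Y → L.Z} (hp : Continuous p) {j : Y₀ → Y} (hj : IsOpenEmbedding j) {φ : ℝ → Y → Y}
    (hc : ContinuousOn (fun z : ℝ × Y => φ z.1 z.2) (univ ×ˢ (p ⁻¹' O)))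
    (hφ : ∀ s y, p y ∈ O → p (φ s y) = R s (p y)) (h0 : ∀ y, p y ∈ O → φ 0 y = y) {y : Y₀}
    (hy : p (j y) ∈ O₁) (hfix : (∀ s, R s (p (j y)) = p (j y)) → φ (1 / 2) (j y) = j y)
    {e : Ch Y₀ (E n)} (he : e ∈ L.Good (p ∘ j)) (hye : y ∈ e.source) :
    Ker e y fun a b => p (j a) ∈ O₁ ∧ ∃ s, j b = φ s (j a) := by
  have : Nonempty Y₀ := ⟨y⟩
  set i := (hj.toOpenPartialHomeomorph j).symm with hi
  have hij : i (j y) = y := hj.toOpenPartialHomeomorph_left_inv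
  have hji : ∀ z ∈ range j, j (i z) = z := fun z hz => hj.toOpenPartialHomeomorph_right_inv j hz
  have hic : ContinuousAt i (j y) := i.continuousAt (by simp [hi])
  have hφc : ∀ s, ContinuousAt (fun z : ℝ × Y => φ z.1 z.2) (s, j y) := fun s =>
    hc.continuousAt ((isOpen_univ.prod (hR.op.preimage hp)).mem_nhds ⟨mem_univ _, hO hy⟩)
  rcases hR.ker _ (hO hy) with ⟨w, hw, hd⟩ | ⟨h1, T, w, hw, hT, hT', hF⟩
  · have h2 : ContinuousAt (fun s => φ s (j y)) 0 :=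
      (hφc 0).comp_of_eq (f := fun s => (s, j y)) (by fun_prop) rfl
    have h3 : ∀ᶠ s in 𝓝 (0 : ℝ), j (i (φ s (j y))) = φ s (j y) := (h2.eventually
      (hj.isOpen_range.mem_nhds ⟨y, (h0 _ (hO hy)).symm⟩)).mono
        fun s hs => hji _ hs
    refine Lev.ker_curve he hye (γ := fun s => i (φ s (j y)))
      (hic.comp_of_eq h2 (h0 _ (hO hy))) (by simp only [h0 _ (hO hy), hij]) hw
      (hd.congr_of_eventuallyEq ?_) (h3.mono fun s hs => ⟨hy, s, hs⟩)
    filter_upwards [h3] with s hs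
    simp only [Function.comp, hs, hφ s _ (hO hy)]
  · have h2 : ContinuousAt (fun z => φ (1 / 2) (j z)) y := (hφc (1 / 2)).comp_of_eq
      (f := fun z => ((1 / 2 : ℝ), j z)) (continuousAt_const.prodMk hj.continuous.continuousAt) rfl
    refine Lev.ker_refl he hye (ρ := fun z => i (φ (1 / 2) (j z)))
      (hic.comp_of_eq h2 (hfix h1)) (by simp only [hfix h1, hij]) T ?_ hw hT hF
    filter_upwards [h2.eventually (hj.isOpen_range.mem_nhds ⟨y, (hfix h1).symm⟩),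
      (hp.comp hj.continuous).continuousAt.eventually (hO₁.mem_nhds hy)] with z hz hz'
    refine ⟨?_, hz', _, hji _ hz⟩
    simp only [Function.comp, hji _ hz, hφ _ _ (hO hz')]
    exact hT' _ (hO hz')

theorem norm_nrm_sub {F : Type} [NormedAddCommGroup F] [NormedSpace ℝ F] {a v : F} (ha : ‖a‖ = 1)
    (hv : v ≠ 0) : ‖nrm v - a‖ ≤ 2 * ‖v - a‖ := by
  have h1 : ‖nrm v - v‖ ≤ ‖v - a‖ := by
    have h0 : 0 < ‖v‖ := norm_pos_iff.2 hv
    have : nrm v - v = (1 - ‖v‖) • nrm v := by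
      rw [sub_smul, one_smul, nrm, smul_smul, mul_inv_cancel₀ h0.ne', one_smul]
    rw [this, norm_smul, norm_nrm hv, mul_one, ← ha, norm_sub_rev v a]
    exact abs_norm_sub_norm_le a v
  linarith [norm_sub_le_norm_sub_add_norm_sub (nrm v) v a]

theorem ne_zero_of_close {F : Type} [NormedAddCommGroup F] {a v : F} (ha : ‖a‖ = 1)
    (h : ‖v - a‖ < 1) : v ≠ 0 := fun h0 => by simp [h0, ha] at h

/-- The geometric data for non-enlargeability. -/
structure NEData (L : Lev n A W) (Λ N : Type) [Group Λ] [TopologicalSpace N] [MulAction Λ N] where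
  J : N → L.Z
  hJ : IsLocalHomeomorph J
  conn : PreconnectedSpace N
  cact : ∀ l : Λ, Continuous fun a : N => l • a
  inv : ∀ (l : Λ) a, J (l • a) = J a
  trans : ∀ a b, J a = J b → ∃ l : Λ, l • a = b
  triv : ∀ (Y : Type) [TopologicalSpace Y] (p : Y → L.Z), IsCoveringMap p → Triv p J
  a₀ : N
  K₀ : Set N
  hK₀ : IsCompact K₀
  U : Set L.Z
  hU : IsOpen U
  hUK : U ⊆ J '' K₀
  O : Set L.Z
  R : ℝ → L.Z → L.Z
  CR : ℝ
  rot : Rot L O R CR
  contr : ∀ x ∈ O, ∃ H : ℝ → ℝ → L.Z, ContinuousOn (fun z : ℝ × ℝ => H z.1 z.2) (Icc 0 1 ×ˢ univ) ∧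
    (∀ s, H 0 s = R s x) ∧ (∀ s, H 1 s = H 1 0) ∧ ∀ t ∈ Icc (0 : ℝ) 1, H t 1 = H t 0
  O₁ : Set L.Z
  hO₁ : IsOpen O₁
  sub₁ : O₁ ⊆ O
  maps₁ : ∀ s, ∀ x ∈ O₁, R s x ∈ O₁ ∧ (x ∈ U → R s x ∈ U)
  lam : L.Z → ℝ
  lam_lip : ∀ x, LipAt lam x
  lam_mem : ∀ x, lam x ∈ Icc (0 : ℝ) 1
  lam_supp : tsupport lam ⊆ O
  lam_inv : ∀ s, ∀ x ∈ O, lam (R s x) = lam x
  lam_one : ∀ x ∈ O₁, lam x = 1
  χ : L.Z → ℝ
  χ_lip : ∀ x, LipAt χ x
  χ_supp : tsupport χ ⊆ U
  χ_inv : ∀ s, ∀ x ∈ O₁, χ (R s x) = χ x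
  χ_one : ∀ x, x ∉ O₁ → χ =ᶠ[𝓝 x] fun _ => 1
  T : ℝ → L.Z → L.Z
  CT : ℝ
  rotT : Rot L univ T CT
  mapsT : ∀ s x, (x ∈ O₁ → T s x ∈ O₁) ∧ (x ∈ U → T s x ∈ U)
  comm : ∀ s t, ∀ x ∈ O₁, T s (R t x) = R t (T s x)
  z : Λ
  sh : ℝ → N → N
  sh_cont : ∀ a, Continuous fun s => sh s a
  sh_J : ∀ s a, J (sh s a) = T s (J a)
  sh_zero : ∀ a, sh 0 a = a
  sh_one : ∀ a, sh 1 a = z • a

namespace NEData

variable {Λ N : Type} [Group Λ] [TopologicalSpace N] [MulAction Λ N] (D : NEData L Λ N)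
  {Y : Type} [TopologicalSpace Y] {p : Y → L.Z}

instance act (p : Y → L.Z) : MulAction Λ (Lf p D.J) where
  smul l σ := ⟨fun a => σ.1 (l⁻¹ • a), σ.2.1.comp (D.cact _), fun a => (σ.2.2 _).trans (D.inv _ _)⟩
  one_smul σ := Subtype.ext (funext fun a => congrArg σ.1 (by simp))
  mul_smul l l' σ := Subtype.ext (funext fun a => congrArg σ.1 (by simp [mul_smul]))

theorem smul_apply (l : Λ) (σ : Lf p D.J) (a : N) : (l • σ).1 a = σ.1 (l⁻¹ • a) := rfl

/-- The group theoretic input. -/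
def Grp (δ C : ℝ) : Prop :=
  ∀ (Y : Type) [TopologicalSpace Y] (p : Y → L.Z), IsCoveringMap p → ∀ (g : Y → E (n + 1)) (c : ℝ),
    0 ≤ c → Ctrl δ c p g → ∀ F : Set (Lf p D.J), (∀ (l : Λ), ∀ σ ∈ F, l • σ ∈ F) →
    (Quotient.mk (MulAction.orbitRel Λ (Lf p D.J)) '' F).Finite →
    (∀ β : Equiv.Perm (Lf p D.J), (∀ (l : Λ) σ, β (l • σ) = l • β σ) →
      (∀ σ, ‖g (σ.1 D.a₀) - g ((β σ).1 D.a₀)‖ ≤ c * C) → ∀ σ, β σ ∈ F ↔ σ ∈ F) →
    ∀ σ ∈ F, D.z • σ = σ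

theorem rel_of_eq (hp : IsCoveringMap p) {σ σ' : Lf p D.J} {a a' : N} (h : σ.1 a = σ'.1 a') :
    ∃ l : Λ, l • a = a' ∧ l • σ = σ' := by
  have := D.conn
  obtain ⟨l, hl⟩ := D.trans a a' (by rw [← σ.2.2, h, σ'.2.2])
  exact ⟨l, hl, Lf.ext_at hp (a := a') (by rw [smul_apply, ← hl, inv_smul_smul, h, hl])⟩

theorem lf_loc (hp : IsCoveringMap p) (σ : Lf p D.J) : IsLocalHomeomorph σ.1 :=
  IsLocalHomeomorph.of_comp (g := p) (by rw [show p ∘ σ.1 = D.J from funext σ.2.2]; exact D.hJ)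
    hp.isLocalHomeomorph σ.2.1

/-- The leaves. -/
def leaf (p : Y → L.Z) (k : Quotient (MulAction.orbitRel Λ (Lf p D.J))) : Set Y :=
  {y | p y ∈ D.U ∧ ∃ σ : Lf p D.J, Quotient.mk _ σ = k ∧ y ∈ range σ.1}

theorem leaf_open (hp : IsCoveringMap p) (k) : IsOpen (D.leaf p k) := by
  rw [isOpen_iff_mem_nhds]
  rintro y ⟨hy, σ, hσ, h⟩
  filter_upwards [(D.hU.preimage hp.continuous).mem_nhds hy,
    (D.lf_loc hp σ).isOpenMap.isOpen_range.mem_nhds h] with z h1 h2 using ⟨h1, σ, hσ, h2⟩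

theorem leaf_disj (hp : IsCoveringMap p) : Pairwise (Function.onFun Disjoint (D.leaf p)) := by
  intro k k' h
  rw [Function.onFun, Set.disjoint_left]
  rintro y ⟨-, σ, rfl, a, ha⟩ ⟨-, σ', rfl, a', ha'⟩
  obtain ⟨l, -, hl⟩ := D.rel_of_eq hp (ha'.trans ha.symm)
  exact h (Quotient.sound ⟨l, hl⟩)

theorem exists_rep (hp : IsCoveringMap p) {y : Y} (hy : p y ∈ D.U) :
    ∃ σ : Lf p D.J, ∃ a ∈ D.K₀, σ.1 a = y := by
  obtain ⟨a, ha, h⟩ := D.hUK hy
  obtain ⟨σ, hσ⟩ := D.triv Y p hp a y h.symm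
  exact ⟨σ, a, ha, hσ⟩

open Classical in
/-- The map induced by a permutation of the lifts. -/
noncomputable def ind (β : Equiv.Perm (Lf p D.J)) (y : Y) : Y :=
  if h : ∃ z : Lf p D.J × N, z.1.1 z.2 = y then (β h.choose.1).1 h.choose.2 else y

theorem ind_apply (hp : IsCoveringMap p) {β : Equiv.Perm (Lf p D.J)}
    (hβ : ∀ (l : Λ) σ, β (l • σ) = l • β σ) (σ : Lf p D.J) (a : N) :
    D.ind β (σ.1 a) = (β σ).1 a := by
  have h : ∃ z : Lf p D.J × N, z.1.1 z.2 = σ.1 a := ⟨(σ, a), rfl⟩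
  obtain ⟨l, h1, h2⟩ := D.rel_of_eq hp h.choose_spec
  rw [ind, dif_pos h]
  generalize h.choose = z at h1 h2
  rw [← h2, hβ, smul_apply, ← h1, inv_smul_smul]

theorem ind_cont (hp : IsCoveringMap p) {β : Equiv.Perm (Lf p D.J)}
    (hβ : ∀ (l : Λ) σ, β (l • σ) = l • β σ) {y : Y} (hy : p y ∈ D.U) :
    ContinuousAt (D.ind β) y ∧ p (D.ind β y) = p y := by
  obtain ⟨σ, a, -, rfl⟩ := D.exists_rep hp hy
  refine ⟨?_, by rw [D.ind_apply hp hβ, (β σ).2.2, σ.2.2]⟩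
  rw [ContinuousAt, ← (D.lf_loc hp σ).map_nhds_eq, tendsto_map'_iff,
    show D.ind β ∘ σ.1 = (β σ).1 from funext (D.ind_apply hp hβ σ), D.ind_apply hp hβ]
  exact (β σ).2.1.continuousAt

theorem ind_leaf (hp : IsCoveringMap p) {β : Equiv.Perm (Lf p D.J)}
    (hβ : ∀ (l : Λ) σ, β (l • σ) = l • β σ) (σ : Lf p D.J) {y : Y}
    (hy : y ∈ D.leaf p (Quotient.mk _ σ)) : D.ind β y ∈ D.leaf p (Quotient.mk _ (β σ)) := by
  refine ⟨by rw [(D.ind_cont hp hβ hy.1).2]; exact hy.1, ?_⟩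
  obtain ⟨-, σ', h, a, rfl⟩ := hy
  obtain ⟨l, rfl⟩ := Quotient.exact h
  exact ⟨β (l • σ), Quotient.sound ⟨l, (hβ l σ).symm⟩, a, (D.ind_apply hp hβ _ a).symm⟩

theorem periodic (hp : IsCoveringMap p) {φ : ℝ → Y → Y} {y : Y} (hy : p y ∈ D.O)
    (hc : Continuous fun s => φ s y) (hφ : ∀ s, p (φ s y) = D.R s (p y)) : φ 1 y = φ 0 y := by
  obtain ⟨H, h1, h2, h3, h4⟩ := D.contr _ hy
  obtain ⟨s, h5, h6, h7⟩ := lift_family hp (convex_Icc (0 : ℝ) 1) h1 (left_mem_Icc.2 zero_le_one)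
    ⟨fun s => φ s y, hc, fun s => (hφ s).trans (h2 s).symm⟩
  have h8 : s 1 1 = s 1 0 := hp.const_of_comp (slice_right h5 (right_mem_Icc.2 zero_le_one))
    (fun a b => by rw [h6 1 (right_mem_Icc.2 zero_le_one), h6 1 (right_mem_Icc.2 zero_le_one),
      h3 a, h3 b]) 1 0
  have h9 := hp.eqOn_of_comp_eqOn isPreconnected_Icc (slice_left h5 1) (slice_left h5 0)
    (fun t ht => by simp only [Function.comp, h6 t ht, h4 t ht]) (right_mem_Icc.2 zero_le_one) h8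
    (left_mem_Icc.2 zero_le_one)
  simpa [h7] using h9

theorem main (hG : ∀ δ : ℝ, 0 < δ → ∃ C, 0 ≤ C ∧ D.Grp δ C) (δ : ℝ) (hδ : 0 < δ) :
    ∃ c : ℝ, 0 < c ∧ ∀ (Y : Type) [TopologicalSpace Y] [T2Space Y]
      (p : Y → L.Z), IsCoveringMap p → ∀ g : Y → E (n + 1), (∀ y, ‖g y‖ = 1) →
      (∃ K c, IsCompact K ∧ ∀ y ∉ K, g y = c) → Ctrl δ c p g → IJ p (fun _ => 1) g = 0 := by
  have := D.conn
  have := Lev.locConn D.hJ
  obtain ⟨Cg, hCg, hG⟩ := hG δ hδ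
  obtain ⟨C₀, hC₀, hcls⟩ := exists_cls_univ (E (n + 1)) hδ D.hJ.continuous D.hK₀ D.a₀
  have hCR := D.rot.nn
  have hCT := D.rotT.nn
  set c : ℝ := 1 / (8 * D.CR + 2 * D.CT + 2 * C₀ + Cg + 1) with hc
  have hc0 : 0 < c := by positivity
  have hc1 : c * (8 * D.CR + 2 * D.CT + 2 * C₀ + Cg) < 1 := by
    rw [hc, div_mul_eq_mul_div, div_lt_one (by positivity)]; linarith
  have p1 := mul_nonneg hc0.le hCR
  have p2 := mul_nonneg hc0.le hCT
  have p3 := mul_nonneg hc0.le hC₀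
  have p4 := mul_nonneg hc0.le hCg
  refine ⟨c, hc0, fun Y _ _ p hp g hg ⟨K, b, hK, hout⟩ hctrl => ?_⟩
  have := Lev.locConn hp.isLocalHomeomorph
  have hpc := hp.continuous
  have hga : ∀ y, AL p g y := fun y => (hctrl.aLipAt hδ hpc y).al
  have hgc : Continuous g := continuous_iff_continuousAt.2 fun y =>
    (hga y).continuousAt hpc.continuousAt
  obtain ⟨φ, φc, φp, φ0, φa⟩ := exists_flow_lift hp D.rot.op D.rot.cont D.rot.maps D.rot.zero
    D.rot.add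
  have φo : ∀ y, p y ∈ D.O → Continuous fun s => φ s y := fun y hy =>
    φc.comp_continuous (f := fun s => (s, y)) (by fun_prop) fun _ => ⟨mem_univ _, hy⟩
  have hφ : Flow' p (p ⁻¹' D.O) φ := ⟨D.rot.op.preimage hpc,
    fun s y hy => by rw [mem_preimage, φp s y hy]; exact D.rot.maps s _ hy, φc, φa,
    fun s y hy => by rw [φa s 1 y hy, D.periodic hp hy (φo y hy) (φp · y hy), φ0 y hy],
    D.CR, fun s a ha b hb => by rw [φp s a ha, φp s b hb]; exact D.rot.lip s _ ha _ hb⟩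
  have φfix : ∀ y, p y ∈ D.O → (∀ s, D.R s (p y) = p y) → φ (1 / 2) y = y := fun y hy h => by
    rw [hp.const_of_comp (φo y hy) (fun a b => by rw [φp a y hy, φp b y hy, h, h]) (1 / 2) 0,
      φ0 y hy]
  set d : Y → E (n + 1) := fun y => D.lam (p y) • (avg φ g y - g y) with hd
  have hd0 : ∀ y, p y ∉ tsupport D.lam → d y = 0 := fun y hy => by
    simp [hd, image_eq_zero_of_notMem_tsupport hy]
  have hdn : ∀ y, ‖d y‖ ≤ c * D.CR := by
    intro y
    by_cases hy : p y ∈ D.O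
    · rw [hd, norm_smul, Real.norm_of_nonneg (D.lam_mem _).1]
      refine (mul_le_of_le_one_left (norm_nonneg _) (D.lam_mem _).2).trans
        (hφ.avg_close hgc.continuousOn hy fun s hs => ?_)
      have := hctrl.path hδ hc0.le hCR (φo y hy) (fun s t => by
        rw [φp s y hy, φp t y hy]; exact D.rot.speed s t _ hy) hs
      rwa [φ0 y hy] at this
    · rw [hd0 y fun h => hy (D.lam_supp h), norm_zero]; exact p1
  have hne : ∀ y, g y + d y ≠ 0 := fun y => ne_zero_of_close (hg y) (by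
    rw [add_sub_cancel_left]; linarith [hdn y])
  set f : Y → E (n + 1) := fun y => nrm (g y + d y) with hf
  have hfn : ∀ y, ‖f y‖ = 1 := fun y => norm_nrm (hne y)
  have hfg : ∀ y, ‖f y - g y‖ ≤ 2 * (c * D.CR) := fun y => (norm_nrm_sub (hg y) (hne y)).trans (by
    rw [add_sub_cancel_left]; linarith [hdn y])
  have hff : ∀ y y', ‖f y - f y'‖ ≤ 4 * (c * D.CR) + ‖g y - g y'‖ := fun y y' => by
    linarith [norm_sub_le_norm_sub_add_norm_sub (f y) (g y) (f y'), hfg y, hfg y',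
      norm_sub_le_norm_sub_add_norm_sub (g y) (g y') (f y'), norm_sub_rev (g y') (f y')]
  have hfa : ∀ y, AL p f y := by
    intro y
    refine ((hga y).add hpc.continuousAt ?_).nrm hpc.continuousAt (hne y)
    by_cases hy : p y ∈ D.O
    · exact (al_amb hpc.continuousAt (D.lam_lip _)).smul hpc.continuousAt
        ((hφ.avg_al hpc (fun y _ => hga y) hy).sub hpc.continuousAt (hga y))
    · refine (al_const p 0 y).congr ?_
      filter_upwards [hpc.continuousAt.eventually ((isClosed_tsupport _).isOpen_compl.mem_nhds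
        fun h => hy (D.lam_supp h))] with z hz using (hd0 z hz).symm
  have hfc : Continuous f := continuous_iff_continuousAt.2 fun y =>
    (hfa y).continuousAt hpc.continuousAt
  have hfi : ∀ s y, p y ∈ D.O₁ → f (φ s y) = f y := fun s y hy => by
    have h1 : p (φ s y) ∈ D.O₁ := by rw [φp s y (D.sub₁ hy)]; exact (D.maps₁ s _ hy).1
    simp only [hf, hd, D.lam_one _ hy, D.lam_one _ h1, one_smul, add_sub_cancel,
      hφ.avg_inv g (D.sub₁ hy)]
  set K₁ := K ∪ sat φ (K ∩ p ⁻¹' tsupport D.lam) with hK₁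
  have hK₁c : IsCompact K₁ := hK.union (hφ.sat_cpt (hK.inter_right
    ((isClosed_tsupport _).preimage hpc)) fun y hy => D.lam_supp hy.2)
  have hout₁ : ∀ y ∉ K₁, g y = b ∧ f y = b := by
    intro y hy
    have h1 := hout y fun h => hy (Or.inl h)
    refine ⟨h1, ?_⟩
    have h2 : d y = 0 := by
      by_cases h : D.lam (p y) = 0
      · simp [hd, h]
      · have h3 : p y ∈ D.O := D.lam_supp (subset_tsupport _ h)
        simp only [hd]
        rw [avg_const (b := b) fun s hs => hout _ fun h4 => hy (Or.inr (hφ.mem_sat h3 (φ0 y h3) hs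
          ⟨h4, subset_tsupport _ (by rwa [Function.mem_support, φp s y h3, D.lam_inv s _ h3])⟩)),
          h1, sub_self, smul_zero]
    simp only [hf, h2, add_zero]
    rw [nrm_of_norm (hg y), h1]
  have hev₁ : ∀ y ∉ K₁, ∀ᶠ y' in 𝓝 y, g y' = b ∧ f y' = b := fun y hy =>
    (hK₁c.isClosed.isOpen_compl.eventually_mem hy).mono hout₁
  set χ : Y → ℝ := fun y => D.χ (p y) with hχ
  have hχa : ∀ y, AL p χ y := fun y => al_amb hpc.continuousAt (D.χ_lip _)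
  have hχc : Continuous χ := continuous_iff_continuousAt.2 fun y =>
    (hχa y).continuousAt hpc.continuousAt
  set K₂ := K₁ ∩ p ⁻¹' tsupport D.χ with hK₂
  have hK₂c : IsCompact K₂ := hK₁c.inter_right ((isClosed_tsupport _).preimage hpc)
  have hev₂ : ∀ y ∉ K₂, (χ =ᶠ[𝓝 y] fun _ => 0) ∨ f =ᶠ[𝓝 y] fun _ => b := by
    intro y hy
    rcases not_and_or.1 hy with h | h
    · exact Or.inr ((hev₁ y h).mono fun _ h => h.2)
    · exact Or.inl (hpc.continuousAt.eventually (notMem_tsupport_iff_eventuallyEq.1 h))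
  have hok : Ok p χ f K₂ := ⟨hp.isLocalHomeomorph, hfa, hχc, hK₂c,
    fun y hy => (hev₂ y hy).imp (fun h => h.self_of_nhds) fun h => ⟨b, h⟩⟩
  have hok1 : Ok p (fun _ => 1) f K₁ := ⟨hp.isLocalHomeomorph, hfa, continuous_const, hK₁c,
    fun y hy => Or.inr ⟨b, (hev₁ y hy).mono fun _ h => h.2⟩⟩
  have hker : ∀ {Y₀ : Type} [TopologicalSpace Y₀] {j : Y₀ → Y} (hj : IsOpenEmbedding j),
      ∀ e ∈ L.Good (p ∘ j), ∀ y ∈ e.source, p (j y) ∈ D.O₁ →
      Ker e y fun a b => p (j a) ∈ D.O₁ ∧ ∃ s, j b = φ s (j a) := fun hj e he y hy h =>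
    D.rot.ker_lift D.hO₁ D.sub₁ hpc hj φc φp φ0 h (φfix _ (D.sub₁ h)) he hy
  have step1 : IJ p (fun _ => 1) g = IJ p χ f := by
    rw [IJ, int_close L.hn (Lev.sys hp.isLocalHomeomorph) (Lev.locLip hga) (Lev.locLip hfa) hg hfn
      (fun y => by linarith [hfg y]) (Lev.locLip fun y => al_const p 1 y) hK₁c
      (fun y hy => Or.inr ⟨b, hev₁ y hy⟩) (r := fun _ _ => False) (fun _ _ h => h.elim)
      fun e _ y _ => Or.inl ⟨1, EventuallyEq.rfl⟩]
    refine int_congr (Lev.sys hp.isLocalHomeomorph) hok1.dens hok.dens fun e he y hy => ?_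
    simp only [mulD, e.left_inv hy]
    by_cases h : p y ∈ D.O₁
    · rw [(hker IsOpenEmbedding.id e he y hy h).jd, mul_zero, mul_zero]
      rintro a b ⟨h1, s, rfl : b = _⟩
      exact (hfi s a h1).symm
    · rw [show χ y = 1 from (D.χ_one _ h).self_of_nhds]
  have hcov : K₂ ⊆ ⋃ k, D.leaf p k := fun y hy => by
    obtain ⟨σ, a, -, h⟩ := D.exists_rep hp (D.χ_supp hy.2)
    exact mem_iUnion.2 ⟨_, D.χ_supp hy.2, σ, rfl, a, h⟩
  obtain ⟨s, hs0, hs⟩ := hok.split (D.leaf_open hp) (D.leaf_disj hp) hcov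
  have hokk := fun k => hok.comp (D.leaf_open hp k).isOpenEmbedding_subtypeVal
    (Ok.cpt_inter hK₂c (D.leaf_open hp) (D.leaf_disj hp) hcov k)
  set I := fun k => IJ (p ∘ (Subtype.val : D.leaf p k → Y)) (χ ∘ Subtype.val) (f ∘ Subtype.val)
    with hI
  have close : ∀ k (f' : D.leaf p k → E (n + 1)) (K' : Set (D.leaf p k)),
      (∀ y, AL (p ∘ Subtype.val) f' y) → (∀ y, ‖f' y‖ = 1) → (∀ y, ‖f' y - f y‖ < 1) →
      IsCompact K' → (∀ y ∉ K', (χ ∘ Subtype.val =ᶠ[𝓝 y] fun _ => 0) ∨ f' =ᶠ[𝓝 y] fun _ => b) →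
      (∀ a b : D.leaf p k, p a ∈ D.O₁ → ∀ s, (b : Y) = φ s a → f' a = f' b) →
      I k = IJ (p ∘ (Subtype.val : D.leaf p k → Y)) (χ ∘ Subtype.val) f' := by
    intro k f' K' h1 h2 h3 h4 h5 h6
    refine int_close L.hn (Lev.sys (hokk k).loc) (Lev.locLip (hokk k).al) (Lev.locLip h1)
      (fun y => hfn _) h2 h3 (Lev.locLip fun y => (hχa y.1).trans
        continuous_subtype_val.continuousAt (aLipAt_self _ _).al) ((hokk k).cpt.union h4)
      (fun y hy => ?_) (r := fun a b => p a.1 ∈ D.O₁ ∧ ∃ s, b.1 = φ s a.1) ?_ fun e he y hy => ?_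
    · rcases hev₂ _ fun h => hy (Or.inl h) with h | h
      · exact Or.inl (continuous_subtype_val.continuousAt.eventually h)
      · refine (h5 y fun h => hy (Or.inr h)).imp id fun h' => ⟨b, ?_⟩
        exact (continuous_subtype_val.continuousAt.eventually h).and h'
    · rintro a a' ⟨h7, s, h8⟩
      refine ⟨?_, ?_, h6 a a' h7 s h8⟩
      · simp only [Function.comp, hχ, h8, φp s _ (D.sub₁ h7), D.χ_inv s _ h7]
      · simp only [Function.comp, h8, hfi s _ h7]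
    · by_cases h : p y.1 ∈ D.O₁
      · exact Or.inr (hker (D.leaf_open hp k).isOpenEmbedding_subtypeVal e he y hy h)
      · exact Or.inl ⟨1, (hpc.comp continuous_subtype_val).continuousAt.eventually (D.χ_one _ h)⟩
  have claimA : ∀ β : Equiv.Perm (Lf p D.J), (∀ (l : Λ) σ, β (l • σ) = l • β σ) →
      (∀ σ, ‖g (σ.1 D.a₀) - g ((β σ).1 D.a₀)‖ ≤ c * Cg) → ∀ σ,
      I (Quotient.mk _ (β σ)) = I (Quotient.mk _ σ) := by
    intro β hβ hcl σ
    have hβ' : ∀ (l : Λ) σ, β⁻¹ (l • σ) = l • β⁻¹ σ := fun l σ => by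
      rw [Equiv.Perm.inv_eq_iff_eq, hβ]; simp
    have hinv : ∀ (β β' : Equiv.Perm (Lf p D.J)), (∀ (l : Λ) σ, β (l • σ) = l • β σ) →
        (∀ (l : Λ) σ, β' (l • σ) = l • β' σ) → β' * β = 1 → ∀ y, p y ∈ D.U →
        D.ind β' (D.ind β y) = y := by
      intro β β' h h' h1 y hy
      obtain ⟨σ, a, -, rfl⟩ := D.exists_rep hp hy
      rw [D.ind_apply hp h, D.ind_apply hp h', ← Equiv.Perm.mul_apply, h1, Equiv.Perm.one_apply]
    have hb : ∀ y : D.leaf p (Quotient.mk _ (β σ)), D.ind β⁻¹ y.1 ∈ D.leaf p (Quotient.mk _ σ) :=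
      fun y => by simpa using D.ind_leaf hp hβ' (β σ) y.2
    let j : D.leaf p (Quotient.mk _ σ) ≃ₜ D.leaf p (Quotient.mk _ (β σ)) :=
      { toFun := fun y => ⟨D.ind β y.1, D.ind_leaf hp hβ σ y.2⟩
        invFun := fun y => ⟨D.ind β⁻¹ y.1, hb y⟩
        left_inv := fun y => Subtype.ext (hinv _ _ hβ hβ' (by simp) _ y.2.1)
        right_inv := fun y => Subtype.ext (hinv _ _ hβ' hβ (by simp) _ y.2.1)
        continuous_toFun := Continuous.subtype_mk (continuous_iff_continuousAt.2 fun y =>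
          (D.ind_cont hp hβ y.2.1).1.comp continuous_subtype_val.continuousAt) _
        continuous_invFun := Continuous.subtype_mk (continuous_iff_continuousAt.2 fun y =>
          (D.ind_cont hp hβ' y.2.1).1.comp continuous_subtype_val.continuousAt) hb }
    have e1 : (p ∘ Subtype.val) ∘ j = p ∘ Subtype.val := funext fun y =>
      (D.ind_cont hp hβ y.2.1).2
    have e2 : (χ ∘ Subtype.val) ∘ j = χ ∘ Subtype.val := funext fun y =>
      congrArg D.χ (D.ind_cont hp hβ y.2.1).2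
    have h1 := (hokk _).comp j.isOpenEmbedding (j.isCompact_preimage.2 (hokk _).cpt)
    have h2 := (hokk _).homeo j
    rw [e1, e2] at h1 h2
    rw [close _ ((f ∘ Subtype.val) ∘ j) _ h1.al (fun y => hfn _) (fun y => ?_) h1.cpt
      (fun y hy => ?_) fun a a' ha s h => ?_, h2]
    · obtain ⟨σ', a, ha, h⟩ := D.exists_rep hp y.2.1
      have h3 := hcls a ha Y p g c hc0.le hctrl σ'.1 σ'.2.1.continuousOn fun a _ => σ'.2.2 a
      have h4 := hcls a ha Y p g c hc0.le hctrl (β σ').1 (β σ').2.1.continuousOn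
        fun a _ => (β σ').2.2 a
      have h5 : ((f ∘ Subtype.val) ∘ j) y = f ((β σ').1 a) := by
        rw [← D.ind_apply hp hβ, h]; rfl
      rw [h5, ← h]
      linarith [hff ((β σ').1 a) (σ'.1 a), hcl σ', norm_sub_rev (g (σ'.1 a)) (g (σ'.1 D.a₀)),
        norm_sub_le_norm_sub_add_norm_sub (g ((β σ').1 a)) (g ((β σ').1 D.a₀)) (g (σ'.1 a)),
        norm_sub_le_norm_sub_add_norm_sub (g ((β σ').1 D.a₀)) (g (σ'.1 D.a₀)) (g (σ'.1 a)),
        norm_sub_rev (g (σ'.1 D.a₀)) (g ((β σ').1 D.a₀))]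
    · have h3 := (continuous_subtype_val.comp j.continuous).continuousAt (x := y)
      refine (hev₂ _ hy).imp (fun h => ?_) fun h => h.comp_tendsto h3
      rw [← e2]; exact h.comp_tendsto h3
    · have h3 : ∀ s, p (φ s a) ∈ D.U := fun s => by
        rw [φp s _ (D.sub₁ ha)]; exact (D.maps₁ s _ ha).2 a.2.1
      have h4 : p (D.ind β a) ∈ D.O₁ := by rwa [(D.ind_cont hp hβ a.2.1).2]
      have h5 := hp.eq_of_comp_eq (g₁ := fun s => D.ind β (φ s a)) (g₂ := fun s => φ s (D.ind β a))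
        (continuous_iff_continuousAt.2 fun s => (D.ind_cont hp hβ (h3 s)).1.comp
          (f := fun s => φ s a) (φo _ (D.sub₁ ha)).continuousAt) (φo _ (D.sub₁ h4))
        (funext fun s => by
          simp only [Function.comp]
          rw [(D.ind_cont hp hβ (h3 s)).2, φp s _ (D.sub₁ ha), φp s _ (D.sub₁ h4),
            (D.ind_cont hp hβ a.2.1).2]) 0 (by simp only [φ0 _ (D.sub₁ ha), φ0 _ (D.sub₁ h4)])
      show f (D.ind β a) = f (D.ind β a')
      rw [h, congrFun h5 s, hfi s _ h4]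
  obtain ⟨ψ, ψc, ψp, ψ0, ψa⟩ := exists_flow_lift hp isOpen_univ D.rotT.cont D.rotT.maps
    D.rotT.zero D.rotT.add
  have ψo : ∀ y, Continuous fun s => ψ s y := fun y =>
    ψc.comp_continuous (f := fun s => (s, y)) (by fun_prop) fun _ => ⟨mem_univ _, mem_univ _⟩
  have ψσ : ∀ (σ : Lf p D.J) a s, ψ s (σ.1 a) = σ.1 (D.sh s a) := fun σ a s =>
    congrFun (hp.eq_of_comp_eq (ψo _) (σ.2.1.comp (D.sh_cont a)) (funext fun s => by
      simp only [Function.comp, ψp s _ (mem_univ _), σ.2.2, D.sh_J]) 0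
      (by simp only [Function.comp, ψ0 _ (mem_univ _), D.sh_zero])) s
  have claimB : ∀ k, (∀ σ : Lf p D.J, Quotient.mk _ σ = k → D.z • σ = σ) → I k = 0 := by
    intro k hk
    have hψ : Flow' p (D.leaf p k) ψ := by
      refine ⟨D.leaf_open hp k, ?_, ψc.mono (prod_mono subset_rfl fun _ _ => mem_univ _),
        fun s t y _ => ψa s t y (mem_univ _), ?_, D.CT, fun s a _ a' _ => by
          rw [ψp s a (mem_univ _), ψp s a' (mem_univ _)]
          exact D.rotT.lip s _ (mem_univ _) _ (mem_univ _)⟩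
      · rintro s _ ⟨h1, σ, h2, a, rfl⟩
        exact ⟨by rw [ψp s _ (mem_univ _)]; exact (D.mapsT s _).2 h1, σ, h2, _, (ψσ σ a s).symm⟩
      · rintro s _ ⟨-, σ, h2, a, rfl⟩
        rw [ψa s 1 _ (mem_univ _), ψσ σ a 1, D.sh_one]
        conv_lhs => rw [← hk σ h2, smul_apply, inv_smul_smul]
    have h1 : ∀ y : D.leaf p k, ‖avg ψ f y - f y‖ ≤ 4 * (c * D.CR) + c * D.CT := fun y =>
      hψ.avg_close hfc.continuousOn y.2 fun s hs => by
        have := hctrl.path hδ hc0.le hCT (ψo y) (fun s t => by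
          rw [ψp s _ (mem_univ _), ψp t _ (mem_univ _)]
          exact D.rotT.speed s t _ (mem_univ _)) hs
        rw [ψ0 _ (mem_univ _)] at this
        linarith [hff (ψ s y) y]
    have h2 : ∀ y : D.leaf p k, avg ψ f y ≠ 0 := fun y => ne_zero_of_close (hfn y)
      (by linarith [h1 y])
    set C' := (fun z : ℝ × Y => ψ (-z.1) z.2) '' (Icc 0 1 ×ˢ K₁) with hC'
    have hC'c : IsCompact C' := (isCompact_Icc.prod hK₁c).image
      (ψc.comp_continuous (f := fun z : ℝ × Y => (-z.1, z.2)) (by fun_prop)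
        fun _ => ⟨mem_univ _, mem_univ _⟩)
    have h3 : ∀ y : D.leaf p k, AL (p ∘ Subtype.val) (fun y : D.leaf p k => nrm (avg ψ f y)) y :=
      fun y => ((hψ.avg_al hpc (fun y _ => hfa y) y.2).nrm hpc.continuousAt (h2 y)).trans
        continuous_subtype_val.continuousAt (aLipAt_self _ _).al
    have h4 := Ok.cpt_inter (hC'c.inter_right ((isClosed_tsupport D.χ).preimage hpc))
      (D.leaf_open hp) (D.leaf_disj hp) (fun y hy => by
        obtain ⟨σ, a, -, h⟩ := D.exists_rep hp (D.χ_supp hy.2)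
        exact mem_iUnion.2 ⟨_, D.χ_supp hy.2, σ, rfl, a, h⟩) k
    have h5 : ∀ y : D.leaf p k, y ∉ Subtype.val ⁻¹' (C' ∩ p ⁻¹' tsupport D.χ) →
        (χ ∘ Subtype.val =ᶠ[𝓝 y] fun _ => 0) ∨
          (fun y : D.leaf p k => nrm (avg ψ f y)) =ᶠ[𝓝 y] fun _ => b := by
      intro y hy
      rcases not_and_or.1 hy with h | h
      · right
        filter_upwards [continuous_subtype_val.continuousAt.eventually
          (hC'c.isClosed.isOpen_compl.mem_nhds h)] with z hz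
        have h6 : ∀ s ∈ Icc (0 : ℝ) 1, f (ψ s z) = b := fun s hs =>
          (hout₁ _ fun h' => hz ⟨(s, ψ s z), ⟨hs, h'⟩, by
            show ψ (-s) (ψ s z) = z
            rw [← ψa _ _ _ (mem_univ _), neg_add_cancel, ψ0 _ (mem_univ _)]⟩).2
        rw [avg_const h6]
        exact nrm_of_norm (h6 0 (left_mem_Icc.2 zero_le_one) ▸ hfn _)
      · exact Or.inl ((hpc.comp continuous_subtype_val).continuousAt.eventually
          (notMem_tsupport_iff_eventuallyEq.1 h))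
    rw [close k _ _ h3 (fun y => norm_nrm (h2 y)) (fun y => (norm_nrm_sub (hfn y) (h2 y)).trans_lt
      (by linarith [h1 y])) h4 h5 fun a a' ha s h => ?_]
    · have hok' : Ok (p ∘ (Subtype.val : D.leaf p k → Y)) (χ ∘ Subtype.val)
          (fun y : D.leaf p k => nrm (avg ψ f y)) _ := ⟨(hokk k).loc, h3, (hokk k).cont, h4,
        fun y hy => (h5 y hy).imp (fun h => h.self_of_nhds) fun h => ⟨b, h⟩⟩
      refine hok'.zero fun e he y hy => Or.inr ((D.rotT.ker_lift isOpen_univ subset_rfl hpc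
        (D.leaf_open hp k).isOpenEmbedding_subtypeVal ψc ψp ψ0 (mem_univ _) (fun h => ?_)
        he hy).jd ?_)
      · rw [hp.const_of_comp (ψo y) (fun a b => by
          rw [ψp a _ (mem_univ _), ψp b _ (mem_univ _), h, h]) (1 / 2) 0, ψ0 _ (mem_univ _)]
      · rintro a a' ⟨-, s, h⟩
        simp only [h, hψ.avg_inv f a.2]
    · have h6 : ∀ t, ψ t (φ s a) = φ s (ψ t a) := fun t => by
        have h7 : p (ψ t a) ∈ D.O₁ := by rw [ψp t _ (mem_univ _)]; exact (D.mapsT t _).1 ha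
        exact congrFun (hp.eq_of_comp_eq (g₁ := fun s => ψ t (φ s a)) (g₂ := fun s => φ s (ψ t a))
          (ψc.comp_continuous (f := fun s => (t, φ s a))
            (continuous_const.prodMk (φo _ (D.sub₁ ha))) fun _ => ⟨mem_univ _, mem_univ _⟩)
          (φo _ (D.sub₁ h7)) (funext fun s => by
            simp only [Function.comp]
            rw [ψp t _ (mem_univ _), φp s _ (D.sub₁ ha), φp s _ (D.sub₁ h7), ψp t _ (mem_univ _),
              D.comm t s _ ha]) 0 (by simp only [φ0 _ (D.sub₁ ha), φ0 _ (D.sub₁ h7)])) s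
      simp only [h, avg, h6]
      congr 2
      ext1 t
      rw [hfi s _ (by rw [ψp t _ (mem_univ _)]; exact (D.mapsT t _).1 ha)]
  rw [step1, hs]
  by_contra hcon
  obtain ⟨k, -, hk⟩ := Finset.exists_ne_zero_of_sum_ne_zero hcon
  set F : Set (Lf p D.J) := {σ | I (Quotient.mk _ σ) ≠ 0} with hF
  refine hk (claimB k fun σ hσ => hG Y p hp g c hc0.le hctrl F (fun l σ hσ => ?_)
    (s.finite_toSet.subset ?_) (fun β h1 h2 σ => ?_) σ (by rwa [hF, mem_ofPred_eq, hσ]))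
  · have : Quotient.mk (MulAction.orbitRel Λ (Lf p D.J)) (l • σ) = Quotient.mk _ σ :=
      Quotient.sound ⟨l, rfl⟩
    rwa [hF, mem_ofPred_eq, this]
  · rintro _ ⟨σ, hσ, rfl⟩
    exact by_contra fun h => hσ (hs0 _ h)
  · simp only [hF, mem_ofPred_eq, claimA β h1 h2 σ]

end NEData

end Pool.Agent.Lib.MP_4b70aa_gt
end

-- part Pool.Agent.Lib.MP_4b70aa_gt.Geo
section

set_option autoImplicit false
set_option linter.unusedSectionVars false

open Filter Set Topology Complex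
open scoped ContDiff ComplexConjugate

namespace Pool.Agent.Lib.MP_4b70aa_gt

/-- The flat function. -/
noncomputable abbrev gl : ℝ → ℝ := expNegInvGlue

/-- The smooth step. -/
noncomputable abbrev st : ℝ → ℝ := Real.smoothTransition

@[fun_prop] theorem gl_smooth {k : ℕ∞} : ContDiff ℝ k gl := expNegInvGlue.contDiff

@[fun_prop] theorem st_smooth {k : ℕ∞} : ContDiff ℝ k st := Real.smoothTransition.contDiff

@[fun_prop] theorem re_smooth {k : WithTop ℕ∞} : ContDiff ℝ k Complex.re := reCLM.contDiff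

@[fun_prop] theorem im_smooth {k : WithTop ℕ∞} : ContDiff ℝ k Complex.im := imCLM.contDiff

@[fun_prop] theorem ofReal_smooth {k : WithTop ℕ∞} : ContDiff ℝ k Complex.ofReal :=
  ofRealCLM.contDiff

@[fun_prop] theorem conj_smooth {k : WithTop ℕ∞} : ContDiff ℝ k fun z : ℂ => conj z :=
  conjCLE.contDiff

@[fun_prop] theorem normSq_smooth {k : WithTop ℕ∞} : ContDiff ℝ k fun z : ℂ => normSq z := by
  simp only [normSq_apply]; fun_prop

/-- The Hopf map. -/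
noncomputable def hopf (ζ : ℂ × ℂ) : ℂ × ℝ := (2 * ζ.1 * conj ζ.2, normSq ζ.1 - normSq ζ.2)

/-- The denominator of a correction term. -/
noncomputable def den (ϑ : ℂ) (σ : ℝ) : ℝ := normSq ϑ + gl σ ^ 2 + gl (-σ)

/-- A correction term. -/
noncomputable def cor (ϑ : ℂ) (σ : ℝ) : ℂ × ℝ :=
  (den ϑ σ)⁻¹ • ((2 * gl σ : ℝ) * ϑ, -2 * gl σ ^ 2)

theorem cor_of_nonpos (ϑ : ℂ) {σ : ℝ} (h : σ ≤ 0) : cor ϑ σ = 0 := by
  simp [cor, expNegInvGlue.zero_of_nonpos h]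

theorem den_pos {ϑ : ℂ} {σ : ℝ} (h : σ = 0 → ϑ ≠ 0) : 0 < den ϑ σ := by
  have h1 := normSq_nonneg ϑ
  have h2 := sq_nonneg (gl σ)
  have h3 := expNegInvGlue.nonneg (-σ)
  unfold den
  rcases lt_trichotomy σ 0 with h' | h' | h'
  · linarith [expNegInvGlue.pos_of_pos (neg_pos.2 h')]
  · linarith [normSq_pos.2 (h h')]
  · linarith [pow_pos (expNegInvGlue.pos_of_pos h') 2]

theorem hopf_norm (ζ : ℂ × ℂ) :
    normSq (hopf ζ).1 + (hopf ζ).2 ^ 2 = (normSq ζ.1 + normSq ζ.2) ^ 2 := by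
  simp only [hopf, normSq_mul, normSq_conj, normSq_ofNat]; ring

theorem cor_norm {ϑ : ℂ} {σ : ℝ} (h : 0 < σ) :
    normSq (cor ϑ σ).1 + (1 + (cor ϑ σ).2) ^ 2 = 1 := by
  have h1 : den ϑ σ = normSq ϑ + gl σ ^ 2 := by
    simp [den, expNegInvGlue.zero_of_nonpos (neg_nonpos.2 h.le)]
  have h2 := den_pos (ϑ := ϑ) fun h' => absurd h' h.ne'
  simp only [cor, Prod.smul_fst, Prod.smul_snd, real_smul, normSq_mul, normSq_ofReal, smul_eq_mul]
  rw [h1] at h2 ⊢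
  field_simp
  ring

/-- A complex with a marked base vertex and a marked cone vertex, and small parameters. -/
structure Cx (V : Type) [Fintype V] [DecidableEq V] where
  o : V
  C : V
  hoC : o ≠ C
  Face : Finset V → Prop
  down : ∀ {σ τ : Finset V}, Face σ → τ ⊆ σ → Face τ
  face_o : ∀ i, i ≠ C → Face {o, i}
  k : V → Fin 4
  adj : ∀ l l', l ≠ C → l' ≠ C → Face {C, l, l'} → k l ≠ k l' + 2
  η : ℝ
  η₀ : ℝ
  d : ℝ
  ρ : ℝ
  η₀_pos : 0 < η₀
  d_pos : 0 < d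
  ρ_pos : 0 < ρ
  hη : 4 * Fintype.card V * η ≤ 1
  hη₀ : 2 * (Fintype.card V : ℝ) ^ 2 * η₀ ≤ η
  hd : d ^ 2 < η₀ ^ Fintype.card V
  hρ : 8 * (2 ^ Fintype.card V + 1) * ρ ^ 2 ≤ d ^ 2
  hρη : 4 * ρ ^ 2 ≤ η

namespace Cx

variable {V : Type} [Fintype V] [DecidableEq V] (X : Cx V)

/-- The blocks. -/
abbrev κ : Type := {j // j ≠ X.o} ⊕ Fin 2

/-- The ambient space. -/
abbrev Amb : Type := (X.κ → Fin 3 → ℂ) × (V → ℝ) × (ℝ × ℂ) × (ℂ × ℂ)

/-- The target space. -/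
abbrev Tgt : Type := (X.κ → Fin 3 → ℝ) × (ℝ × ℝ) × (X.κ → ℝ) × (ℂ × ℝ)

/-- The dimension. -/
def n : ℕ := Fintype.card X.κ * 3 + 1

/-- The special block. -/
abbrev b₀ : X.κ := Sum.inr 0

/-- Coordinates near the marked point. -/
def xi (w : V → ℝ) (v : ℝ × ℂ) : X.κ → ℝ := Sum.elim (fun j => w j) ![v.2.re, v.2.im]

/-- The squared norm of `xi`. -/
def s (w : V → ℝ) (v : ℝ × ℂ) : ℝ := ∑ b, X.xi w v b ^ 2

open Classical in
/-- The function vanishing on the complex. -/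
noncomputable def phi (w : V → ℝ) : ℝ :=
  ∑ τ ∈ Finset.univ.filter fun τ => ¬ X.Face τ, ∏ i ∈ τ, w i ^ 2

/-- The cutoff selecting the marked point. -/
noncomputable def T (w : V → ℝ) (v : ℝ × ℂ) : ℝ := st (2 * w X.o) * st (2 / X.d * v.1)

/-- The collar function. -/
noncomputable def D3 (w : V → ℝ) (v : ℝ × ℂ) : ℝ := X.s w v + 1 - X.T w v

/-- The coefficient of the collapsing map. -/
noncomputable def gam (w : V → ℝ) (v : ℝ × ℂ) : ℝ := X.T w v * gl (X.ρ ^ 2 - X.s w v) / X.D3 w v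

/-- The block functions. -/
def Ph (u : X.κ → Fin 3 → ℂ) : X.κ → ℝ := fun b => ∑ c, (u b c).re

/-- First correction, complex part. -/
noncomputable def th1 (u : X.κ → Fin 3 → ℂ) : ℂ :=
  (1 - st ((u X.b₀ 0).im + 1 / 2) : ℝ) - (st ((u X.b₀ 0).im + 1 / 2) : ℝ) * u X.b₀ 1

/-- First correction, real part. -/
noncomputable def sg1 (u : X.κ → Fin 3 → ℂ) : ℝ := (u X.b₀ 0).re + (u X.b₀ 1).re - 3 / 2

/-- The direction attached to a vertex. -/
noncomputable def om (l : V) : ℂ := I ^ (X.k l : ℕ)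

/-- Second correction, complex part. -/
noncomputable def ch2 (w : V → ℝ) : ℂ := ∑ l ∈ Finset.univ.erase X.C, (w l ^ 2 : ℝ) * X.om l

/-- Second correction, real part. -/
noncomputable def sg2 (w : V → ℝ) : ℝ := w X.C ^ 2 - (1 - X.η)

/-- The defining map. -/
noncomputable def F (m : X.Amb) : X.Tgt :=
  (fun b c => normSq (m.1 b c) - 1,
    (∑ i, m.2.1 i ^ 2 - 1, m.2.2.1.1 ^ 2 + normSq m.2.2.1.2 + X.phi m.2.1 - X.d ^ 2),
    X.Ph m.1 - X.gam m.2.1 m.2.2.1 • X.xi m.2.1 m.2.2.1,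
    hopf m.2.2.2 - (0, 1) - cor (X.th1 m.1) (X.sg1 m.1) - cor (X.ch2 m.2.1) (X.sg2 m.2.1))

/-- The domain of the defining map. -/
def Dom : Set X.Amb := {m | 0 < X.D3 m.2.1 m.2.2.1 ∧ 0 < den (X.th1 m.1) (X.sg1 m.1) ∧
  0 < den (X.ch2 m.2.1) (X.sg2 m.2.1)}

/-- The equations of the base. -/
structure InB (w : V → ℝ) (v : ℝ × ℂ) : Prop where
  sw : ∑ i, w i ^ 2 = 1
  sv : v.1 ^ 2 + normSq v.2 + X.phi w = X.d ^ 2

/-- All the equations. -/
structure InZ (m : X.Amb) : Prop where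
  u : ∀ b c, normSq (m.1 b c) = 1
  B : X.InB m.2.1 m.2.2.1
  pos : 0 < X.D3 m.2.1 m.2.2.1
  ph : X.Ph m.1 = X.gam m.2.1 m.2.2.1 • X.xi m.2.1 m.2.2.1
  hf : hopf m.2.2.2 = (0, 1) + cor (X.th1 m.1) (X.sg1 m.1) + cor (X.ch2 m.2.1) (X.sg2 m.2.1)

section smooth

variable {k : ℕ∞}

@[fun_prop] theorem xi_smooth : ContDiff ℝ k fun p : (V → ℝ) × (ℝ × ℂ) => X.xi p.1 p.2 := by
  refine contDiff_pi.2 ?_
  rintro (j | j)
  · simp only [xi, Sum.elim_inl]; fun_prop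
  · fin_cases j <;> simp [xi] <;> fun_prop

@[fun_prop] theorem s_smooth : ContDiff ℝ k fun p : (V → ℝ) × (ℝ × ℂ) => X.s p.1 p.2 :=
  ContDiff.sum fun b _ => ((contDiff_apply ℝ ℝ b).comp X.xi_smooth).pow 2

@[fun_prop] theorem phi_smooth : ContDiff ℝ k X.phi :=
  ContDiff.sum fun _ _ => contDiff_prod fun _ _ => by fun_prop

@[fun_prop] theorem T_smooth : ContDiff ℝ k fun p : (V → ℝ) × (ℝ × ℂ) => X.T p.1 p.2 := by
  unfold T; fun_prop

@[fun_prop] theorem D3_smooth : ContDiff ℝ k fun p : (V → ℝ) × (ℝ × ℂ) => X.D3 p.1 p.2 := by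
  unfold D3; fun_prop

@[fun_prop] theorem Ph_smooth : ContDiff ℝ k X.Ph := by
  unfold Ph; fun_prop

@[fun_prop] theorem th1_smooth : ContDiff ℝ k X.th1 := by
  unfold th1; fun_prop

@[fun_prop] theorem sg1_smooth : ContDiff ℝ k X.sg1 := by
  unfold sg1; fun_prop

@[fun_prop] theorem ch2_smooth : ContDiff ℝ k X.ch2 := by
  unfold ch2; fun_prop

@[fun_prop] theorem sg2_smooth : ContDiff ℝ k X.sg2 := by
  unfold sg2; fun_prop

@[fun_prop] theorem _root_.Pool.Agent.Lib.MP_4b70aa_gt.hopf_smooth : ContDiff ℝ k hopf := by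
  unfold hopf; fun_prop

@[fun_prop] theorem _root_.Pool.Agent.Lib.MP_4b70aa_gt.den_smooth :
    ContDiff ℝ k fun p : ℂ × ℝ => den p.1 p.2 := by
  unfold den; fun_prop

theorem _root_.Pool.Agent.Lib.MP_4b70aa_gt.cor_smooth {p : ℂ × ℝ} (h : 0 < den p.1 p.2) :
    ContDiffAt ℝ k (fun p : ℂ × ℝ => cor p.1 p.2) p := by
  unfold cor; fun_prop (disch := exact h.ne')

theorem F_smooth {m : X.Amb} (h : m ∈ X.Dom) : ContDiffAt ℝ k X.F m := by
  have h1 : ContDiffAt ℝ k (fun m : X.Amb => cor (X.th1 m.1) (X.sg1 m.1)) m :=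
    (cor_smooth (p := (X.th1 m.1, X.sg1 m.1)) h.2.1).comp m
      (f := fun m : X.Amb => (X.th1 m.1, X.sg1 m.1)) (by fun_prop)
  have h2 : ContDiffAt ℝ k (fun m : X.Amb => cor (X.ch2 m.2.1) (X.sg2 m.2.1)) m :=
    (cor_smooth (p := (X.ch2 m.2.1, X.sg2 m.2.1)) h.2.2).comp m
      (f := fun m : X.Amb => (X.ch2 m.2.1, X.sg2 m.2.1)) (by fun_prop)
  unfold F gam
  fun_prop (disch := exact h.1.ne')

theorem isOpen_Dom : IsOpen X.Dom := by
  have h1 : ContDiff ℝ (1 : ℕ∞) fun m : X.Amb => X.D3 m.2.1 m.2.2.1 := by fun_prop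
  have h2 : ContDiff ℝ (1 : ℕ∞) fun m : X.Amb => den (X.th1 m.1) (X.sg1 m.1) := by fun_prop
  have h3 : ContDiff ℝ (1 : ℕ∞) fun m : X.Amb => den (X.ch2 m.2.1) (X.sg2 m.2.1) := by fun_prop
  exact (isOpen_lt continuous_const h1.continuous).inter
    ((isOpen_lt continuous_const h2.continuous).inter (isOpen_lt continuous_const h3.continuous))

end smooth

section ineq

include X in
theorem N_ge : (1 : ℝ) ≤ Fintype.card V := by
  have : Nonempty V := ⟨X.o⟩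
  exact_mod_cast Fintype.card_pos

theorem Nη₀ : Fintype.card V * (Fintype.card V * X.η₀) ≤ X.η / 2 := by
  nlinarith [X.hη₀]

theorem η₀_le : Fintype.card V * X.η₀ ≤ X.η / 2 := by
  nlinarith [X.Nη₀, X.N_ge, mul_pos (lt_of_lt_of_le one_pos X.N_ge) X.η₀_pos]

theorem η₀_lt : X.η₀ < X.η := by
  nlinarith [X.η₀_le, X.N_ge, X.η₀_pos]

theorem η_pos : 0 < X.η := X.η₀_pos.trans X.η₀_lt

theorem η_le : X.η ≤ 1 / 4 := by nlinarith [X.hη, X.N_ge, X.η_pos]

theorem d_lt : X.d ^ 2 < 1 :=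
  X.hd.trans_le (pow_le_one₀ X.η₀_pos.le (by linarith [X.η₀_lt, X.η_le]))

theorem face_single : X.Face {X.o} := X.down (X.face_o X.o X.hoC) (by simp)

theorem s_eq (w : V → ℝ) (v : ℝ × ℂ) :
    X.s w v = ∑ j ∈ Finset.univ.erase X.o, w j ^ 2 + normSq v.2 := by
  rw [s, Fintype.sum_sum_type, Finset.sum_subtype (Finset.univ.erase X.o) (p := fun j => j ≠ X.o)
    (F := inferInstance) (by simp)]
  simp [xi, normSq_apply, sq]

theorem s_nonneg (w : V → ℝ) (v : ℝ × ℂ) : 0 ≤ X.s w v := Finset.sum_nonneg fun _ _ => sq_nonneg _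

theorem phi_nonneg (w : V → ℝ) : 0 ≤ X.phi w :=
  Finset.sum_nonneg fun _ _ => Finset.prod_nonneg fun _ _ => sq_nonneg _

theorem T_mem (w : V → ℝ) (v : ℝ × ℂ) : 0 ≤ X.T w v ∧ X.T w v ≤ 1 :=
  ⟨mul_nonneg (Real.smoothTransition.nonneg _) (Real.smoothTransition.nonneg _),
    mul_le_one₀ (Real.smoothTransition.le_one _) (Real.smoothTransition.nonneg _)
      (Real.smoothTransition.le_one _)⟩

theorem T_one {w : V → ℝ} {v : ℝ × ℂ} (h1 : 1 / 2 ≤ w X.o) (h2 : X.d / 2 ≤ v.1) : X.T w v = 1 := by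
  rw [T, st, Real.smoothTransition.one_of_one_le (by linarith),
    Real.smoothTransition.one_of_one_le, one_mul]
  rw [div_mul_eq_mul_div, le_div_iff₀ X.d_pos]; linarith

theorem T_zero {w : V → ℝ} {v : ℝ × ℂ} (h : w X.o ≤ 0 ∨ v.1 ≤ 0) : X.T w v = 0 := by
  rcases h with h | h
  · rw [T, st, Real.smoothTransition.zero_of_nonpos (by linarith), zero_mul]
  · rw [T, st, Real.smoothTransition.zero_of_nonpos (x := 2 / X.d * v.1)
      (mul_nonpos_of_nonneg_of_nonpos (div_pos two_pos X.d_pos).le h), mul_zero]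

variable {X}

theorem sq_le_one {w : V → ℝ} (h : ∑ i, w i ^ 2 = 1) (i : V) : w i ^ 2 ≤ 1 :=
  h ▸ Finset.single_le_sum (f := fun i => w i ^ 2) (fun _ _ => sq_nonneg _) (Finset.mem_univ i)

theorem phi_le {w : V → ℝ} (h : ∑ i, w i ^ 2 = 1) :
    X.phi w ≤ 2 ^ Fintype.card V * ∑ j ∈ Finset.univ.erase X.o, w j ^ 2 := by
  classical
  refine (Finset.sum_le_card_nsmul _ _ (∑ j ∈ Finset.univ.erase X.o, w j ^ 2)
    fun τ hτ => ?_).trans ?_
  · obtain ⟨j, hj, hjo⟩ : ∃ j ∈ τ, j ≠ X.o := by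
      by_contra hh
      push Not at hh
      exact (Finset.mem_filter.1 hτ).2 (X.down X.face_single fun j hj => by simp [hh j hj])
    rw [← Finset.mul_prod_erase τ _ hj]
    refine (mul_le_of_le_one_right (sq_nonneg _) (Finset.prod_le_one (fun _ _ => sq_nonneg _)
      fun i _ => sq_le_one h i)).trans ?_
    exact Finset.single_le_sum (f := fun i => w i ^ 2) (fun _ _ => sq_nonneg _) (by simp [hjo])
  · rw [nsmul_eq_mul]
    refine mul_le_mul_of_nonneg_right ?_ (Finset.sum_nonneg fun _ _ => sq_nonneg _)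
    exact_mod_cast (Finset.card_le_univ _).trans (Fintype.card_finset).le

theorem InB.sig {w : V → ℝ} {v : ℝ × ℂ} (h : X.InB w v) {σ : Finset V}
    (hσ : ∀ i ∈ σ, X.η₀ < w i ^ 2) : X.Face σ := by
  classical
  by_contra hf
  have h1 : ∏ i ∈ σ, w i ^ 2 ≤ X.phi w := Finset.single_le_sum
    (f := fun τ : Finset V => ∏ i ∈ τ, w i ^ 2) (fun _ _ => Finset.prod_nonneg fun _ _ =>
      sq_nonneg _) (Finset.mem_filter.2 ⟨Finset.mem_univ _, hf⟩)
  have h2 : X.η₀ ^ Fintype.card V ≤ ∏ i ∈ σ, w i ^ 2 := by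
    refine le_trans ?_ (Finset.prod_le_prod (f := fun _ => X.η₀) (fun _ _ => X.η₀_pos.le)
      fun i hi => (hσ i hi).le)
    rw [Finset.prod_const]
    exact pow_le_pow_of_le_one X.η₀_pos.le (by linarith [X.η₀_lt, X.η_le]) (Finset.card_le_univ _)
  linarith [h.sv, X.hd, sq_nonneg v.1, normSq_nonneg v.2]

theorem InB.near {w : V → ℝ} {v : ℝ × ℂ} (h : X.InB w v) (hs : X.s w v ≤ 4 * X.ρ ^ 2) :
    3 / 4 ≤ w X.o ^ 2 ∧ X.d ^ 2 / 2 ≤ v.1 ^ 2 := by
  have h1 := Finset.add_sum_erase Finset.univ (fun i => w i ^ 2) (Finset.mem_univ X.o)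
  have h2 := phi_le (X := X) h.sw
  have h3 := X.s_eq w v
  have h4 : 0 ≤ ∑ j ∈ Finset.univ.erase X.o, w j ^ 2 := Finset.sum_nonneg fun _ _ => sq_nonneg _
  have h5 := normSq_nonneg v.2
  have h6 : (0 : ℝ) < 2 ^ Fintype.card V := by positivity
  refine ⟨by linarith [h.sw, X.hρη, X.η_le], ?_⟩
  nlinarith [h.sv, X.hρ]

theorem InB.cases {w : V → ℝ} {v : ℝ × ℂ} (h : X.InB w v) (hs : X.s w v ≤ 4 * X.ρ ^ 2) :
    (1 / 2 < w X.o ∧ X.d / 2 < v.1) ∨ w X.o < 0 ∨ v.1 < 0 := by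
  obtain ⟨h1, h2⟩ := h.near hs
  have := X.d_pos
  by_contra hh
  push Not at hh
  exact absurd (hh.1 (by nlinarith [hh.2.1])) (by rw [not_le]; nlinarith [hh.2.2])

theorem InB.neck {w : V → ℝ} {v : ℝ × ℂ} (h : X.InB w v) (hs : X.D3 w v ≤ 4 * X.ρ ^ 2) :
    (1 / 2 < w X.o ∧ X.d / 2 < v.1) ∧ X.T w v = 1 ∧ X.D3 w v = X.s w v := by
  have h1 := X.T_mem w v
  rcases h.cases (by unfold D3 at hs; linarith) with h2 | h2
  · have := X.T_one h2.1.le h2.2.le
    exact ⟨h2, this, by simp [D3, this]⟩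
  · have := X.T_zero (h2.imp le_of_lt le_of_lt)
    unfold D3 at hs
    linarith [X.s_nonneg w v, X.hρη, X.η_le]

theorem InB.out {w : V → ℝ} {v : ℝ × ℂ} (h : X.InB w v) (hs : X.ρ ^ 2 < X.D3 w v) :
    X.ρ ^ 2 < X.s w v ∨ w X.o < 0 ∨ v.1 < 0 := by
  by_contra hh
  push Not at hh
  rcases h.cases (by nlinarith [hh.1]) with h2 | h2 | h2
  · rw [D3, X.T_one h2.1.le h2.2.le] at hs; linarith
  · linarith [hh.2.1]
  · linarith [hh.2.2]

theorem gam_zero {w : V → ℝ} {v : ℝ × ℂ} (h : X.ρ ^ 2 ≤ X.s w v ∨ w X.o ≤ 0 ∨ v.1 ≤ 0) :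
    X.gam w v = 0 := by
  rcases h with h | h
  · simp [gam, expNegInvGlue.zero_of_nonpos (sub_nonpos.2 h)]
  · simp [gam, X.T_zero h]

theorem om_re {l l' : V} (h : X.k l ≠ X.k l' + 2) : 0 ≤ (X.om l' * conj (X.om l)).re := by
  unfold om
  generalize X.k l = a at *
  generalize X.k l' = b at *
  fin_cases a <;> fin_cases b <;> simp_all [pow_succ]

theorem om_normSq (l : V) : normSq (X.om l) = 1 := by simp [om]

theorem InB.ch_re {w : V → ℝ} {v : ℝ × ℂ} (h : X.InB w v) (hC : X.η₀ < w X.C ^ 2) {l : V}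
    (hl : l ≠ X.C) (hw : Fintype.card V * X.η₀ < w l ^ 2) : 0 < (X.ch2 w * conj (X.om l)).re := by
  have hw' : X.η₀ < w l ^ 2 := by nlinarith [X.N_ge, X.η₀_pos]
  have h1 : ∀ l' ∈ (Finset.univ.erase X.C).erase l,
      -X.η₀ ≤ (((w l' ^ 2 : ℝ) : ℂ) * X.om l' * conj (X.om l)).re := by
    intro l' hl'
    rw [mul_assoc, re_ofReal_mul]
    by_cases h2 : X.η₀ < w l' ^ 2
    · have := om_re (X.adj l l' hl (by simp_all) (h.sig (by simp [hC, hw', h2])))
      nlinarith [X.η₀_pos]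
    · have h3 : |(X.om l' * conj (X.om l)).re| ≤ 1 := (abs_re_le_norm _).trans (by simp [om])
      nlinarith [abs_le.1 h3, sq_nonneg (w l'), X.η₀_pos]
  have h2 := Finset.card_nsmul_le_sum _ _ _ h1
  have h3 : (((Finset.univ.erase X.C).erase l).card : ℝ) ≤ Fintype.card V := by
    exact_mod_cast Finset.card_le_univ _
  rw [ch2, Finset.sum_mul, re_sum, ← Finset.add_sum_erase _ _ (show l ∈ _ by simp [hl]),
    mul_assoc, mul_conj, om_normSq]
  rw [nsmul_eq_mul] at h2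
  simp only [ofReal_one, mul_one, ofReal_re]
  nlinarith [X.η₀_pos]

theorem InB.ch_ne {w : V → ℝ} {v : ℝ × ℂ} (h : X.InB w v) (hC : X.η₀ < w X.C ^ 2)
    (hs : X.sg2 w ≤ 0) : X.ch2 w ≠ 0 := by
  have h1 := Finset.add_sum_erase Finset.univ (fun i => w i ^ 2) (Finset.mem_univ X.C)
  obtain ⟨l, hl, hw⟩ : ∃ l ∈ Finset.univ.erase X.C, Fintype.card V * X.η₀ < w l ^ 2 := by
    by_contra hh
    push Not at hh
    have h2 := Finset.sum_le_card_nsmul _ _ _ hh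
    have h3 : ((Finset.univ.erase X.C).card : ℝ) ≤ Fintype.card V := by
      exact_mod_cast Finset.card_le_univ _
    rw [nsmul_eq_mul] at h2
    unfold sg2 at hs
    nlinarith [X.Nη₀, h.sw, X.η_pos, mul_pos (lt_of_lt_of_le one_pos X.N_ge) X.η₀_pos]
  intro h0
  simpa [h0] using h.ch_re hC (Finset.ne_of_mem_erase hl) hw

theorem den1_pos {u : X.κ → Fin 3 → ℂ} (h : ∀ b c, normSq (u b c) = 1) :
    0 < den (X.th1 u) (X.sg1 u) := by
  refine den_pos fun h1 h2 => ?_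
  obtain ⟨t, ht⟩ : ∃ t, t = st ((u X.b₀ 0).im + 1 / 2) := ⟨_, rfl⟩
  rw [th1, ← ht] at h2
  have h3 : 1 - t = t * (u X.b₀ 1).re := by simpa [sub_eq_zero] using congrArg re h2
  have h4 : t * (u X.b₀ 1).im = 0 := by simpa using congrArg im h2
  have h5 := h X.b₀ 1
  have h6 := h X.b₀ 0
  rw [normSq_apply] at h5 h6
  unfold sg1 at h1
  have ht0 : t ≠ 0 := fun h => by simp [h] at h3
  have h7 : (u X.b₀ 1).im = 0 := (mul_eq_zero.1 h4).resolve_left ht0
  have h8 : (u X.b₀ 1).re = 1 := by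
    have : (u X.b₀ 0).re ≤ 1 := by nlinarith
    rw [h7] at h5
    nlinarith
  have h9 : t ≠ 1 := fun h => by simp [h, h8] at h3
  have h10 : 0 < (u X.b₀ 0).im + 1 / 2 := lt_of_not_ge fun h =>
    ht0 (ht.trans (Real.smoothTransition.zero_of_nonpos h))
  have h11 : (u X.b₀ 0).im + 1 / 2 < 1 := lt_of_not_ge fun h =>
    h9 (ht.trans (Real.smoothTransition.one_of_one_le h))
  nlinarith

theorem InB.den2_pos {w : V → ℝ} {v : ℝ × ℂ} (h : X.InB w v) : 0 < den (X.ch2 w) (X.sg2 w) :=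
  den_pos fun h1 => h.ch_ne (by unfold sg2 at h1; linarith [X.η₀_lt, X.η_le]) h1.le

theorem inZ_iff {m : X.Amb} : m ∈ X.Dom ∧ X.F m = 0 ↔ X.InZ m := by
  simp only [F, Prod.mk_eq_zero, funext_iff, Pi.zero_apply, sub_eq_zero, sub_sub]
  constructor
  · rintro ⟨h0, h1, ⟨h2, h3⟩, h4, h5⟩
    exact ⟨h1, ⟨h2, h3⟩, h0.1, funext h4, by rw [h5, add_assoc]⟩
  · intro h
    exact ⟨⟨h.pos, den1_pos h.u, h.B.den2_pos⟩, h.u, ⟨h.B.sw, h.B.sv⟩, congrFun h.ph,
      by rw [h.hf, add_assoc]⟩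

end ineq

end Cx

end Pool.Agent.Lib.MP_4b70aa_gt
end
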