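import Pool.Agent.Lib.MP_4b70aa_gt.Geo

-- part Pool.Agent.Lib.MP_4b70aa_gt.Reg
section

set_option autoImplicit false
set_option linter.unusedSectionVars false

open Filter Set Topology Complex
open scoped ContDiff ComplexConjugate

namespace Pool.Agent.Lib.MP_4b70aa_gt

theorem line_deriv {E : Type} [NormedAddCommGroup E] [NormedSpace ℝ E] (m x : E) :
    HasDerivAt (fun t : ℝ => m + t • x) x 0 := by
  simpa using ((hasDerivAt_id (0 : ℝ)).smul_const x).const_add m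

theorem dir_deriv {E F : Type} [NormedAddCommGroup E] [NormedSpace ℝ E] [NormedAddCommGroup F]
    [NormedSpace ℝ F] {f : E → F} {m : E} (hf : DifferentiableAt ℝ f m) (x : E) :
    HasDerivAt (fun t : ℝ => f (m + t • x)) (fderiv ℝ f m x) 0 :=
  hf.hasFDerivAt.comp_hasDerivAt_of_eq 0 (line_deriv m x) (by simp)

theorem hd_congr {F : Type} [NormedAddCommGroup F] [NormedSpace ℝ F] {f g : ℝ → F} {a b : F}
    {x : ℝ} (h : HasDerivAt f a x) (h1 : ∀ t, g t = f t) (h2 : b = a) : HasDerivAt g b x := by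
  rw [h2, funext h1]; exact h

theorem hd_fst {F G : Type} [NormedAddCommGroup F] [NormedSpace ℝ F] [NormedAddCommGroup G]
    [NormedSpace ℝ G] {f : ℝ → F × G} {a : F × G} {x : ℝ} (h : HasDerivAt f a x) :
    HasDerivAt (fun t => (f t).1) a.1 x :=
  (ContinuousLinearMap.fst ℝ F G).hasFDerivAt.comp_hasDerivAt x h

theorem hd_snd {F G : Type} [NormedAddCommGroup F] [NormedSpace ℝ F] [NormedAddCommGroup G]
    [NormedSpace ℝ G] {f : ℝ → F × G} {a : F × G} {x : ℝ} (h : HasDerivAt f a x) :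
    HasDerivAt (fun t => (f t).2) a.2 x :=
  (ContinuousLinearMap.snd ℝ F G).hasFDerivAt.comp_hasDerivAt x h

theorem normSq_deriv (u δ : ℂ) :
    HasDerivAt (fun t : ℝ => normSq (u + t • δ)) (2 * (u * conj δ).re) 0 := by
  have h1 := (line_deriv u.re δ.re).fun_pow 2
  have h2 := (line_deriv u.im δ.im).fun_pow 2
  exact hd_congr (h1.fun_add h2) (fun t => by simp [normSq_apply, sq]) (by simp; ring)

theorem sumsq_deriv {ι : Type} [Fintype ι] (w δ : ι → ℝ) :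
    HasDerivAt (fun t : ℝ => ∑ i, (w + t • δ) i ^ 2) (2 * ∑ i, w i * δ i) 0 :=
  hd_congr (HasDerivAt.fun_sum (u := Finset.univ) fun i _ => (line_deriv (w i) (δ i)).fun_pow 2)
    (fun _ => rfl) (by simp [Finset.mul_sum, mul_assoc])

theorem unit_sum {u : Fin 3 → ℂ} (h : ∀ c, normSq (u c) = 1) :
    1 - (∑ c, (u c).re) ^ 2 ≤ ∑ c, (u c).im ^ 2 := by
  have h0 := h 0
  have h1 := h 1
  have h2 := h 2
  simp only [normSq_apply, Fin.sum_univ_three] at *
  have b : ∀ x y : ℝ, x * x + y * y = 1 → 0 ≤ 1 + x ∧ 0 ≤ 1 - x := fun x y h =>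
    ⟨by nlinarith, by nlinarith⟩
  obtain ⟨a0, a0'⟩ := b _ _ h0
  obtain ⟨a1, a1'⟩ := b _ _ h1
  obtain ⟨a2, a2'⟩ := b _ _ h2
  nlinarith [mul_nonneg (mul_nonneg a0 a1) a2, mul_nonneg (mul_nonneg a0' a1') a2']

namespace Cx

variable {V : Type} [Fintype V] [DecidableEq V] (X : Cx V)

/-- The radial profile. -/
noncomputable def g0 (s : ℝ) : ℝ := gl (X.ρ ^ 2 - s) / s

/-- Inverse of the coordinates. -/
def unxi (a b : ℝ) (ξ : X.κ → ℝ) : (V → ℝ) × (ℝ × ℂ) :=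
  (fun j => if h : j = X.o then a else ξ (Sum.inl ⟨j, h⟩), (b, ⟨ξ (Sum.inr 0), ξ (Sum.inr 1)⟩))

theorem xi_unxi (a b : ℝ) (ξ : X.κ → ℝ) : X.xi (X.unxi a b ξ).1 (X.unxi a b ξ).2 = ξ := by
  ext (j | j)
  · simp [xi, unxi, j.2]
  · fin_cases j <;> simp [xi, unxi]

theorem xi_line (w δ : V → ℝ) (v δ' : ℝ × ℂ) (t : ℝ) :
    X.xi (w + t • δ) (v + t • δ') = X.xi w v + t • X.xi δ δ' := by
  ext (j | j)
  · simp [xi]
  · fin_cases j <;> simp [xi]

theorem g0_deriv {s : ℝ} (hs : 0 < s) (h : X.g0 s ≠ 0) :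
    ∃ g', HasDerivAt X.g0 g' s ∧ X.g0 s + 2 * g' * s < 0 := by
  have h1 : HasDerivAt gl (deriv gl (X.ρ ^ 2 - s)) (X.ρ ^ 2 - s) :=
    ((gl_smooth (k := 1)).differentiable (by simp) _).hasDerivAt
  have h2 := h1.nonneg_of_monotone expNegInvGlue.monotone
  refine ⟨_, (h1.comp s ((hasDerivAt_id s).const_sub _)).fun_div (hasDerivAt_id s) hs.ne', ?_⟩
  have h3 : 0 < X.g0 s := lt_of_le_of_ne (div_nonneg (expNegInvGlue.nonneg _) hs.le) h.symm
  have h4 : gl (X.ρ ^ 2 - s) = X.g0 s * s := by simp [g0, hs.ne']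
  simp only [Function.comp, id, h4]
  field_simp
  nlinarith [mul_pos h3 hs]

variable {X}

theorem InB.gam_eq {w : V → ℝ} {v : ℝ × ℂ} (h : X.InB w v) (hs : X.D3 w v ≤ 4 * X.ρ ^ 2) :
    X.gam w v = X.g0 (X.s w v) := by
  rw [gam, (h.neck hs).2.1, (h.neck hs).2.2, one_mul, g0]

theorem InB.le_of_gam {w : V → ℝ} {v : ℝ × ℂ} (h : X.InB w v) (hs : X.gam w v ≠ 0) :
    X.D3 w v < X.ρ ^ 2 := by
  have h1 : ¬ (X.ρ ^ 2 ≤ X.s w v ∨ w X.o ≤ 0 ∨ v.1 ≤ 0) := fun h => hs (X.gam_zero h)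
  push Not at h1
  rcases h.cases (by nlinarith [h1.1]) with h2 | h2 | h2
  · rw [D3, X.T_one h2.1.le h2.2.le]; linarith [h1.1]
  · linarith [h1.2.1]
  · linarith [h1.2.2]

theorem InZ.ph_zero {m : X.Amb} (h : X.InZ m) (hs : X.ρ ^ 2 ≤ X.D3 m.2.1 m.2.2.1) :
    X.gam m.2.1 m.2.2.1 = 0 ∧ X.Ph m.1 = 0 := by
  have : X.gam m.2.1 m.2.2.1 = 0 := by
    by_contra hh
    linarith [h.B.le_of_gam hh]
  exact ⟨this, by rw [h.ph, this, zero_smul]⟩

theorem sg1_neg {u : X.κ → Fin 3 → ℂ} (h : ∀ b c, normSq (u b c) = 1) (h0 : X.Ph u = 0) :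
    X.sg1 u < 0 := by
  have h1 := congrFun h0 X.b₀
  have h2 := h X.b₀ 2
  simp only [Ph, Fin.sum_univ_three, normSq_apply, Pi.zero_apply] at h1 h2
  unfold sg1
  nlinarith

theorem D3_ge (w : V → ℝ) (v : ℝ × ℂ) {i : V} (hi : i ≠ X.o) : w i ^ 2 ≤ X.D3 w v := by
  have := Finset.single_le_sum (f := fun j => w j ^ 2) (s := Finset.univ.erase X.o)
    (fun _ _ => sq_nonneg _) (show i ∈ _ by simp [hi])
  unfold D3
  linarith [X.s_eq w v, normSq_nonneg v.2, (X.T_mem w v).2]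

theorem InZ.sg1_neg {m : X.Amb} (h : X.InZ m) (hC : X.η < m.2.1 X.C ^ 2) : X.sg1 m.1 < 0 :=
  Cx.sg1_neg h.u (h.ph_zero (by
    nlinarith [D3_ge m.2.1 m.2.2.1 X.hoC.symm, X.hρη, sq_nonneg X.ρ])).2

theorem InZ.zeta {m : X.Amb} (h : X.InZ m) : normSq m.2.2.2.1 + normSq m.2.2.2.2 = 1 := by
  have h1 := hopf_norm m.2.2.2
  have h2 : normSq (hopf m.2.2.2).1 + (hopf m.2.2.2).2 ^ 2 = 1 := by
    rw [h.hf]
    by_cases h3 : 0 < X.sg2 m.2.1
    · rw [cor_of_nonpos _ (h.sg1_neg (by unfold sg2 at h3; linarith [X.η_le])).le]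
      simpa using cor_norm h3
    · rw [cor_of_nonpos _ (not_lt.1 h3)]
      by_cases h4 : 0 < X.sg1 m.1
      · simpa using cor_norm h4
      · simp [cor_of_nonpos _ (not_lt.1 h4)]
  nlinarith [normSq_nonneg m.2.2.2.1, normSq_nonneg m.2.2.2.2]

theorem InB.log_dir {w : V → ℝ} {v : ℝ × ℂ} (h : X.InB w v) : ∃ δ : V → ℝ, ∑ i, w i * δ i = 0 ∧
    0 < 2 * (v.1 * v.1) + 2 * (v.2 * conj v.2).re + fderiv ℝ X.phi w δ := by
  classical
  set σ := Finset.univ.filter fun i => X.η₀ < w i ^ 2 with hσ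
  have hf : X.Face σ := h.sig fun i hi => (Finset.mem_filter.1 hi).2
  set a := ∑ i ∈ σ, w i ^ 2 with ha
  have h1 : 1 - Fintype.card V * X.η₀ ≤ a := by
    have h2 := Finset.sum_filter_add_sum_filter_not Finset.univ (fun i => X.η₀ < w i ^ 2)
      fun i => w i ^ 2
    have h3 := Finset.sum_le_card_nsmul (Finset.univ.filter fun i => ¬ X.η₀ < w i ^ 2)
      (fun i => w i ^ 2) X.η₀ fun i hi => not_lt.1 (Finset.mem_filter.1 hi).2
    have h4 : ((Finset.univ.filter fun i => ¬ X.η₀ < w i ^ 2).card : ℝ) ≤ Fintype.card V := by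
      exact_mod_cast Finset.card_le_univ _
    rw [nsmul_eq_mul] at h3
    nlinarith [h.sw, X.η₀_pos]
  have ha0 : 0 < a := by linarith [X.η₀_le, X.η_le]
  set c : V → ℝ := fun i => 1 - if i ∈ σ then a⁻¹ else 0 with hc
  refine ⟨fun i => c i * w i, ?_, ?_⟩
  · have : ∀ i, w i * (c i * w i) = w i ^ 2 - if i ∈ σ then a⁻¹ * w i ^ 2 else 0 := fun i => by
      simp only [hc]; split_ifs <;> ring
    simp only [this, Finset.sum_sub_distrib, h.sw, Finset.sum_ite_mem, Finset.univ_inter,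
      ← Finset.mul_sum, ← ha, inv_mul_cancel₀ ha0.ne', sub_self]
  have h2 : HasDerivAt (fun t : ℝ => X.phi (w + t • fun i => c i * w i))
      (∑ τ ∈ Finset.univ.filter fun τ => ¬ X.Face τ, (2 * ∑ i ∈ τ, c i) * ∏ i ∈ τ, w i ^ 2) 0 := by
    refine HasDerivAt.fun_sum fun τ _ => ?_
    refine hd_congr (HasDerivAt.fun_finsetProd (u := τ) fun i _ =>
      (line_deriv (w i) (c i * w i)).fun_pow 2) (fun _ => rfl) ?_
    rw [Finset.mul_sum, Finset.sum_mul]
    refine Finset.sum_congr rfl fun i hi => ?_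
    rw [← Finset.mul_prod_erase τ _ hi]
    simp
    ring
  rw [(dir_deriv ((X.phi_smooth (k := 1)).differentiable (by simp) w) _).unique h2]
  have h3 : ∀ τ ∈ Finset.univ.filter fun τ => ¬ X.Face τ,
      ∏ i ∈ τ, w i ^ 2 ≤ (2 * ∑ i ∈ τ, c i) * ∏ i ∈ τ, w i ^ 2 := by
    intro τ hτ
    refine le_mul_of_one_le_left (Finset.prod_nonneg fun _ _ => sq_nonneg _) ?_
    have h4 : ((τ ∩ σ).card : ℝ) + 1 ≤ τ.card := by
      exact_mod_cast Finset.card_lt_card ⟨Finset.inter_subset_left, fun hh =>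
        (Finset.mem_filter.1 hτ).2 (X.down hf (hh.trans Finset.inter_subset_right))⟩
    have h5 : (τ.card : ℝ) ≤ Fintype.card V := by exact_mod_cast Finset.card_le_univ _
    have h6 : a ≤ 1 := h.sw ▸ Finset.sum_le_sum_of_subset_of_nonneg (Finset.subset_univ _)
      fun _ _ _ => sq_nonneg _
    have h7 : ((τ ∩ σ).card : ℝ) * a⁻¹ ≤ τ.card - 1 / 2 := by
      rw [← div_eq_mul_inv, div_le_iff₀ ha0]
      nlinarith [X.Nη₀, X.η_le, X.η₀_le, mul_pos (lt_of_lt_of_le one_pos X.N_ge) X.η₀_pos]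
    simp only [hc, Finset.sum_sub_distrib, Finset.sum_ite_mem, Finset.sum_const, nsmul_eq_mul]
    linarith
  have h4 := Finset.sum_le_sum h3
  have h5 := h.sv
  rw [mul_conj, ofReal_re]
  unfold phi at h5
  nlinarith [sq_nonneg v.1, normSq_nonneg v.2, pow_pos X.d_pos 2]

theorem F_reg {m : X.Amb} (h : X.InZ m) : Function.Surjective (fderiv ℝ X.F m) := by
  have hd := dir_deriv ((X.F_smooth (k := 1) (inZ_iff.2 h).1).differentiableAt (by simp))
  set A := fderiv ℝ X.F m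
  have hG : DifferentiableAt ℝ (fun p : (V → ℝ) × (ℝ × ℂ) => X.gam p.1 p.2 • X.xi p.1 p.2)
      (m.2.1, m.2.2.1) := by
    refine ContDiffAt.differentiableAt (n := (1 : ℕ∞)) ?_ (by simp)
    unfold gam
    fun_prop (disch := exact h.pos.ne')
  set DG := fderiv ℝ (fun p : (V → ℝ) × (ℝ × ℂ) => X.gam p.1 p.2 • X.xi p.1 p.2) (m.2.1, m.2.2.1)
  have e1 : ∀ x, (A x).1 = fun b c => 2 * (m.1 b c * conj (x.1 b c)).re := fun x =>
    (hd_fst (hd x)).unique (hasDerivAt_pi.2 fun b => hasDerivAt_pi.2 fun c =>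
      (normSq_deriv (m.1 b c) (x.1 b c)).sub_const 1)
  have e2 : ∀ x, (A x).2.1 = (2 * ∑ i, m.2.1 i * x.2.1 i, 2 * (m.2.2.1.1 * x.2.2.1.1) +
      2 * (m.2.2.1.2 * conj x.2.2.1.2).re + fderiv ℝ X.phi m.2.1 x.2.1) := fun x => by
    refine (hd_fst (hd_snd (hd x))).unique (((sumsq_deriv _ _).sub_const 1).prodMk ?_)
    exact hd_congr ((((((line_deriv m.2.2.1.1 x.2.2.1.1).fun_pow 2).fun_add
      (normSq_deriv _ x.2.2.1.2)).fun_add (dir_deriv ((X.phi_smooth (k := 1)).differentiable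
      (by simp) _) x.2.1))).sub_const (X.d ^ 2)) (fun _ => rfl) (by simp [mul_assoc])
  have e4 : ∀ x, (A x).2.2.1 = X.Ph x.1 - DG (x.2.1, x.2.2.1) := fun x => by
    refine (hd_fst (hd_snd (hd_snd (hd x)))).unique
      (HasDerivAt.fun_sub ?_ (dir_deriv hG (x.2.1, x.2.2.1)))
    refine hd_congr (line_deriv (X.Ph m.1) (X.Ph x.1)) (fun t => ?_) rfl
    ext b
    simp [Ph, Finset.sum_add_distrib, Finset.mul_sum]
  have s5 : ∀ y, ∃ x, A x = (0, 0, 0, y) := fun y => by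
    set ζ := m.2.2.2
    set δ : ℂ × ℂ := (y.1 / 2 * ζ.2 + (y.2 / 2 : ℝ) * ζ.1, conj (y.1 / 2) * ζ.1 - (y.2 / 2 : ℝ) * ζ.2)
      with hδ
    refine ⟨(0, 0, 0, δ), Prod.ext (by ext; simp [e1]) (Prod.ext (by simp [e2]) (Prod.ext ?_ ?_))⟩
    · rw [e4]; ext; simp [Ph, Prod.mk_zero_zero]
    have hc : HasDerivAt (fun t : ℝ => conj (ζ.2 + t • δ.2)) (conj δ.2) 0 :=
      conjCLE.hasFDerivAt.comp_hasDerivAt 0 (line_deriv _ _)
    have h1 := ((((line_deriv ζ.1 δ.1).const_mul 2).fun_mul hc).prodMk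
      ((normSq_deriv ζ.1 δ.1).fun_sub (normSq_deriv ζ.2 δ.2)))
    refine (hd_snd (hd_snd (hd_snd (hd _)))).unique (hd_congr (((h1.sub_const (0, 1)).sub_const
      (cor (X.th1 m.1) (X.sg1 m.1))).sub_const (cor (X.ch2 m.2.1) (X.sg2 m.2.1)))
      (fun t => by simp [F, hopf, ζ]) ?_)
    have h2 := h.zeta
    simp only [normSq_apply] at h2
    refine Prod.ext (Complex.ext ?_ ?_) ?_ <;> simp [hδ, map_ofNat]
    · linear_combination (-y.1.re) * h2
    · linear_combination (-y.1.im) * h2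
    · linear_combination (-y.2) * h2
  have key : (∀ y, ∃ x, (A x).1 = 0 ∧ (A x).2.1 = y) ∧
      ∀ y, ∃ x, (A x).1 = 0 ∧ (A x).2.1 = 0 ∧ (A x).2.2.1 = y := by
    by_cases h0 : X.gam m.2.1 m.2.2.1 = 0
    · constructor
      · intro y
        obtain ⟨δ, h1, h2⟩ := h.B.log_dir
        set r := 2 * (m.2.2.1.1 * m.2.2.1.1) + 2 * (m.2.2.1.2 * conj m.2.2.1.2).re +
          fderiv ℝ X.phi m.2.1 δ with hr
        have h3 : (A (0, m.2.1, 0, 0)).2.1.1 = 2 := by simp [e2, ← sq, h.B.sw]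
        have h4 : (A (0, δ, m.2.2.1, 0)).2.1 = (0, r) := by simp only [e2, h1, mul_zero, hr]
        refine ⟨(y.1 / 2) • (0, m.2.1, 0, 0) +
          ((y.2 - y.1 / 2 * (A (0, m.2.1, 0, 0)).2.1.2) / r) • (0, δ, m.2.2.1, 0), ?_, ?_⟩
        · ext; simp [e1]
        · rw [map_add, map_smul, map_smul]
          refine Prod.ext (by simp [h3, h4]) ?_
          simp [h4, h2.ne']
      · intro y
        have h1 : ∀ b, 0 < ∑ c, (m.1 b c).im ^ 2 := fun b => by
          have h2 := unit_sum (h.u b)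
          have h3 : ∑ c, (m.1 b c).re = 0 := by simpa [h0, Ph] using congrFun h.ph b
          rw [h3] at h2
          linarith
        refine ⟨(fun b c => (-(y b * (m.1 b c).im / ∑ c, (m.1 b c).im ^ 2) : ℝ) * I * m.1 b c,
          0, 0, 0), ?_, by simp [e2], ?_⟩
        · ext b c; simp [e1, - ofReal_div, - ofReal_neg]; ring
        · rw [e4]
          ext b
          have := h1 b
          simp only [Ph, Prod.mk_zero_zero, map_zero, sub_zero, mul_assoc, re_ofReal_mul]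
          simp only [Fin.sum_univ_three] at this ⊢
          simp
          field_simp
    · have h1 := h.B.le_of_gam h0
      have h2 : X.D3 m.2.1 m.2.2.1 ≤ 4 * X.ρ ^ 2 := by nlinarith [sq_nonneg X.ρ]
      obtain ⟨⟨h3, h4⟩, -, h5⟩ := h.B.neck h2
      have h6 : 0 < X.s m.2.1 m.2.2.1 := h5 ▸ h.pos
      rw [h.B.gam_eq h2] at h0
      obtain ⟨g', h7, h8⟩ := X.g0_deriv h6 h0
      set ξ := X.xi m.2.1 m.2.2.1 with hξ
      have e5 : ∀ p : (V → ℝ) × (ℝ × ℂ), DG p = X.g0 (X.s m.2.1 m.2.2.1) • X.xi p.1 p.2 +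
          (g' * (2 * ∑ b, ξ b * X.xi p.1 p.2 b)) • ξ := fun p => by
        refine (dir_deriv hG p).unique ?_
        have h9 := (h7.comp_of_eq 0 (sumsq_deriv ξ (X.xi p.1 p.2)) (by simp [s, hξ])).fun_smul
          (line_deriv ξ (X.xi p.1 p.2))
        simp only [zero_smul, add_zero, Function.comp] at h9
        refine h9.congr_of_eventuallyEq ?_
        have c1 : Continuous fun t : ℝ => (m.2.1 + t • p.1) X.o := by fun_prop
        have c2 : Continuous fun t : ℝ => (m.2.2.1 + t • p.2).1 := by fun_prop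
        filter_upwards [(c1.tendsto' 0 _ (by simp)).eventually_const_lt h3,
          (c2.tendsto' 0 _ (by simp)).eventually_const_lt h4] with t a b
        simp only [Prod.fst_add, Prod.snd_add, Prod.smul_fst, Prod.smul_snd, gam, D3,
          X.T_one a.le b.le, s, xi_line, g0, ← hξ, one_mul, add_sub_cancel_right]
      have k1 : ∀ y, ∃ x, (A x).1 = 0 ∧ (A x).2.1 = y ∧ (A x).2.2.1 = 0 := fun y => by
        have hd := X.d_pos
        set δ : V → ℝ := Pi.single X.o (y.1 / (2 * m.2.1 X.o)) with hδ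
        refine ⟨(0, δ, ((y.2 - fderiv ℝ X.phi m.2.1 δ) / (2 * m.2.2.1.1), 0), 0), by ext; simp [e1],
          ?_, ?_⟩
        · rw [e2]
          refine Prod.ext ?_ ?_
          · simp [hδ, Pi.single_apply]; field_simp
          · have : m.2.2.1.1 ≠ 0 := by linarith
            simp; field_simp; ring
        · have : X.xi δ ((y.2 - fderiv ℝ X.phi m.2.1 δ) / (2 * m.2.2.1.1), 0) = 0 := by
            ext (j | j)
            · simp [xi, hδ, j.2]
            · fin_cases j <;> simp [xi]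
          rw [e4, e5, this]
          ext; simp [Ph]
      refine ⟨fun y => (k1 y).imp fun x hx => ⟨hx.1, hx.2.1⟩, fun y => ?_⟩
      set g := X.g0 (X.s m.2.1 m.2.2.1)
      set p := X.unxi 0 0 (-g⁻¹ • (y - (2 * g' / (g + 2 * g' * X.s m.2.1 m.2.2.1) *
        ∑ b, ξ b * y b) • ξ)) with hp
      obtain ⟨x, h9, h10, h11⟩ := k1 (A (0, p.1, p.2, 0)).2.1
      refine ⟨(0, p.1, p.2, 0) - x, ?_, by simp [h10], ?_⟩
      · rw [map_sub, Prod.fst_sub, h9]; ext; simp [e1]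
      · rw [map_sub, Prod.snd_sub, Prod.snd_sub, Prod.fst_sub, h11, e4, e5, hp, xi_unxi]
        have h12 : ∑ b, ξ b * ξ b = X.s m.2.1 m.2.2.1 := by simp [s, sq, hξ]
        ext b
        simp only [Ph, Pi.smul_apply, Pi.sub_apply, Pi.add_apply, smul_eq_mul, mul_sub,
          Finset.sum_sub_distrib, Pi.zero_apply, zero_re, Finset.sum_const_zero, mul_left_comm (ξ _),
          ← Finset.mul_sum, h12]
        have := h8.ne
        field_simp
        ring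
  intro y
  obtain ⟨x₁, h₁⟩ : ∃ x, (A x).1 = y.1 := ⟨(fun b c => (y.1 b c / 2 : ℝ) * m.1 b c, 0), by
    ext b c
    rw [e1]
    simp only [map_mul, conj_ofReal, mul_left_comm (m.1 b c), mul_conj, h.u, re_ofReal_mul]
    simp; ring⟩
  obtain ⟨x₂, h₂, h₂'⟩ := key.1 (y.2.1 - (A x₁).2.1)
  obtain ⟨x₃, h₃, h₃', h₃''⟩ := key.2 (y.2.2.1 - (A x₁).2.2.1 - (A x₂).2.2.1)
  obtain ⟨x₄, h₄⟩ := s5 (y.2.2.2 - (A x₁).2.2.2 - (A x₂).2.2.2 - (A x₃).2.2.2)
  refine ⟨x₁ + x₂ + x₃ + x₄, ?_⟩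
  simp only [map_add, h₄]
  refine Prod.ext ?_ (Prod.ext ?_ (Prod.ext ?_ ?_)) <;> simp [h₁, h₂, h₂', h₃, h₃', h₃'']

theorem sum_Ph_le {u : X.κ → Fin 3 → ℂ} (h : ∀ b c, normSq (u b c) = 1) :
    ∑ b, X.Ph u b ^ 2 ≤ 9 * Fintype.card X.κ := by
  refine (Finset.sum_le_card_nsmul _ _ 9 fun b _ => ?_).trans (by simp [mul_comm])
  have h0 := h b 0
  have h1 := h b 1
  have h2 := h b 2
  simp only [normSq_apply, Ph, Fin.sum_univ_three] at *
  nlinarith [sq_nonneg ((u b 0).re - (u b 1).re), sq_nonneg ((u b 0).re - (u b 2).re),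
    sq_nonneg ((u b 1).re - (u b 2).re), mul_self_nonneg (u b 0).im, mul_self_nonneg (u b 1).im,
    mul_self_nonneg (u b 2).im]

theorem InZ.sum_Ph {m : X.Amb} (h : X.InZ m) (hs : X.D3 m.2.1 m.2.2.1 ≤ 4 * X.ρ ^ 2) :
    ∑ b, X.Ph m.1 b ^ 2 = gl (X.ρ ^ 2 - X.s m.2.1 m.2.2.1) ^ 2 / X.s m.2.1 m.2.2.1 := by
  have h1 : 0 < X.s m.2.1 m.2.2.1 := (h.B.neck hs).2.2 ▸ h.pos
  simp only [h.ph, h.B.gam_eq hs, Pi.smul_apply, smul_eq_mul, mul_pow, ← Finset.mul_sum, g0]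
  rw [← s]
  field_simp

theorem exists_D3_lb (X : Cx V) : ∃ ε > 0, ∀ m, X.InZ m → ε ≤ X.D3 m.2.1 m.2.2.1 := by
  have h0 := pow_pos X.ρ_pos 2
  have h1 : (0 : ℝ) < Fintype.card X.κ := by exact_mod_cast Fintype.card_pos
  have h2 := expNegInvGlue.pos_of_pos (half_pos h0)
  refine ⟨min (X.ρ ^ 2 / 2) (gl (X.ρ ^ 2 / 2) ^ 2 / (9 * Fintype.card X.κ)), by positivity,
    fun m h => min_le_iff.2 (or_iff_not_imp_left.2 fun h3 => ?_)⟩
  have h4 : X.D3 m.2.1 m.2.2.1 ≤ 4 * X.ρ ^ 2 := by linarith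
  have h5 := sum_Ph_le h.u
  have h6 := h.pos
  rw [h.sum_Ph h4, ← (h.B.neck h4).2.2, div_le_iff₀ h6] at h5
  rw [div_le_iff₀ (by positivity)]
  have h7 : gl (X.ρ ^ 2 / 2) ≤ gl (X.ρ ^ 2 - X.D3 m.2.1 m.2.2.1) :=
    expNegInvGlue.monotone (by linarith)
  nlinarith

/-- The level set. -/
noncomputable def lev (X : Cx V) : Lev X.n X.Amb X.Tgt where
  F := X.F
  D := X.Dom
  iso := ContinuousLinearEquiv.ofFinrankEq (by
    have : Fintype.card X.κ = Fintype.card V + 1 := by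
      have := Fintype.card_pos_iff.2 ⟨X.o⟩
      simp [Fintype.card_subtype_compl]
      omega
    rw [Module.finrank_prod, finrank_euclideanSpace_fin]
    simp only [Module.finrank_prod, finrank_euclideanSpace, Module.finrank_pi_fintype,
      Fintype.card_fin, Module.finrank_self, finrank_real_complex, Finset.sum_const,
      Finset.card_univ, smul_eq_mul, n, this]
    ring)
  hn := Nat.succ_pos _
  hD := X.isOpen_Dom
  smooth := fun _ h => X.F_smooth h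
  reg := fun _ h h' => F_reg (inZ_iff.1 ⟨h, h'⟩)

theorem mem_Z {m : X.Amb} : m ∈ X.lev.Z ↔ X.InZ m := inZ_iff

theorem inZ (m : X.lev.Z) : X.InZ m := mem_Z.1 m.2

theorem norm_le_one_of_normSq {z : ℂ} (h : normSq z ≤ 1) : ‖z‖ ≤ 1 := by
  rw [normSq_eq_norm_sq] at h
  nlinarith [norm_nonneg z]

theorem InZ.v_le {m : X.Amb} (h : X.InZ m) : m.2.2.1.1 ^ 2 + normSq m.2.2.1.2 ≤ 1 := by
  linarith [h.B.sv, X.phi_nonneg m.2.1, X.d_lt]

theorem cpt (X : Cx V) : IsCompact X.lev.Z := by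
  obtain ⟨ε, h0, hε⟩ := X.exists_D3_lb
  refine Metric.isCompact_of_isClosed_isBounded ?_ ?_
  · set K : Set X.Amb := {m | (∀ b c, normSq (m.1 b c) = 1) ∧ ∑ i, m.2.1 i ^ 2 = 1 ∧
      m.2.2.1.1 ^ 2 + normSq m.2.2.1.2 + X.phi m.2.1 = X.d ^ 2 ∧ ε ≤ X.D3 m.2.1 m.2.2.1}
    have hK : ∀ m ∈ K, m ∈ X.Dom := fun m h =>
      ⟨h0.trans_le h.2.2.2, den1_pos h.1, InB.den2_pos ⟨h.2.1, h.2.2.1⟩⟩
    have c1 := (X.phi_smooth (k := 1)).continuous
    have c2 := (X.D3_smooth (k := 1)).continuous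
    have : X.lev.Z = K ∩ X.F ⁻¹' {0} := by
      ext m
      exact ⟨fun h => let h' := mem_Z.1 h; ⟨⟨h'.u, h'.B.sw, h'.B.sv, hε m h'⟩, h.2⟩,
        fun h => ⟨hK m h.1, h.2⟩⟩
    rw [this]
    refine ContinuousOn.preimage_isClosed_of_isClosed
      (fun m h => (X.F_smooth (k := 1) (hK m h)).continuousAt.continuousWithinAt) ?_
      isClosed_singleton
    refine IsClosed.and ?_ ((isClosed_eq (by fun_prop) continuous_const).and
      ((isClosed_eq (by fun_prop) continuous_const).and (isClosed_le continuous_const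
        (c2.comp (f := fun m : X.Amb => (m.2.1, m.2.2.1)) (by fun_prop)))))
    simp only [ofPred_forall]
    exact isClosed_iInter fun b => isClosed_iInter fun c => isClosed_eq (by fun_prop)
      continuous_const
  · refine (Metric.isBounded_closedBall (x := 0) (r := 1)).subset fun m h => ?_
    have h := mem_Z.1 h
    have h1 := h.zeta
    have h2 := h.v_le
    simp only [mem_closedBall_zero_iff, norm_prod_le_iff, pi_norm_le_iff_of_nonneg zero_le_one]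
    refine ⟨fun b c => norm_le_one_of_normSq (h.u b c).le, fun i => ?_, ⟨?_, ?_⟩, ?_, ?_⟩
    · exact abs_le_one_iff_mul_self_le_one.2 (sq (m.2.1 i) ▸ sq_le_one h.B.sw i)
    · exact abs_le_one_iff_mul_self_le_one.2 (by nlinarith [normSq_nonneg m.2.2.1.2])
    · exact norm_le_one_of_normSq (by nlinarith [sq_nonneg m.2.2.1.1])
    · exact norm_le_one_of_normSq (by linarith [normSq_nonneg m.2.2.2.2])
    · exact norm_le_one_of_normSq (by linarith [normSq_nonneg m.2.2.2.1])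

end Cx

end Pool.Agent.Lib.MP_4b70aa_gt
end

-- part Pool.Agent.Lib.MP_4b70aa_gt.Sec
section

set_option autoImplicit false
set_option linter.unusedSectionVars false

open Filter Set Topology Complex
open scoped ContDiff ComplexConjugate

namespace Pool.Agent.Lib.MP_4b70aa_gt

theorem locHomeo_of {Y X : Type} [TopologicalSpace Y] [TopologicalSpace X] {p : Y → X}
    (hc : Continuous p) (ho : IsOpenMap p) (hi : ∀ y, ∃ U ∈ 𝓝 y, InjOn p U) :
    IsLocalHomeomorph p := by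
  refine isLocalHomeomorph_iff_isOpenEmbedding_restrict.2 fun y => ?_
  obtain ⟨U, hU, h⟩ := hi y
  exact ⟨interior U, interior_mem_nhds.2 hU, .of_continuous_injective_isOpenMap
    (hc.comp continuous_subtype_val) (h.mono interior_subset).injective
    (ho.comp isOpen_interior.isOpenMap_subtype_val)⟩

section ex

/-- The exponential with period one. -/
noncomputable def ex (t : ℝ) : ℂ := exp ((2 * Real.pi * t : ℝ) * I)

/-- The normalised argument. -/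
noncomputable def lg (z : ℂ) : ℝ := arg z / (2 * Real.pi)

theorem ex_add (a b : ℝ) : ex (a + b) = ex a * ex b := by
  simp [ex, ← exp_add, mul_add, add_mul]

@[simp] theorem ex_zero : ex 0 = 1 := by simp [ex]

theorem ex_eq_iff {a b : ℝ} : ex a = ex b ↔ ∃ n : ℤ, a = b + n := by
  rw [ex, ex, exp_eq_exp_iff_exists_int]
  refine exists_congr fun n => ⟨fun h => ?_, fun h => by rw [h]; push_cast; ring⟩
  have h1 := congrArg im h
  simp at h1
  exact mul_left_cancel₀ Real.two_pi_pos.ne' (by linarith)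

theorem ex_add_int (a : ℝ) (n : ℤ) : ex (a + n) = ex a := ex_eq_iff.2 ⟨n, rfl⟩

theorem ex_sub_int (a : ℝ) (n : ℤ) : ex (a - n) = ex a := ex_eq_iff.2 ⟨-n, by push_cast; ring⟩

@[simp] theorem ex_one : ex 1 = 1 := ex_zero ▸ ex_eq_iff.2 ⟨1, by simp⟩

theorem ex_re (t : ℝ) : (ex t).re = Real.cos (2 * Real.pi * t) := exp_ofReal_mul_I_re _

theorem ex_im (t : ℝ) : (ex t).im = Real.sin (2 * Real.pi * t) := exp_ofReal_mul_I_im _

@[simp] theorem norm_ex (t : ℝ) : ‖ex t‖ = 1 := norm_exp_ofReal_mul_I _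

@[simp] theorem normSq_ex (t : ℝ) : normSq (ex t) = 1 := by simp [normSq_eq_norm_sq]

theorem ex_ne (t : ℝ) : ex t ≠ 0 := exp_ne_zero _

theorem ex_half : ex (1 / 2) = -1 := by
  rw [ex, show 2 * Real.pi * (1 / 2) = Real.pi by ring, exp_pi_mul_I]

theorem ex_quarter : ex (1 / 4) = I := by
  rw [ex, show 2 * Real.pi * (1 / 4) = Real.pi / 2 by ring]
  simp

theorem ex_mul_conj (a b : ℝ) : ex a * conj (ex b) = ex (a - b) := by
  rw [← mul_left_inj' (ex_ne b), ← ex_add, mul_assoc, ← normSq_eq_conj_mul_self]; simp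

@[fun_prop] theorem ex_smooth {k : WithTop ℕ∞} : ContDiff ℝ k ex := by
  unfold ex; fun_prop

@[fun_prop] theorem ex_cont : Continuous ex := (ex_smooth (k := 0)).continuous

theorem ex_lg' (z : ℂ) : ‖z‖ * ex (lg z) = z := by
  rw [ex, lg, mul_div_cancel₀ _ Real.two_pi_pos.ne', norm_mul_exp_arg_mul_I]

theorem ex_lg {z : ℂ} (h : normSq z = 1) : ex (lg z) = z := by
  have := ex_lg' z
  rwa [norm_def, h, Real.sqrt_one, ofReal_one, one_mul] at this

theorem abs_lg (z : ℂ) : |lg z| ≤ 1 / 2 := by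
  rw [lg, abs_div, abs_of_pos Real.two_pi_pos, div_le_iff₀ Real.two_pi_pos]
  linarith [abs_arg_le_pi z]

theorem abs_lg_lt {z : ℂ} (h : 0 < z.re) : |lg z| < 1 / 4 := by
  rw [lg, abs_div, abs_of_pos Real.two_pi_pos, div_lt_iff₀ Real.two_pi_pos]
  linarith [abs_arg_lt_pi_div_two_iff.2 (Or.inl h)]

theorem lg_ex {t : ℝ} (h : |t| < 1 / 2) : lg (ex t) = t := by
  rw [lg, ex, arg_exp_mul_I, (toIocMod_eq_self _).2, mul_div_cancel_left₀ _ Real.two_pi_pos.ne']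
  obtain ⟨h1, h2⟩ := abs_lt.1 h
  constructor <;> nlinarith [Real.pi_pos]

@[simp] theorem lg_one : lg 1 = 0 := by simp [lg]

theorem lg_smooth {k : WithTop ℕ∞} {z : ℂ} (h : z ∈ slitPlane) : ContDiffAt ℝ k lg z := by
  have : ContDiffAt ℝ k (fun z => (log z).im / (2 * Real.pi)) z :=
    (im_smooth.contDiffAt.comp z ((contDiffAt_log h).restrict_scalars ℝ)).div_const _
  simp only [log_im] at this
  exact this

theorem ex_deriv (t : ℝ) : HasDerivAt ex (2 * Real.pi * I * ex t) t :=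
  hd_congr ((((hasDerivAt_id t).const_mul (2 * Real.pi)).ofReal_comp.mul_const I).cexp)
    (fun _ => rfl) (by simp [ex]; ring)

theorem norm_ex_sub (a b : ℝ) : ‖ex a - ex b‖ = ‖2 * Real.sin (Real.pi * (a - b))‖ := by
  rw [show ex a - ex b = (ex (a - b) - 1) * ex b by rw [sub_mul, ← ex_add]; simp, norm_mul, norm_ex,
    mul_one, ex, mul_comm _ I, norm_exp_I_mul_ofReal_sub_one]
  congr 3; ring

theorem ex_lip (a b : ℝ) : ‖ex a - ex b‖ ≤ 7 * |a - b| := by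
  rw [norm_ex_sub, norm_mul, Real.norm_two, Real.norm_eq_abs]
  have h := Real.abs_sin_le_abs (x := Real.pi * (a - b))
  rw [abs_mul, abs_of_pos Real.pi_pos] at h
  nlinarith [Real.pi_lt_d2, abs_nonneg (a - b)]

theorem ex_lower {a b : ℝ} (h : |a - b| ≤ 1 / 2) : |a - b| ≤ ‖ex a - ex b‖ := by
  rw [norm_ex_sub, norm_mul, Real.norm_two, Real.norm_eq_abs]
  have h1 := Real.mul_abs_le_abs_sin (x := Real.pi * (a - b)) (by
    rw [abs_mul, abs_of_pos Real.pi_pos]; nlinarith [Real.pi_pos])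
  rw [abs_mul, abs_of_pos Real.pi_pos, ← mul_assoc, div_mul_cancel₀ _ Real.pi_pos.ne'] at h1
  linarith [abs_nonneg (a - b)]

theorem ex_re_nonpos {t : ℝ} (h1 : 1 / 4 ≤ t) (h2 : t ≤ 3 / 4) : (ex t).re ≤ 0 := by
  rw [ex_re]
  exact Real.cos_nonpos_of_pi_div_two_le_of_le (by nlinarith [Real.pi_pos])
    (by nlinarith [Real.pi_pos])

theorem ex_re_nonneg {t : ℝ} (h : |t| ≤ 1 / 4) : 0 ≤ (ex t).re := by
  rw [ex_re]
  obtain ⟨h1, h2⟩ := abs_le.1 h
  exact Real.cos_nonneg_of_mem_Icc ⟨by nlinarith [Real.pi_pos], by nlinarith [Real.pi_pos]⟩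

theorem ex_re_le (t : ℝ) : (ex t).re ≤ 1 := (re_le_norm _).trans (norm_ex t).le

end ex

section group

/-- The lattice: a Heisenberg group times a free abelian group. -/
@[ext] structure Lam (κ : Type) (b : κ) where
  m : κ → Fin 3 → ℤ
  j : ℤ

variable {κ : Type} {b : κ}

instance : Mul (Lam κ b) := ⟨fun l a => ⟨l.m + a.m, l.j + a.j - l.m b 0 * a.m b 1⟩⟩

instance : One (Lam κ b) := ⟨⟨0, 0⟩⟩

instance : Inv (Lam κ b) := ⟨fun a => ⟨-a.m, -a.j - a.m b 0 * a.m b 1⟩⟩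

@[simp] theorem Lam.mul_m (l a : Lam κ b) : (l * a).m = l.m + a.m := rfl

@[simp] theorem Lam.mul_j (l a : Lam κ b) : (l * a).j = l.j + a.j - l.m b 0 * a.m b 1 := rfl

@[simp] theorem Lam.one_m : (1 : Lam κ b).m = 0 := rfl

@[simp] theorem Lam.one_j : (1 : Lam κ b).j = 0 := rfl

@[simp] theorem Lam.inv_m (a : Lam κ b) : a⁻¹.m = -a.m := rfl

@[simp] theorem Lam.inv_j (a : Lam κ b) : a⁻¹.j = -a.j - a.m b 0 * a.m b 1 := rfl

instance : Group (Lam κ b) := Group.ofLeftAxioms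
  (fun _ _ _ => by ext <;> simp <;> ring) (fun _ => by ext <;> simp) fun _ => by
    ext <;> simp; ring

/-- The central elements. -/
def Lam.z (j : ℤ) : Lam κ b := ⟨0, j⟩

/-- The universal cover of the nilmanifold. -/
abbrev XT (κ : Type) : Type := (κ → Fin 3 → ℝ) × ℝ

noncomputable instance : MulAction (Lam κ b) (XT κ) where
  smul l q := (fun a c => q.1 a c + l.m a c, q.2 - l.m b 0 * q.1 b 1 - l.m b 0 / 2 + l.j)
  one_smul q := by
    change ((_, _) : XT κ) = _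
    simp
  mul_smul l a q := by
    change ((_, _) : XT κ) = (_, _)
    refine Prod.ext (funext₂ fun a c => ?_) ?_
    · change _ = q.1 a c + _ + _
      simp; ring
    · change _ = q.2 - _ * q.1 b 1 - _ + _ - _ * (q.1 b 1 + _) - _ + _
      simp; ring

theorem Lam.smul_fst (l : Lam κ b) (q : XT κ) (a : κ) (c : Fin 3) :
    (l • q).1 a c = q.1 a c + l.m a c := rfl

theorem Lam.smul_snd (l : Lam κ b) (q : XT κ) :
    (l • q).2 = q.2 - l.m b 0 * q.1 b 1 - l.m b 0 / 2 + l.j := rfl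

theorem Lam.z_smul (j : ℤ) (q : XT κ) : (Lam.z j : Lam κ b) • q = (q.1, q.2 + j) :=
  Prod.ext (funext₂ fun a c => by simp [Lam.smul_fst, Lam.z]) (by simp [Lam.smul_snd, Lam.z])

theorem Lam.smul_shift (l : Lam κ b) (q : XT κ) (t : ℝ) :
    l • ((q.1, q.2 + t) : XT κ) = ((l • q).1, (l • q).2 + t) :=
  Prod.ext rfl (by simp only [Lam.smul_snd]; ring)

theorem Lam.smooth [Fintype κ] {k : WithTop ℕ∞} (l : Lam κ b) :
    ContDiff ℝ k fun q : XT κ => l • q := by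
  change ContDiff ℝ k fun q : XT κ => ((fun a c => q.1 a c + l.m a c,
    q.2 - l.m b 0 * q.1 b 1 - l.m b 0 / 2 + l.j) : XT κ)
  fun_prop

/-- The exponential of all torus coordinates. -/
noncomputable def Ex (x : κ → Fin 3 → ℝ) : κ → Fin 3 → ℂ := fun a c => ex (x a c)

@[fun_prop] theorem Ex_smooth [Fintype κ] {k : WithTop ℕ∞} :
    ContDiff ℝ k (Ex : (κ → Fin 3 → ℝ) → _) := by
  unfold Ex; fun_prop

theorem Ex_smul (l : Lam κ b) (q : XT κ) : Ex (l • q).1 = Ex q.1 :=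
  funext₂ fun _ _ => ex_add_int _ _

end group

section hopf

/-- A unit vector. -/
def Un (ζ : ℂ × ℂ) : Prop := normSq ζ.1 + normSq ζ.2 = 1

/-- The Hermitian product. -/
def ip (a ζ : ℂ × ℂ) : ℂ := conj a.1 * ζ.1 + conj a.2 * ζ.2

theorem Un.smul {ζ : ℂ × ℂ} (h : Un ζ) {l : ℂ} (hl : normSq l = 1) : Un (l • ζ) := by
  simpa [Un, hl] using h

theorem hopf_smul (ζ : ℂ × ℂ) {l : ℂ} (hl : normSq l = 1) : hopf (l • ζ) = hopf ζ := by
  have : l * conj l = 1 := by rw [mul_conj, hl, ofReal_one]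
  simp only [hopf, Prod.smul_fst, Prod.smul_snd, smul_eq_mul, map_mul, hl, one_mul]
  congr 1
  linear_combination (2 * ζ.1 * conj ζ.2) * this

theorem Un.ip_smul {a : ℂ × ℂ} (h : Un a) (l : ℂ) : ip a (l • a) = l := by
  have h1 : conj a.1 * a.1 + conj a.2 * a.2 = 1 := by
    rw [← normSq_eq_conj_mul_self, ← normSq_eq_conj_mul_self, ← ofReal_add, h, ofReal_one]
  simp only [ip, Prod.smul_fst, Prod.smul_snd, smul_eq_mul]
  linear_combination l * h1

theorem Un.cancel {a : ℂ × ℂ} (h : Un a) {l l' : ℂ} (e : l • a = l' • a) : l = l' := by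
  rw [← h.ip_smul l, e, h.ip_smul]

theorem Un.eq_smul {a ζ : ℂ × ℂ} (h : Un a) (h' : Un ζ) (e : hopf a = hopf ζ) :
    ζ = ip a ζ • a ∧ normSq (ip a ζ) = 1 := by
  have e1 := congrArg Prod.fst e
  have e2 := congrArg Prod.snd e
  simp only [hopf, Un] at *
  have e3 : conj a.1 * a.1 = conj ζ.1 * ζ.1 := by
    rw [← normSq_eq_conj_mul_self, ← normSq_eq_conj_mul_self]; congr 1; linarith
  have e4 : conj a.2 * a.2 = conj ζ.2 * ζ.2 := by
    rw [← normSq_eq_conj_mul_self, ← normSq_eq_conj_mul_self]; congr 1; linarith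
  have e5 : conj ζ.1 * ζ.1 + conj ζ.2 * ζ.2 = 1 := by
    rw [← normSq_eq_conj_mul_self, ← normSq_eq_conj_mul_self, ← ofReal_add, h', ofReal_one]
  have e6 := congrArg conj e1
  simp only [map_mul, conj_conj, map_ofNat] at e6
  have e7 : ζ = ip a ζ • a := by
    refine Prod.ext ?_ ?_ <;> simp only [ip, Prod.smul_fst, Prod.smul_snd, smul_eq_mul]
    · linear_combination (-ζ.1) * e3 - ζ.2 / 2 * e1 - ζ.1 * e5
    · linear_combination (-ζ.2) * e4 - ζ.1 / 2 * e6 - ζ.2 * e5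
  refine ⟨e7, ?_⟩
  rw [e7] at h'
  simp only [Prod.smul_fst, Prod.smul_snd, smul_eq_mul, map_mul, ← mul_add, h, mul_one] at h'
  exact h'

/-- A normalised vector. -/
noncomputable def nv (ϑ : ℂ) (σ : ℝ) : ℂ × ℂ :=
  (√(normSq ϑ + gl σ ^ 2))⁻¹ • (ϑ, (gl σ : ℂ))

theorem nv_pos {ϑ : ℂ} {σ : ℝ} (h : σ ≤ 0 → ϑ ≠ 0) : 0 < normSq ϑ + gl σ ^ 2 := by
  rcases le_or_gt σ 0 with h' | h'
  · linarith [normSq_pos.2 (h h'), sq_nonneg (gl σ)]
  · linarith [normSq_nonneg ϑ, pow_pos (expNegInvGlue.pos_of_pos h') 2]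

theorem nv_spec {ϑ : ℂ} {σ : ℝ} (h : σ ≤ 0 → ϑ ≠ 0) :
    Un (nv ϑ σ) ∧ hopf (nv ϑ σ) = (0, 1) + cor ϑ σ := by
  have h1 := nv_pos h
  have h2 : (√(normSq ϑ + gl σ ^ 2))⁻¹ * (√(normSq ϑ + gl σ ^ 2))⁻¹ = (normSq ϑ + gl σ ^ 2)⁻¹ := by
    rw [← mul_inv, Real.mul_self_sqrt h1.le]
  have h3 : cor ϑ σ = (normSq ϑ + gl σ ^ 2)⁻¹ • ((2 * gl σ : ℝ) * ϑ, -2 * gl σ ^ 2) := by
    rcases le_or_gt σ 0 with h' | h'
    · simp [cor, expNegInvGlue.zero_of_nonpos h']
    · simp [cor, den, expNegInvGlue.zero_of_nonpos (neg_nonpos.2 h'.le)]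
  rw [h3]
  simp only [Un, nv, hopf, Prod.smul_mk, real_smul, normSq_mul, normSq_ofReal, h2, map_mul,
    conj_ofReal, Prod.mk_add_mk, smul_eq_mul, Prod.mk.injEq]
  refine ⟨by field_simp, ?_, by field_simp; ring⟩
  rw [← h2]
  push_cast
  ring

theorem nv_of_nonpos (ϑ : ℂ) {σ : ℝ} (h : σ ≤ 0) : nv ϑ σ = (((‖ϑ‖⁻¹ : ℝ) : ℂ) * ϑ, 0) := by
  simp [nv, expNegInvGlue.zero_of_nonpos h, normSq_eq_norm_sq]

theorem nv_smooth {k : ℕ∞} {p : ℂ × ℝ} (h : p.2 ≤ 0 → p.1 ≠ 0) :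
    ContDiffAt ℝ k (fun p : ℂ × ℝ => nv p.1 p.2) p := by
  have h1 := nv_pos h
  unfold nv
  fun_prop (disch := first | exact h1.ne' | exact (Real.sqrt_pos.2 h1).ne')

/-- A smooth step adapted to the circle. -/
noncomputable def tt (s : ℝ) : ℝ := st ((ex (max (-(1 / 4)) (min s (1 / 4)))).im + 1 / 2)

theorem tt_eq {s : ℝ} (h : |s| ≤ 1 / 4) : tt s = st ((ex s).im + 1 / 2) := by
  rw [tt, min_eq_left (abs_le.1 h).2, max_eq_right (abs_le.1 h).1]

theorem ex_im_ge {s : ℝ} (h : 1 / 12 ≤ s) (h' : s ≤ 1 / 4) : 1 / 2 ≤ (ex s).im := by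
  rw [ex_im, ← Real.sin_pi_div_six]
  exact Real.sin_le_sin_of_le_of_le_pi_div_two (by nlinarith [Real.pi_pos])
    (by nlinarith [Real.pi_pos]) (by nlinarith [Real.pi_pos])

theorem tt_one {s : ℝ} (h : 1 / 12 ≤ s) : tt s = 1 :=
  Real.smoothTransition.one_of_one_le (by
    linarith [ex_im_ge (s := max (-(1 / 4)) (min s (1 / 4))) (le_max_of_le_right
      (le_min h (by norm_num))) (max_le (by norm_num) (min_le_right _ _))])

theorem tt_zero {s : ℝ} (h : s ≤ -(1 / 12)) : tt s = 0 := by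
  refine Real.smoothTransition.zero_of_nonpos ?_
  have := ex_im_ge (s := -max (-(1 / 4)) (min s (1 / 4))) (le_neg.1 (max_le (by norm_num)
    (min_le_of_left_le h))) (neg_le.1 (le_max_left _ _))
  rw [ex_im, mul_neg, Real.sin_neg, ← ex_im] at this
  linarith

@[fun_prop] theorem tt_smooth {k : ℕ∞} : ContDiff ℝ k tt := by
  refine contDiff_iff_contDiffAt.2 fun s => ?_
  rcases lt_or_ge s (-(1 / 12)) with h | h
  · exact contDiffAt_const.congr_of_eventuallyEq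
      ((eventually_lt_nhds h).mono fun t ht => tt_zero ht.le)
  rcases lt_or_ge (1 / 12) s with h' | h'
  · exact contDiffAt_const.congr_of_eventuallyEq
      ((eventually_gt_nhds h').mono fun t ht => tt_one ht.le)
  refine ContDiffAt.congr_of_eventuallyEq (f := fun s => st ((ex s).im + 1 / 2)) (by fun_prop) ?_
  filter_upwards [Icc_mem_nhds (show -(1 / 4) < s by linarith) (show s < 1 / 4 by linarith)]
    with t ht using tt_eq (abs_le.2 ht)

/-- The complex part of the section. -/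
noncomputable def th (s b : ℝ) : ℂ := (1 - tt s : ℝ) - (tt s : ℝ) * ex b

/-- The real part of the section. -/
noncomputable def sg (a b : ℝ) : ℝ := (ex a).re + (ex b).re - 3 / 2

theorem th_ne {a b : ℝ} (n : ℤ) (h : sg a b ≤ 0) : th (a - n) b ≠ 0 := by
  intro h2
  rw [th] at h2
  have h3 : 1 - tt (a - n) = tt (a - n) * (ex b).re := by simpa [sub_eq_zero] using congrArg re h2
  have h4 : tt (a - n) * (ex b).im = 0 := by simpa using congrArg im h2
  have h5 := normSq_ex b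
  have h6 := normSq_ex a
  rw [normSq_apply] at h5 h6
  have ht0 : tt (a - n) ≠ 0 := fun h => by simp [h] at h3
  rw [(mul_eq_zero.1 h4).resolve_left ht0] at h5
  have ht1 : tt (a - n) ≠ 1 := fun h => by rw [h] at h3; nlinarith
  have h7 : |a - n| ≤ 1 / 4 := abs_le.2 ⟨by
    by_contra hh; exact ht0 (tt_zero (by linarith)), by
    by_contra hh; exact ht1 (tt_one (by linarith))⟩
  have h8 := ex_re_nonneg h7
  have h9 := Real.smoothTransition.le_one ((ex (a - n)).im + 1 / 2)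
  rw [tt_eq h7, ex_sub_int] at ht0 ht1 h3
  rw [ex_sub_int] at h8 h9
  have h10 : 0 < (ex a).im + 1 / 2 := lt_of_not_ge fun h =>
    ht0 (Real.smoothTransition.zero_of_nonpos h)
  have h11 : (ex a).im + 1 / 2 < 1 := lt_of_not_ge fun h =>
    ht1 (Real.smoothTransition.one_of_one_le h)
  have h12 : (ex b).re = 1 := by
    rcases mul_self_eq_one_iff.1 (show (ex b).re * (ex b).re = 1 by linarith) with h | h
    · exact h
    · rw [h] at h3; linarith
  unfold sg at h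
  nlinarith

/-- The local forms of the section. -/
noncomputable def Zn (n : ℤ) (a b : ℝ) : ℂ × ℂ :=
  ex (n * (b + 1 / 2)) • nv (th (a - n) b) (sg a b)

/-- The equivariant section. -/
noncomputable def Zs (a b : ℝ) : ℂ × ℂ := Zn ⌊a + 1 / 2⌋ a b

theorem Zn_succ {n : ℤ} {a : ℝ} (b : ℝ) (h1 : 1 / 4 ≤ a - n) (h2 : a - n ≤ 3 / 4) :
    Zn n a b = Zn (n + 1) a b := by
  have h3 : sg a b ≤ 0 := by
    have := ex_re_nonpos h1 h2
    rw [ex_sub_int] at this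
    unfold sg
    linarith [ex_re_le b]
  rw [Zn, Zn, nv_of_nonpos _ h3, nv_of_nonpos _ h3, th, th, tt_one (by linarith),
    tt_zero (by push_cast; linarith)]
  push_cast
  rw [add_mul, one_mul (b + _), ex_add, ex_add b, ex_half]
  simp

theorem Zs_eq {n : ℤ} {a : ℝ} (b : ℝ) (h : |a - n| < 3 / 4) : Zs a b = Zn n a b := by
  obtain ⟨h1, h2⟩ := abs_lt.1 h
  have h3 := Int.floor_le (a + 1 / 2)
  have h4 := Int.lt_floor_add_one (a + 1 / 2)
  rw [Zs]
  generalize ⌊a + 1 / 2⌋ = k at *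
  have h5 : k < n + 2 := by exact_mod_cast (show (k : ℝ) < n + 2 by linarith)
  have h6 : n < k + 2 := by exact_mod_cast (show (n : ℝ) < k + 2 by linarith)
  obtain rfl | rfl | rfl : k = n + 1 ∨ k = n ∨ n = k + 1 := by omega
  · push_cast at h3; exact (Zn_succ b (by linarith) h2.le).symm
  · rfl
  · push_cast at h1; exact Zn_succ b (by linarith) (by linarith)

@[fun_prop] theorem Zs_smooth {k : ℕ∞} : ContDiff ℝ k fun p : ℝ × ℝ => Zs p.1 p.2 := by
  refine contDiff_iff_contDiffAt.2 fun p => ?_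
  have h1 : ContDiffAt ℝ k (fun q : ℝ × ℝ => nv (th (q.1 - round p.1) q.2) (sg q.1 q.2)) p :=
    (nv_smooth (p := (th (p.1 - round p.1) p.2, sg p.1 p.2)) (th_ne _)).comp p
      (f := fun q : ℝ × ℝ => (th (q.1 - round p.1) q.2, sg q.1 q.2)) (by unfold th sg; fun_prop)
  refine ContDiffAt.congr_of_eventuallyEq (f := fun q : ℝ × ℝ => Zn (round p.1) q.1 q.2)
    (by unfold Zn; fun_prop) ?_
  have h2 : Continuous fun q : ℝ × ℝ => |q.1 - round p.1| := by fun_prop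
  filter_upwards [(h2.tendsto p).eventually_lt_const
    ((abs_sub_round p.1).trans_lt (show (1 / 2 : ℝ) < 3 / 4 by norm_num))] with q hq
    using Zs_eq _ hq

theorem Zs_shift (a b : ℝ) (m m' : ℤ) : Zs (a + m) (b + m') = ex (m * b + m / 2) • Zs a b := by
  rw [Zs, Zs, add_right_comm, Int.floor_add_intCast, Zn, Zn, smul_smul, ← ex_add, th, th, sg, sg,
    ex_add_int, ex_add_int]
  congr 1
  · exact ex_eq_iff.2 ⟨(⌊a + 1 / 2⌋ + m) * m', by push_cast; ring⟩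
  · push_cast; ring_nf

theorem Zs_un (a b : ℝ) : Un (Zs a b) := (nv_spec (th_ne _)).1.smul (normSq_ex _)

theorem Zs_snd {a b : ℝ} (h : sg a b ≤ 0) : (Zs a b).2 = 0 := by
  simp [Zs, Zn, nv_of_nonpos _ h]

theorem hopf_Zs (a b : ℝ) : hopf (Zs a b) = (0, 1) + cor ((1 - st ((ex a).im + 1 / 2) : ℝ) -
    (st ((ex a).im + 1 / 2) : ℝ) * ex b) (sg a b) := by
  rw [Zs, Zn, hopf_smul _ (normSq_ex _), (nv_spec (th_ne _)).2]
  rcases le_or_gt (sg a b) 0 with h | h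
  · rw [cor_of_nonpos _ h, cor_of_nonpos _ h]
  have h3 := Int.floor_le (a + 1 / 2)
  have h4 := Int.lt_floor_add_one (a + 1 / 2)
  rw [th, tt_eq, ex_sub_int]
  unfold sg at h
  by_contra hh
  rcases lt_abs.1 (not_le.1 hh) with h5 | h5
  · have := ex_re_nonpos h5.le (by linarith)
    rw [ex_sub_int] at this
    linarith [ex_re_le b]
  · have := ex_re_nonpos (t := a - ((⌊a + 1 / 2⌋ - 1 : ℤ) : ℝ)) (by push_cast; linarith)
      (by push_cast; linarith)
    rw [ex_sub_int] at this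
    linarith [ex_re_le b]

end hopf

namespace Cx

variable {V : Type} [Fintype V] [DecidableEq V] (X : Cx V)

/-- The lattice. -/
abbrev Λ : Type := Lam X.κ X.b₀

/-- The local sections of the circle bundle. -/
noncomputable def sec (i : V) (x : X.κ → Fin 3 → ℝ) (w : V → ℝ) : ℂ × ℂ :=
  if i = X.C then (Zs (x X.b₀ 0) (x X.b₀ 1)).1 • nv (X.ch2 w) (X.sg2 w)
  else Zs (x X.b₀ 0) (x X.b₀ 1)

/-- `q` is a lift of `m` over the star of `i`. -/
def Lifts (i : V) (m : X.Amb) (q : XT X.κ) : Prop :=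
  m.1 = Ex q.1 ∧ m.2.2.2 = ex q.2 • X.sec i q.1 m.2.1

variable {X}

theorem sec_smul (i : V) (l : X.Λ) (q : XT X.κ) (w : V → ℝ) :
    ex (l • q).2 • X.sec i (l • q).1 w = ex q.2 • X.sec i q.1 w := by
  have : ex (l • q).2 * ex (l.m X.b₀ 0 * q.1 X.b₀ 1 + l.m X.b₀ 0 / 2) = ex q.2 := by
    rw [← ex_add, Lam.smul_snd]; exact ex_eq_iff.2 ⟨l.j, by ring⟩
  simp only [sec, Lam.smul_fst, Zs_shift]
  split_ifs <;> simp only [smul_smul, ← this, Prod.smul_fst, smul_eq_mul, mul_assoc]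

theorem Lifts.smul {i : V} {m : X.Amb} {q : XT X.κ} (h : X.Lifts i m q) (l : X.Λ) :
    X.Lifts i m (l • q) := ⟨h.1.trans (Ex_smul l q).symm, h.2.trans (sec_smul i l q _).symm⟩

theorem sec_spec {i : V} {x : X.κ → Fin 3 → ℝ} {w : V → ℝ} {v : ℝ × ℂ} (h : X.InB w v)
    (h1 : i = X.C → X.sg1 (Ex x) ≤ 0 ∧ X.η₀ < w X.C ^ 2) (h2 : i ≠ X.C → X.sg2 w ≤ 0) :
    Un (X.sec i x w) ∧ hopf (X.sec i x w) =
      (0, 1) + cor (X.th1 (Ex x)) (X.sg1 (Ex x)) + cor (X.ch2 w) (X.sg2 w) := by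
  unfold sec
  split_ifs with hi
  · have h3 := Zs_un (x X.b₀ 0) (x X.b₀ 1)
    rw [Un, Zs_snd (h1 hi).1, normSq_zero, add_zero] at h3
    have h4 := nv_spec (h.ch_ne (h1 hi).2)
    exact ⟨h4.1.smul h3, by rw [hopf_smul _ h3, h4.2, cor_of_nonpos _ (h1 hi).1, add_zero]⟩
  · exact ⟨Zs_un _ _, by rw [hopf_Zs, cor_of_nonpos _ (h2 hi), add_zero]; rfl⟩

theorem sq_add_le {w : V → ℝ} (h : ∑ i, w i ^ 2 = 1) {i j : V} (hij : i ≠ j) :
    w i ^ 2 + w j ^ 2 ≤ 1 := by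
  rw [← h, ← Finset.sum_pair (f := fun i => w i ^ 2) hij]
  exact Finset.sum_le_sum_of_subset_of_nonneg (Finset.subset_univ _) fun _ _ _ => sq_nonneg _

theorem InZ.sec_spec {i : V} {m : X.Amb} (h : X.InZ m) (hi : X.η < m.2.1 i ^ 2)
    {x : X.κ → Fin 3 → ℝ} (hx : m.1 = Ex x) :
    Un (X.sec i x m.2.1) ∧ hopf (X.sec i x m.2.1) = hopf m.2.2.2 := by
  rw [h.hf, hx]
  refine Cx.sec_spec h.B (fun e => ?_) fun e => ?_
  · subst e; exact ⟨hx ▸ (h.sg1_neg hi).le, X.η₀_lt.trans hi⟩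
  · unfold sg2; linarith [sq_add_le h.B.sw e]

theorem sec_smooth {k : ℕ∞} {i : V} {w : V → ℝ} {v : ℝ × ℂ} (h : X.InB w v)
    (hi : i = X.C → X.η₀ < w X.C ^ 2) (x : X.κ → Fin 3 → ℝ) :
    ContDiffAt ℝ k (fun p : (X.κ → Fin 3 → ℝ) × (V → ℝ) => X.sec i p.1 p.2) (x, w) := by
  unfold sec
  split_ifs with e
  · have h1 : ContDiffAt ℝ k (fun p : (X.κ → Fin 3 → ℝ) × (V → ℝ) => nv (X.ch2 p.2) (X.sg2 p.2))
        (x, w) := (nv_smooth (p := (X.ch2 w, X.sg2 w)) (h.ch_ne (hi e))).comp (x, w)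
      (f := fun p : (X.κ → Fin 3 → ℝ) × (V → ℝ) => (X.ch2 p.2, X.sg2 p.2)) (by fun_prop)
    have h2 : ContDiffAt ℝ k (fun p : (X.κ → Fin 3 → ℝ) × (V → ℝ) => Zs (p.1 X.b₀ 0) (p.1 X.b₀ 1))
        (x, w) := by fun_prop
    exact h2.fst.smul h1
  · fun_prop

theorem InZ.exists_lift {i : V} {m : X.Amb} (h : X.InZ m) (hi : X.η < m.2.1 i ^ 2) :
    ∃ q : XT X.κ, ‖q‖ ≤ 1 / 2 ∧ X.Lifts i m q := by
  have h1 : m.1 = Ex fun a c => lg (m.1 a c) := funext₂ fun a c => (ex_lg (h.u a c)).symm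
  obtain ⟨h2, h3⟩ := h.sec_spec hi h1
  obtain ⟨h4, h5⟩ := h2.eq_smul h.zeta h3
  refine ⟨(_, lg _), ?_, h1, by rw [ex_lg h5]; exact h4⟩
  simp only [norm_prod_le_iff, pi_norm_le_iff_of_nonneg (show (0 : ℝ) ≤ 1 / 2 by norm_num)]
  exact ⟨fun _ _ => abs_lg _, abs_lg _⟩

theorem Lifts.exists_smul {i : V} {m : X.Amb} (h : X.InZ m) (hi : X.η < m.2.1 i ^ 2)
    {q q' : XT X.κ} (h1 : X.Lifts i m q) (h2 : X.Lifts i m q') : ∃ l : X.Λ, l • q = q' := by
  choose a ha using fun a c => ex_eq_iff.1 (congrFun (congrFun (h2.1.symm.trans h1.1) a) c)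
  have h3 : ((⟨a, 0⟩ : X.Λ) • q).1 = q'.1 := funext₂ fun b c => (ha b c).symm
  have h4 := (h1.smul ⟨a, 0⟩).2
  rw [h3, h2.2] at h4
  obtain ⟨j, hj⟩ := ex_eq_iff.1 ((h.sec_spec hi h2.1).1.cancel h4)
  refine ⟨⟨a, j⟩, Prod.ext h3 ?_⟩
  rw [hj, Lam.smul_snd, Lam.smul_snd]
  simp

theorem exists_sec {i : V} {m₀ : X.Amb} (h : X.InZ m₀) (hi : X.η < m₀.2.1 i ^ 2) {q₀ : XT X.κ}
    (hq : X.Lifts i m₀ q₀) : ∃ σ : X.Amb → XT X.κ, ContDiffAt ℝ ∞ σ m₀ ∧ σ m₀ = q₀ ∧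
      (∀ m, X.InZ m → X.η < m.2.1 i ^ 2 → X.Lifts i m (σ m)) ∧
      ∀ m q, X.InZ m → X.η < m.2.1 i ^ 2 → X.Lifts i m q → dist q q₀ < 1 / 2 → σ m = q := by
  set x : X.Amb → X.κ → Fin 3 → ℝ := fun m a c => q₀.1 a c + lg (m.1 a c * conj (ex (q₀.1 a c)))
    with hx
  have h1 : ∀ m q, X.InZ m → X.η < m.2.1 i ^ 2 → X.Lifts i m q → dist q q₀ < 1 / 2 →
      (x m, q₀.2 + lg (ip (X.sec i (x m) m.2.1) m.2.2.2 * conj (ex q₀.2))) = q := by
    intro m q h hi hq hd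
    rw [Prod.dist_eq, max_lt_iff] at hd
    have h2 : x m = q.1 := funext₂ fun a c => by
      rw [hx]
      simp only [hq.1, Ex, ex_mul_conj]
      rw [lg_ex ((dist_pi_lt_iff one_half_pos).1 ((dist_pi_lt_iff one_half_pos).1 hd.1 a) c)]
      ring
    rw [h2, hq.2, (h.sec_spec hi hq.1).1.ip_smul, ex_mul_conj, lg_ex hd.2]
    simp
  have h0 := h1 m₀ q₀ h hi hq (by simp)
  refine ⟨_, ?_, h0, fun m h hi => ?_, h1⟩
  · have h2 : ContDiffAt ℝ ∞ x m₀ := contDiffAt_pi.2 fun a => contDiffAt_pi.2 fun c =>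
      contDiffAt_const.add ((lg_smooth (by simp [hq.1, Ex, mul_conj])).comp m₀
        (f := fun m : X.Amb => m.1 a c * conj (ex (q₀.1 a c))) (by fun_prop))
    have h3 : ContDiffAt ℝ ∞ (fun m : X.Amb => X.sec i (x m) m.2.1) m₀ :=
      (sec_smooth h.B (fun e => X.η₀_lt.trans (e ▸ hi)) (x m₀)).comp m₀
        (f := fun m : X.Amb => (x m, m.2.1)) (by fun_prop)
    refine h2.prodMk (contDiffAt_const.add ((lg_smooth ?_).comp m₀ (f := fun m : X.Amb =>
      ip (X.sec i (x m) m.2.1) m.2.2.2 * conj (ex q₀.2)) (by unfold ip; fun_prop)))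
    have h4 : x m₀ = q₀.1 := congrArg Prod.fst h0
    simp [h4, hq.2, (h.sec_spec hi hq.1).1.ip_smul, mul_conj]
  · have h2 : ∀ (z : ℂ) (t : ℝ), normSq z = 1 → ex (t + lg (z * conj (ex t))) = z := fun z t hz => by
      rw [ex_add, ex_lg (by simp [hz]), mul_left_comm, mul_conj]; simp
    have h3 : m.1 = Ex (x m) := funext₂ fun a c => (h2 _ _ (h.u a c)).symm
    obtain ⟨h4, h5⟩ := h.sec_spec hi h3
    obtain ⟨h6, h7⟩ := h4.eq_smul h.zeta h5
    exact ⟨h3, by rw [h2 _ _ h7]; exact h6⟩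

/-- The space of lifts over the star of a vertex. -/
def Lift (X : Cx V) (i : V) : Type :=
  {a : X.lev.Z × XT X.κ // X.η < a.1.1.2.1 i ^ 2 ∧ X.Lifts i a.1 a.2}

noncomputable instance (i : V) : TopologicalSpace (X.Lift i) := instTopologicalSpaceSubtype

theorem Lift.exists_sec {i : V} (a : X.Lift i) : ∃ σ : X.Amb → XT X.κ, ContDiffAt ℝ ∞ σ a.1.1 ∧
    (∀ m, X.InZ m → X.η < m.2.1 i ^ 2 → X.Lifts i m (σ m)) ∧ ∀ᶠ b in 𝓝 a, σ b.1.1 = b.1.2 := by
  obtain ⟨σ, h1, -, h2, h3⟩ := Cx.exists_sec (inZ a.1.1) a.2.1 a.2.2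
  refine ⟨σ, h1, h2, ?_⟩
  have c : Continuous fun b : X.Lift i => dist b.1.2 a.1.2 :=
    (continuous_snd.comp continuous_subtype_val).dist continuous_const
  filter_upwards [(c.tendsto' a _ (dist_self _)).eventually_lt_const one_half_pos] with b hb
    using h3 _ _ (inZ _) b.2.1 b.2.2 hb

theorem Lift.loc (i : V) : IsLocalHomeomorph fun a : X.Lift i => a.1.1 := by
  classical
  refine locHomeo_of (continuous_fst.comp continuous_subtype_val) (.of_nhds_le fun a => ?_)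
    fun a => ?_
  · obtain ⟨σ, h1, h2, h3⟩ := a.exists_sec
    have c : Continuous fun m : X.lev.Z => m.1.2.1 i ^ 2 := by fun_prop
    have h4 := (c.tendsto a.1.1).eventually_const_lt a.2.1
    refine le_map_of_right_inverse (mba := fun m : X.lev.Z => if h : X.η < m.1.2.1 i ^ 2 then
      (⟨(m, σ m), h, h2 _ (inZ m) h⟩ : X.Lift i) else a) (h4.mono fun m hm => by simp [hm]) ?_
    refine tendsto_subtype_rng.2 (Tendsto.congr' (f₁ := fun m : X.lev.Z => (m, σ m))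
      (h4.mono fun m hm => by simp [hm]) ?_)
    rw [show a.1 = (a.1.1, σ a.1.1) from Prod.ext rfl h3.self_of_nhds.symm]
    exact continuousAt_id.prodMk (h1.continuousAt.comp continuous_subtype_val.continuousAt)
  · obtain ⟨σ, -, -, h3⟩ := a.exists_sec
    refine ⟨_, h3, fun b hb c hc e => Subtype.ext (Prod.ext e ?_)⟩
    rw [← hb, ← hc, show b.1.1 = c.1.1 from e]

theorem Lift.al {i : V} (a : X.Lift i) : AL (fun a : X.Lift i => a.1.1) (fun a => a.1.2) a := by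
  obtain ⟨σ, h1, -, h3⟩ := a.exists_sec
  exact (al_amb (G := fun m : X.lev.Z => σ m) (Lift.loc i).continuous.continuousAt
    ((ContDiffAt.lipAt (h1.of_le (by simp))).comp'
      (LipschitzWith.lipAt isometry_subtype_coe.lipschitz _))).congr h3

end Cx

end Pool.Agent.Lib.MP_4b70aa_gt
end

-- part Pool.Agent.Lib.MP_4b70aa_gt.Iface
section

set_option autoImplicit false
set_option linter.unusedSectionVars false

namespace Pool.Agent.Lib.MP_4b70aa_gt

namespace Cx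

variable {V : Type} [Fintype V] [DecidableEq V] (X : Cx V)

/-- Four times the approximate phase of the transition from `i` to `j`. -/
def a0 (i j : V) : ℤ :=
  if i = X.C then (if j = X.C then 0 else (X.k j : ℕ)) else if j = X.C then -(X.k i : ℕ) else 0

/-- The integral cocycle of the circle bundle over the complex. -/
def dl (i j l : V) : ℤ := (X.a0 j l + X.a0 i j - X.a0 i l + 1) / 4

/-- Every monodromy system kills the centre on an invariant set with finitely many orbits. -/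
def NEgrp : Prop :=
  ∀ (S S' : Type) [MulAction X.Λ S] (F : Set S) (E : V → V → Equiv.Perm S) (c : V → S → S')
    (e : ℤ), (e = 1 ∨ e = -1) → (∀ (l : X.Λ), ∀ σ ∈ F, l • σ ∈ F) →
    (Quotient.mk (MulAction.orbitRel X.Λ S) '' F).Finite →
    (∀ i j, i ≠ X.C → j ≠ X.C → X.Face {i, j} →
      (∀ (l : X.Λ) σ, E i j (l • σ) = l • E i j σ) ∧ ∀ σ, E i j σ ∈ F ↔ σ ∈ F) →
    (∀ i, i ≠ X.C → E X.o i = 1) →
    (∀ i j l, i ≠ X.C → j ≠ X.C → l ≠ X.C → X.Face {i, j, l} → E j l * E i j = E i l) →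
    (∀ l, l ≠ X.C → X.Face {X.C, l} → Function.Injective (c l)) →
    (∀ l l', l ≠ X.C → l' ≠ X.C → X.Face {X.C, l, l'} → ∀ σ,
      c l' (E l l' σ) = c l ((Lam.z (e * X.dl l l' X.C) : X.Λ) • σ)) →
    ∀ σ ∈ F, (Lam.z 1 : X.Λ) • σ = σ

/-- Two monodromy systems that agree near infinity; the second one lives off `s₀`. -/
structure IsoData (S : Type) where
  s₀ : S
  tr : Bool → V → V → S → S
  lb : Bool → V → V → S → X.Λ
  ne : ∀ i j s, s ≠ s₀ → tr false i j s ≠ s₀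
  refl : ∀ ε i s, X.Face {i} → (ε = false → s ≠ s₀) → tr ε i i s = s ∧ lb ε i i s = 1
  coc : ∀ ε i j l s, X.Face {i, j, l} → (ε = false → s ≠ s₀) →
    tr ε j l (tr ε i j s) = tr ε i l s ∧
      lb ε j l (tr ε i j s) * lb ε i j s * Lam.z (X.dl i j l) = lb ε i l s
  fin : {s | ∃ i j, tr true i j s ≠ tr false i j s ∨ lb true i j s ≠ lb false i j s}.Finite
  y0 : ∀ ε i j s, (lb ε i j s).m X.b₀ 2 = 0

end Cx

end Pool.Agent.Lib.MP_4b70aa_gt
end
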