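import Pool.Agent.Lib.MP_4b70aa_gt.Leaf

-- part Pool.Agent.Lib.MP_4b70aa_gt.Glue
section

set_option autoImplicit false
set_option linter.unusedSectionVars false

open Filter Set Topology Complex
open scoped ContDiff ComplexConjugate

namespace Pool.Agent.Lib.MP_4b70aa_gt

section alip

variable {Y Z F : Type} [TopologicalSpace Y] [PseudoMetricSpace Z] [NormedAddCommGroup F]
  [NormedSpace ℝ F]

theorem ALipAt.of_emb {Y₀ B : Type} [TopologicalSpace Y₀] [PseudoMetricSpace B] {j : Y₀ → Y}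
    (hj : IsOpenEmbedding j) {P : Y → Z} {c : ℝ} {g : Y → B} {a : Y₀}
    (h : ALipAt (fun z => P (j z)) c (fun z => g (j z)) a) : ALipAt P c g (j a) := by
  unfold ALipAt
  rw [← hj.map_nhds_eq, prod_map_map_eq, eventually_map]
  exact h

theorem ALipAt.pull {Y₀ B : Type} [TopologicalSpace Y₀] [PseudoMetricSpace B] {j : Y₀ → Y}
    {P : Y → Z} {c : ℝ} {g : Y → B} {a : Y₀} (hj : ContinuousAt j a)
    (h : ALipAt P c g (j a)) : ALipAt (fun z => P (j z)) c (fun z => g (j z)) a :=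
  (hj.tendsto.prodMap hj.tendsto).eventually h

theorem ALipAt.add {P : Y → Z} {c c' : ℝ} {g g' : Y → F} {y : Y} (h : ALipAt P c g y)
    (h' : ALipAt P c' g' y) : ALipAt P (c + c') (fun z => g z + g' z) y := by
  filter_upwards [h, h'] with z h h'
  exact (dist_add_add_le _ _ _ _).trans ((add_le_add h h').trans_eq (add_mul _ _ _).symm)

theorem ALipAt.clm {G : Type} [NormedAddCommGroup G] [NormedSpace ℝ G] {P : Y → Z} {c : ℝ}
    {g : Y → F} {y : Y} (h : ALipAt P c g y) (T : F →L[ℝ] G) {b : ℝ} (hb : ‖T‖ ≤ b) :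
    ALipAt P (b * c) (fun z => T (g z)) y := by
  filter_upwards [h] with z h
  rw [mul_assoc]
  exact (T.dist_le_opNorm _ _).trans (mul_le_mul hb h dist_nonneg ((norm_nonneg _).trans hb))

theorem ALipAt.lin {ι : Type} [Fintype ι] {P : Y → Z} {c : ℝ} {g : Y → ι → ℝ} {y : Y}
    (h : ALipAt P c g y) {b : ι → F} {M : ℝ} (hM : 0 ≤ M) (hb : ∀ j, ‖b j‖ ≤ M) :
    ALipAt P (Fintype.card ι * M * c) (fun z => ∑ j, g z j • b j) y := by
  filter_upwards [h] with z h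
  rw [dist_eq_norm, ← Finset.sum_sub_distrib, mul_assoc, mul_assoc, ← nsmul_eq_mul]
  refine (norm_sum_le _ _).trans (Finset.sum_le_card_nsmul _ _ _ fun j _ => ?_)
  rw [← sub_smul, norm_smul, mul_comm]
  exact mul_le_mul (hb j) ((dist_le_pi_dist _ _ j).trans h) (norm_nonneg _) hM

end alip

namespace Cx

variable {V : Type} [Fintype V] [DecidableEq V] {X : Cx V}

/-- The phase of a transition. -/
noncomputable def aph (X : Cx V) (i j : V) (w : V → ℝ) : ℝ :=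
  if i = X.C then (if j = X.C then 0 else X.ang j w) else if j = X.C then -X.ang i w else 0

theorem InZ.re_pos {m : X.Amb} (h : X.InZ m) (hC : X.η < m.2.1 X.C ^ 2) {l : V} (hl : l ≠ X.C)
    (h' : X.η < m.2.1 l ^ 2) : 0 < (X.ch2 m.2.1 * conj (X.om l)).re :=
  h.B.ch_re (X.η₀_lt.trans hC) hl (by linarith [X.η₀_le, X.η_pos])

theorem InZ.face {m : X.Amb} (h : X.InZ m) {i j l : V} (hi : X.η < m.2.1 i ^ 2)
    (hj : X.η < m.2.1 j ^ 2) (hl : X.η < m.2.1 l ^ 2) : X.Face {i, j, l} :=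
  h.B.sig (by simp [X.η₀_lt.trans hi, X.η₀_lt.trans hj, X.η₀_lt.trans hl])

theorem InZ.face1 {m : X.Amb} (h : X.InZ m) {i : V} (hi : X.η < m.2.1 i ^ 2) : X.Face {i} :=
  h.B.sig (by simp [X.η₀_lt.trans hi])

theorem aph_sec {m : X.Amb} (h : X.InZ m) {i j : V} (hi : X.η < m.2.1 i ^ 2)
    (hj : X.η < m.2.1 j ^ 2) {x : X.κ → Fin 3 → ℝ} (hx : m.1 = Ex x) :
    ex (X.aph i j m.2.1) • X.sec j x m.2.1 = X.sec i x m.2.1 := by
  have key : ∀ l, l ≠ X.C → X.η < m.2.1 X.C ^ 2 → X.η < m.2.1 l ^ 2 →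
      X.sec X.C x m.2.1 = ex (X.ang l m.2.1) • X.sec l x m.2.1 := fun l hl h1 h2 => by
    rw [sec_C l (hx ▸ (h.sg1_neg h1).le) (by unfold sg2; linarith [sq_add_le h.B.sw hl])
      (fun e => by simpa [e] using h.re_pos h1 hl h2), sec, if_neg hl]
  unfold aph
  split_ifs with h1 h2 h2
  · simp [h1, h2]
  · subst h1; exact (key j h2 hi hj).symm
  · subst h2; rw [key i h1 hj hi, smul_smul, ← ex_add]; simp
  · simp [sec, h1, h2]

theorem aph_coc {m : X.Amb} (h : X.InZ m) {i j l : V} (hi : X.η < m.2.1 i ^ 2)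
    (hj : X.η < m.2.1 j ^ 2) (hl : X.η < m.2.1 l ^ 2) :
    X.aph j l m.2.1 + X.aph i j m.2.1 = X.aph i l m.2.1 + X.dl i j l := by
  have key : ∀ a b, a ≠ X.C → b ≠ X.C → X.η < m.2.1 X.C ^ 2 → X.η < m.2.1 a ^ 2 →
      X.η < m.2.1 b ^ 2 → X.ang a m.2.1 = X.ang b m.2.1 +
        ((((X.k a : ℕ) : ℤ) - (X.k b : ℕ) + 1) / 4 : ℤ) := fun a b ha hb h1 h2 h3 => by
    rw [ang_sub ha hb (h.face h1 h2 h3) (h.re_pos h1 ha h2) (h.re_pos h1 hb h3)]
    simp only [dl, a0, ha, hb, if_true, if_false]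
    congr 3
    ring
  by_cases h1 : i = X.C <;> by_cases h2 : j = X.C <;> by_cases h3 : l = X.C <;>
    simp only [aph, dl, a0, h1, h2, h3, if_true, if_false]
  · simp
  · simp
  · simp
  · rw [key j l h2 h3 (h1 ▸ hi) hj hl]; simp
  · simp
  · rw [key l i h3 h1 (h2 ▸ hj) hl hi]; simp [sub_eq_add_neg]
  · rw [key i j h1 h2 (h3 ▸ hl) hi hj]; simp [sub_eq_add_neg, add_comm]
  · simp

theorem aph_smooth {m : X.Amb} (h : X.InZ m) {i j : V} (hi : X.η < m.2.1 i ^ 2)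
    (hj : X.η < m.2.1 j ^ 2) : ContDiffAt ℝ 1 (X.aph i j) m.2.1 := by
  unfold aph
  split_ifs with h1 h2 h2
  · exact contDiffAt_const
  · exact ang_smooth (k := 1) (h.re_pos (h1 ▸ hi) h2 hj)
  · exact (ang_smooth (k := 1) (h.re_pos (h2 ▸ hj) h1 hi)).neg
  · exact contDiffAt_const

/-- A partition of unity. -/
noncomputable def rho (X : Cx V) (w : V → ℝ) (j : V) : ℝ :=
  gl (w j ^ 2 - 2 * X.η) / ∑ k, gl (w k ^ 2 - 2 * X.η)

theorem exists_big {w : V → ℝ} (h : ∑ i, w i ^ 2 = 1) : ∃ i, 2 * X.η < w i ^ 2 := by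
  by_contra hh
  push Not at hh
  have := Finset.sum_le_card_nsmul Finset.univ _ _ fun i _ => hh i
  rw [h, nsmul_eq_mul, Finset.card_univ] at this
  nlinarith [X.hη]

theorem rho_den {w : V → ℝ} (h : ∑ i, w i ^ 2 = 1) : 0 < ∑ k, gl (w k ^ 2 - 2 * X.η) :=
  let ⟨i, hi⟩ := exists_big (X := X) h
  Finset.sum_pos' (fun _ _ => expNegInvGlue.nonneg _)
    ⟨i, Finset.mem_univ _, expNegInvGlue.pos_of_pos (sub_pos.2 hi)⟩

theorem rho_sum (m : X.lev.Z) : ∑ j, X.rho m.1.2.1 j = 1 := by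
  simp only [rho, ← Finset.sum_div, div_self (rho_den (inZ m).B.sw).ne']

theorem rho_nonneg (w : V → ℝ) (j : V) : 0 ≤ X.rho w j :=
  div_nonneg (expNegInvGlue.nonneg _) (Finset.sum_nonneg fun _ _ => expNegInvGlue.nonneg _)

theorem rho_zero {w : V → ℝ} {j : V} (h : w j ^ 2 ≤ 2 * X.η) : X.rho w j = 0 := by
  simp [rho, expNegInvGlue.zero_of_nonpos (sub_nonpos.2 h)]

theorem rho_zero' {w : V → ℝ} {j : V} (h : ¬ X.η < w j ^ 2) : X.rho w j = 0 :=
  rho_zero (by linarith [not_lt.1 h, X.η_pos])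

theorem rho_lip (m : X.lev.Z) : LipAt (fun m : X.lev.Z => X.rho m.1.2.1) m :=
  (ContDiffAt.lipAt (f := fun m : X.Amb => X.rho m.2.1) (by
    have := gl_smooth (k := 1)
    unfold rho
    fun_prop (disch := exact (rho_den (inZ m).B.sw).ne'))).comp'
    (LipschitzWith.lipAt isometry_subtype_coe.lipschitz _)

theorem rho_ev {m : X.lev.Z} {j : V} (h : ¬ X.η < m.1.2.1 j ^ 2) :
    ∀ᶠ m' : X.lev.Z in 𝓝 m, X.rho m'.1.2.1 j = 0 :=
  (((show Continuous fun m : X.lev.Z => m.1.2.1 j ^ 2 by fun_prop).tendsto m).eventually_le_const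
    (show _ < 2 * X.η by linarith [not_lt.1 h, X.η_pos])).mono fun _ => rho_zero

theorem sum_rho_le (m : X.lev.Z) {b : V → ℝ} {M : ℝ} (h : ∀ j, X.η < m.1.2.1 j ^ 2 → b j ≤ M) :
    ∑ j, X.rho m.1.2.1 j * b j ≤ M := by
  rw [← one_mul M, ← rho_sum m, Finset.sum_mul]
  refine Finset.sum_le_sum fun j _ => ?_
  by_cases hj : X.η < m.1.2.1 j ^ 2
  · exact mul_le_mul_of_nonneg_left (h j hj) (rho_nonneg _ _)
  · simp [rho_zero' hj]

/-- The folding coordinate. -/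
def yq (q : XT X.κ) : ℝ := q.1 X.b₀ 2

@[fun_prop] theorem yq_cont : Continuous (yq : XT X.κ → ℝ) := by unfold yq; fun_prop

/-- The side of the fold. -/
noncomputable def eps (q : XT X.κ) : Bool := decide (yq q ≤ 0)

namespace IsoData

variable {S : Type} (D : X.IsoData S)

/-- The exceptional set. -/
def D1 : Set S := insert D.s₀
  {s | ∃ i j, D.tr true i j s ≠ D.tr false i j s ∨ D.lb true i j s ≠ D.lb false i j s}

/-- The admissible points. -/
def cond (q : XT X.κ) (s : S) : Prop := yq q < 0 ∨ (0 < yq q ∧ s ≠ D.s₀) ∨ s ∉ D.D1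

/-- The transition maps. -/
noncomputable def Tq (ε : Bool) (i j : V) (s : S) (w : V → ℝ) (q : XT X.κ) : XT X.κ :=
  ((D.lb ε i j s • q).1, (D.lb ε i j s • q).2 + X.aph i j w)

/-- The averaged coordinates. -/
noncomputable def qb (ε : Bool) (i : V) (s : S) (w : V → ℝ) (q : XT X.κ) : XT X.κ :=
  ∑ j, X.rho w j • D.Tq ε i j s w q

/-- The averaged depth. -/
noncomputable def db (dep : S → ℝ) (ε : Bool) (i : V) (s : S) (w : V → ℝ) : ℝ :=
  ∑ j, X.rho w j * dep (D.tr ε i j s)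

variable {D}

theorem cond.ok {q : XT X.κ} {s : S} (h : D.cond q s) : eps q = false → s ≠ D.s₀ := by
  intro h1 h2
  have h3 : 0 < yq q := by simpa [eps] using h1
  rcases h with h | h | h
  exacts [by linarith, h.2 h2, h (Or.inl h2)]

theorem cond.ev {q : XT X.κ} {s : S} (h : D.cond q s) : ∀ᶠ q' in 𝓝 q, ∀ i j,
    D.tr (eps q') i j s = D.tr (eps q) i j s ∧ D.lb (eps q') i j s = D.lb (eps q) i j s := by
  rcases h with h | h | h
  · exact ((yq_cont.tendsto q).eventually_le_const h).mono fun q' h' => by simp [eps, h', h.le]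
  · exact ((yq_cont.tendsto q).eventually_const_lt h.1).mono fun q' h' => by
      simp [eps, h'.not_ge, h.1.not_ge]
  · simp only [D1, mem_insert_iff, mem_ofPred_eq, not_or, not_exists, not_not] at h
    refine Eventually.of_forall fun q' i j => ?_
    cases eps q' <;> cases eps q <;> simp [h.2 i j]

theorem cond_open (s : S) : IsOpen {q | D.cond q s} := by
  refine (isOpen_lt yq_cont continuous_const).union (IsOpen.union ((isOpen_lt continuous_const
    yq_cont).inter (t := {_q | s ≠ D.s₀}) isOpen_const) (s₂ := {_q | s ∉ D.D1}) isOpen_const)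

theorem yq_Tq (ε : Bool) (i j : V) (s : S) (w : V → ℝ) (q : XT X.κ) :
    yq (D.Tq ε i j s w q) = yq q := by simp [yq, Tq, Lam.smul_fst, D.y0]

theorem eps_Tq (ε : Bool) (i j : V) (s : S) (w : V → ℝ) (q : XT X.κ) :
    eps (D.Tq ε i j s w q) = eps q := by rw [eps, yq_Tq, eps]

theorem ok_tr {ε : Bool} {s : S} (h : ε = false → s ≠ D.s₀) (i j : V) :
    ε = false → D.tr ε i j s ≠ D.s₀ := by
  rintro rfl; exact D.ne i j s (h rfl)

theorem Tq_shift (ε : Bool) (i j : V) (s : S) (w : V → ℝ) (q : XT X.κ) (t : ℝ) :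
    D.Tq ε i j s w (q.1, q.2 + t) = D.Tq ε i j s w q + (0, t) := by
  simp [Tq, Lam.smul_shift, add_right_comm]

theorem Tq_coc {m : X.Amb} (h : X.InZ m) {i j l : V} (hi : X.η < m.2.1 i ^ 2)
    (hj : X.η < m.2.1 j ^ 2) (hl : X.η < m.2.1 l ^ 2) {ε : Bool} {s : S}
    (hs : ε = false → s ≠ D.s₀) (q : XT X.κ) :
    D.Tq ε j l (D.tr ε i j s) m.2.1 (D.Tq ε i j s m.2.1 q) = D.Tq ε i l s m.2.1 q := by
  rw [Tq, Tq, Tq, ← (D.coc ε i j l s (h.face hi hj hl) hs).2, mul_smul, mul_smul, Lam.z_smul,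
    Lam.smul_shift, Lam.smul_shift, Lam.smul_shift]
  exact Prod.ext rfl (by linarith [aph_coc h hi hj hl])

theorem Tq_refl {m : X.Amb} (h : X.InZ m) {i : V} (hi : X.η < m.2.1 i ^ 2) {ε : Bool} {s : S}
    (hs : ε = false → s ≠ D.s₀) (q : XT X.κ) : D.Tq ε i i s m.2.1 q = q := by
  rw [Tq, (D.refl ε i s (h.face1 hi) hs).2, one_smul, aph]
  split_ifs <;> simp

theorem qb_inv {m : X.Amb} (h : X.InZ m) {i j : V} (hi : X.η < m.2.1 i ^ 2)
    (hj : X.η < m.2.1 j ^ 2) {ε : Bool} {s : S} (hs : ε = false → s ≠ D.s₀) (q : XT X.κ)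
    (dep : S → ℝ) : D.qb ε j (D.tr ε i j s) m.2.1 (D.Tq ε i j s m.2.1 q) = D.qb ε i s m.2.1 q ∧
      D.db dep ε j (D.tr ε i j s) m.2.1 = D.db dep ε i s m.2.1 := by
  refine ⟨Finset.sum_congr rfl fun l _ => ?_, Finset.sum_congr rfl fun l _ => ?_⟩ <;>
    by_cases hl : X.η < m.2.1 l ^ 2
  · rw [Tq_coc h hi hj hl hs]
  · simp [rho_zero' hl]
  · rw [(D.coc ε i j l s (h.face hi hj hl) hs).1]
  · simp [rho_zero' hl]

theorem Tq_al (ε : Bool) {i j : V} (s : S) (a : X.Lift i) (hj : X.η < a.1.1.1.2.1 j ^ 2) :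
    AL (fun a : X.Lift i => a.1.1) (fun a => D.Tq ε i j s a.1.1.1.2.1 a.1.2) a := by
  have c := (Lift.loc (X := X) i).continuous.continuousAt (x := a)
  have h1 := a.al.comp c (ContDiffAt.lipAt ((D.lb ε i j s).smooth (k := 1)).contDiffAt)
  exact (h1.comp c (LipschitzWith.lipAt LipschitzWith.prod_fst _)).prodMk (AL.add c
    (h1.comp c (LipschitzWith.lipAt LipschitzWith.prod_snd _)) (al_amb c
      (G := fun m : X.lev.Z => X.aph i j m.1.2.1) ((ContDiffAt.lipAt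
      (f := fun m : X.Amb => X.aph i j m.2.1) ((aph_smooth (inZ _) a.2.1 hj).comp a.1.1.1
      (f := fun m : X.Amb => m.2.1) (by fun_prop))).comp'
      (LipschitzWith.lipAt isometry_subtype_coe.lipschitz _))))

theorem qb_al (ε : Bool) {i : V} (s : S) (a : X.Lift i) :
    AL (fun a : X.Lift i => a.1.1) (fun a => D.qb ε i s a.1.1.1.2.1 a.1.2) a := by
  have c := (Lift.loc (X := X) i).continuous.continuousAt (x := a)
  refine AL.sum _ c fun j _ => ?_
  by_cases hj : X.η < a.1.1.1.2.1 j ^ 2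
  · exact AL.smul c ((al_amb c (rho_lip _)).comp c
      (LipschitzWith.lipAt (LipschitzWith.eval j) _)) (Tq_al ε s a hj)
  · exact (al_const _ 0 _).congr ((c.eventually (rho_ev hj)).mono fun b hb => by simp [hb])

variable (D)

/-- The local pieces. -/
def Pc (k : V × S) : Type := {a : X.Lift k.1 // D.cond a.1.2 k.2}

noncomputable instance (k : V × S) : TopologicalSpace (D.Pc k) := instTopologicalSpaceSubtype

variable {D}

theorem Pc.emb (k : V × S) : IsOpenEmbedding (Subtype.val : D.Pc k → X.Lift k.1) :=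
  ((cond_open k.2).preimage (continuous_snd.comp continuous_subtype_val)).isOpenEmbedding_subtypeVal

/-- The base point. -/
def Pc.m {k : V × S} (a : D.Pc k) : X.lev.Z := a.1.1.1

/-- The coordinates. -/
def Pc.q {k : V × S} (a : D.Pc k) : XT X.κ := a.1.1.2

@[fun_prop] theorem Pc.m_cont (k : V × S) : Continuous (Pc.m : D.Pc k → _) :=
  continuous_fst.comp (continuous_subtype_val.comp continuous_subtype_val)

@[fun_prop] theorem Pc.q_cont (k : V × S) : Continuous (Pc.q : D.Pc k → _) :=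
  continuous_snd.comp (continuous_subtype_val.comp continuous_subtype_val)

theorem Pc.big {k : V × S} (a : D.Pc k) {m : X.lev.Z} (h : a.m = m) : X.η < m.1.2.1 k.1 ^ 2 :=
  h ▸ a.1.2.1

/-- The transition of a lift. -/
noncomputable def mv (ε : Bool) {i : V} (s : S) (a : X.Lift i) {j : V}
    (hj : X.η < a.1.1.1.2.1 j ^ 2) : X.Lift j :=
  ⟨(a.1.1, D.Tq ε i j s a.1.1.1.2.1 a.1.2), hj, (a.2.2.smul (D.lb ε i j s)).1, by
    rw [Tq, ex_add, mul_smul, aph_sec (inZ _) a.2.1 hj (a.2.2.smul (D.lb ε i j s)).1]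
    exact (a.2.2.smul _).2⟩

/-- The gluing relation. -/
structure Rl {k k' : V × S} (a : D.Pc k) (b : D.Pc k') : Prop where
  m : b.m = a.m
  s : k'.2 = D.tr (eps a.q) k.1 k'.1 k.2
  q : b.q = D.Tq (eps a.q) k.1 k'.1 k.2 a.m.1.2.1 a.q

theorem Rl.refl {k : V × S} (a : D.Pc k) : Rl a a :=
  ⟨rfl, (D.refl _ _ _ ((inZ _).face1 a.1.2.1) a.2.ok).1.symm,
    (Tq_refl (inZ _) a.1.2.1 a.2.ok _).symm⟩

theorem Rl.eps {k k' : V × S} {a : D.Pc k} {b : D.Pc k'} (h : Rl a b) : eps b.q = eps a.q := by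
  rw [h.q, eps_Tq]

theorem Rl.trans' {k k' k'' : V × S} {a : D.Pc k} {b : D.Pc k'} (h : Rl a b) {c : D.Pc k''}
    (hm : c.m = a.m) : D.tr (Cx.eps b.q) k'.1 k''.1 k'.2 = D.tr (Cx.eps a.q) k.1 k''.1 k.2 ∧
      D.Tq (Cx.eps b.q) k'.1 k''.1 k'.2 b.m.1.2.1 b.q =
        D.Tq (Cx.eps a.q) k.1 k''.1 k.2 a.m.1.2.1 a.q := by
  have h1 : X.η < a.m.1.2.1 k'.1 ^ 2 := h.m ▸ b.1.2.1
  have h2 : X.η < a.m.1.2.1 k''.1 ^ 2 := hm ▸ c.1.2.1
  rw [h.eps, h.q, h.m, h.s]
  exact ⟨(D.coc _ _ _ _ _ ((inZ _).face a.1.2.1 h1 h2) a.2.ok).1,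
    Tq_coc (inZ _) a.1.2.1 h1 h2 a.2.ok _⟩

instance setoid (D : X.IsoData S) : Setoid (Σ k, D.Pc k) where
  r a b := Rl a.2 b.2
  iseqv := ⟨fun a => Rl.refl a.2, fun {a b} h => ⟨h.m.symm,
    (Rl.refl a.2).s.trans (h.trans' rfl).1.symm, (Rl.refl a.2).q.trans (h.trans' rfl).2.symm⟩,
    fun {a b c} h h' => ⟨h'.m.trans h.m, h'.s.trans (h.trans' (h'.m.trans h.m)).1,
      h'.q.trans (h.trans' (h'.m.trans h.m)).2⟩⟩

theorem Tq_ev {k : V × S} (a : D.Pc k) {j : V} (hj : X.η < a.m.1.2.1 j ^ 2) :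
    ContinuousAt (fun b : D.Pc k => D.Tq (eps a.q) k.1 j k.2 b.m.1.2.1 b.q) a ∧ ∀ᶠ b in 𝓝 a,
      D.tr (eps b.q) k.1 j k.2 = D.tr (eps a.q) k.1 j k.2 ∧
      D.Tq (eps b.q) k.1 j k.2 = D.Tq (eps a.q) k.1 j k.2 :=
  ⟨((Tq_al _ k.2 a.1 hj).continuousAt (Lift.loc _).continuous.continuousAt).comp
    continuous_subtype_val.continuousAt, ((Pc.q_cont k).continuousAt.eventually a.2.ev).mono
      fun b hb => ⟨(hb _ _).1, by unfold Tq; rw [(hb _ _).2]; rfl⟩⟩

theorem Rl.loc {k k' : V × S} {a : D.Pc k} {b : D.Pc k'} (h : Rl a b) :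
    ∃ τ : D.Pc k → D.Pc k', Tendsto τ (𝓝 a) (𝓝 b) ∧ ∀ᶠ c in 𝓝 a, Rl c (τ c) := by
  classical
  have h1 : X.η < a.m.1.2.1 k'.1 ^ 2 := h.m ▸ b.1.2.1
  obtain ⟨h2, h3⟩ := Tq_ev a h1
  have h4 : ∀ᶠ c : D.Pc k in 𝓝 a, X.η < c.m.1.2.1 k'.1 ^ 2 ∧
      D.cond (D.Tq (Cx.eps a.q) k.1 k'.1 k.2 c.m.1.2.1 c.q) k'.2 :=
    (((show Continuous fun c : D.Pc k => c.m.1.2.1 k'.1 ^ 2 by fun_prop).tendsto
      a).eventually_const_lt h1).and (h2.eventually ((cond_open _).mem_nhds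
        (mem_of_eq_of_mem h.q.symm b.2)))
  refine ⟨fun c => if h : X.η < c.m.1.2.1 k'.1 ^ 2 ∧
    D.cond (D.Tq (Cx.eps a.q) k.1 k'.1 k.2 c.m.1.2.1 c.q) k'.2 then
      ⟨mv (Cx.eps a.q) k.2 c.1 h.1, h.2⟩ else b, ?_, ?_⟩
  · refine tendsto_subtype_rng.2 (tendsto_subtype_rng.2 (Tendsto.congr' (f₁ := fun c : D.Pc k =>
      (c.m, D.Tq (Cx.eps a.q) k.1 k'.1 k.2 c.m.1.2.1 c.q)) (h4.mono fun c hc => by
        simp only [dif_pos hc]; rfl) ?_))
    rw [show b.1.1 = (a.m, D.Tq (Cx.eps a.q) k.1 k'.1 k.2 a.m.1.2.1 a.q) from Prod.ext h.m h.q]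
    exact (Pc.m_cont k).continuousAt.prodMk h2
  · filter_upwards [h3, h4] with c h3 h4
    rw [dif_pos h4]
    exact ⟨rfl, h.s.trans h3.1.symm, by rw [h3.2]; rfl⟩

/-- The glued space. -/
def Xb (D : X.IsoData S) : Type := Quotient D.setoid

noncomputable instance : TopologicalSpace D.Xb := instTopologicalSpaceQuotient

/-- The inclusion of a piece. -/
def ι (k : V × S) (a : D.Pc k) : D.Xb := Quotient.mk _ ⟨k, a⟩

theorem ι_eq {k k' : V × S} {a : D.Pc k} {b : D.Pc k'} : ι k a = ι k' b ↔ Rl a b := Quotient.eq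

theorem ι_surj (y : D.Xb) : ∃ k a, ι k a = y := Quotient.inductionOn y fun z => ⟨z.1, z.2, rfl⟩

theorem mk_open : IsOpenMap (Quotient.mk D.setoid) := by
  intro U hU
  refine isQuotientMap_quotient_mk'.isOpen_preimage.1 (isOpen_iff_mem_nhds.2 ?_)
  rintro ⟨k, a⟩ ⟨⟨k', b⟩, hb, e⟩
  obtain ⟨τ, h1, h2⟩ := (ι_eq.1 e.symm).loc
  rw [Sigma.nhds_mk, mem_map]
  filter_upwards [h2, h1.eventually (continuous_sigmaMk.continuousAt.eventually (hU.mem_nhds hb))]
    with c h2 h3 using ⟨_, h3, (ι_eq.2 h2).symm⟩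

theorem ι_emb (k : V × S) : IsOpenEmbedding (ι k : D.Pc k → D.Xb) :=
  .of_continuous_injective_isOpenMap (continuous_quotient_mk'.comp continuous_sigmaMk)
    (fun a b h => Subtype.ext (Subtype.ext (Prod.ext (ι_eq.1 h).m.symm
      ((Rl.refl a).q.trans (ι_eq.1 h).q.symm)))) (mk_open.comp isOpenMap_sigmaMk)

instance : T2Space D.Xb := by
  refine (t2Space_iff_of_isOpenQuotientMap ⟨Quotient.mk_surjective, continuous_quotient_mk',
    mk_open⟩).2 (isOpen_compl_iff.1 (isOpen_iff_mem_nhds.2 ?_))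
  rintro ⟨⟨k, a⟩, k', b⟩ h
  rw [nhds_prod_eq, Sigma.nhds_mk, Sigma.nhds_mk, prod_map_map_eq, mem_map, ← nhds_prod_eq]
  by_contra h'
  refine h (ι_eq.2 ?_)
  have h1 : ∃ᶠ z : D.Pc k × D.Pc k' in 𝓝 (a, b), Rl z.1 z.2 :=
    (not_eventually.1 h').mono fun z hz => ι_eq.1 (not_not.1 hz)
  have h2 : b.m = a.m := tendsto_nhds_unique_of_frequently_eq
    (((Pc.m_cont k').comp continuous_snd).tendsto (a, b))
    (((Pc.m_cont k).comp continuous_fst).tendsto (a, b)) (h1.mono fun z hz => hz.m)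
  obtain ⟨h3, h4⟩ := Tq_ev a (b.big h2)
  have h5 := h1.and_eventually ((continuous_fst.tendsto (a, b)).eventually h4)
  obtain ⟨z, h6, h7⟩ := h5.exists
  exact ⟨h2, h6.s.trans h7.1, tendsto_nhds_unique_of_frequently_eq
    (((Pc.q_cont k').comp continuous_snd).tendsto (a, b))
    (h3.tendsto.comp (continuous_fst.tendsto (a, b))) (h5.mono fun z hz => by
      simp only [Function.comp, hz.1.q, hz.2.2])⟩

instance [Countable S] : SecondCountableTopology D.Xb := by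
  have : ∀ k, SecondCountableTopology (D.Pc k) := fun k =>
    (Topology.IsInducing.subtypeVal.comp Topology.IsInducing.subtypeVal).secondCountableTopology
  exact isQuotientMap_quotient_mk'.secondCountableTopology mk_open

/-- The projection. -/
def pr (D : X.IsoData S) : D.Xb → X.lev.Z := Quotient.lift (fun z => z.2.m) fun _ _ h => h.m.symm

theorem pr_loc : IsLocalHomeomorph D.pr := fun y => by
  obtain ⟨k, a, rfl⟩ := ι_surj y
  exact IsLocalHomeomorphOn.of_comp_right (s := univ) (f := ι k) (g := D.pr) ((Lift.loc _).comp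
    (Pc.emb k).isLocalHomeomorph).isLocalHomeomorphOn
    (ι_emb k).isLocalHomeomorph.isLocalHomeomorphOn _ ⟨a, trivial, rfl⟩

/-- The global coordinates. -/
noncomputable def Qf (D : X.IsoData S) (dep : S → ℝ) : D.Xb → XT X.κ × ℝ :=
  Quotient.lift (fun z => (D.qb (eps z.2.q) z.1.1 z.1.2 z.2.m.1.2.1 z.2.q,
    D.db dep (eps z.2.q) z.1.1 z.1.2 z.2.m.1.2.1)) fun a b (h : Rl a.2 b.2) => by
    have := qb_inv (inZ a.2.m) a.2.1.2.1 (b.2.big h.m) a.2.2.ok a.2.q dep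
    rw [h.eps, h.q, h.m, h.s]
    exact Prod.ext this.1.symm this.2.symm

theorem Qf_ev (dep : S → ℝ) {k : V × S} (a : D.Pc k) : ∀ᶠ b in 𝓝 a, D.Qf dep (ι k b) =
    (D.qb (eps a.q) k.1 k.2 b.m.1.2.1 b.q, D.db dep (eps a.q) k.1 k.2 b.m.1.2.1) :=
  ((Pc.q_cont k).continuousAt.eventually a.2.ev).mono fun b hb => by
    change (D.qb _ _ _ _ _, D.db _ _ _ _ _) = _
    simp only [qb, db, Tq, hb]
    rfl

end IsoData

end Cx

end Pool.Agent.Lib.MP_4b70aa_gt
end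

-- part Pool.Agent.Lib.MP_4b70aa_gt.Iso
section

set_option autoImplicit false
set_option linter.unusedSectionVars false

open MeasureTheory Filter Set Topology
open scoped ContDiff

namespace Pool.Agent.Lib.MP_4b70aa_gt

theorem Ok.split' {n : ℕ} {A W : Type} [NormedAddCommGroup A] [NormedSpace ℝ A]
    [FiniteDimensional ℝ A] [NormedAddCommGroup W] [NormedSpace ℝ W] [FiniteDimensional ℝ W]
    {L : Lev n A W} {Y κ : Type} [TopologicalSpace Y] [T2Space Y] {p : Y → L.Z} {χ : Y → ℝ}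
    {g : Y → E (n + 1)} {K : Set Y} (h : Ok p χ g K) {T : κ → Type} [∀ k, TopologicalSpace (T k)]
    {j : ∀ k, T k → Y} (hj : ∀ k, IsOpenEmbedding (j k))
    (hd : Pairwise (Function.onFun Disjoint fun k => range (j k))) (hc : K ⊆ ⋃ k, range (j k))
    (k₀ : κ) (h0 : ∀ k, IsCompact (j k ⁻¹' K) → (IJ (p ∘ j k) (χ ∘ j k) (g ∘ j k) = 0 ↔ k ≠ k₀)) :
    IJ p χ g ≠ 0 := by
  obtain ⟨s, h1, h2⟩ := h.split (fun k => (hj k).isOpen_range) hd hc
  have h3 : ∀ k, IJ (p ∘ (Subtype.val : range (j k) → Y)) (χ ∘ Subtype.val) (g ∘ Subtype.val) = 0 ↔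
      k ≠ k₀ := fun k => by
    have h4 := Ok.cpt_inter h.cpt (fun k => (hj k).isOpen_range) hd hc k
    have h5 : IsCompact (j k ⁻¹' K) := (hj k).isEmbedding.toHomeomorph.isCompact_preimage.2 h4
    rw [← h0 k h5, h.restrict (hj k) h5, h.restrict (hj k).isOpen_range.isOpenEmbedding_subtypeVal h4,
      Subtype.range_coe]
  rw [h2, Finset.sum_eq_single k₀ (fun k _ hk => (h3 k).2 hk) (h1 k₀)]
  exact fun h => (h3 k₀).1 h rfl

theorem exists_bound {ι : Type} {s : Set ι} (hs : s.Finite) (f : ι → ℝ) :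
    ∃ M, 0 ≤ M ∧ ∀ i ∈ s, f i ≤ M :=
  let ⟨M, hM⟩ := (hs.image f).bddAbove
  ⟨max M 0, le_max_right _ _, fun i hi => le_max_of_le_left (hM ⟨i, hi, rfl⟩)⟩

namespace Cx

variable {V : Type} [Fintype V] [DecidableEq V] {X : Cx V}

theorem exists_rho_lip (X : Cx V) :
    ∃ c, 0 ≤ c ∧ ∀ m : X.lev.Z, ALipAt id c (fun m : X.lev.Z => X.rho m.1.2.1) m := by
  have := isCompact_iff_compactSpace.1 X.cpt
  obtain ⟨c, h1, h2⟩ := exists_unif (P := id) (g := fun m : X.lev.Z => X.rho m.1.2.1)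
    isCompact_univ fun m _ => al_amb continuousAt_id (rho_lip m)
  exact ⟨c, h1, fun m => h2 m trivial⟩

theorem Lift.x_lip {i : V} (a : X.Lift i) :
    ALipAt (fun a : X.Lift i => a.1.1) 1 (fun a => a.1.2.1) a := by
  have c : Continuous fun a : X.Lift i => a.1.2.1 :=
    continuous_fst.comp (continuous_snd.comp continuous_subtype_val)
  filter_upwards [ev_prod (c.continuousAt.eventually (Metric.ball_mem_nhds a.1.2.1
    (show (0 : ℝ) < 1 / 4 by norm_num)))] with z hz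
  have h1 : dist z.1.1.2.1 z.2.1.2.1 ≤ 1 / 2 := (dist_triangle_right _ _ _).trans
    ((add_le_add (le_of_lt hz.1) (le_of_lt hz.2)).trans (by norm_num))
  rw [one_mul]
  refine (dist_pi_le_iff dist_nonneg).2 fun b => (dist_pi_le_iff dist_nonneg).2 fun c => ?_
  refine (ex_lower ((dist_le_pi_dist _ _ c).trans ((dist_le_pi_dist _ _ b).trans h1))).trans ?_
  rw [← dist_eq_norm]
  refine (dist_le_pi_dist (Ex z.1.1.2.1 b) (Ex z.2.1.2.1 b) c).trans
    ((dist_le_pi_dist _ _ b).trans ?_)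
  rw [← z.1.2.2.1, ← z.2.2.2.1]
  exact le_max_left _ _

theorem exists_co (X : Cx V) : ∃ co : XT X.κ ≃L[ℝ] E X.n, ∀ v, ‖co.symm v‖ ≤ ‖v‖ := by
  let c : E X.n ≃L[ℝ] XT X.κ := ContinuousLinearEquiv.ofFinrankEq (by
    rw [finrank_euclideanSpace_fin]
    simp [Module.finrank_pi_fintype, n])
  have h : 0 < ‖(c : E X.n →L[ℝ] XT X.κ)‖ + 1 := by positivity
  refine ⟨ContinuousLinearEquiv.equivOfInverse ((‖(c : E X.n →L[ℝ] XT X.κ)‖ + 1) •
    (c.symm : XT X.κ →L[ℝ] E X.n)) ((‖(c : E X.n →L[ℝ] XT X.κ)‖ + 1)⁻¹ • (c : E X.n →L[ℝ] XT X.κ))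
    (fun v => by simp [smul_smul, h.ne']) (fun v => by simp [smul_smul, h.ne']), fun v => ?_⟩
  change ‖(_ : ℝ)⁻¹ • (c : E X.n →L[ℝ] XT X.κ) v‖ ≤ _
  rw [norm_smul, norm_inv, Real.norm_of_nonneg h.le, inv_mul_le_iff₀ h]
  nlinarith [(c : E X.n →L[ℝ] XT X.κ).le_opNorm v, norm_nonneg v]

namespace IsoData

variable {S : Type} {D : X.IsoData S}

theorem exists_dep (D : X.IsoData S) (r : ℕ) : ∃ dep : S → ℝ, (∀ s, 0 ≤ dep s) ∧
    (∀ s ∈ D.D1, dep s = 0) ∧ (∀ ε i j s, dep (D.tr ε i j s) ≤ dep s + 1) ∧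
      {s | dep s < r}.Finite := by
  classical
  let T : ℕ → Set S := fun n => Nat.rec D.D1
    (fun _ A => ⋃ z : Bool × V × V, D.tr z.1 z.2.1 z.2.2 '' A) n
  have h1 : ∀ n, (T n).Finite := fun n => by
    induction n with
    | zero => exact D.fin.insert _
    | succ n h => exact finite_iUnion fun z => h.image _
  let f : S → ℕ := fun s => sInf {n | s ∈ T n ∨ r ≤ n}
  have h2 : ∀ s, s ∈ T (f s) ∨ r ≤ f s := fun s =>
    Nat.sInf_mem (s := {n | s ∈ T n ∨ r ≤ n}) ⟨r, Or.inr le_rfl⟩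
  refine ⟨fun s => f s, fun s => Nat.cast_nonneg _, fun s hs => ?_, fun ε i j s => ?_,
    (finite_iUnion fun n : Fin r => h1 n).subset fun s hs => ?_⟩
  · have : f s ≤ 0 := Nat.sInf_le (Or.inl hs)
    exact Nat.cast_eq_zero.2 (Nat.le_zero.1 this)
  · have : f (D.tr ε i j s) ≤ f s + 1 := Nat.sInf_le ((h2 s).imp
      (fun h => mem_iUnion.2 ⟨(ε, i, j), s, h, rfl⟩) Nat.le_succ_of_le)
    exact (Nat.cast_le.2 this).trans (Nat.cast_succ _).le
  · have h3 : f s < r := (Nat.cast_lt (α := ℝ)).1 hs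
    exact mem_iUnion.2 ⟨⟨_, h3⟩, (h2 s).resolve_right h3.not_ge⟩

variable {dep : S → ℝ}

theorem dep_close (hd : ∀ ε i j s, dep (D.tr ε i j s) ≤ dep s + 1) {m : X.Amb} (h : X.InZ m)
    {i j : V} (hi : X.η < m.2.1 i ^ 2) (hj : X.η < m.2.1 j ^ 2) {ε : Bool} {s : S}
    (hs : ε = false → s ≠ D.s₀) : |dep (D.tr ε i j s) - dep s| ≤ 1 := by
  have := hd ε j i (D.tr ε i j s)
  rw [(D.coc ε i j i s (h.face hi hj hi) hs).1, (D.refl ε i s (h.face1 hi) hs).1] at this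
  exact abs_le.2 ⟨by linarith, by linarith [hd ε i j s]⟩

theorem db_close (hd : ∀ ε i j s, dep (D.tr ε i j s) ≤ dep s + 1) (m : X.lev.Z) {i : V}
    (hi : X.η < m.1.2.1 i ^ 2) {ε : Bool} {s : S} (hs : ε = false → s ≠ D.s₀) :
    |D.db dep ε i s m.1.2.1 - dep s| ≤ 1 := by
  have h1 := sum_rho_le m (b := fun j => dep (D.tr ε i j s)) fun j _ => hd ε i j s
  have h2 := sum_rho_le m (b := fun j => -dep (D.tr ε i j s)) (M := 1 - dep s) fun j hj => by
    linarith [abs_le.1 (dep_close hd (inZ m) hi hj hs)]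
  simp only [mul_neg, Finset.sum_neg_distrib] at h2
  exact abs_le.2 ⟨by unfold db; linarith, by unfold db; linarith⟩

/-- The translation part of a label. -/
def lm (D : X.IsoData S) (ε : Bool) (i j : V) (s : S) : X.κ → Fin 3 → ℝ :=
  fun a c => (D.lb ε i j s).m a c

theorem qb_fst (ε : Bool) (i : V) (s : S) (m : X.lev.Z) (q : XT X.κ) :
    (D.qb ε i s m.1.2.1 q).1 = q.1 + ∑ j, X.rho m.1.2.1 j • D.lm ε i j s := by
  have : ∀ j, (D.Tq ε i j s m.1.2.1 q).1 = q.1 + D.lm ε i j s := fun _ => rfl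
  simp only [qb, Prod.fst_sum, Prod.smul_fst, this, smul_add, Finset.sum_add_distrib,
    ← Finset.sum_smul, rho_sum, one_smul]

theorem yq_qb (ε : Bool) (i : V) (s : S) (m : X.lev.Z) (q : XT X.κ) :
    yq (D.qb ε i s m.1.2.1 q) = yq q := by
  simp [yq, qb_fst, lm, D.y0]

theorem qb_shift (ε : Bool) (i : V) (s : S) (m : X.lev.Z) (q : XT X.κ) (t : ℝ) :
    D.qb ε i s m.1.2.1 (q.1, q.2 + t) = D.qb ε i s m.1.2.1 q + (0, t) := by
  simp only [qb, Tq_shift, smul_add, Finset.sum_add_distrib, ← Finset.sum_smul, rho_sum, one_smul]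

theorem qb_neck (a : X.N) {ε : Bool} {s : S} (hs : ε = false → s ≠ D.s₀) (dep : S → ℝ) :
    D.qb ε X.o s a.J.1.2.1 a.q = a.q ∧ D.db dep ε X.o s a.J.1.2.1 = dep s := by
  have h1 : ∀ j ∈ Finset.univ, j ≠ X.o → X.rho a.J.1.2.1 j = 0 := fun j _ hj => rho_zero' (not_lt.2
    (((D3_ge _ _ hj).trans a.2.le).trans X.hρη))
  have h2 := rho_sum a.J
  rw [Finset.sum_eq_single X.o h1 (by simp)] at h2
  rw [qb, db, Finset.sum_eq_single X.o (fun j h hj => by simp [h1 j h hj]) (by simp),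
    Finset.sum_eq_single X.o (fun j h hj => by simp [h1 j h hj]) (by simp), h2,
    Tq_refl (inZ a.J) a.1.2.1 hs, (D.refl _ _ _ X.face_single hs).1]
  simp

theorem db_lip (hd : ∀ ε i j s, dep (D.tr ε i j s) ≤ dep s + 1) {c : ℝ}
    (hc : ∀ m : X.lev.Z, ALipAt id c (fun m : X.lev.Z => X.rho m.1.2.1) m) (m : X.lev.Z) {i : V}
    (hi : X.η < m.1.2.1 i ^ 2) {ε : Bool} {s : S} (hs : ε = false → s ≠ D.s₀) :
    ALipAt id (0 + Fintype.card V * 1 * c) (fun m : X.lev.Z => D.db dep ε i s m.1.2.1) m := by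
  classical
  refine ((aLipAt_const _ (dep s) _).add ((hc m).lin (b := fun j => if X.η < m.1.2.1 j ^ 2 then
    dep (D.tr ε i j s) - dep s else 0) zero_le_one fun j => ?_)).congr ?_
  · split_ifs with h
    exacts [dep_close hd (inZ m) hi h hs, by simp]
  · have : ∀ᶠ m' : X.lev.Z in 𝓝 m, ∀ j, ¬ X.η < m.1.2.1 j ^ 2 → X.rho m'.1.2.1 j = 0 :=
      eventually_all.2 fun j => eventually_imp_distrib_left.2 rho_ev
    filter_upwards [this] with m' hm
    nth_rewrite 1 [← one_mul (dep s)]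
    rw [← rho_sum m', Finset.sum_mul, ← Finset.sum_add_distrib]
    refine Finset.sum_congr rfl fun j _ => ?_
    split_ifs with h
    · simp; ring
    · simp [hm j h]

theorem theta_bound (D : X.IsoData S) {T : Set S} (hT : T.Finite) (M : ℝ) : ∃ c, 0 ≤ c ∧
    ∀ ε i, ∀ s ∈ T, ∀ a : X.Lift i, 2 * X.η ≤ a.1.1.1.2.1 i ^ 2 → ‖a.1.2.1‖ ≤ M →
      ALipAt (fun a : X.Lift i => a.1.1) c (fun a => (D.qb ε i s a.1.1.1.2.1 a.1.2).2) a ∧
      |(D.qb ε i s a.1.1.1.2.1 a.1.2).2 - a.1.2.2| ≤ c := by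
  have key : ∀ z : Bool × V × S, ∃ c, ∀ a : X.Lift z.2.1, 2 * X.η ≤ a.1.1.1.2.1 z.2.1 ^ 2 →
      ‖a.1.2.1‖ ≤ M → ALipAt (fun a : X.Lift z.2.1 => a.1.1) c
        (fun a => (D.qb z.1 z.2.1 z.2.2 a.1.1.1.2.1 a.1.2).2) a ∧
      |(D.qb z.1 z.2.1 z.2.2 a.1.1.1.2.1 a.1.2).2 - a.1.2.2| ≤ c := by
    rintro ⟨ε, i, s⟩
    have hK := Lift.cpt (X := X) (i := i) (M := max M 1)
      (C := {z | 2 * X.η ≤ z.1.1.2.1 i ^ 2 ∧ ‖z.2‖ ≤ max M 1})
      ((isClosed_le continuous_const (by fun_prop)).and (isClosed_le (by fun_prop) continuous_const))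
      fun z hz => ⟨by linarith [hz.1, X.η_pos], hz.2⟩
    have c := (Lift.loc (X := X) i).continuous
    have h1 := fun a : X.Lift i => (qb_al (D := D) ε s a).comp c.continuousAt
      (LipschitzWith.lipAt LipschitzWith.prod_snd _)
    obtain ⟨c₁, h2, h3⟩ := exists_unif hK fun a _ => h1 a
    obtain ⟨c₂, h4⟩ := hK.exists_bound_of_continuousOn fun a _ =>
      ((h1 a).continuousAt c.continuousAt).continuousWithinAt
    refine ⟨max c₁ (c₂ + 1), fun a h5 h6 => ?_⟩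
    let j : X.Lift i → X.Lift i := fun b => ⟨(b.1.1, (Lam.z (-⌊a.1.2.2⌋) : X.Λ) • b.1.2), b.2.1,
      b.2.2.smul _⟩
    have h7 : Continuous j := (c.prodMk (((Lam.z _).smooth (k := 0)).continuous.comp
      (continuous_snd.comp continuous_subtype_val))).subtype_mk _
    have h8 : ∀ b, (D.qb ε i s (j b).1.1.1.2.1 (j b).1.2).2 =
        (D.qb ε i s b.1.1.1.2.1 b.1.2).2 - ⌊a.1.2.2⌋ := fun b => by
      simp [j, Lam.z_smul, qb_shift, sub_eq_add_neg]
    have h9 := Int.fract_nonneg a.1.2.2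
    have h10 := Int.fract_lt_one a.1.2.2
    have h11 : 2 * X.η ≤ (j a).1.1.1.2.1 i ^ 2 ∧ ‖(j a).1.2‖ ≤ max M 1 := ⟨h5, by
      simp only [j, Lam.z_smul, norm_prod_le_iff, Int.cast_neg, ← sub_eq_add_neg,
        Int.self_sub_floor, Real.norm_of_nonneg h9]
      exact ⟨le_max_of_le_left h6, le_max_of_le_right h10.le⟩⟩
    constructor
    · refine ALipAt.mono ?_ (le_max_left _ _)
      filter_upwards [(h3 _ h11).pull h7.continuousAt] with z hz
      simpa only [h8, dist_sub_right] using hz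
    · have h12 := abs_le.1 (h4 _ h11)
      rw [h8, ← Int.self_sub_fract] at h12
      exact le_max_of_le_right (abs_le.2 ⟨by linarith, by linarith⟩)
  choose c hc using key
  obtain ⟨M, h1, h2⟩ := exists_bound ((finite_univ (α := Bool)).prod
    ((finite_univ (α := V)).prod hT)) c
  exact ⟨M, h1, fun ε i s hs a h3 h4 => have h := h2 (ε, i, s) ⟨trivial, trivial, hs⟩
    ⟨(hc (ε, i, s) a h3 h4).1.mono h, (hc (ε, i, s) a h3 h4).2.trans h⟩⟩

theorem jd_zero (G : XT X.κ × ℝ → E (X.n + 1)) {e : Ch D.Xb (E X.n)} (he : e ∈ X.lev.Good D.pr)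
    {y : D.Xb} (hy : y ∈ e.source) (h : X.ρ ^ 2 < DZ (D.pr y)) :
    Jd (fun y => G (D.Qf dep y)) e (e y) = 0 := by
  classical
  obtain ⟨k, a, rfl⟩ := ι_surj y
  let φ : ℝ → X.Lift k.1 → X.Lift k.1 := fun s b => if h : X.ρ ^ 2 < DZ b.1.1 then
    ⟨(rotR s b.1.1, b.1.2), by rw [rotR_val s h]; exact b.2⟩ else b
  have h1 : ∀ s b, X.ρ ^ 2 < DZ b.1.1 → (φ s b).1 = (rotR s b.1.1, b.1.2) := fun s b h => by
    simp only [φ, dif_pos h]
  have c := (Lift.loc (X := X) k.1).continuous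
  refine Lev.jd_zero (ι_emb k) (fun e he ha => (rot_R.ker_lift rot_R.op subset_rfl c (Pc.emb k)
    (φ := φ) (Topology.IsInducing.subtypeVal.continuousOn_iff.2 (ContinuousOn.congr
      (f := fun z : ℝ × X.Lift k.1 => (rotR z.1 z.2.1.1, z.2.1.2)) (ContinuousOn.prodMk
      (rot_R.cont.comp (continuous_fst.prodMk (c.comp continuous_snd)).continuousOn fun z hz => hz)
      (continuous_snd.comp (continuous_subtype_val.comp continuous_snd)).continuousOn)
      fun z hz => h1 _ _ hz.2)) (fun s b hb => by rw [h1 s b hb])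
    (fun b hb => Subtype.ext (by rw [h1 _ b hb, rot_R.zero _ hb])) h
    (fun h2 => Subtype.ext (by rw [h1 _ _ h, h2])) he ha).jd ?_) he hy
  rintro (b : D.Pc k) (b' : D.Pc k) ⟨h2, s, h3⟩
  have h4 := (congrArg Subtype.val h3).trans (h1 s _ h2)
  have h5 : b'.q = b.q := (congrArg Prod.snd h4 :)
  have h6 : b'.m.1.2.1 = b.m.1.2.1 := by
    rw [show b'.m = rotR s b.m from congrArg Prod.fst h4, rotR_val s (x := b.m) h2]; rfl
  change G (D.qb _ _ _ b.m.1.2.1 b.q, D.db _ (eps b.q) _ _ b.m.1.2.1) =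
    G (D.qb (eps b'.q) _ _ b'.m.1.2.1 b'.q, D.db _ (eps b'.q) _ _ b'.m.1.2.1)
  rw [h5, h6]

theorem hIE [Countable S] (D : X.IsoData S) (c : ℝ) (hc : 0 < c) :
    ∃ (Y : Type) (_ : TopologicalSpace Y) (_ : T2Space Y) (_ : SecondCountableTopology Y)
      (p : Y → X.lev.Z) (f : Y → Sph X.n), IsLocalHomeomorph p ∧
      (∀ y, ALipAt p c (fun y => (f y : E (X.n + 1))) y) ∧
      (∃ K, IsCompact K ∧ ∀ y ∉ K, f y = pt X.n) ∧
      IJ p (fun _ => 1) (fun y => (f y : E (X.n + 1))) ≠ 0 := by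
  classical
  obtain ⟨co, hco⟩ := X.exists_co
  let y₀ : XT X.κ →L[ℝ] ℝ := (ContinuousLinearMap.proj (φ := fun _ : Fin 3 => ℝ) 2).comp
    ((ContinuousLinearMap.proj (φ := fun _ : X.κ => Fin 3 → ℝ) X.b₀).comp
      (ContinuousLinearMap.fst ℝ _ _))
  let y : E X.n →L[ℝ] ℝ := y₀.comp (co.symm : E X.n →L[ℝ] XT X.κ)
  let e₀ : XT X.κ := (Pi.single X.b₀ (Pi.single 2 1), 0)
  have yco : ∀ q, y (co q) = yq q := fun q => by simp [y, y₀, yq]
  have he : y (co e₀) = 1 := by simp [yco, yq, e₀]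
  have hy : ∀ v, |y v| ≤ ‖v‖ := fun v => ((norm_le_pi_norm ((co.symm v).1 X.b₀) 2).trans
    ((norm_le_pi_norm (co.symm v).1 X.b₀).trans (norm_fst_le _))).trans (hco v)
  obtain ⟨B, c₀, hc₀, hF, hB⟩ := exists_fold_lip he hy
  obtain ⟨c₁, hc₁, hρ⟩ := X.exists_rho_lip
  set b := ‖(co : XT X.κ →L[ℝ] E X.n)‖ + 1
  have hb : 1 ≤ b := le_add_of_nonneg_left (norm_nonneg _)
  set δ := c / ((c₀ + 1) * b) with hδ
  have hδ0 : 0 < δ := by positivity
  obtain ⟨R, hR⟩ := exists_nat_ge (max 2 ((0 + Fintype.card V * 1 * c₁) / δ))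
  have hR2 : (2 : ℝ) ≤ R := (le_max_left _ _).trans hR
  obtain ⟨dep, d0, d1, d2, d3⟩ := D.exists_dep (3 * R + 2)
  obtain ⟨M₁, hM₁, hM⟩ := exists_bound ((finite_univ (α := Bool × V × V)).prod d3)
    fun z => ‖D.lm z.1.1 z.1.2.1 z.1.2.2 z.2‖
  set L := (1 + Fintype.card V * M₁ * c₁) / δ with hL
  have hL0 : 0 < L := by positivity
  obtain ⟨c₂, hc₂, hθ⟩ := D.theta_bound d3 (L * B + Fintype.card V * M₁)
  set K := (c₂ + 1) / δ with hK
  have hK0 : 0 < K := by positivity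
  let sc : XT X.κ →L[ℝ] XT X.κ :=
    (L⁻¹ • ContinuousLinearMap.id ℝ _).prodMap (K⁻¹ • ContinuousLinearMap.id ℝ ℝ)
  have ysc : ∀ q, y (co (sc q)) = L⁻¹ * yq q := fun q => by rw [yco]; rfl
  have nsc : ∀ q, ‖co (sc q)‖ ≤ B → ‖q.1‖ ≤ L * B ∧ |q.2| ≤ K * B := fun q h => by
    have h1 := (hco _).trans h
    rw [co.symm_apply_apply, norm_prod_le_iff] at h1
    simpa [sc, norm_smul, abs_of_pos, hL0, hK0, inv_mul_le_iff₀] using h1
  let Ψ : XT X.κ × ℝ → E X.n × ℝ := fun z => (co (sc z.1), (R : ℝ)⁻¹ * z.2)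
  let W : XT X.κ × ℝ → E X.n := fun z => fold y (co e₀) (y (Ψ z).1) (Ψ z).2 (Ψ z).1
  have Qal : ∀ x, AL D.pr (D.Qf dep) x := fun x => by
    obtain ⟨k, a, rfl⟩ := ι_surj x
    obtain ⟨c', -, h1⟩ := (qb_al (D := D) (eps a.q) k.2 a.1).prodMk ((db_lip d2 hρ a.m a.1.2.1
      a.2.ok).pull (j := fun a : X.Lift k.1 => a.1.1) (Lift.loc _).continuous.continuousAt).al
    exact (ALipAt.of_emb (P := D.pr) (ι_emb k) ((h1.pull continuous_subtype_val.continuousAt).congr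
      ((Qf_ev dep a).mono fun _ h => h.symm))).al
  have Qc : Continuous (D.Qf dep) := continuous_iff_continuousAt.2 fun x =>
    (Qal x).continuousAt pr_loc.continuous.continuousAt
  have Wc : Continuous fun x => W (D.Qf dep x) := by simp only [W, Ψ, fold]; fun_prop
  have Q0 : ∀ x, 0 ≤ (Ψ (D.Qf dep x)).2 := fun x => by
    obtain ⟨k, a, rfl⟩ := ι_surj x
    exact mul_nonneg (by positivity) (Finset.sum_nonneg fun j _ => mul_nonneg (rho_nonneg _ _) (d0 _))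
  let cc : XT X.κ → S → Prop := fun q s => yq q ≤ -(L / 2) ∨ (L / 2 ≤ yq q ∧ s ≠ D.s₀) ∨ s ∉ D.D1
  have cc1 : ∀ q s, cc q s → D.cond q s := fun q s h =>
    h.imp (fun h => by linarith) (Or.imp_left fun h => ⟨by linarith [h.1], h.2⟩)
  have rep : ∀ x, ‖W (D.Qf dep x)‖ ≤ 1 → ∀ i, X.η < (D.pr x).1.2.1 i ^ 2 → ∃ s, ∃ a : D.Pc (i, s),
      ι _ a = x ∧ dep s < (3 * R + 2 : ℕ) ∧ cc a.q s ∧ ‖a.q.1‖ ≤ L * B + Fintype.card V * M₁ := by
    intro x hx i hi
    obtain ⟨h1, h2, h3⟩ := hB _ _ _ (Q0 x) le_rfl hx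
    obtain ⟨k, a, rfl⟩ := ι_surj x
    have ok : eps a.q = false → k.2 ≠ D.s₀ := a.2.ok
    have h4 := qb_inv (inZ a.m) a.1.2.1 hi ok a.q dep
    have h5 := abs_le.1 (db_close d2 a.m hi (ok_tr ok k.1 i))
    have h6 := (nsc _ h3).1
    change ‖(D.qb (eps a.q) k.1 k.2 a.m.1.2.1 a.q).1‖ ≤ _ at h6
    change _ ≤ y (co (sc (D.qb _ _ _ a.m.1.2.1 a.q))) ^ 2 +
      _ * D.db _ (eps a.q) k.1 k.2 a.m.1.2.1 at h1
    change y (co (sc (D.qb _ _ _ a.m.1.2.1 a.q))) ^ 2 + _ * D.db _ _ _ _ a.m.1.2.1 ≤ _ at h2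
    rw [ysc, yq_qb] at h1 h2
    rw [h4.2] at h5
    have h7 : D.db dep (eps a.q) k.1 k.2 a.m.1.2.1 ≤ 3 * R := by
      rw [mul_comm, ← inv_mul_le_iff₀ (by linarith)]
      exact le_trans (le_add_of_nonneg_left (sq_nonneg _)) h2
    have h8 : dep (D.tr (eps a.q) k.1 i k.2) < (3 * R + 2 : ℕ) := by push_cast; linarith
    have h9 : cc (D.Tq (eps a.q) k.1 i k.2 a.m.1.2.1 a.q) (D.tr (eps a.q) k.1 i k.2) := by
      simp only [cc, yq_Tq]
      by_contra hh
      push Not at hh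
      have h10 : yq a.q < L / 2 := lt_of_not_ge fun h => ok_tr ok k.1 i
        (by simp only [eps, decide_eq_false_iff_not, not_le]; linarith) (hh.2.1 h)
      have h11 : |L⁻¹ * yq a.q| ≤ 1 / 2 := by
        rw [abs_mul, abs_of_pos (inv_pos.2 hL0), inv_mul_le_iff₀ hL0, abs_le]
        constructor <;> linarith [hh.1]
      have h12 : (R : ℝ)⁻¹ * D.db dep (eps a.q) k.1 k.2 a.m.1.2.1 ≤ 1 / 2 := by
        rw [inv_mul_le_iff₀ (by linarith)]; linarith [d1 _ hh.2.2]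
      nlinarith [abs_le.1 h11]
    refine ⟨_, ⟨mv (eps a.q) k.2 a.1 hi, cc1 _ _ h9⟩, Eq.symm (ι_eq.2 ⟨rfl, rfl, rfl⟩), h8, h9, ?_⟩
    rw [← h4.1, qb_fst] at h6
    refine (norm_le_add_norm_add _ _).trans (add_le_add h6 ((norm_sum_le _ _).trans ?_))
    rw [← nsmul_eq_mul]
    refine Finset.sum_le_card_nsmul _ _ _ fun j _ => ?_
    rw [norm_smul, Real.norm_of_nonneg (rho_nonneg _ _), ← one_mul M₁]
    exact mul_le_mul (rho_sum a.m ▸ Finset.single_le_sum (fun j _ => rho_nonneg _ j)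
      (Finset.mem_univ j)) (hM ((_, i, j), _) ⟨trivial, h8⟩) (norm_nonneg _) zero_le_one
  have out : ∀ x, ¬ ‖W (D.Qf dep x)‖ ≤ 1 → (fun x => col (W (D.Qf dep x))) =ᶠ[𝓝 x]
      fun _ => (pt X.n : E (X.n + 1)) := fun x hx =>
    ((Wc.norm.tendsto x).eventually_const_le (not_le.1 hx)).mono fun _ => col_out
  have lip : ∀ x, ALipAt D.pr c (fun x => col (W (D.Qf dep x))) x := fun x => by
    by_cases hx : ‖W (D.Qf dep x)‖ ≤ 1
    swap
    · exact ((aLipAt_const _ _ _).congr (out x hx).symm).mono hc.le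
    obtain ⟨i, hi⟩ := exists_big (X := X) (inZ (D.pr x)).B.sw
    obtain ⟨s, a, rfl, h1, -, h2⟩ := rep x hx i (by linarith [X.η_pos])
    have c1 := (Lift.loc (X := X) i).continuous.continuousAt (x := a.1)
    have l1 := ((Lift.x_lip a.1).add (((hρ a.m).pull (j := fun a : X.Lift i => a.1.1) c1).lin hM₁
      fun j => hM ((eps a.q, i, j), s) ⟨trivial, h1⟩)).clm (L⁻¹ • ContinuousLinearMap.id ℝ _)
      (b := L⁻¹) (by simp [norm_smul, abs_of_pos hL0])
    have l2 := ((hθ (eps a.q) i s h1 a.1 hi.le h2).1.mono (le_add_of_nonneg_right zero_le_one)).clm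
      (K⁻¹ • ContinuousLinearMap.id ℝ ℝ) (b := K⁻¹) (by simp [norm_smul, abs_of_pos hK0])
    have l3 := ((db_lip d2 hρ a.m a.1.2.1 a.2.ok).pull (j := fun a : X.Lift i => a.1.1) c1).clm
      ((R : ℝ)⁻¹ • ContinuousLinearMap.id ℝ ℝ) (b := (R : ℝ)⁻¹) (by simp [norm_smul])
    rw [show L⁻¹ * (1 + Fintype.card V * M₁ * c₁) = δ by rw [hL]; field_simp] at l1
    rw [show K⁻¹ * (c₂ + 1) = δ by rw [hK]; field_simp] at l2
    have l4 := ((l1.prodMk l2).clm (co : XT X.κ →L[ℝ] E X.n) (b := b) (by simp [b])).prodMk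
      (l3.mono (by
        have := (div_le_iff₀ hδ0).1 ((le_max_right _ _).trans hR)
        rw [inv_mul_le_iff₀ (by linarith)]
        nlinarith [mul_pos (show (0 : ℝ) < R by linarith) hδ0]))
    have l5 : ALipAt D.pr (b * δ) (fun x => Ψ (D.Qf dep x)) (ι _ a) :=
      ALipAt.of_emb (ι_emb _) ((l4.pull continuous_subtype_val.continuousAt).congr
        ((Qf_ev dep a).mono fun z h => by
          simp only [h, Ψ]
          exact Prod.ext (congrArg co (Prod.ext (congrArg (L⁻¹ • ·) (qb_fst _ _ _ _ _).symm) rfl))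
            rfl))
    refine ((hF _ (Q0 _)).trans hc₀ (j := fun x => Ψ (D.Qf dep x))
      (l5.continuousAt pr_loc.continuous.continuousAt) l5).mono ?_
    rw [hδ, mul_div_assoc', mul_div_assoc', div_le_iff₀ (by positivity)]
    nlinarith [mul_pos hc (show 0 < b by linarith)]
  have cpt : IsCompact {x | ‖W (D.Qf dep x)‖ ≤ 1} := by
    set M := max (L * B + Fintype.card V * M₁) (K * B + c₂)
    refine (((finite_univ (α := V)).prod d3).isCompact_biUnion (f := fun k => ι k ''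
      {a | 2 * X.η ≤ a.m.1.2.1 k.1 ^ 2 ∧ ‖a.q‖ ≤ M ∧ cc a.q k.2}) fun k _ =>
      IsCompact.image ?_ (ι_emb k).continuous).of_isClosed_subset
      (isClosed_le Wc.norm continuous_const) fun x hx => ?_
    · refine (Pc.emb k).isInducing.isCompact_iff.2 ?_
      have cy : Continuous (yq : XT X.κ → ℝ) := by unfold yq; fun_prop
      have cc2 : IsClosed {q | cc q k.2} := (isClosed_le cy continuous_const).union
        (((isClosed_le continuous_const cy).and isClosed_const).union isClosed_const)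
      convert Lift.cpt (X := X) (i := k.1) (M := M)
        (C := {z | 2 * X.η ≤ z.1.1.2.1 k.1 ^ 2 ∧ ‖z.2‖ ≤ M ∧ cc z.2 k.2})
        ((isClosed_le continuous_const (by fun_prop)).and ((isClosed_le (by fun_prop)
          continuous_const).and (cc2.preimage continuous_snd)))
        fun z hz => ⟨by linarith [hz.1, X.η_pos], hz.2.1⟩ using 1
      ext a
      exact ⟨fun ⟨b, hb, e⟩ => e ▸ hb, fun ha => ⟨⟨a, cc1 _ _ ha.2.2⟩, ha, rfl⟩⟩
    · obtain ⟨i, hi⟩ := exists_big (X := X) (inZ (D.pr x)).B.sw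
      obtain ⟨s, a, rfl, h1, h3, h2⟩ := rep x hx i (by linarith [X.η_pos])
      refine mem_biUnion (x := (i, s)) ⟨trivial, h1⟩ ⟨a, ⟨hi.le, norm_prod_le_iff.2
        ⟨le_max_of_le_left h2, le_max_of_le_right ?_⟩, h3⟩, rfl⟩
      have h4 := abs_le.1 (hθ (eps a.q) i s h1 a.1 hi.le h2).2
      have h5 := abs_le.1 (nsc _ (hB _ _ _ (Q0 _) le_rfl hx).2.2).2
      change _ ≤ (D.qb (eps a.q) i s a.1.1.1.1.2.1 a.1.1.2).2 ∧
        (D.qb (eps a.q) i s a.1.1.1.1.2.1 a.1.1.2).2 ≤ _ at h5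
      exact abs_le.2 ⟨by unfold Pc.q; linarith, by unfold Pc.q; linarith⟩
  refine ⟨D.Xb, inferInstance, inferInstance, inferInstance, D.pr,
    fun x => ⟨col (W (D.Qf dep x)), by simp [norm_col]⟩, pr_loc, lip,
    ⟨_, cpt, fun x hx => Subtype.ext (out x hx).self_of_nhds⟩, ?_⟩
  have χc : Continuous (chi : X.lev.Z → ℝ) :=
    continuous_iff_continuousAt.2 fun x => (chi_lip x).continuousAt
  have O1 : Ok D.pr (fun _ => 1) (fun x => col (W (D.Qf dep x))) _ :=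
    ⟨pr_loc, fun x => (lip x).al, continuous_const, cpt, fun x hx => Or.inr ⟨_, out x hx⟩⟩
  have O2 : Ok D.pr (chi ∘ D.pr) (fun x => col (W (D.Qf dep x)))
      ({x | ‖W (D.Qf dep x)‖ ≤ 1} ∩ {x | DZ (D.pr x) ≤ 3 * X.ρ ^ 2}) :=
    ⟨pr_loc, O1.al, χc.comp pr_loc.continuous, cpt.inter_right (isClosed_le
      (DZ_cont.comp pr_loc.continuous) continuous_const), fun x hx => (not_and_or.1 hx).elim
      (fun h => Or.inr ⟨_, out x h⟩) fun h => Or.inl (chi_zero (not_le.1 h).le)⟩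
  rw [show IJ D.pr (fun _ => 1) _ = IJ D.pr (chi ∘ D.pr) _ from int_congr (Lev.sys pr_loc) O1.dens
    O2.dens fun e he x hx => by
      rcases le_or_gt (DZ (D.pr x)) (X.ρ ^ 2) with h | h
      · simp only [mulD, e.left_inv hx, Function.comp,
          chi_one (h.trans (by linarith [pow_pos X.ρ_pos 2]))]
      · simp only [mulD, jd_zero (fun z => col (W z)) he hx h, mul_zero]]
  let j : ∀ s, {a : X.N // D.cond a.q s} → D.Xb := fun s a => ι (X.o, s) ⟨a.1.1, a.2⟩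
  have j1 : ∀ s, IsOpenEmbedding (Subtype.val : {a : X.N // D.cond a.q s} → _) := fun s =>
    ((cond_open s).preimage N.q_cont).isOpenEmbedding_subtypeVal
  obtain ⟨σ, hσ, hI⟩ := chart_int co
  refine O2.split' (j := j) (fun s => (ι_emb _).comp (.of_comp _ (Pc.emb _) (N.emb.comp (j1 s))))
    (fun s s' h => Set.disjoint_left.2 ?_) (fun x hx => ?_) D.s₀ fun s hs => ?_
  · rintro _ ⟨a, rfl⟩ ⟨a', e⟩
    exact h ((ι_eq.1 e).s.trans (D.refl _ _ _ X.face_single a'.2.ok).1)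
  · have h1 : DZ (D.pr x) < 4 * X.ρ ^ 2 := lt_of_le_of_lt hx.2 (by linarith [pow_pos X.ρ_pos 2])
    obtain ⟨s, a, rfl, -⟩ := rep x hx.1 X.o ((inZ _).B.o_big h1.le)
    exact mem_iUnion.2 ⟨s, ⟨⟨a.1, h1⟩, a.2⟩, rfl⟩
  let T : E X.n →L[ℝ] E X.n := (co : XT X.κ →L[ℝ] E X.n).comp (sc.comp (co.symm : E X.n →L[ℝ] XT X.κ))
  let φ : ℝ → ℝ := fun t => if s = D.s₀ then min t 0 else t
  let U : E X.n → E X.n := fun v => fold y (co e₀) (φ (y (T v))) ((R : ℝ)⁻¹ * dep s) (T v)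
  have φ1 : ∀ t, LipAt φ t := fun t => by
    simp only [φ]; split_ifs
    exacts [LipschitzWith.lipAt (LipschitzWith.id.min_const 0) _,
      LipschitzWith.lipAt LipschitzWith.id _]
  have U1 : ∀ v, LipAt U v := fun v => by
    have h1 := LipschitzWith.lipAt T.lipschitz v
    have h2 := (φ1 _).comp' (h1.clm y)
    simp only [U, fold, sq]
    exact h1.add (((((lipAt_const _ _).sub (h2.mul h2)).sub (lipAt_const _ _)).sub (h1.clm y)).smul
      (lipAt_const _ _))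
  have Tco : ∀ q, T (co q) = co (sc q) := fun q => by simp [T]
  have U2 : ∀ q, ‖U (co q)‖ ≤ 1 → D.cond q s ∧ ‖q‖ ≤ max (L * B) (K * B) := fun q h => by
    have h1 := (hy _).trans h
    have h0 : 0 ≤ (R : ℝ)⁻¹ * dep s := mul_nonneg (by positivity) (d0 s)
    simp only [U, y_fold he, Tco, ysc] at h1
    have h2 : s = D.s₀ → yq q < 0 := fun e => lt_of_not_ge fun h3 => by
      simp only [φ, e, if_true, d1 _ (Or.inl rfl), min_eq_right (mul_nonneg (inv_pos.2 hL0).le h3)]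
        at h1
      norm_num at h1
    have h3 := nsc q (Tco q ▸ (hB _ _ _ h0 (le_of_eq ?_) h).2.2)
    · refine ⟨?_, norm_prod_le_iff.2 ⟨le_max_of_le_left h3.1, le_max_of_le_right h3.2⟩⟩
      by_contra h4
      simp only [cond, not_or, not_and, not_not, not_lt] at h4
      have h5 : s ≠ D.s₀ := fun e => absurd (h2 e) (not_lt.2 h4.1)
      have h6 : yq q = 0 := le_antisymm (not_lt.1 fun h => h5 (h4.2.1 h)) h4.1
      simp only [φ, h5, if_false, h6, d1 _ h4.2.2] at h1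
      norm_num at h1
    · simp only [φ, Tco, ysc]
      split_ifs with e
      exacts [by rw [min_eq_left (mul_neg_of_pos_of_neg (inv_pos.2 hL0) (h2 e)).le], rfl]
  obtain ⟨O3, h1, h2⟩ := hI (fun v => col (U v)) (max (L * B) (K * B) + 1)
    (fun v => (ContDiffAt.lipAt col_smooth.contDiffAt).comp' (U1 v)) fun v hv => col_out
      (le_of_not_ge fun h => by linarith [(U2 (co.symm v) (by simpa using h)).2])
  have Uc : Continuous fun a : X.N => ‖U (co a.q)‖ := ((continuous_iff_continuousAt.2 fun v =>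
    (U1 v).continuousAt).comp (co.continuous.comp N.q_cont)).norm
  have O4 : Ok N.J (chi ∘ N.J) (fun a => col (U (co a.q))) (_ ∩ {a | ‖U (co a.q)‖ ≤ 1}) :=
    ⟨O3.loc, O3.al, O3.cont, O3.cpt.inter_right (isClosed_le Uc continuous_const), fun a ha =>
      (not_and_or.1 ha).elim (O3.out a) fun h => Or.inr ⟨_,
        ((Uc.tendsto a).eventually_const_le (not_le.1 h)).mono fun _ => col_out⟩⟩
  have h3 : (fun x => col (W (D.Qf dep x))) ∘ j s = (fun a => col (U (co a.q))) ∘ Subtype.val := by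
    ext1 a
    have h3 := qb_neck a.1 a.2.ok dep
    change col (W (D.qb (eps a.1.q) X.o s a.1.J.1.2.1 a.1.q, D.db dep (eps a.1.q) X.o s
      a.1.J.1.2.1)) = col (U (co a.1.q))
    simp only [h3.1, h3.2, W, Ψ, U, Tco, ysc, φ]
    split_ifs with e
    · rw [min_eq_left (mul_neg_of_pos_of_neg (inv_pos.2 hL0) (a.2.resolve_right fun h =>
        h.elim (fun h => h.2 e) fun h => h (Or.inl e))).le]
    · rfl
  have h4 : IJ (D.pr ∘ j s) ((chi ∘ D.pr) ∘ j s) ((fun x => col (W (D.Qf dep x))) ∘ j s) =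
      IJ N.J (chi ∘ N.J) fun a => col (U (co a.q)) := by
    rw [h3]
    refine (O4.restrict (j1 s) ((j1 s).isInducing.isCompact_preimage' O4.cpt fun a ha =>
      ⟨⟨a, (U2 _ ha.2).1⟩, rfl⟩)).trans (int_congr (Lev.sys N.loc)
      (O4.dens.indicator (j1 s).isOpen_range) O4.dens fun e he a ha => ?_)
    by_cases h : a ∈ range (Subtype.val : {a : X.N // D.cond a.q s} → _)
    · rw [mulD, e.left_inv ha, indicator_of_mem h, Pi.one_apply, one_mul]
    · rw [mulD, O4.dens.van e he a ha fun h' => h ⟨⟨a, (U2 _ h'.2).1⟩, rfl⟩, mul_zero]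
  rw [h4, h2, mul_eq_zero, or_iff_right hσ]
  have oT : IsOpen (co.symm ⁻¹' X.P0) := P0_open.preimage co.symm.continuous
  by_cases e : s = D.s₀
  · simp only [U, φ, e, if_true, d1 _ (Or.inl rfl), mul_zero] at h1 ⊢
    refine iff_of_false (pos_int X.lev.hn he hy T (fun h => ?_) oT (v₀ := co (-(L * √2) • e₀))
      ⟨Sum.inr 1, by simp [e₀]⟩ ?_ ?_ h1) (by simp)
    · refine LinearMap.det_eq_zero_iff_ker_ne_bot.1 h (LinearMap.ker_eq_bot'.2 fun v hv => ?_)
      have : sc (co.symm v) = 0 := by simpa [T] using hv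
      have h1 : (co.symm v).1 = 0 ∧ (co.symm v).2 = 0 := by
        simpa [sc, Prod.ext_iff, hL0.ne', hK0.ne'] using this
      simpa using (Prod.ext h1.1 h1.2 : co.symm v = 0)
    · simp [Tco, ysc, yq, e₀, hL0, hL0.ne']
    · have : sc e₀ = L⁻¹ • e₀ := by simp [sc, e₀]
      simp only [fold, Tco, map_smul, this, he, smul_smul, ← add_smul, smul_eq_mul]
      rw [show -(L * √2) * L⁻¹ = -√2 by field_simp]
      simp
  · refine iff_of_true (sym_int he oT.measurableSet (fun v hv => ?_) fun v => ?_) e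
    · obtain ⟨q, rfl⟩ := co.surjective v
      simp only [mem_preimage, map_add, map_smul, co.symm_apply_apply, yco, mem_P0] at hv ⊢
      convert hv using 1
      ext a
      refine Finset.sum_congr rfl fun c _ => ?_
      by_cases h : a = X.b₀ ∧ c = 2
      · obtain ⟨rfl, rfl⟩ := h
        simp only [Ex, e₀, yq, Prod.fst_add, Prod.smul_fst, Pi.add_apply, Pi.smul_apply,
          Pi.single_eq_same, smul_eq_mul]
        rw [show q.1 X.b₀ 2 + -2 * q.1 X.b₀ 2 * 1 = -q.1 X.b₀ 2 by ring, ex_neg, Complex.conj_re]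
      · rcases not_and_or.1 h with h | h
        · simp [Ex, e₀, h]
        · by_cases h' : a = X.b₀ <;> simp [Ex, e₀, h, h']
    · have h5 : T (co e₀) = L⁻¹ • co e₀ := by
        rw [Tco, ← map_smul]; simp [sc, e₀]
      have h6 : y (T v) = L⁻¹ * y v := by
        obtain ⟨q, rfl⟩ := co.surjective v
        rw [Tco, ysc, yco]
      simp only [U, φ, e, if_false, fold, map_add, map_smul, h5, he, h6, smul_eq_mul]
      congr 1
      module

end IsoData

end Cx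

end Pool.Agent.Lib.MP_4b70aa_gt
end
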