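import Pool.Agent.Lib.MP_4b70aa_gt.Sys
import Pool.Agent.Lib.MP_4b70aa_gt.Defs

-- part Pool.Agent.Lib.MP_4b70aa_gt.Deg
section

set_option autoImplicit false
set_option linter.unusedSectionVars false

open MeasureTheory Filter Set Topology
open scoped Matrix

namespace Pool.Agent.Lib.MP_4b70aa_gt

section jacL

variable {n : ℕ}

theorem apply_eq_sum {F : Type} [NormedAddCommGroup F] [NormedSpace ℝ F] (L : E n →L[ℝ] F)
    (x : E n) : L x = ∑ l, x l • L (EuclideanSpace.single l 1) := by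
  conv_lhs => rw [← (EuclideanSpace.basisFun (Fin n) ℝ).sum_repr x]
  simp [map_sum]

theorem jacL_comp (v : E (n + 1)) (L : E n →L[ℝ] E (n + 1)) (T : E n →L[ℝ] E n) :
    jacL v (L.comp T) = jacL v L * T.det := by
  set P : Matrix (Fin n) (Fin n) ℝ := Matrix.of fun k l => T (EuclideanSpace.single k 1) l with hP
  set P' : Matrix (Fin (n + 1)) (Fin (n + 1)) ℝ := Matrix.of fun i j =>
    (Fin.cons (Fin.cons 1 fun _ => 0) (fun k => Fin.cons 0 (P k)) :
      Fin (n + 1) → Fin (n + 1) → ℝ) i j with hP'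
  have h1 : P'.det = T.det := by
    rw [Matrix.det_succ_row_zero, Fin.sum_univ_succ]
    have : P'.submatrix Fin.succ (Fin.succAbove 0) = P := by
      ext k l; simp [hP']
    have h2 : P = (LinearMap.toMatrix (EuclideanSpace.basisFun (Fin n) ℝ).toBasis
        (EuclideanSpace.basisFun (Fin n) ℝ).toBasis (T : E n →ₗ[ℝ] E n))ᵀ := by
      ext k l; simp [hP, LinearMap.toMatrix_apply]
    rw [this, h2, Matrix.det_transpose, LinearMap.det_toMatrix]
    simp [hP']
  rw [← h1, mul_comm, jacL, jacL, ← Matrix.det_mul]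
  congr 1
  ext i j
  refine Fin.cases ?_ (fun k => ?_) i
  · simp [hP', Matrix.mul_apply, Fin.sum_univ_succ]
  · simp [hP', hP, Matrix.mul_apply, Fin.sum_univ_succ,
      apply_eq_sum L (T (EuclideanSpace.single k 1))]

theorem jacL_eq_zero (v : E (n + 1)) (L : E n →L[ℝ] E (n + 1)) {w : E n} (hw : w ≠ 0)
    (h : L w = 0) : jacL v L = 0 := by
  refine Matrix.exists_vecMul_eq_zero_iff.1 ⟨Fin.cons 0 (fun k => w k), fun h0 => hw ?_, ?_⟩
  · ext k; simpa using congrFun h0 k.succ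
  · ext j
    have := congrArg (fun x : E (n + 1) => x j) ((apply_eq_sum L w).symm.trans h)
    simpa [Matrix.vecMul, dotProduct, Fin.sum_univ_succ] using this

theorem continuous_jacL :
    Continuous fun p : E (n + 1) × (E n →L[ℝ] E (n + 1)) => jacL p.1 p.2 := by
  refine Continuous.matrix_det (continuous_matrix fun i j => ?_)
  refine Fin.cases ?_ (fun k => ?_) i
  · simp only [Matrix.of_apply, Fin.cons_zero]; fun_prop
  · simp only [Matrix.of_apply, Fin.cons_succ]; fun_prop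

end jacL

variable {Y : Type} [TopologicalSpace Y] {n : ℕ}

/-- The pull back of the volume form of the sphere. -/
noncomputable def Jd (g : Y → E (n + 1)) : Ch Y (E n) → E n → ℝ :=
  fun e x => jac (g ∘ e.symm) x

theorem law_Jd (g : Y → E (n + 1)) : Law (Jd g) := by
  intro e e' y hy hy' hd
  simp only [Jd, jac, Function.comp, e.left_inv hy, e'.left_inv hy']
  rw [fderiv_chart g hy hy' hd, jacL_comp]
  rfl

section data

variable {V : Type} [NormedAddCommGroup V] [NormedSpace ℝ V]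
  [FiniteDimensional ℝ V] [MeasurableSpace V] [BorelSpace V] (μ : Measure V) [μ.IsAddHaarMeasure]
  {F : Type} [NormedAddCommGroup F] [NormedSpace ℝ F] [FiniteDimensional ℝ F]

theorem LocLip.at_target {𝒜 : Set (Ch Y V)} {Z : Type} [PseudoMetricSpace Z] {g : Y → Z}
    (hg : LocLip 𝒜 g) {e : Ch Y V} (he : e ∈ 𝒜) {x : V} (hx : x ∈ e.target) :
    LipAt (g ∘ e.symm) x := by
  have := hg e he _ (e.map_target hx)
  rwa [e.right_inv hx] at this

theorem data_meas {f : V → F} {U : Set V} (hU : IsOpen U) (h : ∀ x ∈ U, LipAt f x) :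
    AEStronglyMeasurable (fun x => (f x, fderiv ℝ f x)) (μ.restrict U) := by
  borelize F
  exact (ContinuousOn.aestronglyMeasurable (fun x hx => (h x hx).continuousAt.continuousWithinAt)
    hU.measurableSet).prodMk (measurable_fderiv ℝ f).aestronglyMeasurable

theorem data_bound {f : V → F} {x : V} (h : LipAt f x) :
    ∃ C, ∀ᶠ y in 𝓝 x, ‖(f y, fderiv ℝ f y)‖ ≤ C := by
  obtain ⟨C, hC⟩ := h.fderiv_bound
  refine ⟨max (‖f x‖ + 1) C, ?_⟩
  filter_upwards [hC, h.continuousAt.norm.eventually_lt continuousAt_const (lt_add_one ‖f x‖)]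
    with y hy hy'
  exact max_le_max hy'.le hy

end data

theorem tame_Jd {𝒜 : Set (Ch Y (E n))} {g : Y → E (n + 1)} (hg : LocLip 𝒜 g) {e : Ch Y (E n)}
    (he : e ∈ 𝒜) : LocallyIntegrableOn (Jd g e) e.target volume :=
  tame_of_data volume continuous_jacL e.open_target
    (data_meas volume e.open_target fun _ hx => hg.at_target he hx)
    fun _ hx => data_bound (hg.at_target he hx)

theorem fderiv_chart_const {V F : Type} [NormedAddCommGroup V] [NormedSpace ℝ V]
    [FiniteDimensional ℝ V] [MeasurableSpace V] [BorelSpace V]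
    [NormedAddCommGroup F] [NormedSpace ℝ F] {g : Y → F} {e : Ch Y V} {y : Y} (hy : y ∈ e.source)
    {c : F} (h : g =ᶠ[𝓝 y] fun _ => c) : fderiv ℝ (g ∘ e.symm) (e y) = 0 := by
  have : (g ∘ e.symm) =ᶠ[𝓝 (e y)] fun _ => c := eventually_chart hy h
  rw [this.fderiv_eq]; simp

theorem Jd_const (hn : 0 < n) {g : Y → E (n + 1)} {e : Ch Y (E n)} {y : Y} (hy : y ∈ e.source)
    {c : E (n + 1)} (h : g =ᶠ[𝓝 y] fun _ => c) : Jd g e (e y) = 0 := by
  refine jacL_eq_zero _ _ (w := EuclideanSpace.single ⟨0, hn⟩ 1) (by simp) ?_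
  rw [fderiv_chart_const hy h]; rfl

theorem dens_Jd (hn : 0 < n) {𝒜 : Set (Ch Y (E n))} {g : Y → E (n + 1)} (hg : LocLip 𝒜 g)
    {χ : Y → ℝ} (hχ : Continuous χ) {K : Set Y} (hK : IsCompact K)
    (h : ∀ y ∉ K, χ y = 0 ∨ ∃ c, g =ᶠ[𝓝 y] fun _ => c) : Dens volume 𝒜 (mulD χ (Jd g)) K := by
  refine ⟨(law_Jd g).mulD χ, fun e he => tame_mulD _ (tame_Jd hg he) hχ.continuousOn,
    fun e _ y hy hy' => ?_, hK⟩
  rcases h y hy' with h | ⟨c, h⟩
  · simp [mulD, e.left_inv hy, h]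
  · simp [mulD, Jd_const hn hy h]

/-- A direction killed by the derivative of every function that respects `r`. -/
def Ker {V : Type} [NormedAddCommGroup V] [NormedSpace ℝ V] (e : Ch Y V) (y : Y)
    (r : Y → Y → Prop) : Prop :=
  ∃ v : V, v ≠ 0 ∧ ∀ (F : Type) [NormedAddCommGroup F] [NormedSpace ℝ F] (h : Y → F),
    (∀ a b, r a b → h a = h b) → fderiv ℝ (h ∘ e.symm) (e y) v = 0

theorem Ker.jd {e : Ch Y (E n)} {y : Y} {r : Y → Y → Prop} (h : Ker e y r) {g : Y → E (n + 1)}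
    (hg : ∀ a b, r a b → g a = g b) : Jd g e (e y) = 0 := by
  obtain ⟨v, hv, h⟩ := h
  exact jacL_eq_zero _ _ hv (h _ g hg)

section Bd

variable {W : Type} [NormedAddCommGroup W] [NormedSpace ℝ W] [FiniteDimensional ℝ W]
  [MeasurableSpace W] [BorelSpace W] (μ : Measure W) [μ.IsAddHaarMeasure]
  {ι : Type} [Fintype ι] [DecidableEq ι] (b : Module.Basis ι ℝ W)

/-- The form `bform` written with linear maps. -/
noncomputable def bL (v : EuclideanSpace ℝ ι) (A : W →L[ℝ] EuclideanSpace ℝ ι) (d : W →L[ℝ] ℝ) :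
    ℝ := bform (fun i => v i) (Matrix.of fun j i => A (b j) i) fun j => d (b j)

theorem bL_comp (v : EuclideanSpace ℝ ι) (A : W →L[ℝ] EuclideanSpace ℝ ι) (d : W →L[ℝ] ℝ)
    (T : W →L[ℝ] W) : bL b v (A.comp T) (d.comp T) = bL b v A d * T.det := by
  set P : Matrix ι ι ℝ := (LinearMap.toMatrix b b (T : W →ₗ[ℝ] W))ᵀ with hP
  have h1 : P.det = T.det := by rw [hP, Matrix.det_transpose, LinearMap.det_toMatrix]
  have h2 : ∀ j, T (b j) = ∑ k, P j k • b k := by
    intro j
    conv_lhs => rw [← b.sum_repr (T (b j))]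
    simp [hP, LinearMap.toMatrix_apply]
  rw [← h1, mul_comm, bL, bL, ← bform_mul]
  congr 1
  · ext j i
    simp [Matrix.mul_apply, h2, map_sum]
  · ext j
    simp [Matrix.mulVec, dotProduct, h2, map_sum]

theorem bL_eq_zero (v : EuclideanSpace ℝ ι) (A : W →L[ℝ] EuclideanSpace ℝ ι) (d : W →L[ℝ] ℝ)
    {w : W} (hw : w ≠ 0) (hA : A w = 0) (hd : d w = 0) : bL b v A d = 0 := by
  refine bform_eq_zero _ _ _ (b.repr w) (fun h => hw ?_) ?_ ?_
  · exact b.repr.map_eq_zero_iff.1 (Finsupp.ext fun i => congrFun h i)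
  · ext i
    rw [← b.sum_repr w, map_sum] at hA
    have := congrArg (fun x : EuclideanSpace ℝ ι => x i) hA
    simpa [Matrix.vecMul, dotProduct] using this
  · rw [← b.sum_repr w, map_sum] at hd
    simpa [dotProduct] using hd

theorem bL_zero (v : EuclideanSpace ℝ ι) (A : W →L[ℝ] EuclideanSpace ℝ ι) : bL b v A 0 = 0 :=
  bform_zero _ _

theorem bL_add (v : EuclideanSpace ℝ ι) (A : W →L[ℝ] EuclideanSpace ℝ ι) (d d' : W →L[ℝ] ℝ) :
    bL b v A (d + d') = bL b v A d + bL b v A d' := bform_add _ _ _ _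

theorem bL_smul (v : EuclideanSpace ℝ ι) (A : W →L[ℝ] EuclideanSpace ℝ ι) (c : ℝ)
    (d : W →L[ℝ] ℝ) : bL b v A (c • d) = c * bL b v A d := bform_smul _ _ _ _

theorem bL_sum (v : EuclideanSpace ℝ ι) (A : W →L[ℝ] EuclideanSpace ℝ ι) {κ : Type}
    (s : Finset κ) (d : κ → W →L[ℝ] ℝ) : bL b v A (∑ k ∈ s, d k) = ∑ k ∈ s, bL b v A (d k) := by
  classical
  induction s using Finset.induction_on with
  | empty => simp [bL_zero]
  | insert a s ha ih => rw [Finset.sum_insert ha, Finset.sum_insert ha, bL_add, ih]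

theorem continuous_bL : Continuous fun p : (EuclideanSpace ℝ ι × (W →L[ℝ] EuclideanSpace ℝ ι)) ×
    (ℝ × (W →L[ℝ] ℝ)) => bL b p.1.1 p.1.2 p.2.2 := by
  unfold bL bform
  refine Continuous.dotProduct (by fun_prop) (Continuous.matrix_mulVec
    (Continuous.matrix_adjugate (continuous_matrix fun j i => ?_)) (by fun_prop))
  simp only [Matrix.of_apply]; fun_prop

/-- The density `d psi` wedge the pull back of the volume form of the sphere. -/
noncomputable def Bd (G : Y → EuclideanSpace ℝ ι) (ψ : Y → ℝ) : Ch Y W → W → ℝ := fun e x =>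
  bL b (G (e.symm x)) (fderiv ℝ (G ∘ e.symm) x) (fderiv ℝ (ψ ∘ e.symm) x)

theorem law_Bd (G : Y → EuclideanSpace ℝ ι) (ψ : Y → ℝ) : Law (Bd b G ψ) := by
  intro e e' y hy hy' hd
  simp only [Bd, e.left_inv hy, e'.left_inv hy']
  rw [fderiv_chart G hy hy' hd, fderiv_chart ψ hy hy' hd, bL_comp]
  rfl

theorem tame_Bd {𝒜 : Set (Ch Y W)} {G : Y → EuclideanSpace ℝ ι} {ψ : Y → ℝ} (hG : LocLip 𝒜 G)
    (hψ : LocLip 𝒜 ψ) {e : Ch Y W} (he : e ∈ 𝒜) : LocallyIntegrableOn (Bd b G ψ e) e.target μ := by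
  refine tame_of_data μ (continuous_bL b) e.open_target
    ((data_meas μ e.open_target fun _ hx => hG.at_target he hx).prodMk
      (data_meas μ e.open_target fun _ hx => hψ.at_target he hx)) fun x hx => ?_
  obtain ⟨C, hC⟩ := data_bound (hG.at_target he hx)
  obtain ⟨C', hC'⟩ := data_bound (hψ.at_target he hx)
  refine ⟨max C C', ?_⟩
  filter_upwards [hC, hC'] with y hy hy' using max_le_max hy hy'

theorem int_Bd_chart [T2Space Y] {𝒜 : Set (Ch Y W)} (h𝒜 : Sys 𝒜) {G : Y → EuclideanSpace ℝ ι}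
    {ψ : Y → ℝ} (hG : LocLip 𝒜 G) (hψ : LocLip 𝒜 ψ) (hn : ∀ y, ‖G y‖ = 1) {C : Set Y}
    (hC : IsCompact C) (h0 : ∀ y ∉ C, ψ y = 0) {e : Ch Y W} (he : e ∈ 𝒜) (hCe : C ⊆ e.source) :
    Int μ 𝒜 (Bd b G ψ) = 0 := by
  have hv : ∀ e' ∈ 𝒜, ∀ y ∈ e'.source, y ∉ C → Bd b G ψ e' (e' y) = 0 := by
    intro e' _ y hy hy'
    have : ψ =ᶠ[𝓝 y] fun _ => 0 := by
      filter_upwards [hC.isClosed.isOpen_compl.mem_nhds hy'] with z hz using h0 z hz
    simp only [Bd, fderiv_chart_const hy this, bL_zero]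
  have hD : Dens μ 𝒜 (Bd b G ψ) C := ⟨law_Bd b G ψ, fun e' he' => tame_Bd μ b hG hψ he', hv, hC⟩
  rw [(hD.int_chart h𝒜 (Or.inl rfl) (fun e' he' => h𝒜.compat he' he)
    fun e' he' y hy hy' => hv e' he' y hy fun h => hy' (hCe h)).2, one_mul]
  have hc : ∀ i, ∀ x ∈ e.target, LipAt (fun x => G (e.symm x) i) x := fun i x hx =>
    (hG.at_target he hx).clm (EuclideanSpace.proj (𝕜 := ℝ) i)
  rw [← bform_local μ e.target (e '' C) e.open_target
    (hC.image_of_continuousOn (e.continuousOn.mono hCe))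
    (by rintro _ ⟨y, hy, rfl⟩; exact e.map_source (hCe hy)) (fun i x => G (e.symm x) i)
    (ψ ∘ e.symm) b (fun i => locallyLipschitzOn_of_lipAt (hc i))
    (locallyLipschitzOn_of_lipAt fun x hx => hψ.at_target he hx)
    (fun x hx hx' => h0 _ fun h => hx' ⟨_, h, e.right_inv hx⟩) fun x _ => ?_]
  · refine setIntegral_congr_ae e.open_target.measurableSet ?_
    filter_upwards [ae_differentiableAt_of_lipAt μ fun x hx => hG.at_target he hx] with x hx hx'
    simp only [Bd, bL, dmat]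
    congr 1
    ext j i
    have := ((EuclideanSpace.proj (𝕜 := ℝ) i).hasFDerivAt.comp x (hx hx').hasFDerivAt).fderiv
    simp only [Matrix.of_apply]
    exact (congrArg (fun L => L (b j)) this).symm
  · have := EuclideanSpace.real_norm_sq_eq (G (e.symm x))
    rw [hn] at this
    simp only [sq] at this
    rw [← this, one_mul]

theorem int_Bd [T2Space Y] [Nontrivial ι] {𝒜 : Set (Ch Y W)} (h𝒜 : Sys 𝒜)
    {G : Y → EuclideanSpace ℝ ι} {ψ : Y → ℝ} (hG : LocLip 𝒜 G) (hψ : LocLip 𝒜 ψ)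
    (hn : ∀ y, ‖G y‖ = 1) {K : Set Y} (hK : IsCompact K)
    (h0 : ∀ y ∉ K, (ψ =ᶠ[𝓝 y] fun _ => 0) ∨ ∃ c, G =ᶠ[𝓝 y] fun _ => c) :
    Dens μ 𝒜 (Bd b G ψ) K ∧ Int μ 𝒜 (Bd b G ψ) = 0 := by
  have hv : ∀ ρ : Y → ℝ, ∀ e' ∈ 𝒜, ∀ y ∈ e'.source, y ∉ K →
      Bd b G (fun y => ρ y * ψ y) e' (e' y) = 0 := by
    intro ρ e' _ y hy hy'
    rcases h0 y hy' with h | ⟨c, h⟩
    · have : (fun y => ρ y * ψ y) =ᶠ[𝓝 y] fun _ => 0 := by
        filter_upwards [h] with z hz
        simp [hz]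
      simp only [Bd, fderiv_chart_const hy this, bL_zero]
    · have hW : Module.finrank ℝ (LinearMap.ker ((fderiv ℝ ((fun y => ρ y * ψ y) ∘ e'.symm)
          (e' y) : W →L[ℝ] ℝ) : W →ₗ[ℝ] ℝ)) ≠ 0 := by
        intro h'
        have h1 := LinearMap.finrank_range_add_finrank_ker ((fderiv ℝ
          ((fun y => ρ y * ψ y) ∘ e'.symm) (e' y) : W →L[ℝ] ℝ) : W →ₗ[ℝ] ℝ)
        have h2 := Submodule.finrank_le (LinearMap.range ((fderiv ℝ
          ((fun y => ρ y * ψ y) ∘ e'.symm) (e' y) : W →L[ℝ] ℝ) : W →ₗ[ℝ] ℝ))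
        rw [h', Module.finrank_eq_card_basis b] at h1
        have h3 := Fintype.one_lt_card (α := ι)
        rw [Module.finrank_self] at h2
        omega
      obtain ⟨w, hw, hw0⟩ := Submodule.exists_mem_ne_zero_of_ne_bot (p := LinearMap.ker
        ((fderiv ℝ ((fun y => ρ y * ψ y) ∘ e'.symm) (e' y) : W →L[ℝ] ℝ) : W →ₗ[ℝ] ℝ))
        (fun h' => hW (by rw [h']; exact finrank_bot _ _))
      refine bL_eq_zero b _ _ _ hw0 ?_ hw
      rw [fderiv_chart_const hy h]; rfl
  have hD : ∀ ρ : Y → ℝ, LocLip 𝒜 ρ → Dens μ 𝒜 (Bd b G fun y => ρ y * ψ y) K := fun ρ hρ =>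
    ⟨law_Bd b G _, fun e' he' => tame_Bd μ b hG (ψ := fun y => ρ y * ψ y)
      (fun e he y hy => (hρ e he y hy).mul (hψ e he y hy)) he', hv ρ, hK⟩
  have hD1 : Dens μ 𝒜 (Bd b G ψ) K := by
    simpa using hD (fun _ => 1) fun e he y hy => lipAt_const 1 _
  refine ⟨hD1, ?_⟩
  obtain ⟨m, e, ρ, U, hU, hKU, he, hF, hl, hc⟩ := h𝒜.exists_fam hK
  rw [int_sum h𝒜 Finset.univ hD1 (fun i _ => hD (ρ i) (hl i))]
  · refine Finset.sum_eq_zero fun i _ => int_Bd_chart μ b h𝒜 hG (ψ := fun y => ρ i y * ψ y)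
      (fun e he y hy => (hl i e he y hy).mul (hψ e he y hy)) hn (hc i) (fun y hy => ?_) (he i)
      (hF.supp i)
    rw [image_eq_zero_of_notMem_tsupport hy, zero_mul]
  · intro c hc
    have h1 : ∀ᵐ x ∂μ, ∀ i, x ∈ c.target →
        DifferentiableAt ℝ ((fun y => ρ i y * ψ y) ∘ c.symm) x :=
      ae_all_iff.2 fun i => ae_differentiableAt_of_lipAt μ fun x hx =>
        ((hl i).at_target hc hx).mul (hψ.at_target hc hx)
    filter_upwards [h1] with x hx hx'
    by_cases hxK : c.symm x ∈ K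
    · have h2 : (ψ ∘ c.symm) =ᶠ[𝓝 x] ∑ i, ((fun y => ρ i y * ψ y) ∘ c.symm) := by
        filter_upwards [(c.continuousAt_symm hx').preimage_mem_nhds (hU.mem_nhds (hKU hxK))]
          with z hz
        simp [← Finset.sum_mul, hF.one _ hz]
      simp only [Bd]
      rw [h2.fderiv_eq, fderiv_sum fun i _ => hx i hx', bL_sum]
    · have h2 := hD1.van c hc _ (c.map_target hx') hxK
      have h3 := fun i => hv (ρ i) c hc _ (c.map_target hx') hxK
      rw [c.right_inv hx'] at h2 h3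
      simp [h2, h3]

end Bd

section homotopy

/-- Product charts. -/
def prodAtlas (𝒜 : Set (Ch Y (E n))) : Set (Ch (Y × ℝ) (E n × ℝ)) :=
  (fun e => e.prod (OpenPartialHomeomorph.refl ℝ)) '' 𝒜

theorem sys_prod {𝒜 : Set (Ch Y (E n))} (h : Sys 𝒜) : Sys (prodAtlas 𝒜) := by
  refine ⟨fun y => ?_, ?_, ?_⟩
  · obtain ⟨e, he, hy⟩ := h.cover y.1
    exact ⟨_, ⟨e, he, rfl⟩, hy, mem_univ _⟩
  · rintro _ ⟨e, he, rfl⟩ _ ⟨e', he', rfl⟩ y hy hy'
    exact ContDiffAt.prodMap' (p := (e y.1, y.2)) (h.smooth e he e' he' y.1 hy.1 hy'.1)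
      contDiffAt_id
  · rintro _ ⟨e, he, rfl⟩ _ ⟨e', he', rfl⟩ y hy hy'
    have h1 := (h.dif he he' hy.1 hy'.1).1.hasFDerivAt.prodMap (p := (e y.1, y.2))
      (hasFDerivAt_id y.2)
    have h2 : tdet (e.prod (OpenPartialHomeomorph.refl ℝ)) (e'.prod (OpenPartialHomeomorph.refl ℝ))
        y = ((fderiv ℝ (e' ∘ e.symm) (e y.1)).prodMap (ContinuousLinearMap.id ℝ ℝ)).det :=
      congrArg ContinuousLinearMap.det h1.fderiv
    rw [h2]
    have h3 := LinearMap.det_prodMap (fderiv ℝ (e' ∘ e.symm) (e y.1) : E n →ₗ[ℝ] E n)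
      (LinearMap.id : ℝ →ₗ[ℝ] ℝ)
    rw [LinearMap.det_id, mul_one] at h3
    exact lt_of_lt_of_eq (h.pos e he e' he' y.1 hy.1 hy'.1) h3.symm

theorem LocLip.fst {𝒜 : Set (Ch Y (E n))} {Z : Type} [PseudoMetricSpace Z] {g : Y → Z}
    (h : LocLip 𝒜 g) : LocLip (prodAtlas 𝒜) fun z => g z.1 := by
  rintro _ ⟨e, he, rfl⟩ y hy
  exact LipAt.comp (g := g ∘ e.symm) (f := Prod.fst) (x := (e y.1, y.2)) (h e he y.1 hy.1)
    (LipschitzWith.lipAt LipschitzWith.prod_fst _)

theorem locLip_snd {𝒜 : Set (Ch Y (E n))} {Z : Type} [PseudoMetricSpace Z] {g : ℝ → Z}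
    (h : ∀ t, LipAt g t) : LocLip (prodAtlas 𝒜) fun z => g z.2 := by
  rintro _ ⟨e, he, rfl⟩ y hy
  exact LipAt.comp (g := g) (f := Prod.snd) (x := (e y.1, y.2)) (h _)
    (LipschitzWith.lipAt LipschitzWith.prod_snd _)

/-- A basis of the product. -/
noncomputable def pb (n : ℕ) : Module.Basis (Fin (n + 1)) ℝ (E n × ℝ) :=
  basisOfLinearIndependentOfCardEqFinrank
    (b := Fin.cons (0, 1) fun k => (EuclideanSpace.single k 1, 0)) (by
      rw [Fintype.linearIndependent_iff]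
      intro g hg i
      rw [Fin.sum_univ_succ] at hg
      refine Fin.cases ?_ (fun k => ?_) i
      · simpa [Prod.snd_sum] using congrArg Prod.snd hg
      · simpa [Prod.fst_sum, Pi.single_apply] using congrArg (fun x : E n × ℝ => x.1 k) hg)
    (by simp)

theorem pb_zero : pb n 0 = (0, 1) := by simp [pb]

theorem pb_succ (k : Fin n) : pb n k.succ = (EuclideanSpace.single k 1, 0) := by simp [pb]

theorem bL_snd (v : E (n + 1)) (A : E n × ℝ →L[ℝ] E (n + 1)) :
    bL (pb n) v A (ContinuousLinearMap.snd ℝ (E n) ℝ) =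
      jacL v (A.comp (ContinuousLinearMap.inl ℝ (E n) ℝ)) := by
  have : (fun j => ContinuousLinearMap.snd ℝ (E n) ℝ (pb n j)) = Pi.single 0 1 := by
    ext j
    refine Fin.cases ?_ (fun k => ?_) j
    · simp [pb_zero]
    · simp [pb_succ]
  rw [bL, this, bform_single, jacL]
  congr 1
  ext i j
  refine Fin.cases ?_ (fun k => ?_) i
  · simp
  · simp [pb_succ]

theorem fderiv_inl {V F : Type} [NormedAddCommGroup V] [NormedSpace ℝ V] [NormedAddCommGroup F]
    [NormedSpace ℝ F] {G : V × ℝ → F} {z : V × ℝ} (h : DifferentiableAt ℝ G z) :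
    (fderiv ℝ G z).comp (ContinuousLinearMap.inl ℝ V ℝ) = fderiv ℝ (fun x => G (x, z.2)) z.1 :=
  (HasFDerivAt.comp z.1 (f := fun x => (x, z.2)) h.hasFDerivAt
    (hasFDerivAt_prodMk_left z.1 z.2)).fderiv.symm

theorem integral_deriv_st (a : ℝ) : ∫ t, deriv Real.smoothTransition (t - a) = 1 := by
  rw [integral_sub_right_eq_self (fun t => deriv Real.smoothTransition t) a]
  have hd : Differentiable ℝ Real.smoothTransition :=
    (Real.smoothTransition.contDiff (n := 1)).differentiable one_ne_zero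
  have h1 := intervalIntegral.integral_deriv_eq_sub (a := -1) (b := 2) (fun x _ => hd x)
    (((Real.smoothTransition.contDiff (n := 1)).continuous_deriv le_rfl).intervalIntegrable _ _)
  rw [Real.smoothTransition.one_of_one_le (by norm_num),
    Real.smoothTransition.zero_of_nonpos (by norm_num), sub_zero,
    intervalIntegral.integral_of_le (by norm_num)] at h1
  rw [← h1]
  refine (setIntegral_eq_integral_of_forall_compl_eq_zero fun x hx => ?_).symm
  rcases not_and_or.1 hx with h | h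
  · have : Real.smoothTransition =ᶠ[𝓝 x] fun _ => 0 := by
      filter_upwards [Iio_mem_nhds (show x < 0 by linarith [not_lt.1 h])] with y hy
        using Real.smoothTransition.zero_of_nonpos (le_of_lt hy)
    rw [this.deriv_eq]; simp
  · have : Real.smoothTransition =ᶠ[𝓝 x] fun _ => 1 := by
      filter_upwards [Ioi_mem_nhds (show 1 < x by linarith [not_le.1 h])] with y hy
        using Real.smoothTransition.one_of_one_le (le_of_lt hy)
    rw [this.deriv_eq]; simp

theorem deriv_st_ne {t : ℝ} (h : deriv Real.smoothTransition t ≠ 0) : 0 ≤ t ∧ t ≤ 1 := by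
  constructor
  · by_contra hx
    have : Real.smoothTransition =ᶠ[𝓝 t] fun _ => 0 := by
      filter_upwards [Iio_mem_nhds (not_le.1 hx)] with y hy
        using Real.smoothTransition.zero_of_nonpos (le_of_lt hy)
    exact h (by rw [this.deriv_eq]; simp)
  · by_contra hx
    have : Real.smoothTransition =ᶠ[𝓝 t] fun _ => 1 := by
      filter_upwards [Ioi_mem_nhds (not_le.1 hx)] with y hy
        using Real.smoothTransition.one_of_one_le (le_of_lt hy)
    exact h (by rw [this.deriv_eq]; simp)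

theorem int_homotopy [T2Space Y] (hn : 0 < n) {𝒜 : Set (Ch Y (E n))} (h𝒜 : Sys 𝒜)
    {G : Y × ℝ → E (n + 1)} (hG : LocLip (prodAtlas 𝒜) G) (hN : ∀ z, ‖G z‖ = 1)
    {g₀ g₁ : Y → E (n + 1)} (hg₀ : LocLip 𝒜 g₀) (hg₁ : LocLip 𝒜 g₁)
    (h0 : ∀ y t, t ≤ 0 → G (y, t) = g₀ y) (h1 : ∀ y t, 1 ≤ t → G (y, t) = g₁ y)
    {χ : Y → ℝ} (hχ : LocLip 𝒜 χ) {K : Set Y} (hK : IsCompact K)
    (hout : ∀ y ∉ K, (χ =ᶠ[𝓝 y] fun _ => 0) ∨ ∃ c, ∀ᶠ y' in 𝓝 y, ∀ t, G (y', t) = c)
    {r : Y → Y → Prop} (hr : ∀ a b, r a b → χ a = χ b ∧ ∀ t, G (a, t) = G (b, t))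
    (hker : ∀ e ∈ 𝒜, ∀ y ∈ e.source, (∃ c, χ =ᶠ[𝓝 y] fun _ => c) ∨ Ker e y r) :
    Int volume 𝒜 (mulD χ (Jd g₀)) = Int volume 𝒜 (mulD χ (Jd g₁)) := by
  have : Nontrivial (Fin (n + 1)) := Fin.nontrivial_iff_two_le.2 (by omega)
  have : (volume : Measure (E n × ℝ)).IsAddHaarMeasure := Measure.prod.instIsAddHaarMeasure _ _
  set β : ℝ → ℝ := fun t => Real.smoothTransition (t - -2) - Real.smoothTransition (t - 2) with hβ
  have hst : ∀ a t, HasDerivAt (fun t => Real.smoothTransition (t - a))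
      (deriv Real.smoothTransition (t - a)) t := fun a t =>
    (((Real.smoothTransition.contDiff (n := 1)).differentiable one_ne_zero
      (t - a)).hasDerivAt).comp_sub_const t a
  have hβd : ∀ t, HasDerivAt β (deriv Real.smoothTransition (t - -2) -
      deriv Real.smoothTransition (t - 2)) t := fun t => (hst _ t).sub (hst _ t)
  have hβl : ∀ t, LipAt β t := fun t => ContDiffAt.lipAt
    ((Real.smoothTransition.contDiffAt.comp t (by fun_prop)).sub
      (Real.smoothTransition.contDiffAt.comp t (by fun_prop)))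
  have hψ : LocLip (prodAtlas 𝒜) fun z : Y × ℝ => χ z.1 * β z.2 := fun e he y hy =>
    (hχ.fst e he y hy).mul (locLip_snd hβl e he y hy)
  obtain ⟨hD, hI⟩ := int_Bd volume (pb n) (sys_prod h𝒜) hG hψ hN
    (hK.prod (isCompact_Icc (a := (-2 : ℝ)) (b := 3))) (by
      rintro ⟨y, t⟩ hyt
      by_cases hy : y ∈ K
      · left
        have ht : t ∉ Icc (-2 : ℝ) 3 := fun h => hyt ⟨hy, h⟩
        filter_upwards [continuousAt_snd.preimage_mem_nhds
          (isClosed_Icc.isOpen_compl.mem_nhds ht)] with z hz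
        rcases not_and_or.1 hz with h | h
        · simp only [hβ]
          rw [Real.smoothTransition.zero_of_nonpos (by linarith [not_le.1 h]),
            Real.smoothTransition.zero_of_nonpos (by linarith [not_le.1 h])]
          simp
        · simp only [hβ]
          rw [Real.smoothTransition.one_of_one_le (by linarith [not_le.1 h]),
            Real.smoothTransition.one_of_one_le (by linarith [not_le.1 h])]
          simp
      · rcases hout y hy with h | ⟨c, h⟩
        · left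
          filter_upwards [continuousAt_fst.eventually h] with z hz
          simp [hz]
        · right
          refine ⟨c, ?_⟩
          filter_upwards [continuousAt_fst.eventually h] with z hz using hz z.2)
  have hout' : ∀ (g : Y → E (n + 1)) (t : ℝ), (∀ y, G (y, t) = g y) →
      ∀ y ∉ K, χ y = 0 ∨ ∃ c, g =ᶠ[𝓝 y] fun _ => c := by
    intro g t hg y hy
    rcases hout y hy with h | ⟨c, h⟩
    · exact Or.inl h.self_of_nhds
    · refine Or.inr ⟨c, ?_⟩
      filter_upwards [h] with z hz using (hg z).symm.trans (hz t)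
  have hD0 := dens_Jd hn hg₀ (hχ.continuous h𝒜) hK (hout' g₀ 0 fun y => h0 y 0 le_rfl)
  have hD1 := dens_Jd hn hg₁ (hχ.continuous h𝒜) hK (hout' g₁ 1 fun y => h1 y 1 le_rfl)
  obtain ⟨m, e, ρ, U, -, hKU, he, hF, -⟩ := h𝒜.exists_fam hK
  have hF' := hF.mono hKU
  have hF2 : Fam (K ×ˢ Icc (-2 : ℝ) 3) (fun i => (e i).prod (OpenPartialHomeomorph.refl ℝ))
      fun i z => ρ i z.1 := by
    refine ⟨fun i => (hF.cont i).comp continuous_fst, fun i z hz => ⟨hF.supp i ?_, mem_univ _⟩,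
      fun z hz => hF'.one _ hz.1⟩
    exact tsupport_comp_subset_preimage (ρ i) continuous_fst hz
  rw [hD.int_eq' (sys_prod h𝒜) hF2 (fun i => ⟨_, he i, rfl⟩)] at hI
  rw [hD0.int_eq' h𝒜 hF' he, hD1.int_eq' h𝒜 hF' he, ← sub_eq_zero, ← hI, IntF, IntF, IntF,
    ← Finset.sum_sub_distrib]
  refine Finset.sum_congr rfl fun i _ => ?_
  have hi0 := hF'.integrableOn volume hK i (hD0.tame _ (he i)) (hD0.van _ (he i))
  have hi1 := hF'.integrableOn volume hK i (hD1.tame _ (he i)) (hD1.van _ (he i))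
  have hint : ∀ a, Integrable (fun t => deriv Real.smoothTransition (t - a)) volume := fun a =>
    Integrable.of_integral_ne_zero (by rw [integral_deriv_st]; exact one_ne_zero)
  have key : ∀ᵐ z : E n × ℝ, z ∈ (e i).target ×ˢ (univ : Set ℝ) →
      mulD (fun z => ρ i z.1) (Bd (pb n) G fun z => χ z.1 * β z.2)
        ((e i).prod (OpenPartialHomeomorph.refl ℝ)) z =
      mulD (ρ i) (mulD χ (Jd g₀)) (e i) z.1 * deriv Real.smoothTransition (z.2 - -2) -
        mulD (ρ i) (mulD χ (Jd g₁)) (e i) z.1 * deriv Real.smoothTransition (z.2 - 2) := by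
    have hm : (e i).prod (OpenPartialHomeomorph.refl ℝ) ∈ prodAtlas 𝒜 := ⟨_, he i, rfl⟩
    filter_upwards [ae_differentiableAt_of_lipAt volume fun x hx => hG.at_target hm hx,
      ae_differentiableAt_of_lipAt volume fun x hx => hχ.fst.at_target hm hx] with z hz hz' hzt
    obtain ⟨x, t⟩ := z
    have hx : x ∈ (e i).target := hzt.1
    set G' : E n × ℝ → E (n + 1) := G ∘ ((e i).prod (OpenPartialHomeomorph.refl ℝ)).symm with hG'
    set χ' : E n × ℝ → ℝ := (fun z => χ z.1) ∘ ((e i).prod (OpenPartialHomeomorph.refl ℝ)).symm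
      with hχ'
    have d1 : DifferentiableAt ℝ G' (x, t) := hz hzt
    have d2 : DifferentiableAt ℝ χ' (x, t) := hz' hzt
    have d3 : HasFDerivAt (fun z : E n × ℝ => χ' z * β z.2) (χ' (x, t) • ((deriv
        Real.smoothTransition (t - -2) - deriv Real.smoothTransition (t - 2)) •
          ContinuousLinearMap.snd ℝ (E n) ℝ) + β t • fderiv ℝ χ' (x, t)) (x, t) :=
      d2.hasFDerivAt.mul (HasDerivAt.comp_hasFDerivAt (f := Prod.snd) (x, t) (hβd t)
        hasFDerivAt_snd)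
    have d4 : bL (pb n) (G' (x, t)) (fderiv ℝ G' (x, t)) (fderiv ℝ χ' (x, t)) = 0 := by
      rcases hker _ (he i) _ ((e i).map_target hx) with ⟨c, hc⟩ | ⟨v, hv, hk⟩
      · have : χ' =ᶠ[𝓝 (x, t)] fun _ => c :=
          (((e i).continuousAt_symm hx).comp_of_eq (continuousAt_fst (p := (x, t)))
            rfl).eventually hc
        rw [this.fderiv_eq]
        simpa using bL_zero (pb n) _ _
      · rw [(e i).right_inv hx] at hk
        refine bL_eq_zero (pb n) _ _ _ (w := (v, 0)) (by simpa using hv) ?_ ?_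
        · exact (congrArg (fun L => L v) (fderiv_inl d1)).trans
            (hk _ (fun y => G (y, t)) fun a b hab => (hr a b hab).2 t)
        · exact (congrArg (fun L => L v) (fderiv_inl d2)).trans
            (hk _ χ fun a b hab => (hr a b hab).1)
    have d5 : ∀ g : Y → E (n + 1), (∀ y, G (y, t) = g y) → bL (pb n) (G' (x, t))
        (fderiv ℝ G' (x, t)) (ContinuousLinearMap.snd ℝ (E n) ℝ) = Jd g (e i) x := by
      intro g hg
      rw [bL_snd, fderiv_inl d1]
      have : (fun x => G' (x, t)) = g ∘ (e i).symm := funext fun x => hg _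
      simp only [this]
      exact congrArg (jacL · _) (hg _)
    show ρ i ((e i).symm x) * bL (pb n) (G' (x, t)) (fderiv ℝ G' (x, t))
      (fderiv ℝ (fun z : E n × ℝ => χ' z * β z.2) (x, t)) = _
    rw [d3.fderiv, bL_add, bL_smul, bL_smul, bL_smul, d4, mul_zero, add_zero]
    have e1 : deriv Real.smoothTransition (t - -2) * bL (pb n) (G' (x, t)) (fderiv ℝ G' (x, t))
        (ContinuousLinearMap.snd ℝ (E n) ℝ) =
        deriv Real.smoothTransition (t - -2) * Jd g₀ (e i) x := by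
      by_cases h : deriv Real.smoothTransition (t - -2) = 0
      · simp only [h, zero_mul]
      · rw [d5 g₀ fun y => h0 y t (by linarith [(deriv_st_ne h).2])]
    have e2 : deriv Real.smoothTransition (t - 2) * bL (pb n) (G' (x, t)) (fderiv ℝ G' (x, t))
        (ContinuousLinearMap.snd ℝ (E n) ℝ) =
        deriv Real.smoothTransition (t - 2) * Jd g₁ (e i) x := by
      by_cases h : deriv Real.smoothTransition (t - 2) = 0
      · simp only [h, zero_mul]
      · rw [d5 g₁ fun y => h1 y t (by linarith [(deriv_st_ne h).1])]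
    rw [sub_mul, e1, e2]
    show _ = ρ i ((e i).symm x) * (χ' (x, t) * Jd g₀ (e i) x) * _ -
      ρ i ((e i).symm x) * (χ' (x, t) * Jd g₁ (e i) x) * _
    ring
  have hm : MeasurableSet ((e i).target ×ˢ (univ : Set ℝ)) :=
    (e i).open_target.measurableSet.prod MeasurableSet.univ
  refine Eq.trans ?_ (setIntegral_congr_ae hm key).symm
  rw [Measure.volume_eq_prod, ← Measure.prod_restrict, Measure.restrict_univ,
    integral_sub (hi0.mul_prod (hint _)) (hi1.mul_prod (hint _)),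
    integral_prod_mul _ fun t => deriv Real.smoothTransition (t - -2),
    integral_prod_mul _ fun t => deriv Real.smoothTransition (t - 2), integral_deriv_st, integral_deriv_st, mul_one, mul_one]

/-- Normalisation. -/
noncomputable def nrm {F : Type} [NormedAddCommGroup F] [NormedSpace ℝ F] (v : F) : F :=
  ‖v‖⁻¹ • v

theorem norm_nrm {F : Type} [NormedAddCommGroup F] [NormedSpace ℝ F] {v : F} (h : v ≠ 0) :
    ‖nrm v‖ = 1 := norm_smul_inv_norm h

theorem nrm_of_norm {F : Type} [NormedAddCommGroup F] [NormedSpace ℝ F] {v : F} (h : ‖v‖ = 1) :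
    nrm v = v := by simp [nrm, h]

theorem LipAt.nrm {A F : Type} [PseudoMetricSpace A] [NormedAddCommGroup F] [NormedSpace ℝ F]
    {f : A → F} {x : A} (h : LipAt f x) (h0 : f x ≠ 0) : LipAt (fun y => nrm (f y)) x :=
  (h.norm.inv (norm_ne_zero_iff.2 h0)).smul h

theorem seg_ne_zero {F : Type} [NormedAddCommGroup F] [NormedSpace ℝ F] {a b : F} (ha : ‖a‖ = 1)
    (hab : ‖b - a‖ < 1) {s : ℝ} (h0 : 0 ≤ s) (h1 : s ≤ 1) : a + s • (b - a) ≠ 0 := by
  intro h
  have h2 : ‖a‖ = ‖s • (b - a)‖ :=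
    (congrArg norm (eq_neg_of_add_eq_zero_left h)).trans (norm_neg _)
  rw [norm_smul, Real.norm_of_nonneg h0, ha] at h2
  nlinarith [norm_nonneg (b - a)]

theorem int_close [T2Space Y] (hn : 0 < n) {𝒜 : Set (Ch Y (E n))} (h𝒜 : Sys 𝒜)
    {g₀ g₁ : Y → E (n + 1)} (hg₀ : LocLip 𝒜 g₀) (hg₁ : LocLip 𝒜 g₁) (hN₀ : ∀ y, ‖g₀ y‖ = 1)
    (hN₁ : ∀ y, ‖g₁ y‖ = 1) (hc : ∀ y, ‖g₁ y - g₀ y‖ < 1)
    {χ : Y → ℝ} (hχ : LocLip 𝒜 χ) {K : Set Y} (hK : IsCompact K)
    (hout : ∀ y ∉ K, (χ =ᶠ[𝓝 y] fun _ => 0) ∨ ∃ c, ∀ᶠ y' in 𝓝 y, g₀ y' = c ∧ g₁ y' = c)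
    {r : Y → Y → Prop} (hr : ∀ a b, r a b → χ a = χ b ∧ g₀ a = g₀ b ∧ g₁ a = g₁ b)
    (hker : ∀ e ∈ 𝒜, ∀ y ∈ e.source, (∃ c, χ =ᶠ[𝓝 y] fun _ => c) ∨ Ker e y r) :
    Int volume 𝒜 (mulD χ (Jd g₀)) = Int volume 𝒜 (mulD χ (Jd g₁)) := by
  have hne : ∀ y (t : ℝ), g₀ y + max 0 (min 1 t) • (g₁ y - g₀ y) ≠ 0 := fun y t =>
    seg_ne_zero (hN₀ y) (hc y) (le_max_left _ _) (max_le zero_le_one (min_le_left _ _))
  refine int_homotopy hn h𝒜 (G := fun z => nrm (g₀ z.1 + max 0 (min 1 z.2) • (g₁ z.1 - g₀ z.1)))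
    (fun e he y hy => ?_) (fun z => norm_nrm (hne _ _)) hg₀ hg₁ (fun y t ht => ?_)
    (fun y t ht => ?_) hχ hK (fun y hy => ?_) (r := r) (fun a b hab => ?_) hker
  · have hs : LocLip (prodAtlas 𝒜) fun z : Y × ℝ => max 0 (min 1 z.2) :=
      locLip_snd (g := fun t => max 0 (min 1 t)) fun t => (lipAt_const 0 t).max
        ((lipAt_const 1 t).min (LipschitzWith.lipAt LipschitzWith.id t))
    exact ((hg₀.fst e he y hy).add ((hs e he y hy).smul
      ((hg₁.fst e he y hy).sub (hg₀.fst e he y hy)))).nrm (hne _ _)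
  · simp only [max_eq_left ((min_le_right 1 t).trans ht), zero_smul, add_zero]
    exact nrm_of_norm (hN₀ y)
  · simp only [min_eq_left ht, max_eq_right zero_le_one, one_smul, add_sub_cancel]
    exact nrm_of_norm (hN₁ y)
  · rcases hout y hy with h | ⟨c, h⟩
    · exact Or.inl h
    · refine Or.inr ⟨nrm c, ?_⟩
      filter_upwards [h] with z hz t
      simp [hz.1, hz.2]
  · obtain ⟨h1, h2, h3⟩ := hr a b hab
    exact ⟨h1, fun t => by simp only [h2, h3]⟩

end homotopy

end Pool.Agent.Lib.MP_4b70aa_gt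
end

-- part Pool.Agent.Lib.MP_4b70aa_gt.Kit
section

set_option autoImplicit false
set_option linter.unusedSectionVars false

open MeasureTheory Filter Set Topology
open scoped Manifold ContDiff Bundle

namespace Pool.Agent.Lib.MP_4b70aa_gt

theorem det_block {V W : Type} [AddCommGroup V] [Module ℝ V] [FiniteDimensional ℝ V]
    [AddCommGroup W] [Module ℝ W] [FiniteDimensional ℝ W] (M : V × W →ₗ[ℝ] V × W) (T : V →ₗ[ℝ] V)
    (h1 : ∀ a, M (a, 0) = (T a, 0)) (h2 : ∀ z, (M z).2 = z.2) :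
    LinearMap.det M = LinearMap.det T := by
  classical
  let b := Module.finBasis ℝ V
  let b' := Module.finBasis ℝ W
  have : LinearMap.toMatrix (b.prod b') (b.prod b') M = Matrix.fromBlocks (LinearMap.toMatrix b b T)
      (LinearMap.toMatrix b' b ((LinearMap.fst ℝ V W).comp (M.comp (LinearMap.inr ℝ V W)))) 0 1 := by
    ext (i | i) (j | j)
    · simp [LinearMap.toMatrix_apply, h1]
    · simp [LinearMap.toMatrix_apply]
    · simp [LinearMap.toMatrix_apply, h1]
    · simp [LinearMap.toMatrix_apply, h2, Matrix.one_apply, Finsupp.single_apply, eq_comm]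
  rw [← LinearMap.det_toMatrix (b.prod b'), this, Matrix.det_fromBlocks_zero₂₁, Matrix.det_one,
    mul_one, LinearMap.det_toMatrix]

variable {n : ℕ} {A W : Type} [NormedAddCommGroup A] [NormedSpace ℝ A] [FiniteDimensional ℝ A]
  [NormedAddCommGroup W] [NormedSpace ℝ W] [FiniteDimensional ℝ W]

/-- A regular level set. -/
structure Lev (n : ℕ) (A W : Type) [NormedAddCommGroup A] [NormedSpace ℝ A]
    [NormedAddCommGroup W] [NormedSpace ℝ W] where
  F : A → W
  D : Set A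
  iso : (E n × W) ≃L[ℝ] A
  hn : 0 < n
  hD : IsOpen D
  smooth : ∀ m ∈ D, ContDiffAt ℝ ∞ F m
  reg : ∀ m ∈ D, F m = 0 → Function.Surjective (fderiv ℝ F m)

namespace Lev

variable (L : Lev n A W)

/-- The level set. -/
def Z : Set A := {m | m ∈ L.D ∧ L.F m = 0}

/-- The orientation sign of a linear projection. -/
noncomputable def sgn (q : A →L[ℝ] E n) (m : A) : ℝ :=
  ((q.prod (fderiv ℝ L.F m)).comp (L.iso : (E n × W) →L[ℝ] A)).det

variable {Y : Type} [TopologicalSpace Y]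

/-- `e` is a good chart with projection `q`. -/
structure IsGood (p : Y → L.Z) (e : Ch Y (E n)) (q : A →L[ℝ] E n) : Prop where
  eq : ∀ y ∈ e.source, e y = q (p y)
  smooth : ∀ x ∈ e.target, ContDiffAt ℝ ∞ (fun x => (p (e.symm x) : A)) x
  pos : ∀ y ∈ e.source, 0 < L.sgn q (p y)

/-- The good charts. -/
def Good (p : Y → L.Z) : Set (Ch Y (E n)) := {e | ∃ q, L.IsGood p e q}

variable {L}

/-- The derivative of the parametrization. -/
noncomputable def dσ (p : Y → L.Z) (e : Ch Y (E n)) (y : Y) : E n →L[ℝ] A :=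
  fderiv ℝ (fun x => (p (e.symm x) : A)) (e y)

theorem IsGood.hasFDerivAt {p : Y → L.Z} {e : Ch Y (E n)} {q : A →L[ℝ] E n} (h : L.IsGood p e q)
    {y : Y} (hy : y ∈ e.source) :
    HasFDerivAt (fun x => (p (e.symm x) : A)) (dσ p e y) (e y) :=
  ((h.smooth _ (e.map_source hy)).differentiableAt (by simp)).hasFDerivAt

theorem IsGood.proj {p : Y → L.Z} {e : Ch Y (E n)} {q : A →L[ℝ] E n} (h : L.IsGood p e q)
    {y : Y} (hy : y ∈ e.source) (a : E n) : q (dσ p e y a) = a := by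
  have h1 := (q.hasFDerivAt.comp _ (h.hasFDerivAt hy)).fderiv
  have h2 : (q ∘ fun x => (p (e.symm x) : A)) =ᶠ[𝓝 (e y)] id := by
    filter_upwards [e.open_target.mem_nhds (e.map_source hy)] with x hx
    exact (h.eq _ (e.map_target hx)).symm.trans (e.right_inv hx)
  rw [h2.fderiv_eq, fderiv_id] at h1
  exact (congrArg (fun T => T a) h1).symm

theorem IsGood.ker {p : Y → L.Z} {e : Ch Y (E n)} {q : A →L[ℝ] E n} (h : L.IsGood p e q)
    {y : Y} (hy : y ∈ e.source) (a : E n) : fderiv ℝ L.F (p y) (dσ p e y a) = 0 := by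
  have h0 : HasFDerivAt L.F (fderiv ℝ L.F (p y)) (p (e.symm (e y))) := by
    rw [e.left_inv hy]
    exact ((L.smooth _ (p y).2.1).differentiableAt (by simp)).hasFDerivAt
  have h1 := (HasFDerivAt.comp (e y) (f := fun x => (p (e.symm x) : A)) h0
    (h.hasFDerivAt hy)).fderiv
  have h2 : (L.F ∘ fun x => (p (e.symm x) : A)) = fun _ => 0 := funext fun x => (p _).2.2
  rw [h2, fderiv_fun_const] at h1
  exact (congrArg (fun T => T a) h1).symm

theorem sgn_inj {q : A →L[ℝ] E n} {m : A} (h : L.sgn q m ≠ 0) {w : A} (h1 : q w = 0)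
    (h2 : fderiv ℝ L.F m w = 0) : w = 0 := by
  have h3 := (ContinuousLinearMap.toContinuousLinearEquivOfDetNeZero _ h).injective
    (a₁ := L.iso.symm w) (a₂ := 0) (by simp [h1, h2])
  simpa using h3

theorem IsGood.sec {p : Y → L.Z} {e : Ch Y (E n)} {q : A →L[ℝ] E n} (h : L.IsGood p e q)
    {y : Y} (hy : y ∈ e.source) {w : A} (hw : fderiv ℝ L.F (p y) w = 0) : dσ p e y (q w) = w :=
  sub_eq_zero.1 (sgn_inj (h.pos y hy).ne' (by simp [h.proj hy]) (by simp [h.ker hy, hw]))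

theorem IsGood.trans_eq {p : Y → L.Z} {e e' : Ch Y (E n)} {q' : A →L[ℝ] E n}
    (h' : L.IsGood p e' q') {y : Y} (hy : y ∈ e.source) (hy' : y ∈ e'.source) :
    (e' ∘ e.symm) =ᶠ[𝓝 (e y)] fun x => q' (p (e.symm x)) := by
  filter_upwards [eventually_chart hy (e'.open_source.mem_nhds hy')] with x hx
    using h'.eq _ hx

theorem IsGood.trans_smooth {p : Y → L.Z} {e e' : Ch Y (E n)} {q q' : A →L[ℝ] E n}
    (h : L.IsGood p e q) (h' : L.IsGood p e' q') {y : Y} (hy : y ∈ e.source)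
    (hy' : y ∈ e'.source) : ContDiffAt ℝ ∞ (e' ∘ e.symm) (e y) :=
  (q'.contDiff.contDiffAt.comp _ (h.smooth _ (e.map_source hy))).congr_of_eventuallyEq
    (h'.trans_eq hy hy')

theorem IsGood.tdet_pos {p : Y → L.Z} {e e' : Ch Y (E n)} {q q' : A →L[ℝ] E n}
    (h : L.IsGood p e q) (h' : L.IsGood p e' q') {y : Y} (hy : y ∈ e.source)
    (hy' : y ∈ e'.source) : 0 < tdet e e' y := by
  have h1 : fderiv ℝ (e' ∘ e.symm) (e y) = q'.comp (dσ p e y) := by
    rw [(h'.trans_eq hy hy').fderiv_eq]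
    exact (q'.hasFDerivAt.comp _ (h.hasFDerivAt hy)).fderiv
  set Θ := ContinuousLinearMap.toContinuousLinearEquivOfDetNeZero _ (h.pos y hy).ne' with hΘ
  set M := ((q'.prod (fderiv ℝ L.F (p y))).comp (L.iso : (E n × W) →L[ℝ] A)).comp
    (Θ.symm : (E n × W) →L[ℝ] (E n × W)) with hM
  have hΘa : ∀ z, Θ z = (q (L.iso z), fderiv ℝ L.F (p y) (L.iso z)) := fun z => rfl
  have h2 : M.det = tdet e e' y := by
    rw [tdet, h1]
    refine det_block (M : E n × W →ₗ[ℝ] E n × W) _ (fun a => ?_) fun z => ?_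
    · have : Θ.symm (a, 0) = L.iso.symm (dσ p e y a) := by
        rw [ContinuousLinearEquiv.symm_apply_eq, hΘa]
        simp [h.proj hy, h.ker hy]
      simp [hM, this, h.ker hy]
    · exact (congrArg Prod.snd ((hΘa _).symm.trans (Θ.apply_symm_apply z)) :)
  have h3 : M.comp (Θ : (E n × W) →L[ℝ] (E n × W)) =
      (q'.prod (fderiv ℝ L.F (p y))).comp (L.iso : (E n × W) →L[ℝ] A) := by
    ext1 <;> ext1 z <;> simp [hM]
  have h4 := congrArg ContinuousLinearMap.det h3
  have h5 : (M.comp (Θ : (E n × W) →L[ℝ] (E n × W))).det =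
      M.det * (Θ : (E n × W) →L[ℝ] (E n × W)).det :=
    LinearMap.det_comp (M : E n × W →ₗ[ℝ] E n × W) _
  rw [h5, h2] at h4
  have h6 : (Θ : (E n × W) →L[ℝ] (E n × W)).det = L.sgn q (p y) := by simp [hΘ, sgn]
  rw [h6] at h4
  exact (pos_iff_pos_of_mul_pos (h4 ▸ h'.pos y hy')).2 (h.pos y hy)

theorem exists_proj (m : L.Z) : ∃ q, 0 < L.sgn q m := by
  set K := LinearMap.ker ((fderiv ℝ L.F m : A →L[ℝ] W) : A →ₗ[ℝ] W) with hK
  have hr : Module.finrank ℝ K = Module.finrank ℝ (E n) := by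
    have h1 := LinearMap.finrank_range_add_finrank_ker ((fderiv ℝ L.F m : A →L[ℝ] W) : A →ₗ[ℝ] W)
    rw [LinearMap.range_eq_top.2 (L.reg _ m.2.1 m.2.2), finrank_top,
      ← L.iso.toLinearEquiv.finrank_eq, Module.finrank_prod, ← hK] at h1
    omega
  obtain ⟨Q, hQ⟩ := K.exists_isCompl
  set q : A →L[ℝ] E n := LinearMap.toContinuousLinearMap
    ((LinearEquiv.ofFinrankEq _ _ hr).toLinearMap.comp (K.projectionOnto Q hQ)) with hq
  have h0 : L.sgn q m ≠ 0 := by
    intro h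
    obtain ⟨z, hz, hz0⟩ := Submodule.exists_mem_ne_zero_of_ne_bot
      (LinearMap.bot_lt_ker_of_det_eq_zero h).ne'
    have h1 : q (L.iso z) = 0 := congrArg Prod.fst hz
    have h2 : L.iso z ∈ K := congrArg Prod.snd hz
    have h3 : K.projectionOnto Q hQ (L.iso z) = 0 := by simpa [hq] using h1
    rw [show L.iso z = ((⟨_, h2⟩ : K) : A) from rfl, Submodule.projectionOnto_apply_left] at h3
    exact hz0 (by simpa using congrArg Subtype.val h3)
  rcases h0.lt_or_gt with h | h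
  · set R : E n →L[ℝ] E n := LinearMap.toContinuousLinearMap (Matrix.toLin
      (EuclideanSpace.basisFun (Fin n) ℝ).toBasis (EuclideanSpace.basisFun (Fin n) ℝ).toBasis
      (Matrix.diagonal (Function.update 1 ⟨0, L.hn⟩ (-1)))) with hR
    have hRd : LinearMap.det (R : E n →ₗ[ℝ] E n) = -1 := by
      simp [hR, LinearMap.det_toLin, Finset.prod_update_of_mem]
    refine ⟨R.comp q, ?_⟩
    have h1 : L.sgn (R.comp q) m = LinearMap.det (((R : E n →ₗ[ℝ] E n).prodMap LinearMap.id).comp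
      (((q.prod (fderiv ℝ L.F m)).comp (L.iso : (E n × W) →L[ℝ] A) : E n × W →L[ℝ] E n × W) :
        E n × W →ₗ[ℝ] E n × W)) := rfl
    rw [h1, LinearMap.det_comp, LinearMap.det_prodMap, hRd, LinearMap.det_id]
    have : LinearMap.det (((q.prod (fderiv ℝ L.F m)).comp (L.iso : (E n × W) →L[ℝ] A) :
      E n × W →L[ℝ] E n × W) : E n × W →ₗ[ℝ] E n × W) = L.sgn q m := rfl
    rw [this]; linarith
  · exact ⟨q, h⟩

theorem exists_chart_Z (m : L.Z) : ∃ e ∈ L.Good (id : L.Z → L.Z), m ∈ e.source := by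
  classical
  obtain ⟨q, hq⟩ := exists_proj m
  set O : Set A := {a | a ∈ L.D ∧ 0 < L.sgn q a} with hO
  have hOo : IsOpen O := by
    rw [isOpen_iff_mem_nhds]
    intro a ha
    have h1 : ContinuousAt (fderiv ℝ L.F) a := (L.smooth a ha.1).continuousAt_fderiv (by simp)
    have h2 : ContinuousAt (L.sgn q) a := by
      refine ContinuousLinearMap.continuous_det.continuousAt.comp (ContinuousAt.clm_comp ?_
        continuousAt_const)
      exact ((ContinuousLinearMap.prodₗᵢ ℝ).continuous.continuousAt.comp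
        ((continuousAt_const (y := q)).prodMk h1) :)
    exact inter_mem (L.hD.mem_nhds ha.1) (h2.eventually (lt_mem_nhds ha.2))
  set Θ : A → E n × W := fun a => (q a, L.F a) with hΘ
  have hΘs : ∀ a ∈ O, ContDiffAt ℝ ∞ Θ a := fun a ha =>
    q.contDiff.contDiffAt.prodMk (L.smooth a ha.1)
  have hΘd : ∀ a ∈ O, ∃ T : A ≃L[ℝ] E n × W, HasFDerivAt Θ (T : A →L[ℝ] E n × W) a := by
    intro a ha
    refine ⟨L.iso.symm.trans (ContinuousLinearMap.toContinuousLinearEquivOfDetNeZero _ ha.2.ne'),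
      ?_⟩
    convert q.hasFDerivAt.prodMk ((L.smooth a ha.1).differentiableAt (by simp)).hasFDerivAt
    ext z <;> simp
  have hm : (m : A) ∈ O := ⟨m.2.1, hq⟩
  obtain ⟨T, hT⟩ := hΘd m hm
  set h := ((hΘs m hm).toOpenPartialHomeomorph Θ hT (by simp)).restrOpen O hOo with hh
  have hc : ∀ a, h a = Θ a := fun a => rfl
  have hs : ∀ a ∈ h.source, a ∈ O := fun a ha => ha.2
  have hZ : ∀ x, (x, 0) ∈ h.target → h.symm (x, 0) ∈ L.Z := fun x hx =>
    ⟨(hs _ (h.map_target hx)).1, congrArg Prod.snd ((hc _).symm.trans (h.right_inv hx))⟩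
  have hz : ∀ z : L.Z, h z = (q z, 0) := fun z => by rw [hc, hΘ]; simp [z.2.2]
  set inv : E n → L.Z := fun x => if hx : (x, 0) ∈ h.target then ⟨_, hZ x hx⟩ else m with hinv
  have hi : ∀ x, (x, 0) ∈ h.target → (inv x : A) = h.symm (x, 0) := fun x hx => by
    simp only [hinv, dif_pos hx]
  have ho : IsOpen {x : E n | (x, (0 : W)) ∈ h.target} :=
    h.open_target.preimage (by fun_prop)
  let e : Ch L.Z (E n) :=
    { toFun := fun z => q z
      invFun := inv
      source := {z | (z : A) ∈ h.source}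
      target := {x | (x, 0) ∈ h.target}
      map_source' := fun z hz' => by
        show (q z, 0) ∈ h.target
        rw [← hz]; exact h.map_source hz'
      map_target' := fun x hx => by
        show (inv x : A) ∈ h.source
        rw [hi x hx]; exact h.map_target hx
      left_inv' := fun z hz' => by
        have : (q z, 0) ∈ h.target := by rw [← hz]; exact h.map_source hz'
        refine Subtype.ext ?_
        rw [hi _ this, ← hz, h.left_inv hz']
      right_inv' := fun x hx => by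
        show q (inv x) = x
        rw [hi x hx]
        exact congrArg Prod.fst ((hc _).symm.trans (h.right_inv hx))
      open_source := h.open_source.preimage continuous_subtype_val
      open_target := ho
      continuousOn_toFun := (q.continuous.comp continuous_subtype_val).continuousOn
      continuousOn_invFun := by
        rw [Topology.IsInducing.subtypeVal.continuousOn_iff]
        exact (h.continuousOn_symm.comp (f := fun x : E n => (x, (0 : W))) (by fun_prop)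
          fun x hx => hx).congr fun x hx => hi x hx }
  refine ⟨e, ⟨q, fun y _ => rfl, fun x hx => ?_, fun y hy => (hs _ hy).2⟩,
    (hΘs m hm).mem_toOpenPartialHomeomorph_source hT (by simp), hm⟩
  obtain ⟨T', hT'⟩ := hΘd _ (hs _ (h.map_target hx))
  have h1 := h.contDiffAt_symm hx hT' (hΘs _ (hs _ (h.map_target hx)))
  refine (h1.comp x (f := fun x : E n => (x, (0 : W))) (by fun_prop)).congr_of_eventuallyEq ?_
  filter_upwards [ho.mem_nhds hx] with x' hx' using hi x' hx'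

theorem good_trans {Y' : Type} [TopologicalSpace Y'] {p : Y → L.Z} {p' : Y' → L.Z}
    (φ : OpenPartialHomeomorph Y' Y) (hφ : ∀ y ∈ φ.source, p (φ y) = p' y) {e : Ch Y (E n)}
    (he : e ∈ L.Good p) : φ.trans e ∈ L.Good p' := by
  obtain ⟨q, h⟩ := he
  refine ⟨q, fun y hy => ?_, fun x hx => ?_, fun y hy => ?_⟩
  · rw [← hφ y hy.1]; exact h.eq _ hy.2
  · refine (h.smooth x hx.1).congr_of_eventuallyEq ?_
    filter_upwards [(φ.trans e).open_target.mem_nhds hx] with x' hx'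
    have := hφ _ (φ.map_target hx'.2)
    rw [φ.right_inv hx'.2] at this
    exact congrArg Subtype.val this.symm
  · rw [← hφ y hy.1]; exact h.pos _ hy.2

theorem exists_chart {p : Y → L.Z} (hp : IsLocalHomeomorph p) (y : Y) :
    ∃ e ∈ L.Good p, y ∈ e.source := by
  obtain ⟨φ, hy, rfl⟩ := hp y
  obtain ⟨e, he, hm⟩ := exists_chart_Z (φ y)
  exact ⟨_, good_trans φ (fun _ _ => rfl) he, hy, hm⟩

theorem sys {p : Y → L.Z} (hp : IsLocalHomeomorph p) : Sys (L.Good p) :=
  ⟨exists_chart hp, fun _ ⟨_, h⟩ _ ⟨_, h'⟩ _ hy hy' =>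
    (h.trans_smooth h' hy hy').of_le (by simp), fun _ ⟨_, h⟩ _ ⟨_, h'⟩ _ hy hy' =>
    h.tdet_pos h' hy hy'⟩

theorem good_restr {p : Y → L.Z} {e : Ch Y (E n)} (he : e ∈ L.Good p) {U : Set Y} (hU : IsOpen U) :
    e.restrOpen U hU ∈ L.Good p := by
  obtain ⟨q, h⟩ := he
  exact ⟨q, fun y hy => h.eq y hy.1, fun x hx => h.smooth x hx.1, fun y hy => h.pos y hy.1⟩

theorem good_lift {Y₀ : Type} [TopologicalSpace Y₀] {p : Y → L.Z} {j : Y₀ → Y}
    (hj : IsOpenEmbedding j) {e : Ch Y₀ (E n)} (he : e ∈ L.Good (p ∘ j)) :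
    e.lift_openEmbedding hj ∈ L.Good p := by
  obtain ⟨q, h⟩ := he
  refine ⟨q, ?_, h.smooth, ?_⟩
  · rintro _ ⟨y, hy, rfl⟩
    rw [e.lift_openEmbedding_apply]; exact h.eq y hy
  · rintro _ ⟨y, hy, rfl⟩
    exact h.pos y hy

theorem locConn {p : Y → L.Z} (hp : IsLocalHomeomorph p) : LocallyConnectedSpace Y := by
  choose e he hy using exists_chart hp
  let : ChartedSpace (E n) Y := ⟨L.Good p, e, hy, he⟩
  exact ChartedSpace.locallyConnectedSpace (E n) Y

theorem ker_curve {p : Y → L.Z} {e : Ch Y (E n)} (he : e ∈ L.Good p) {y : Y} (hy : y ∈ e.source)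
    {r : Y → Y → Prop} {γ : ℝ → Y} (hγ : ContinuousAt γ 0) (h0 : γ 0 = y) {w : A} (hw : w ≠ 0)
    (hd : HasDerivAt (fun s => (p (γ s) : A)) w 0) (hr : ∀ᶠ s in 𝓝 0, r y (γ s)) : Ker e y r := by
  obtain ⟨q, h⟩ := he
  have hF : HasFDerivAt L.F (fderiv ℝ L.F (p y)) (p (γ 0)) := by
    rw [h0]; exact ((L.smooth _ (p y).2.1).differentiableAt (by simp)).hasFDerivAt
  have h1 := (hF.comp_hasDerivAt (f := fun s => (p (γ s) : A)) 0 hd).deriv
  have h2 : (L.F ∘ fun s => (p (γ s) : A)) = fun _ => 0 := funext fun x => (p _).2.2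
  rw [h2, deriv_const] at h1
  refine ⟨q w, fun h3 => hw (by rw [← h.sec hy h1.symm, h3, map_zero]), fun F _ _ g hg => ?_⟩
  by_cases hd' : DifferentiableAt ℝ (g ∘ e.symm) (e y)
  · have hs : ∀ᶠ s in 𝓝 0, γ s ∈ e.source := hγ.eventually (h0 ▸ e.open_source.mem_nhds hy)
    have h3 : HasDerivAt (fun s => q (p (γ s))) (q w) 0 := q.hasFDerivAt.comp_hasDerivAt 0 hd
    have h4 : HasFDerivAt (g ∘ e.symm) (fderiv ℝ (g ∘ e.symm) (e y)) (q (p (γ 0))) := by
      rw [h0, ← h.eq y hy]; exact hd'.hasFDerivAt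
    have h5 := (h4.comp_hasDerivAt (f := fun s => q (p (γ s))) 0 h3).deriv
    have h6 : ((g ∘ e.symm) ∘ fun s => q (p (γ s))) =ᶠ[𝓝 0] fun _ => g y := by
      filter_upwards [hs, hr] with s h7 h8
      simp only [Function.comp, ← h.eq _ h7, e.left_inv h7]
      exact (hg _ _ h8).symm
    rw [h6.deriv_eq, deriv_const] at h5
    exact h5.symm
  · rw [fderiv_zero_of_not_differentiableAt hd']; rfl

theorem ker_refl {p : Y → L.Z} {e : Ch Y (E n)} (he : e ∈ L.Good p) {y : Y} (hy : y ∈ e.source)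
    {r : Y → Y → Prop} {ρ : Y → Y} (hρ : ContinuousAt ρ y) (h0 : ρ y = y) (R : A →L[ℝ] A)
    (hR : ∀ᶠ z in 𝓝 y, (p (ρ z) : A) = R (p z) ∧ r z (ρ z)) {w : A} (hw : w ≠ 0) (hRw : R w = -w)
    (hF : L.F ∘ R =ᶠ[𝓝 (p y : A)] L.F) : Ker e y r := by
  obtain ⟨q, h⟩ := he
  have hy0 : R (p y) = p y := by rw [← hR.self_of_nhds.1, h0]
  have neg : ∀ {F : Type} [NormedAddCommGroup F] [NormedSpace ℝ F] {a : F}, a = -a → a = 0 := by
    intro F _ _ a ha
    have : (2 : ℝ) • a = 0 := by rw [two_smul]; exact eq_neg_iff_add_eq_zero.1 ha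
    simpa using this
  have h1 : fderiv ℝ L.F (p y) w = 0 := by
    have h2 : HasFDerivAt L.F (fderiv ℝ L.F (p y)) (R (p y)) := by
      rw [hy0]; exact ((L.smooth _ (p y).2.1).differentiableAt (by simp)).hasFDerivAt
    have h3 := (h2.comp _ R.hasFDerivAt).fderiv
    rw [hF.fderiv_eq] at h3
    refine neg ?_
    conv_lhs => rw [h3]
    simp [hRw]
  refine ⟨q w, fun h3 => hw (by rw [← h.sec hy h1, h3, map_zero]), fun F _ _ g hg => ?_⟩
  by_cases hd' : DifferentiableAt ℝ (g ∘ e.symm) (e y)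
  · have hs : ∀ᶠ z in 𝓝 y, ρ z ∈ e.source := 
      hρ.eventually (e.open_source.mem_nhds (by rwa [h0]))
    have h3 := (q.comp R).hasFDerivAt.comp _ (h.hasFDerivAt hy)
    have h4 : HasFDerivAt (g ∘ e.symm) (fderiv ℝ (g ∘ e.symm) (e y))
        (((q.comp R) ∘ fun x => (p (e.symm x) : A)) (e y)) := by
      simp only [Function.comp, e.left_inv hy, ContinuousLinearMap.comp_apply, hy0, ← h.eq y hy]
      exact hd'.hasFDerivAt
    have h5 := (h4.comp _ h3).fderiv
    have h6 : ((g ∘ e.symm) ∘ (q.comp R) ∘ fun x => (p (e.symm x) : A)) =ᶠ[𝓝 (e y)]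
        g ∘ e.symm := by
      filter_upwards [eventually_chart hy (hs.and hR)] with x hx
      simp only [Function.comp, ContinuousLinearMap.comp_apply, ← hx.2.1, ← h.eq _ hx.1,
        e.left_inv hx.1]
      exact (hg _ _ hx.2.2).symm
    rw [h6.fderiv_eq] at h5
    refine neg ?_
    conv_lhs => rw [h5]
    simp [h.sec hy h1, hRw]
  · rw [fderiv_zero_of_not_differentiableAt hd']; rfl

end Lev

section ALip

variable {Y X B C : Type} [TopologicalSpace Y] [PseudoMetricSpace X] [PseudoMetricSpace B]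
  [PseudoMetricSpace C]

/-- Lipschitz near a point, for the distance of the base. -/
def ALipAt (P : Y → X) (c : ℝ) (g : Y → B) (y : Y) : Prop :=
  ∀ᶠ z in 𝓝 y ×ˢ 𝓝 y, dist (g z.1) (g z.2) ≤ c * dist (P z.1) (P z.2)

theorem ev_prod {y : Y} {Q : Y → Prop} (h : ∀ᶠ z in 𝓝 y, Q z) :
    ∀ᶠ z in 𝓝 y ×ˢ 𝓝 y, Q z.1 ∧ Q z.2 := h.prod_mk h

theorem ALipAt.mono {P : Y → X} {c c' : ℝ} {g : Y → B} {y : Y} (h : ALipAt P c g y)
    (hc : c ≤ c') : ALipAt P c' g y :=
  Eventually.mono h fun _ hz => hz.trans (mul_le_mul_of_nonneg_right hc dist_nonneg)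

theorem ALipAt.congr {P : Y → X} {c : ℝ} {g g' : Y → B} {y : Y} (h : ALipAt P c g y)
    (hg : g =ᶠ[𝓝 y] g') : ALipAt P c g' y := by
  filter_upwards [h, ev_prod hg] with z hz hz'
  rwa [← hz'.1, ← hz'.2]

theorem aLipAt_const (P : Y → X) (b : B) (y : Y) : ALipAt P 0 (fun _ => b) y :=
  Eventually.of_forall fun z => by simp

theorem aLipAt_self (P : Y → X) (y : Y) : ALipAt P 1 P y :=
  Eventually.of_forall fun z => by simp

theorem ALipAt.continuousAt {P : Y → X} {c : ℝ} {g : Y → B} {y : Y} (h : ALipAt P c g y)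
    (hP : ContinuousAt P y) : ContinuousAt g y := by
  have h1 : ∀ᶠ z in 𝓝 y, dist (g z) (g y) ≤ c * dist (P z) (P y) :=
    (tendsto_id.prodMk (tendsto_const_nhds (x := y))).eventually h
  rw [ContinuousAt, tendsto_iff_dist_tendsto_zero]
  refine squeeze_zero' (Eventually.of_forall fun _ => dist_nonneg) h1 ?_
  simpa using (tendsto_iff_dist_tendsto_zero.1 hP).const_mul c

theorem ALipAt.comp {P : Y → X} {c : ℝ} {g : Y → B} {y : Y} (h : ALipAt P c g y)
    (hP : ContinuousAt P y) {G : B → C} {K : NNReal} {t : Set B} (hG : LipschitzOnWith K G t)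
    (ht : t ∈ 𝓝 (g y)) : ALipAt P (K * c) (fun z => G (g z)) y := by
  filter_upwards [h, ev_prod ((h.continuousAt hP).eventually ht)] with z hz hz'
  refine (hG.dist_le_mul _ hz'.1 _ hz'.2).trans ?_
  rw [mul_assoc]
  exact mul_le_mul_of_nonneg_left hz K.2

theorem ALipAt.prodMk {P : Y → X} {c : ℝ} {g : Y → B} {g' : Y → C} {y : Y} (h : ALipAt P c g y)
    (h' : ALipAt P c g' y) : ALipAt P c (fun z => (g z, g' z)) y := by
  filter_upwards [h, h'] with z hz hz' using max_le hz hz'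

theorem ALipAt.trans {Y' X' : Type} [TopologicalSpace Y'] [PseudoMetricSpace X'] {P : Y → X}
    {P' : Y' → X'} {c c' : ℝ} {g : Y → B} {j : Y' → Y} {y : Y'} (h : ALipAt P c g (j y))
    (hc : 0 ≤ c) (hj : ContinuousAt j y) (h' : ALipAt P' c' (fun z => P (j z)) y) :
    ALipAt P' (c * c') (fun z => g (j z)) y := by
  filter_upwards [(hj.tendsto.prodMap hj.tendsto).eventually h, h'] with z hz hz'
  refine hz.trans ?_
  rw [mul_assoc]
  exact mul_le_mul_of_nonneg_left hz' hc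

theorem ALipAt.eventually {P : Y → X} {c : ℝ} {g : Y → B} {y : Y} (h : ALipAt P c g y) :
    ∀ᶠ y' in 𝓝 y, ALipAt P c g y' := by
  obtain ⟨t, ht, h⟩ := mem_prod_self_iff.1 h
  filter_upwards [eventually_mem_nhds_iff.2 ht] with y' hy'
  exact mem_prod_self_iff.2 ⟨t, hy', h⟩

/-- Lipschitz near a point with some constant. -/
def AL (P : Y → X) (g : Y → B) (y : Y) : Prop := ∃ c, 0 ≤ c ∧ ALipAt P c g y

theorem ALipAt.al {P : Y → X} {c : ℝ} {g : Y → B} {y : Y} (h : ALipAt P c g y) : AL P g y :=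
  ⟨max c 0, le_max_right _ _, h.mono (le_max_left _ _)⟩

theorem AL.congr {P : Y → X} {g g' : Y → B} {y : Y} (h : AL P g y) (hg : g =ᶠ[𝓝 y] g') :
    AL P g' y := let ⟨_, _, h⟩ := h; (h.congr hg).al

theorem al_const (P : Y → X) (b : B) (y : Y) : AL P (fun _ => b) y := (aLipAt_const P b y).al

theorem AL.continuousAt {P : Y → X} {g : Y → B} {y : Y} (h : AL P g y) (hP : ContinuousAt P y) :
    ContinuousAt g y := let ⟨_, _, h⟩ := h; h.continuousAt hP

theorem AL.comp {P : Y → X} {g : Y → B} {y : Y} (h : AL P g y) (hP : ContinuousAt P y)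
    {G : B → C} (hG : LipAt G (g y)) : AL P (fun z => G (g z)) y :=
  let ⟨_, _, h⟩ := h; let ⟨_, _, ht, hG⟩ := hG; (h.comp hP hG ht).al

theorem al_amb {P : Y → X} {y : Y} (hP : ContinuousAt P y) {G : X → C} (hG : LipAt G (P y)) :
    AL P (fun z => G (P z)) y := (aLipAt_self P y).al.comp hP hG

theorem AL.prodMk {P : Y → X} {g : Y → B} {g' : Y → C} {y : Y} (h : AL P g y) (h' : AL P g' y) :
    AL P (fun z => (g z, g' z)) y :=
  let ⟨c, _, h⟩ := h; let ⟨c', _, h'⟩ := h'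
  ((h.mono (le_max_left c c')).prodMk (h'.mono (le_max_right c c'))).al

theorem AL.trans {Y' X' : Type} [TopologicalSpace Y'] [PseudoMetricSpace X'] {P : Y → X}
    {P' : Y' → X'} {g : Y → B} {j : Y' → Y} {y : Y'} (h : AL P g (j y))
    (hj : ContinuousAt j y) (h' : AL P' (fun z => P (j z)) y) : AL P' (fun z => g (j z)) y :=
  let ⟨_, hc, h⟩ := h; let ⟨_, _, h'⟩ := h'; (h.trans hc hj h').al

theorem exists_unif {P : Y → X} {g : Y → B} {K : Set Y} (hK : IsCompact K)
    (h : ∀ y ∈ K, AL P g y) : ∃ c, 0 ≤ c ∧ ∀ y ∈ K, ALipAt P c g y := by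
  refine hK.induction_on (p := fun K => ∃ c, 0 ≤ c ∧ ∀ y ∈ K, ALipAt P c g y)
    ⟨0, le_rfl, by simp⟩ (fun s t hst ⟨c, hc, h⟩ => ⟨c, hc, fun y hy => h y (hst hy)⟩)
    (fun s t ⟨c, hc, h⟩ ⟨c', _, h'⟩ => ⟨max c c', le_max_of_le_left hc, fun y hy => ?_⟩)
    fun y hy => ?_
  · rcases hy with hy | hy
    · exact (h y hy).mono (le_max_left _ _)
    · exact (h' y hy).mono (le_max_right _ _)
  · obtain ⟨c, hc, h⟩ := h y hy
    exact ⟨_, mem_nhdsWithin_of_mem_nhds h.eventually, c, hc, fun _ h => h⟩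

variable {F : Type} [NormedAddCommGroup F] [NormedSpace ℝ F]

theorem AL.add {P : Y → X} {g g' : Y → F} {y : Y} (hP : ContinuousAt P y) (h : AL P g y)
    (h' : AL P g' y) : AL P (fun z => g z + g' z) y :=
  (h.prodMk h').comp hP (G := fun p : F × F => p.1 + p.2) (ContDiffAt.lipAt (by fun_prop))

theorem AL.sub {P : Y → X} {g g' : Y → F} {y : Y} (hP : ContinuousAt P y) (h : AL P g y)
    (h' : AL P g' y) : AL P (fun z => g z - g' z) y :=
  (h.prodMk h').comp hP (G := fun p : F × F => p.1 - p.2) (ContDiffAt.lipAt (by fun_prop))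

theorem AL.smul {P : Y → X} {g : Y → ℝ} {g' : Y → F} {y : Y} (hP : ContinuousAt P y)
    (h : AL P g y) (h' : AL P g' y) : AL P (fun z => g z • g' z) y :=
  (h.prodMk h').comp hP (G := fun p : ℝ × F => p.1 • p.2) (ContDiffAt.lipAt (by fun_prop))

theorem AL.nrm {P : Y → X} {g : Y → F} {y : Y} (hP : ContinuousAt P y) (h : AL P g y)
    (h0 : g y ≠ 0) : AL P (fun z => nrm (g z)) y :=
  h.comp hP (G := MP_4b70aa_gt.nrm) (LipAt.nrm (LipschitzWith.lipAt LipschitzWith.id _) h0)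

theorem AL.sum {ι : Type} (s : Finset ι) {P : Y → X} {g : ι → Y → F} {y : Y}
    (hP : ContinuousAt P y) (h : ∀ i ∈ s, AL P (g i) y) : AL P (fun z => ∑ i ∈ s, g i z) y := by
  classical
  induction s using Finset.induction_on with
  | empty => simpa using al_const P (0 : F) y
  | insert a s ha ih =>
    simp only [Finset.sum_insert ha]
    exact (h a (Finset.mem_insert_self _ _)).add hP
      (ih fun i hi => h i (Finset.mem_insert_of_mem hi))

theorem Lev.locLip {L : Lev n A W} {p : Y → L.Z} {g : Y → B} (h : ∀ y, AL p g y) :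
    LocLip (L.Good p) g := by
  rintro e ⟨q, he⟩ y hy
  obtain ⟨K, t, ht, hK⟩ := ContDiffAt.lipAt ((he.smooth _ (e.map_source hy)).of_le (by simp))
  obtain ⟨c, hc, h⟩ := h y
  have h1 : ALipAt p c g (e.symm (e y)) := by rwa [e.left_inv hy]
  have h2 : ALipAt id K (fun x => p (e.symm x)) (e y) := by
    filter_upwards [ev_prod ht] with z hz using hK.dist_le_mul _ hz.1 _ hz.2
  obtain ⟨u, hu, h3⟩ := mem_prod_self_iff.1
    (h1.trans hc (e.continuousAt_symm (e.map_source hy)) h2)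
  exact ⟨⟨c * K, by positivity⟩, u, hu, LipschitzOnWith.of_dist_le_mul fun a ha b hb =>
    h3 (mk_mem_prod ha hb)⟩

end ALip

section sign

variable {Y : Type} [TopologicalSpace Y] {V : Type} [NormedAddCommGroup V] [NormedSpace ℝ V]
  [FiniteDimensional ℝ V] [MeasurableSpace V] [BorelSpace V]

theorem tdet_trans {e e' e'' : Ch Y V} {y : Y} (hy : y ∈ e.source) (hy' : y ∈ e'.source)
    (hd : Dif e e' y) : tdet e e'' y = tdet e' e'' y * tdet e e' y := by
  rw [tdet, fderiv_chart e'' hy hy' hd, clm_det_comp]; rfl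

theorem exists_sign [PreconnectedSpace Y] {𝒜 ℬ : Set (Ch Y V)} (hA : Sys 𝒜) (hB : Sys ℬ)
    (h1 : ∀ e ∈ 𝒜, ∀ c ∈ ℬ, ∀ y ∈ e.source, y ∈ c.source →
      ContDiffAt ℝ 1 (c ∘ e.symm) (e y) ∧ DifferentiableAt ℝ (e ∘ c.symm) (c y)) :
    ∃ s : ℝ, (s = 1 ∨ s = -1) ∧ ∀ e ∈ 𝒜, ∀ c ∈ ℬ, Compat s e c := by
  have hd : ∀ e ∈ 𝒜, ∀ c ∈ ℬ, ∀ y ∈ e.source, y ∈ c.source → Dif e c y := fun e he c hc y hy hy' =>
    ⟨(h1 e he c hc y hy hy').1.differentiableAt one_ne_zero, (h1 e he c hc y hy hy').2⟩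
  set S : ℝ → Set Y := fun s => {y | ∀ e ∈ 𝒜, ∀ c ∈ ℬ, y ∈ e.source → y ∈ c.source →
    0 < s * tdet e c y} with hS
  have key : ∀ s, ∀ e ∈ 𝒜, ∀ c ∈ ℬ, ∀ y ∈ e.source, y ∈ c.source → 0 < s * tdet e c y →
      y ∈ S s := by
    intro s e he c hc y hy hy' h e' he' c' hc' hz hz'
    rw [tdet_trans hz hy (hA.dif he' he hz hy), tdet_trans hy hy' (hd e he c hc y hy hy')]
    have := mul_pos (mul_pos h (hA.pos e' he' e he y hz hy)) (hB.pos c hc c' hc' y hy' hz')
    linarith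
  have hopen : ∀ s, IsOpen (S s) := by
    intro s
    rw [isOpen_iff_mem_nhds]
    intro y hy
    obtain ⟨e, he, hye⟩ := hA.cover y
    obtain ⟨c, hc, hyc⟩ := hB.cover y
    have h2 : ContinuousAt (fun z => s * tdet e c z) y :=
      continuousAt_const.mul (ContinuousLinearMap.continuous_det.continuousAt.comp
        (((h1 e he c hc y hye hyc).1.continuousAt_fderiv one_ne_zero).comp (e.continuousAt hye)))
    filter_upwards [h2.eventually (lt_mem_nhds (hy e he c hc hye hyc)),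
      e.open_source.mem_nhds hye, c.open_source.mem_nhds hyc] with z h3 h4 h5
      using key s e he c hc z h4 h5 h3
  have hun : ∀ y, y ∈ S 1 ∨ y ∈ S (-1) := by
    intro y
    obtain ⟨e, he, hye⟩ := hA.cover y
    obtain ⟨c, hc, hyc⟩ := hB.cover y
    have h0 : tdet e c y ≠ 0 := fun h => by
      simpa [h] using tdet_mul hye hyc (hd e he c hc y hye hyc)
    rcases h0.lt_or_gt with h | h
    · exact Or.inr (key _ e he c hc y hye hyc (by linarith))
    · exact Or.inl (key _ e he c hc y hye hyc (by linarith))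
  have hdis : Disjoint (S 1) (S (-1)) := by
    rw [Set.disjoint_left]
    intro y h h'
    obtain ⟨e, he, hye⟩ := hA.cover y
    obtain ⟨c, hc, hyc⟩ := hB.cover y
    linarith [h e he c hc hye hyc, h' e he c hc hye hyc]
  rcases isPreconnected_univ.subset_or_subset (hopen 1) (hopen (-1)) hdis (fun y _ => hun y)
    with h | h
  · exact ⟨1, Or.inl rfl, fun e he c hc y hy hy' =>
      ⟨hd e he c hc y hy hy', h (mem_univ y) e he c hc hy hy'⟩⟩
  · exact ⟨-1, Or.inr rfl, fun e he c hc y hy hy' =>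
      ⟨hd e he c hc y hy hy', h (mem_univ y) e he c hc hy hy'⟩⟩

end sign

end Pool.Agent.Lib.MP_4b70aa_gt
end
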