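import Pool.Agent.Lib.MP_4b70aa_gt.Data

-- part Pool.Agent.Lib.MP_4b70aa_gt.Grp
section

set_option autoImplicit false
set_option linter.unusedSectionVars false

open Filter Set Topology Complex
open scoped ContDiff ComplexConjugate

namespace Pool.Agent.Lib.MP_4b70aa_gt

theorem ex_neg (t : ℝ) : ex (-t) = conj (ex t) := by simpa using (ex_mul_conj 0 t).symm

theorem ex_pair {a b : ℝ} (n : ℤ) (h : a + b = 1 / 2 + n ∨ a - b = 1 / 2 + n) :
    (ex a).re + (ex b).re = 0 := by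
  rcases h with h | h
  · rw [show a = 1 / 2 + -b + n by linarith, ex_add_int, ex_add, ex_half, ex_neg]; simp
  · rw [show a = 1 / 2 + b + n by linarith, ex_add_int, ex_add, ex_half]; simp

theorem Rel.mono {Y X A V : Type} [TopologicalSpace Y] [TopologicalSpace A] [TopologicalSpace V]
    {p : Y → X} {Q Q' : Set V} {J : V → A → X} {q q' : V} {l l' : A → Y} (h : Rel p Q J q q' l l')
    (hQ : Q' ⊆ Q) : Rel p Q' J q q' l l' :=
  let ⟨s, h1, h2, h3⟩ := h; ⟨s, h1.mono (prod_mono_left hQ), fun q hq => h2 q (hQ hq), h3⟩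

namespace Cx

variable {V : Type} [Fintype V] [DecidableEq V] {X : Cx V}

/-- The phase of the cone section. -/
noncomputable def ang (l : V) (w : V → ℝ) : ℝ := (X.k l : ℕ) / 4 + lg (X.ch2 w * conj (X.om l))

theorem ex_k (l : V) : ex ((X.k l : ℕ) / 4) = X.om l := by
  unfold om
  induction (X.k l : ℕ) with
  | zero => simp
  | succ n h => rw [Nat.cast_succ, add_div, ex_add, h, ex_quarter, pow_succ]

theorem ex_ang (l : V) {w : V → ℝ} (h : X.ch2 w ≠ 0) :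
    ex (X.ang l w) = (‖X.ch2 w‖⁻¹ : ℝ) * X.ch2 w := by
  have h1 := ex_lg' (X.ch2 w * conj (X.om l))
  have h2 : ‖X.om l‖ = 1 := by simp [om]
  have h3 : X.om l * conj (X.om l) = 1 := by rw [mul_conj, om_normSq, ofReal_one]
  have h4 : (‖X.ch2 w‖ : ℂ) ≠ 0 := by simpa using h
  rw [norm_mul, norm_conj, h2, mul_one] at h1
  rw [ang, ex_add, ex_k, ofReal_inv, eq_inv_mul_iff_mul_eq₀ h4]
  linear_combination X.om l * h1 + X.ch2 w * h3

theorem sec_C (l : V) {x : X.κ → Fin 3 → ℝ} {w : V → ℝ} (h1 : X.sg1 (Ex x) ≤ 0) (h2 : X.sg2 w ≤ 0)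
    (h : X.ch2 w ≠ 0) : X.sec X.C x w = ex (X.ang l w) • Zs (x X.b₀ 0) (x X.b₀ 1) := by
  rw [sec, if_pos rfl, nv_of_nonpos _ h2, ex_ang l h]
  exact Prod.ext (mul_comm _ _) (by simp [Zs_snd h1])

theorem ang_sub {l l' : V} (hl : l ≠ X.C) (hl' : l' ≠ X.C) (hF : X.Face {X.C, l, l'}) {w : V → ℝ}
    (h : 0 < (X.ch2 w * conj (X.om l)).re) (h' : 0 < (X.ch2 w * conj (X.om l')).re) :
    X.ang l w = X.ang l' w + X.dl l l' X.C := by
  have h0 : X.ch2 w ≠ 0 := fun e => by simp [e] at h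
  obtain ⟨n, hn⟩ := ex_eq_iff.1 ((ex_ang l h0).trans (ex_ang l' h0).symm)
  have h1 := abs_lt.1 (abs_lg_lt h)
  have h2 := abs_lt.1 (abs_lg_lt h')
  have h3 := X.adj l l' hl hl' hF
  have h4 := X.adj l' l hl' hl (by rwa [Finset.pair_comm l'])
  rw [hn]
  unfold ang at hn
  have h5 : 4 * n < (X.k l : ℕ) - (X.k l' : ℕ) + 2 := by
    exact_mod_cast (show (4 : ℝ) * n < (X.k l : ℕ) - (X.k l' : ℕ) + 2 by linarith)
  have h6 : ((X.k l : ℕ) : ℤ) - (X.k l' : ℕ) - 2 < 4 * n := by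
    exact_mod_cast (show ((X.k l : ℕ) : ℝ) - (X.k l' : ℕ) - 2 < 4 * n by linarith)
  simp only [ne_eq, Fin.ext_iff, Fin.val_add, Fin.coe_ofNat_eq_mod] at h3 h4
  have := (X.k l).2
  have := (X.k l').2
  simp only [dl, a0, hl, hl', if_true, if_false]
  congr 2
  omega

theorem ang_smooth {k : ℕ∞} {l : V} {w : V → ℝ} (h : 0 < (X.ch2 w * conj (X.om l)).re) :
    ContDiffAt ℝ k (X.ang l) w :=
  contDiffAt_const.add ((lg_smooth (Or.inl h)).comp w (f := fun w => X.ch2 w * conj (X.om l))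
    (by fun_prop))

/-- The base point. -/
noncomputable def q₀ (X : Cx V) : XT X.κ := (fun _ _ => 1 / 4, 0)

/-- The cover of the fibre. -/
def A0 (X : Cx V) : Set (XT X.κ) := connectedComponentIn {q | X.Ph (Ex q.1) = 0} X.q₀

theorem q₀_mem : X.q₀ ∈ X.A0 := mem_connectedComponentIn (by
  ext b; simp only [Ph, Ex, q₀, ex_quarter]; simp)

theorem A0.ph {q : XT X.κ} (h : q ∈ X.A0) : X.Ph (Ex q.1) = 0 :=
  connectedComponentIn_subset {q : XT X.κ | X.Ph (Ex q.1) = 0} _ h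

theorem A0_of {T : Set (XT X.κ)} (hT : IsPreconnected T) (h : ∀ q ∈ T, X.Ph (Ex q.1) = 0)
    {q : XT X.κ} (hq : q ∈ T) (h' : q ∈ X.A0) : T ⊆ X.A0 := by
  rw [A0, connectedComponentIn_eq h']
  exact hT.subset_connectedComponentIn hq h

theorem A0_line {q : XT X.κ} (h : q ∈ X.A0) (d : XT X.κ)
    (h' : ∀ t : ℝ, X.Ph (Ex (q + t • d).1) = 0) : q + d ∈ X.A0 :=
  A0_of (isPreconnected_range (f := fun t : ℝ => q + t • d) (by fun_prop))
    (by rintro _ ⟨t, rfl⟩; exact h' t) ⟨0, by simp⟩ h ⟨1, by simp⟩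

theorem A0_shift {q : XT X.κ} (h : q ∈ X.A0) (t : ℝ) : (q.1, q.2 + t) ∈ X.A0 := by
  convert A0_line h (0, t) fun s => by simpa using A0.ph h using 1
  simp [Prod.ext_iff]

theorem A0_smul' {l : X.Λ} {q : XT X.κ} (h : q ∈ X.A0) (h' : l • q ∈ X.A0) {r : XT X.κ}
    (hr : r ∈ X.A0) : l • r ∈ X.A0 :=
  A0_of (isPreconnected_connectedComponentIn.image _ (l.smooth (k := 0)).continuous.continuousOn)
    (by rintro _ ⟨r, hr, rfl⟩; exact Ex_smul l r ▸ A0.ph hr) ⟨q, h, rfl⟩ h' ⟨r, hr, rfl⟩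

theorem A0_smul (l : X.Λ) {q : XT X.κ} (h : q ∈ X.A0) : l • q ∈ X.A0 := by
  classical
  have e : ∀ l l' : X.Λ, l.m = l'.m → l • X.q₀ ∈ X.A0 → l' • X.q₀ ∈ X.A0 := fun l l' h h' => by
    convert A0_shift h' ((l' • X.q₀).2 - (l • X.q₀).2) using 1
    exact Prod.ext (funext₂ fun _ _ => by simp [Lam.smul_fst, h]) (by simp)
  let M : AddSubgroup (X.κ → Fin 3 → ℤ) :=
    { carrier := {m | (⟨m, 0⟩ : X.Λ) • X.q₀ ∈ X.A0}
      zero_mem' := e 1 _ rfl (by rw [one_smul]; exact q₀_mem)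
      add_mem' := fun {a b} ha hb => e (⟨a, 0⟩ * ⟨b, 0⟩) _ rfl
        (by rw [mul_smul]; exact A0_smul' q₀_mem ha hb)
      neg_mem' := fun {a} ha => e (⟨a, 0⟩ : X.Λ)⁻¹ _ rfl
        (A0_smul' ha (by rw [inv_smul_smul]; exact q₀_mem) q₀_mem) }
  have step : ∀ (b : X.κ) (y d : Fin 3 → ℝ), (∀ t : ℝ, ∑ c, (ex (1 / 4 + y c + t * d c)).re = 0) →
      X.q₀ + (Pi.single b y, 0) ∈ X.A0 → X.q₀ + (Pi.single b (y + d), 0) ∈ X.A0 := by
    intro b y d h1 h2
    convert A0_line h2 (Pi.single b d, 0) fun t => funext fun a => ?_ using 1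
    · simp [Pi.single_add, add_assoc]
    by_cases ha : a = b
    · subst ha; simpa [Ph, Ex, q₀] using h1 t
    · simp only [Ph, Ex, q₀, Prod.fst_add, Prod.smul_fst, Pi.add_apply, Pi.smul_apply,
        Pi.single_eq_of_ne ha, Pi.zero_apply, smul_zero, add_zero, ex_quarter]
      simp
  have fin : ∀ (b : X.κ) (m : Fin 3 → ℤ), X.q₀ + (Pi.single b fun c => (m c : ℝ), 0) ∈ X.A0 →
      Pi.single b m ∈ M := fun b m h => by
    change _ ∈ X.A0
    convert A0_shift h ((⟨Pi.single b m, 0⟩ : X.Λ) • X.q₀).2 using 1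
    refine Prod.ext (funext₂ fun a c => ?_) (by simp [q₀])
    by_cases ha : a = b
    · subst ha; simp [Lam.smul_fst]
    · simp [Lam.smul_fst, ha]
  have q4 : ∀ (n : ℤ) (a : ℝ), a + a = 1 / 2 + n → (ex a).re = 0 := fun n a h => by
    linarith [ex_pair n (Or.inl h)]
  have top : ∀ b c, Pi.single b (Pi.single c 1) ∈ M := fun b c => by
    have s0 : X.q₀ + (Pi.single b 0, 0) ∈ X.A0 := by simpa [Prod.mk_zero_zero] using q₀_mem
    have s1 : ∀ r : ℝ, X.q₀ + (Pi.single b (0 + ![r, -r, 0]), 0) ∈ X.A0 := fun r =>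
      step b _ _ (fun t => by
        rw [Fin.sum_univ_three, ex_pair 0 (Or.inl (by simp; ring)), q4 0 _ (by simp; ring),
          add_zero]) s0
    have s2 := step b _ ![1, 0, -1] (fun t => by
      rw [Fin.sum_univ_three, add_right_comm, ex_pair 0 (Or.inl (by simp; ring)),
        q4 0 _ (by simp; ring), add_zero]) s0
    have s3 := step b _ ![1 / 2, 0, -(1 / 2)] (fun t => by
      rw [Fin.sum_univ_three, add_right_comm, ex_pair 1 (Or.inl (by simp; ring)),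
        q4 0 _ (by simp; ring), add_zero]) (step b _ ![0, 1 / 2, 1 / 2] (fun t => by
      rw [Fin.sum_univ_three, add_assoc, ex_pair (-1) (Or.inr (by simp; ring)),
        q4 1 _ (by simp; ring), add_zero]) (s1 (1 / 2)))
    have t1 := fin b ![1, -1, 0] (by convert s1 1 using 4; ext c; fin_cases c <;> simp)
    have t2 := fin b ![1, 0, -1] (by convert s2 using 4; ext c; fin_cases c <;> simp)
    have t3 := fin b ![1, 0, 0] (by convert s3 using 4; ext c; fin_cases c <;> norm_num)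
    fin_cases c
    · convert t3 using 2; ext c; fin_cases c <;> simp
    · convert M.sub_mem t3 t1 using 1
      rw [← Pi.single_sub]; congr 1; ext c; fin_cases c <;> simp
    · convert M.sub_mem t3 t2 using 1
      rw [← Pi.single_sub]; congr 1; ext c; fin_cases c <;> simp
  refine A0_smul' q₀_mem (e ⟨l.m, 0⟩ l rfl (show l.m ∈ M from ?_)) h
  rw [← Finset.univ_sum_single l.m]
  refine M.sum_mem fun b _ => ?_
  rw [← Finset.univ_sum_single (l.m b), ← AddMonoidHom.single_apply, map_sum]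
  refine M.sum_mem fun c _ => ?_
  convert M.zsmul_mem (top b c) (l.m b c) using 1
  simp [← Pi.single_smul]

noncomputable instance : MulAction X.Λ X.A0 where
  smul l a := ⟨l • a.1, A0_smul l a.2⟩
  one_smul a := Subtype.ext (one_smul _ a.1)
  mul_smul l l' a := Subtype.ext (mul_smul l l' a.1)

instance : PreconnectedSpace X.A0 :=
  isPreconnected_iff_preconnectedSpace.1 isPreconnected_connectedComponentIn

theorem A0_cont (l : X.Λ) : Continuous fun a : X.A0 => l • a :=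
  ((l.smooth (k := 0)).continuous.comp continuous_subtype_val).subtype_mk _

/-- The shift of the fibre coordinate. -/
def sh0 (t : ℝ) (a : X.A0) : X.A0 := ⟨(a.1.1, a.1.2 + t), A0_shift a.2 t⟩

theorem sh0_cont : Continuous fun z : ℝ × X.A0 => sh0 z.1 z.2 := by unfold sh0; fun_prop

/-- A family of maps of the fibre. -/
noncomputable def famA (i : V) (p : (V → ℝ) × ℝ) (q : XT X.κ) : X.Amb :=
  (Ex q.1, fun j => √(p.1 j), (p.2, (√(X.d ^ 2 - p.2 ^ 2) : ℝ)),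
    ex q.2 • X.sec i q.1 fun j => √(p.1 j))

/-- Admissible parameters. -/
structure Par (X : Cx V) (i : V) (p : (V → ℝ) × ℝ) : Prop where
  nn : ∀ j, 0 ≤ p.1 j
  sum : ∑ j, p.1 j = 1
  face : ∃ σ, X.Face σ ∧ ∀ j, j ∉ σ → p.1 j = 0
  le : p.2 ^ 2 ≤ X.d ^ 2
  out : X.ρ ^ 2 ≤ X.d ^ 2 - p.2 ^ 2 ∨ p.2 ≤ 0
  big : i = X.C → X.η₀ < p.1 X.C
  small : i ≠ X.C → p.1 X.C ≤ 1 - X.η

theorem Par.inB {i : V} {p : (V → ℝ) × ℝ} (h : X.Par i p) :
    X.InB (fun j => √(p.1 j)) (p.2, (√(X.d ^ 2 - p.2 ^ 2) : ℝ)) := by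
  classical
  obtain ⟨σ, h1, h2⟩ := h.face
  refine ⟨by simpa only [Real.sq_sqrt (h.nn _)] using h.sum, ?_⟩
  have : X.phi (fun j => √(p.1 j)) = 0 := Finset.sum_eq_zero fun τ hτ => by
    obtain ⟨j, h3, h4⟩ := Finset.not_subset.1 fun h => (Finset.mem_filter.1 hτ).2 (X.down h1 h)
    exact Finset.prod_eq_zero h3 (by simp [h2 j h4])
  simp [this, Real.mul_self_sqrt (sub_nonneg.2 h.le)]

theorem Par.inZ {i : V} {p : (V → ℝ) × ℝ} (h : X.Par i p) {q : XT X.κ} (hq : X.Ph (Ex q.1) = 0) :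
    X.InZ (famA i p q) := by
  have h1 : X.ρ ^ 2 ≤ X.s (fun j => √(p.1 j)) (p.2, (√(X.d ^ 2 - p.2 ^ 2) : ℝ)) ∨
      √(p.1 X.o) ≤ 0 ∨ p.2 ≤ 0 := h.out.imp (fun h1 => by
    rw [s_eq, normSq_ofReal, Real.mul_self_sqrt (sub_nonneg.2 h.le)]
    exact h1.trans (le_add_of_nonneg_left (Finset.sum_nonneg fun _ _ => sq_nonneg _))) Or.inr
  refine ⟨fun _ _ => normSq_ex _, h.inB, ?_, ?_, (hopf_smul _ (normSq_ex _)).trans
    (sec_spec h.inB (fun e => ⟨(sg1_neg (fun _ _ => normSq_ex _) hq).le, ?_⟩) fun e => ?_).2⟩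
  · have := X.s_nonneg (fun j => √(p.1 j)) (p.2, (√(X.d ^ 2 - p.2 ^ 2) : ℝ))
    have h3 := (X.T_mem (fun j => √(p.1 j)) (p.2, (√(X.d ^ 2 - p.2 ^ 2) : ℝ))).2
    rcases h1 with h2 | h2
    · simp only [famA, D3]; linarith [pow_pos X.ρ_pos 2]
    · simp only [famA, D3, X.T_zero (w := fun j => √(p.1 j)) (v := (p.2, _)) h2]; linarith
  · simp only [famA, X.gam_zero (w := fun j => √(p.1 j)) (v := (p.2, _)) h1, hq, zero_smul]
  · simpa only [Real.sq_sqrt (h.nn _)] using h.big e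
  · simpa only [sg2, Real.sq_sqrt (h.nn _), sub_nonpos] using h.small e

/-- The family of maps of the fibre to the level set. -/
noncomputable def JZ (i : V) (p : (V → ℝ) × ℝ) (a : X.A0) : X.lev.Z :=
  toZ (jP ⟨0, X.b₀, by simp⟩).J (famA i p a)

theorem Par.JZ_val {i : V} {p : (V → ℝ) × ℝ} (h : X.Par i p) (a : X.A0) :
    (JZ i p a : X.Amb) = famA i p a := toZ_val _ (h.inZ (A0.ph a.2))

theorem JZ_smul (i : V) (p : (V → ℝ) × ℝ) (l : X.Λ) (a : X.A0) : JZ i p (l • a) = JZ i p a :=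
  congrArg (toZ _) (Prod.ext (Ex_smul l a.1) (Prod.ext rfl (Prod.ext rfl (sec_smul i l a.1 _))))

theorem JZ_cont {i : V} {Q : Set ((V → ℝ) × ℝ)} (h : ∀ p ∈ Q, X.Par i p) :
    ContinuousOn (fun z : ((V → ℝ) × ℝ) × X.A0 => JZ i z.1 z.2) (Q ×ˢ univ) := by
  refine Topology.IsInducing.subtypeVal.continuousOn_iff.2 (ContinuousOn.congr
    (f := fun z : ((V → ℝ) × ℝ) × X.A0 => famA i z.1 z.2.1) (fun z hz => ?_)
    fun z hz => (h _ hz.1).JZ_val _)
  have h1 : ContinuousAt (fun z : ((V → ℝ) × ℝ) × X.A0 => X.sec i z.2.1.1 fun j => √(z.1.1 j)) z :=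
    (sec_smooth (k := 0) (h _ hz.1).inB (fun e => by
      simpa only [Real.sq_sqrt ((h _ hz.1).nn _)] using (h _ hz.1).big e) _).continuousAt.comp
      (f := fun z : ((V → ℝ) × ℝ) × X.A0 => (z.2.1.1, fun j => √(z.1.1 j))) (by fun_prop)
  have c := (Ex_smooth (κ := X.κ) (k := 0)).continuous
  unfold famA
  exact ContinuousAt.continuousWithinAt (by fun_prop)

/-- The simplex of a face. -/
def Sx (X : Cx V) (σ : Finset V) (a b : ℝ) : Set ((V → ℝ) × ℝ) := {p | (∀ j, 0 ≤ p.1 j) ∧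
  ∑ j, p.1 j = 1 ∧ (∀ j, j ∉ σ → p.1 j = 0) ∧ p.2 = -X.d ∧ a ≤ p.1 X.C ∧ p.1 X.C ≤ b}

theorem Sx_convex (σ : Finset V) (a b : ℝ) : Convex ℝ (X.Sx σ a b) := by
  rintro p ⟨p1, p2, p3, p4, p5, p6⟩ q ⟨q1, q2, q3, q4, q5, q6⟩ s t hs ht h
  refine ⟨fun j => add_nonneg (mul_nonneg hs (p1 j)) (mul_nonneg ht (q1 j)), ?_,
    fun j hj => by simp [p3 j hj, q3 j hj], by simp [p4, q4, ← add_mul, ← neg_add, h], ?_, ?_⟩
  · simp [Finset.sum_add_distrib, ← Finset.mul_sum, p2, q2, h]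
  · exact (convex_Ici a p5 q5 hs ht h :)
  · exact (convex_Iic b p6 q6 hs ht h :)

theorem Sx_mono {σ τ : Finset V} (h : σ ⊆ τ) {a b a' b' : ℝ} (ha : a' ≤ a) (hb : b ≤ b') :
    X.Sx σ a b ⊆ X.Sx τ a' b' := fun _ ⟨p1, p2, p3, p4, p5, p6⟩ =>
  ⟨p1, p2, fun j hj => p3 j fun h' => hj (h h'), p4, ha.trans p5, p6.trans hb⟩

theorem Sx_o {σ : Finset V} (h : X.Face σ) : ∀ p ∈ X.Sx σ 0 (1 / 2), X.Par X.o p :=
  fun _ ⟨p1, p2, p3, p4, _, p6⟩ => ⟨p1, p2, ⟨σ, h, p3⟩, by simp [p4], Or.inr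
    (by simp [p4, X.d_pos.le]), fun e => absurd e X.hoC, fun _ => by linarith [X.η_le]⟩

theorem Sx_C {σ : Finset V} (h : X.Face σ) : ∀ p ∈ X.Sx σ (1 / 2) 1, X.Par X.C p :=
  fun _ ⟨p1, p2, p3, p4, p5, _⟩ => ⟨p1, p2, ⟨σ, h, p3⟩, by simp [p4], Or.inr
    (by simp [p4, X.d_pos.le]), fun _ => by linarith [X.η_le, X.η₀_lt], fun e => absurd rfl e⟩

/-- The vertices. -/
def vx (X : Cx V) (i : V) : (V → ℝ) × ℝ := (Pi.single i 1, -X.d)

theorem vx_mem {σ : Finset V} {i : V} (hi : i ∈ σ) {a b : ℝ} (ha : a ≤ if X.C = i then 1 else 0)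
    (hb : (if X.C = i then 1 else 0) ≤ b) : X.vx i ∈ X.Sx σ a b :=
  ⟨fun j => by simp only [vx, Pi.single_apply]; split_ifs <;> simp, by simp [vx],
    fun j hj => Pi.single_eq_of_ne (by rintro rfl; exact hj hi) _, rfl,
    by simpa only [vx, Pi.single_apply] using ha, by simpa only [vx, Pi.single_apply] using hb⟩

theorem vx_o {σ : Finset V} {i : V} (hi : i ∈ σ) (h : i ≠ X.C) : X.vx i ∈ X.Sx σ 0 (1 / 2) :=
  vx_mem hi (by simp [h.symm]) (by simp [h.symm])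

/-- The midpoint of an edge of the cone. -/
noncomputable def md (X : Cx V) (l : V) : (V → ℝ) × ℝ := (1 / 2 : ℝ) • X.vx l + (1 / 2 : ℝ) • X.vx X.C

theorem md_mem {σ : Finset V} {l : V} (hl : l ∈ σ) (hC : X.C ∈ σ) (h : l ≠ X.C) :
    X.md l ∈ X.Sx σ (1 / 2) (1 / 2) ∧ (X.md l).1 l = 1 / 2 := by
  obtain ⟨p1, p2, p3, p4, -⟩ := Sx_convex σ 0 1 (vx_mem (X := X) hl (by simp [h.symm])
    (by simp [h.symm])) (vx_mem hC (by simp) (by simp)) one_half_pos.le one_half_pos.le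
    (by norm_num)
  exact ⟨⟨p1, p2, p3, p4, by simp [md, vx, h.symm], by simp [md, vx, h.symm]⟩, by simp [md, vx, h]⟩

/-- The collar. -/
def Col (X : Cx V) : Set ((V → ℝ) × ℝ) := {Pi.single X.o 1} ×ˢ Icc (-X.d) √(X.d ^ 2 - 2 * X.ρ ^ 2)

/-- The end of the collar. -/
noncomputable def ce (X : Cx V) : (V → ℝ) × ℝ := (Pi.single X.o 1, √(X.d ^ 2 - 2 * X.ρ ^ 2))

theorem rho_small : 8 * X.ρ ^ 2 ≤ X.d ^ 2 := by
  have h6 : (0 : ℝ) < 2 ^ Fintype.card V := by positivity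
  nlinarith [X.hρ, sq_nonneg X.ρ]

theorem Col_o : ∀ p ∈ X.Col, X.Par X.o p := by
  rintro ⟨_, t⟩ ⟨rfl, h1, h2⟩
  have h3 := Real.sq_sqrt (show 0 ≤ X.d ^ 2 - 2 * X.ρ ^ 2 by nlinarith [rho_small (X := X)])
  have h4 := Real.sqrt_nonneg (X.d ^ 2 - 2 * X.ρ ^ 2)
  have h5 : X.ρ ^ 2 ≤ X.d ^ 2 - t ^ 2 ∨ t ≤ 0 := (le_total 0 t).imp (fun _ => by nlinarith) id
  obtain ⟨p1, p2, p3, -⟩ := vx_o (X := X) (Finset.mem_singleton_self X.o) X.hoC
  exact ⟨p1, p2, ⟨_, X.face_single, p3⟩, h5.elim (fun h => by nlinarith) fun h => by nlinarith,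
    h5, fun e => absurd e X.hoC, fun _ => by simp [X.hoC.symm]; linarith [X.η_le]⟩

theorem ce_mem : X.ce ∈ X.Col ∧ X.vx X.o ∈ X.Col :=
  have : -X.d ≤ √(X.d ^ 2 - 2 * X.ρ ^ 2) := le_trans (neg_nonpos.2 X.d_pos.le) (Real.sqrt_nonneg _)
  ⟨⟨rfl, this, le_rfl⟩, rfl, le_rfl, this⟩

theorem DZ_ce (a : X.A0) : DZ (JZ X.o X.ce a) < 4 * X.ρ ^ 2 := by
  have h3 := Real.sq_sqrt (show 0 ≤ X.d ^ 2 - 2 * X.ρ ^ 2 by nlinarith [rho_small (X := X)])
  rw [DZ, (Col_o _ ce_mem.1).JZ_val]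
  simp only [famA, D3]
  rw [X.T_one (by simp [ce]; norm_num) (Real.le_sqrt_of_sq_le (by nlinarith [rho_small (X := X)])),
    s_eq, Finset.sum_eq_zero fun j hj => by simp [ce, Finset.ne_of_mem_erase hj], normSq_ofReal,
    Real.mul_self_sqrt (sub_nonneg.2 (Col_o _ ce_mem.1).le)]
  simp only [ce, h3]
  linarith [pow_pos X.ρ_pos 2]

/-- The fibre inside the neck. -/
noncomputable def ι (a : X.A0) : X.N :=
  ⟨⟨(JZ X.o X.ce a, a), (inZ _).B.o_big (DZ_ce a).le, by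
    rw [(Col_o _ ce_mem.1).JZ_val]; exact ⟨rfl, rfl⟩⟩, DZ_ce a⟩

theorem ι_cont : Continuous (ι : X.A0 → X.N) :=
  N.cont_iff (continuous_subtype_val.comp (slice_right (JZ_cont Col_o) ce_mem.1))
    continuous_subtype_val

section cover

variable {Y : Type} [TopologicalSpace Y] {p : Y → X.lev.Z}

noncomputable instance (i : V) (a : (V → ℝ) × ℝ) : SMul X.Λ (Lf p (JZ i a)) :=
  ⟨fun l σ => ⟨fun a => σ.1 (l⁻¹ • a), σ.2.1.comp (A0_cont _),
    fun _ => (σ.2.2 _).trans (JZ_smul _ _ _ _)⟩⟩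

theorem rel_smul {i : V} {Q : Set ((V → ℝ) × ℝ)} {a b : (V → ℝ) × ℝ} {f f' : X.A0 → Y}
    (h : Rel p Q (JZ i) a b f f') (l : X.Λ) :
    Rel p Q (JZ i) a b (fun x => f (l • x)) fun x => f' (l • x) := by
  obtain ⟨s, h1, h2, rfl, rfl⟩ := h
  exact ⟨fun q x => s q (l • x), h1.comp (f := fun z : _ × X.A0 => (z.1, l • z.2))
    (continuous_fst.prodMk ((A0_cont l).comp continuous_snd)).continuousOn fun z hz =>
      ⟨hz.1, trivial⟩, fun q hq x => (h2 q hq _).trans (JZ_smul _ _ _ _), rfl, rfl⟩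

theorem exists_tr (hp : IsCoveringMap p) {i : V} {Q : Set ((V → ℝ) × ℝ)} (hQ : Convex ℝ Q)
    (h : ∀ p ∈ Q, X.Par i p) {a b : (V → ℝ) × ℝ} (ha : a ∈ Q) (hb : b ∈ Q) :
    ∃ τ : Lf p (JZ i a) ≃ Lf p (JZ i b), (∀ f, Rel p Q (JZ i) a b f.1 (τ f).1) ∧
      ∀ (l : X.Λ) f, τ (l • f) = l • τ f := by
  obtain ⟨τ, hτ⟩ := exists_transport hp hQ (JZ_cont h) ha hb
  exact ⟨τ, hτ, fun l f => Subtype.ext (funext fun x =>
    (hτ _).unique hp hQ ha hb (rel_smul (hτ f) l⁻¹) rfl)⟩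

end cover

theorem exists_clo {δ : ℝ} (hδ : 0 < δ) {Q : Set ((V → ℝ) × ℝ)} (hQ : Convex ℝ Q)
    (h : ∀ p ∈ Q, X.Par X.o p) {a b : (V → ℝ) × ℝ} (ha : a ∈ Q) (hb : b ∈ Q) :
    ∃ C, 0 ≤ C ∧ ∀ (Y : Type) [TopologicalSpace Y] (p : Y → X.lev.Z) (g : Y → E (X.n + 1)) (c : ℝ),
      0 ≤ c → Ctrl δ c p g → ∀ f f', Rel p Q (JZ X.o) a b f f' →
      dist (g (f ⟨_, q₀_mem⟩)) (g (f' ⟨_, q₀_mem⟩)) ≤ c * C := by
  obtain ⟨C, h1, h2⟩ := exists_cls_convex (E (X.n + 1)) hδ hQ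
    (J := fun q => JZ X.o q ⟨_, q₀_mem⟩) (slice_left (JZ_cont h) ⟨_, q₀_mem⟩) ha hb
  refine ⟨C, h1, fun Y _ p g c hc hg f f' ⟨s, h3, h4, h5, h6⟩ => ?_⟩
  rw [← h5, ← h6, dist_eq_norm]
  exact h2 Y p g c hc hg (fun q => s q ⟨_, q₀_mem⟩) (slice_left h3 _) fun q hq => h4 q hq _

theorem grp (hX : X.NEgrp) (δ : ℝ) (hδ : 0 < δ) :
    ∃ C, 0 ≤ C ∧ (data (ι ⟨_, q₀_mem⟩) : NEData X.lev X.Λ X.N).Grp δ C := by
  classical
  have cvx : Convex ℝ X.Col := (convex_singleton _).prod (convex_Icc _ _)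
  obtain ⟨C₀, hC₀, h₀⟩ := exists_clo hδ cvx Col_o ce_mem.1 ce_mem.2
  choose! Cf hCf h₁ using fun (i j : V) (h : i ≠ X.C ∧ j ≠ X.C ∧ X.Face {i, j}) =>
    exists_clo hδ (Sx_convex _ _ _) (Sx_o h.2.2) (vx_o (by simp) h.1) (vx_o (i := j) (by simp) h.2.1)
  set C₁ := ∑ z : V × V, |Cf z.1 z.2|
  have hC₁ : ∀ i j, Cf i j ≤ C₁ := fun i j => (le_abs_self _).trans
    (Finset.single_le_sum (f := fun z : V × V => |Cf z.1 z.2|) (fun _ _ => abs_nonneg _)
      (Finset.mem_univ (i, j)))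
  have hC₁' : 0 ≤ C₁ := Finset.sum_nonneg fun _ _ => abs_nonneg _
  refine ⟨(C₀ + C₁) + C₁ + (C₀ + C₁), by positivity, fun Y _ p hp g c hc hg G hF hfin hβ => ?_⟩
  let D : NEData X.lev X.Λ X.N := data (ι ⟨_, q₀_mem⟩)
  let r : Lf p D.J ≃ Lf p (JZ X.o X.ce) := Equiv.ofBijective (fun σ => ⟨σ.1 ∘ ι,
    σ.2.1.comp ι_cont, fun a => σ.2.2 _⟩) ⟨fun σ σ' h => Lf.ext_at hp (congrFun
      (congrArg Subtype.val h) ⟨_, q₀_mem⟩), fun f => by
    obtain ⟨σ, hσ⟩ := N.triv Y p hp (ι ⟨_, q₀_mem⟩) _ (f.2.2 _)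
    exact ⟨σ, Lf.ext_at hp hσ⟩⟩
  have hr : ∀ (l : X.Λ) σ, r (l • σ) = l • r σ := fun l σ => Subtype.ext (funext fun a =>
    congrArg σ.1 (N.ext' (JZ_smul _ _ _ _).symm rfl))
  obtain ⟨τ₀, t₀, t₀'⟩ := exists_tr hp cvx Col_o ce_mem.1 ce_mem.2
  choose τ t t' using fun (i j : V) (hi : i ≠ X.C) (hj : j ≠ X.C) (h : X.Face {i, j}) =>
    exists_tr hp (Sx_convex _ _ _) (Sx_o h) (vx_o (by simp) hi) (vx_o (i := j) (by simp) hj)
  let K : ∀ i, i ≠ X.C → Lf p D.J ≃ Lf p (JZ X.o (X.vx i)) := fun i hi =>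
    (r.trans τ₀).trans (τ _ _ X.hoC hi (X.face_o i hi))
  have hK : ∀ i hi (l : X.Λ) σ, K i hi (l • σ) = l • K i hi σ := fun i hi l σ => by
    simp only [K, Equiv.trans_apply, hr, t₀', t']
  have cl : ∀ i j hi hj h f, dist (g (f.1 ⟨_, q₀_mem⟩)) (g ((τ i j hi hj h f).1 ⟨_, q₀_mem⟩)) ≤
      c * C₁ := fun i j hi hj h f => (h₁ i j ⟨hi, hj, h⟩ Y p g c hc hg _ _ (t i j hi hj h f)).trans
    (mul_le_mul_of_nonneg_left (hC₁ i j) hc)
  have cK : ∀ i hi σ, dist (g (σ.1 D.a₀)) (g ((K i hi σ).1 ⟨_, q₀_mem⟩)) ≤ c * (C₀ + C₁) :=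
    fun i hi σ => (dist_triangle _ _ _).trans ((add_le_add (h₀ Y p g c hc hg _ _ (t₀ (r σ)))
      (cl _ _ _ _ _ _)).trans_eq (mul_add _ _ _).symm)
  let E : V → V → Equiv.Perm (Lf p D.J) := fun i j =>
    if h : i ≠ X.C ∧ j ≠ X.C ∧ X.Face {i, j} then
      ((K i h.1).trans (τ i j h.1 h.2.1 h.2.2)).trans (K j h.2.1).symm else 1
  have hE : ∀ i j hi hj h σ, K j hj (E i j σ) = τ i j hi hj h (K i hi σ) := fun i j hi hj h σ => by
    simp only [E, dif_pos (And.intro hi (And.intro hj h)), Equiv.trans_apply, Equiv.apply_symm_apply]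
  have fam : ∀ {σ : Finset V}, X.Face σ → ∀ {i} (hi : i ≠ X.C), i ∈ σ →
      ∀ f : Lf p (JZ X.o (X.vx i)), ∃ s : _ → X.A0 → Y, s (X.vx i) = f.1 ∧
        ∀ a b, Rel p (X.Sx σ 0 (1 / 2)) (JZ X.o) a b (s a) (s b) := fun h i hi hσ f =>
    let ⟨s, h1, h2, h3⟩ := lift_family hp (Sx_convex _ _ _) (JZ_cont (Sx_o h)) (vx_o hσ hi) f
    ⟨s, h3, fun _ _ => ⟨s, h1, h2, rfl, rfl⟩⟩
  have ut : ∀ i j hi hj h {σ : Finset V} f f', {i, j} ⊆ σ → Rel p (X.Sx σ 0 (1 / 2)) (JZ X.o)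
      (X.vx i) (X.vx j) f.1 f' → (τ i j hi hj h f).1 = f' := fun i j hi hj h σ f f' hs hR =>
    funext fun a => (t i j hi hj h f).unique hp (Sx_convex _ _ _) (vx_o (by simp) hi)
      (vx_o (by simp) hj) (hR.mono (Sx_mono hs le_rfl le_rfl)) rfl
  have sC : ∀ {σ : Finset V}, X.Face σ → ∀ l, ∀ a ∈ X.Sx σ (1 / 2) (1 / 2), l ≠ X.C →
      1 / 4 ≤ a.1 l → 0 < (X.ch2 (fun j => √(a.1 j)) * conj (X.om l)).re ∧
      ∀ x : X.A0, JZ X.o a (sh0 (X.ang l fun j => √(a.1 j)) x) = JZ X.C a x := by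
    intro σ h l a ha hl h4
    have P1 := Sx_o h a (Sx_mono subset_rfl (by norm_num) le_rfl ha)
    have P2 := Sx_C h a (Sx_mono subset_rfl le_rfl (by norm_num) ha)
    have h5 := P1.inB.ch_re (by simpa only [Real.sq_sqrt (P1.nn _)] using P2.big rfl) hl
      (by rw [Real.sq_sqrt (P1.nn _)]; linarith [X.η₀_le, X.η_le])
    refine ⟨h5, fun x => congrArg (toZ _) (Prod.ext rfl (Prod.ext rfl (Prod.ext rfl ?_)))⟩
    simp only [famA, sh0]
    rw [sec_C l (sg1_neg (fun _ _ => normSq_ex _) (A0.ph x.2)).le (by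
      simpa only [sg2, Real.sq_sqrt (P1.nn _), sub_nonpos] using P1.small X.hoC)
      (fun e => by simp [e] at h5), sec_o, ex_add, mul_smul]
  have cone : ∀ l, ∃ c : Lf p D.J → X.A0 → Y, ∀ hl : l ≠ X.C, X.Face {X.C, l} →
      Function.Injective c ∧ ∀ {σ : Finset V}, X.Face σ → X.C ∈ σ → l ∈ σ → ∀ f (s : _ → X.A0 → Y),
        s (X.vx l) = (K l hl f).1 → (∀ a b, Rel p (X.Sx σ 0 (1 / 2)) (JZ X.o) a b (s a) (s b)) →
        ∀ a ∈ X.Sx σ (1 / 2) (1 / 2), 1 / 4 ≤ a.1 l → Rel p (X.Sx σ (1 / 2) 1) (JZ X.C) a (X.vx X.C)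
          (fun x => s a (sh0 (X.ang l fun j => √(a.1 j)) x)) (c f) := by
    intro l
    by_cases H : l ≠ X.C ∧ X.Face {X.C, l}
    swap
    · exact ⟨fun σ => σ.1 ∘ ι, fun hl h => absurd ⟨hl, h⟩ H⟩
    obtain ⟨hl, h⟩ := H
    obtain ⟨m1, m2⟩ := md_mem (σ := {X.C, l}) (by simp) (by simp) hl
    have m3 := Sx_mono (a' := 0) subset_rfl (by norm_num) le_rfl m1
    have m4 := Sx_mono (b' := 1) subset_rfl le_rfl (by norm_num) m1
    have m5 : ∀ {σ : Finset V}, X.C ∈ σ → X.vx X.C ∈ X.Sx σ (1 / 2) 1 := fun h =>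
      vx_mem h (by simp; norm_num) (by simp)
    obtain ⟨u, u1, -⟩ := exists_tr hp (Sx_convex _ _ _) (Sx_o h) (vx_o (by simp) hl) m3
    obtain ⟨v, v1, -⟩ := exists_tr hp (Sx_convex _ _ _) (Sx_C h) m4 (m5 (by simp))
    let e : Lf p (JZ X.o (X.md l)) → Lf p (JZ X.C (X.md l)) := fun f =>
      ⟨fun x => f.1 (sh0 _ x), f.2.1.comp (sh0_cont.comp (continuous_const.prodMk continuous_id)),
        fun x => (f.2.2 _).trans ((sC h l _ m1 hl (by rw [m2]; norm_num)).2 x)⟩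
    refine ⟨fun f => (v (e (u (K l hl f)))).1, fun _ _ => ⟨fun f f' h' => (K l hl).injective
      (u.injective (Lf.ext_at hp (congrFun (congrArg Subtype.val (v.injective (Subtype.ext h')))
        ⟨_, q₀_mem⟩))), fun {σ} hσ hC hlσ f s s1 s2 a ha h4 => ?_⟩⟩
    have sub : ({X.C, l} : Finset V) ⊆ σ := by simp [Finset.insert_subset_iff, hC, hlσ]
    have e1 : (u (K l hl f)).1 = s (X.md l) := funext fun x => (u1 _).unique hp (Sx_convex _ _ _)
      (vx_o (by simp) hl) m3 ((s2 _ _).mono (Sx_mono sub le_rfl le_rfl)) (congrFun s1.symm x)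
    obtain ⟨t, t1, t2, t3⟩ := lift_family hp (Sx_convex _ _ _) (JZ_cont (Sx_C hσ))
      (Sx_mono sub le_rfl le_rfl m4) (e (u (K l hl f)))
    refine ⟨t, t1, t2, funext fun x => ?_, funext fun x => ((v1 _).unique hp (Sx_convex _ _ _) m4
      (m5 (by simp)) (Rel.mono ⟨t, t1, t2, t3, rfl⟩ (Sx_mono sub le_rfl le_rfl)) rfl).symm⟩
    obtain ⟨s', s3, s4, s5, s6⟩ := s2 (X.md l) a
    set Q := X.Sx σ (1 / 2) (1 / 2) ∩ {a | 1 / 4 ≤ a.1 l}
    have hQ : Convex ℝ Q := (Sx_convex _ _ _).inter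
      ((convex_Ici _).is_linear_preimage (f := fun a : (V → ℝ) × ℝ => a.1 l)
        ⟨fun _ _ => rfl, fun _ _ => rfl⟩)
    have q1 : Q ⊆ X.Sx σ (1 / 2) 1 := fun b hb => Sx_mono subset_rfl le_rfl (by norm_num) hb.1
    have q2 : Q ⊆ X.Sx σ 0 (1 / 2) := fun b hb => Sx_mono subset_rfl (by norm_num) le_rfl hb.1
    have q3 : ContinuousOn (fun b : (V → ℝ) × ℝ => X.ang l fun j => √(b.1 j)) Q := fun b hb =>
      ((ang_smooth (k := 0) (sC hσ l b hb.1 hl hb.2).1).continuousAt.comp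
        (f := fun b : (V → ℝ) × ℝ => fun j => √(b.1 j)) (by fun_prop)).continuousWithinAt
    have q4 : ContinuousOn (fun b : (V → ℝ) × ℝ => (b, sh0 (X.ang l fun j => √(b.1 j)) x)) Q :=
      continuousOn_id.prodMk (sh0_cont.comp_continuousOn (q3.prodMk continuousOn_const))
    have q5 : ContinuousOn (fun b => s' b (sh0 (X.ang l fun j => √(b.1 j)) x)) Q :=
      s3.comp q4 fun b hb => ⟨q2 hb, trivial⟩
    have q6 : ContinuousOn (fun b => t b x) Q := (slice_left t1 x).mono q1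
    have := hp.eqOn_of_comp_eqOn hQ.isPreconnected q6 q5 (fun b hb => (t2 b (q1 hb) x).trans
      ((s4 b (q2 hb) _).trans ((sC hσ l b hb.1 hl hb.2).2 x)).symm) (a := X.md l)
      ⟨Sx_mono sub le_rfl le_rfl m1, show 1 / 4 ≤ (X.md l).1 l by rw [m2]; norm_num⟩
      (by simp only [t3, s5, ← e1, e]; rfl) (show a ∈ Q from ⟨ha, h4⟩)
    simpa only [s6] using this
  choose cc hcc using cone
  refine hX _ _ G E cc 1 (Or.inl rfl) hF hfin (fun i j hi hj h => ?_) (fun i hi => ?_)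
    (fun i j l hi hj hl h => ?_) (fun l hl h => (hcc l hl h).1) fun l l' hl hl' h σ => ?_
  · have h1 : ∀ (l : X.Λ) σ, E i j (l • σ) = l • E i j σ := fun l σ => (K j hj).injective (by
      rw [hE i j hi hj h, hK, hK, hE i j hi hj h, t'])
    refine ⟨h1, hβ _ h1 fun σ => ?_⟩
    have h2 := cK j hj (E i j σ)
    rw [hE i j hi hj h, dist_comm] at h2
    rw [← dist_eq_norm, mul_add, mul_add]
    exact (dist_triangle4 _ _ _ _).trans (add_le_add (add_le_add (cK i hi σ) (cl _ _ _ _ _ _)) h2)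
  · refine Equiv.ext fun σ => (K i hi).injective ?_
    rw [hE _ _ X.hoC hi (X.face_o i hi)]
    refine congrArg (τ _ _ X.hoC hi (X.face_o i hi)) (Subtype.ext ?_)
    obtain ⟨s, s1, s2⟩ := fam X.face_single X.hoC (by simp) (τ₀ (r σ))
    exact ut _ _ _ _ _ _ _ (σ := {X.o}) (by simp) (s1 ▸ s2 _ _)
  · refine Equiv.ext fun σ => (K l hl).injective (Subtype.ext ?_)
    obtain ⟨s, s1, s2⟩ := fam h hi (by simp) (K i hi σ)
    have s3 : ∀ {a b}, a ∈ ({i, j, l} : Finset V) → b ∈ ({i, j, l} : Finset V) →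
        ({a, b} : Finset V) ⊆ {i, j, l} := fun ha hb =>
      Finset.insert_subset ha (Finset.singleton_subset_iff.2 hb)
    have f1 := X.down h (s3 (a := i) (b := j) (by simp) (by simp))
    rw [Equiv.Perm.mul_apply, hE j l hj hl (X.down h (s3 (by simp) (by simp))), hE i j hi hj f1,
      hE i l hi hl (X.down h (s3 (by simp) (by simp))),
      ut i l _ _ _ _ (s (X.vx l)) (s3 (by simp) (by simp)) (s1 ▸ s2 _ _)]
    exact ut j l _ _ _ _ _ (s3 (by simp) (by simp))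
      ((ut i j hi hj f1 (K i hi σ) (s (X.vx j)) (s3 (by simp) (by simp)) (s1 ▸ s2 _ _)).symm ▸
        s2 _ _)
  · obtain ⟨s, s1, s2⟩ := fam h hl (by simp) (K l hl σ)
    have f1 : ({l, l'} : Finset V) ⊆ {X.C, l, l'} := Finset.subset_insert _ _
    obtain ⟨m1, m2⟩ := md_mem (σ := {X.C, l, l'}) (by simp) (by simp) hl
    obtain ⟨m3, m4⟩ := md_mem (σ := {X.C, l, l'}) (by simp) (by simp) hl'
    have m5 := Sx_convex _ _ _ m1 m3 one_half_pos.le one_half_pos.le (by norm_num)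
    set a := (1 / 2 : ℝ) • X.md l + (1 / 2 : ℝ) • X.md l' with ha
    have m6 : 1 / 4 ≤ a.1 l := by
      simp only [ha, Prod.fst_add, Prod.smul_fst, Pi.add_apply, Pi.smul_apply, smul_eq_mul, m2]
      linarith [m3.1 l]
    have m7 : 1 / 4 ≤ a.1 l' := by
      simp only [ha, Prod.fst_add, Prod.smul_fst, Pi.add_apply, Pi.smul_apply, smul_eq_mul, m4]
      linarith [m1.1 l']
    have r1 := (hcc l' hl' (X.down h (by simp [Finset.insert_subset_iff]))).2 h (by simp) (by simp)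
      (E l l' σ) s (by rw [hE l l' hl hl' (X.down h f1), 
        ut _ _ _ _ _ _ (s (X.vx l')) f1 (s1 ▸ s2 _ _)]) s2 a m5 m7
    have r2 := (hcc l hl (X.down h (by simp [Finset.insert_subset_iff]))).2 h (by simp) (by simp)
      ((Lam.z (1 * X.dl l l' X.C) : X.Λ) • σ) (fun b x => s b ((Lam.z (1 * X.dl l l' X.C) : X.Λ)⁻¹ • x))
      (by rw [hK, s1]; rfl) (fun _ _ => rel_smul (s2 _ _) _) a m5 m6
    refine funext fun x => r1.unique hp (Sx_convex _ _ _)
      (Sx_mono subset_rfl le_rfl (by norm_num) m5) (vx_mem (by simp) (by simp; norm_num) (by simp))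
      r2 (congrArg (s a) (Subtype.ext ?_))
    rw [ang_sub hl hl' h (sC h l a m5 hl m6).1 (sC h l' a m5 hl' m7).1]
    change _ = (Lam.z (1 * X.dl l l' X.C) : X.Λ)⁻¹ • (_ : XT X.κ)
    rw [eq_inv_smul_iff, Lam.z_smul]
    simp [sh0, add_assoc]

end Cx

end Pool.Agent.Lib.MP_4b70aa_gt
end

-- part Pool.Agent.Lib.MP_4b70aa_gt.Leaf
section

set_option autoImplicit false
set_option linter.unusedSectionVars false

open MeasureTheory Filter Set Topology
open scoped ContDiff Matrix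

namespace Pool.Agent.Lib.MP_4b70aa_gt

section col

variable {n : ℕ}

theorem jacL_ne_zero {v : E (n + 1)} {L : E n →L[ℝ] E (n + 1)} (hv : v ≠ 0)
    (hL : ∀ w, L w = 0 → w = 0) (h : ∀ w, inner ℝ v (L w) = 0) : jacL v L ≠ 0 := by
  intro h0
  obtain ⟨c, hc, h1⟩ := Matrix.exists_vecMul_eq_zero_iff.2 h0
  have h2 : c 0 • v + L (WithLp.toLp 2 fun k => c k.succ) = 0 := by
    ext j
    rw [apply_eq_sum L]
    simpa [Matrix.vecMul, dotProduct, Fin.sum_univ_succ] using congrFun h1 j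
  have h3 : c 0 = 0 := by
    simpa [inner_add_right, inner_smul_right, h, hv] using congrArg (inner ℝ v) h2
  rw [h3, zero_smul, zero_add] at h2
  refine hc (funext fun k => Fin.cases h3 (fun k => ?_) k)
  exact congrFun (congrArg WithLp.ofLp (hL _ h2)) k

theorem jac_comp {G : E n → E (n + 1)} {W : E n → E n} {v : E n} {T : E n →L[ℝ] E n}
    (hG : DifferentiableAt ℝ G (W v)) (hW : HasFDerivAt W T v) :
    jac (G ∘ W) v = jac G (W v) * T.det := by
  rw [jac, (hG.hasFDerivAt.comp v hW).fderiv, jacL_comp]; rfl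

theorem jac_congr {G G' : E n → E (n + 1)} {v : E n} (h : G =ᶠ[𝓝 v] G') : jac G v = jac G' v := by
  rw [jac, h.fderiv_eq, h.self_of_nhds, jac]

theorem jac_const (hn : 0 < n) {G : E n → E (n + 1)} {v : E n} {c : E (n + 1)}
    (h : G =ᶠ[𝓝 v] fun _ => c) : jac G v = 0 := by
  rw [jac, h.fderiv_eq, fderiv_fun_const]
  exact jacL_eq_zero _ _ (w := EuclideanSpace.single ⟨0, hn⟩ 1) (by simp) rfl

/-- The collapse of the unit ball onto the sphere. -/
noncomputable def col (u : E n) : E (n + 1) := WithLp.toLp 2 (Fin.cons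
  ((‖u‖ ^ 2 - gl (1 - ‖u‖ ^ 2) ^ 2) / (‖u‖ ^ 2 + gl (1 - ‖u‖ ^ 2) ^ 2))
  fun k => 2 * gl (1 - ‖u‖ ^ 2) / (‖u‖ ^ 2 + gl (1 - ‖u‖ ^ 2) ^ 2) * u k)

theorem col_den (u : E n) : 0 < ‖u‖ ^ 2 + gl (1 - ‖u‖ ^ 2) ^ 2 := by
  rcases eq_or_ne u 0 with rfl | h
  · simpa using pow_pos (expNegInvGlue.pos_of_pos one_pos) 2
  · have := norm_pos_iff.2 h; positivity

theorem col_smooth : ContDiff ℝ 1 (col : E n → _) := by
  have h1 : ContDiff ℝ 1 fun u : E n => ‖u‖ ^ 2 := contDiff_norm_sq ℝ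
  have h2 : ContDiff ℝ 1 fun u : E n => gl (1 - ‖u‖ ^ 2) :=
    (gl_smooth (k := 1)).comp (contDiff_const.sub h1)
  refine contDiff_euclidean.2 fun i => Fin.cases ?_ (fun k => ?_) i
  · exact (h1.sub (h2.pow 2)).div (h1.add (h2.pow 2)) fun u => (col_den u).ne'
  · exact ((contDiff_const.mul h2).div (h1.add (h2.pow 2)) fun u => (col_den u).ne').mul
      (by fun_prop)

theorem norm_col (u : E n) : ‖col u‖ = 1 := by
  have h := col_den u
  rw [← sq_eq_sq₀ (norm_nonneg _) zero_le_one, EuclideanSpace.real_norm_sq_eq, Fin.sum_univ_succ]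
  simp only [col, Fin.cons_zero, Fin.cons_succ, mul_pow, ← Finset.mul_sum,
    ← EuclideanSpace.real_norm_sq_eq]
  field_simp
  ring

theorem col_out {u : E n} (h : 1 ≤ ‖u‖) : col u = pt n := by
  have h1 : gl (1 - ‖u‖ ^ 2) = 0 := expNegInvGlue.zero_of_nonpos (by nlinarith)
  have h2 : ‖u‖ ≠ 0 := by linarith
  ext i
  refine Fin.cases ?_ (fun k => ?_) i <;> simp [col, pt, h1, h2]

theorem jac_col_ne {u : E n} (h : ‖u‖ < 1) : jac col u ≠ 0 := by
  have hd := fun δ => dir_deriv ((col_smooth.differentiable one_ne_zero) u) δ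
  refine jacL_ne_zero (fun e => by simpa [e] using norm_col u) (fun δ h0 => ?_) fun δ => ?_
  · have h1 : 0 < 1 - ‖u‖ ^ 2 := by nlinarith [norm_nonneg u]
    have h2 := expNegInvGlue.pos_of_pos h1
    have h3 : HasDerivAt gl (deriv gl (1 - ‖u‖ ^ 2)) (1 - ‖u‖ ^ 2) :=
      ((gl_smooth (k := 1)).differentiable (by simp) _).hasDerivAt
    have h4 := h3.nonneg_of_monotone expNegInvGlue.monotone
    have h5 : HasDerivAt (fun t : ℝ => gl (1 - ‖u + t • δ‖ ^ 2))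
        (deriv gl (1 - ‖u‖ ^ 2) * -(2 * inner ℝ u δ)) 0 :=
      h3.comp_of_eq 0 (hd_congr ((line_deriv u δ).norm_sq.const_sub 1) (fun _ => rfl) (by simp))
        (by simp)
    have h6 : ∀ i, HasDerivAt (fun t : ℝ => col (u + t • δ) i) 0 0 := fun i =>
      hd_congr ((EuclideanSpace.proj i : E (n + 1) →L[ℝ] ℝ).hasFDerivAt.comp_hasDerivAt 0
        (hd δ)) (fun _ => rfl) (by simp [h0])
    have h7 : ∀ k, δ k * (1 - col u 0) =
        deriv gl (1 - ‖u‖ ^ 2) * -(2 * inner ℝ u δ) * col u k.succ := fun k => by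
      have h8 := ((line_deriv (u k) (δ k)).fun_mul ((h6 0).const_sub 1)).unique
        (hd_congr (h5.fun_mul (h6 k.succ)) (fun t => by
          have := col_den (u + t • δ)
          simp only [col, Fin.cons_zero, Fin.cons_succ, PiLp.add_apply, PiLp.smul_apply]
          field_simp
          ring) rfl)
      simpa using h8
    have h8 := Finset.sum_congr rfl fun k (_ : k ∈ Finset.univ) => congrArg (δ k * ·) (h7 k)
    have h9 := col_den u
    simp only [col, Fin.cons_zero, Fin.cons_succ, ← mul_assoc, ← sq, ← Finset.sum_mul,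
      ← EuclideanSpace.real_norm_sq_eq] at h8
    have h10 : ∑ k, δ k * deriv gl (1 - ‖u‖ ^ 2) * -(2 * inner ℝ u δ) * (2 * gl (1 - ‖u‖ ^ 2) /
        (‖u‖ ^ 2 + gl (1 - ‖u‖ ^ 2) ^ 2)) * u k = -(4 * deriv gl (1 - ‖u‖ ^ 2) * gl (1 - ‖u‖ ^ 2) *
        inner ℝ u δ ^ 2) / (‖u‖ ^ 2 + gl (1 - ‖u‖ ^ 2) ^ 2) := by
      rw [sq (inner ℝ u δ)]
      nth_rewrite 3 [PiLp.inner_apply]
      simp only [Finset.mul_sum, ← Finset.sum_neg_distrib, Finset.sum_div]
      exact Finset.sum_congr rfl fun k _ => by simp; ring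
    rw [h10] at h8
    field_simp at h8
    refine norm_eq_zero.1 (pow_eq_zero_iff two_ne_zero |>.1 (le_antisymm ?_ (sq_nonneg _)))
    by_contra h11
    nlinarith [mul_nonneg h2.le (mul_nonneg h4 (sq_nonneg (inner ℝ u δ))),
      mul_pos (not_le.1 h11) (pow_pos h2 2)]
  · simpa [norm_col] using (hd δ).norm_sq.unique
      (hd_congr (hasDerivAt_const (0 : ℝ) (1 : ℝ)) (fun t => by simp [norm_col]) rfl)

theorem jac_col_cont : Continuous (jac (col : E n → _)) :=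
  continuous_jacL.comp (col_smooth.continuous.prodMk (col_smooth.continuous_fderiv one_ne_zero))

theorem jac_col_sign (hn : 0 < n) (u : E n) : 0 ≤ jac (col : E n → _) 0 * jac col u := by
  rcases lt_or_ge 1 ‖u‖ with h | h
  · rw [jac_const hn (((continuous_norm.tendsto u).eventually_const_le h).mono fun _ => col_out),
      mul_zero]
  have h1 : Metric.ball (0 : E n) 1 ⊆ {u | 0 ≤ jac (col : E n → _) 0 * jac col u} := by
    intro u hu
    by_contra h
    obtain ⟨x, hx, e⟩ := (convex_ball (0 : E n) 1).isPreconnected.intermediate_value hu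
      (Metric.mem_ball_self one_pos) (continuous_const.mul jac_col_cont).continuousOn
      (f := fun u => jac (col : E n → _) 0 * jac col u) ⟨(not_le.1 h).le, mul_self_nonneg _⟩
    exact mul_ne_zero (jac_col_ne (by simp)) (jac_col_ne (mem_ball_zero_iff.1 hx)) e
  refine closure_minimal h1 (isClosed_le continuous_const (continuous_const.mul jac_col_cont)) ?_
  rw [closure_ball _ one_ne_zero]
  exact mem_closedBall_zero_iff.2 h

variable (y : E n →L[ℝ] ℝ) (e : E n)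

/-- The folding map. -/
noncomputable def fold (a D : ℝ) (u : E n) : E n := u + (2 - a ^ 2 - D - y u) • e

variable {y e}

theorem y_fold (he : y e = 1) (a D : ℝ) (u : E n) : y (fold y e a D u) = 2 - a ^ 2 - D := by
  simp [fold, he]

theorem det_tv (he : y e = 1) (a : ℝ) :
    (ContinuousLinearMap.id ℝ (E n) + (a • y).smulRight e).det = 1 + a := by
  have := LinearMap.transvection.det (a • y : E n →L[ℝ] ℝ).toLinearMap e
  simp only [ContinuousLinearMap.coe_coe, smul_apply, he, smul_eq_mul,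
    mul_one] at this
  exact this

theorem sym_int (he : y e = 1) {T : Set (E n)} (hT : MeasurableSet T)
    (hT' : ∀ v ∈ T, v + (-2 * y v) • e ∈ T) {G : E n → E (n + 1)}
    (hG : ∀ v, G (v + (-2 * y v) • e) = G v) : ∫ v in T, jac G v = 0 := by
  set σ := ContinuousLinearMap.id ℝ (E n) + ((-2 : ℝ) • y).smulRight e with hσ
  have h1 : ∀ v, σ v = v + (-2 * y v) • e := fun _ => rfl
  have h2 : ∀ v, σ (σ v) = v := fun v => by simp [h1, he]; module
  let σ' := ContinuousLinearEquiv.equivOfInverse σ σ h2 h2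
  have h3 : σ.det = -1 := (det_tv he _).trans (by norm_num)
  have h4 : ∀ v, jac G v = -jac G (σ v) := fun v => by
    have h5 : G ∘ σ' = G := funext hG
    rw [jac, ← congrArg (fderiv ℝ · v) h5, σ'.comp_right_fderiv, jacL_comp, ← hG v]
    exact (congrArg _ h3).trans (mul_neg_one _)
  have h5 := integral_image_eq_integral_abs_det_fderiv_smul volume hT
    (fun v _ => σ.hasFDerivAt.hasFDerivWithinAt) σ'.injective.injOn (jac G)
  rw [show σ '' T = T from Subset.antisymm (by rintro _ ⟨v, hv, rfl⟩; exact hT' v hv)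
    fun v hv => ⟨σ v, hT' v hv, h2 v⟩] at h5
  simp only [h3, abs_neg, abs_one, one_smul] at h5
  have h6 : ∫ v in T, jac G v = -∫ v in T, jac G (σ v) := by
    rw [← integral_neg]; exact integral_congr_ae (Eventually.of_forall h4)
  linarith

theorem pos_int (hn : 0 < n) (he : y e = 1) (hy : ∀ v, |y v| ≤ ‖v‖) (S : E n →L[ℝ] E n)
    (hS : S.det ≠ 0) {T : Set (E n)} (hT : IsOpen T) {v₀ : E n} (h₀ : v₀ ∈ T) (h₁ : y (S v₀) < 0)
    (h₂ : fold y e (y (S v₀)) 0 (S v₀) = 0)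
    (hi : IntegrableOn (jac fun v => col (fold y e (min (y (S v)) 0) 0 (S v))) T) :
    ∫ v in T, jac (fun v => col (fold y e (min (y (S v)) 0) 0 (S v))) v ≠ 0 := by
  have c : Continuous fun v => y (S v) := by fun_prop
  have h3 : ∀ v, y (S v) < 0 → jac (fun v => col (fold y e (min (y (S v)) 0) 0 (S v))) v =
      jac col (fold y e (y (S v)) 0 (S v)) * (-2 * y (S v) * S.det) := fun v hv => by
    have h4 : (fun v => col (fold y e (min (y (S v)) 0) 0 (S v))) =ᶠ[𝓝 v]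
        col ∘ fun v => fold y e (y (S v)) 0 (S v) :=
      ((c.tendsto v).eventually_le_const hv).mono fun v hv => by simp [min_eq_left hv]
    have h5 := (y.comp S).hasFDerivAt (x := v)
    have h6 : HasFDerivAt (fun v => fold y e (y (S v)) 0 (S v)) ((ContinuousLinearMap.id ℝ (E n) +
        ((-2 * y (S v) - 1) • y).smulRight e).comp S) v := by
      refine (S.hasFDerivAt.add (((((h5.pow 2).const_sub 2).sub_const 0).sub h5).smul_const
        e)).congr_fderiv ?_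
      ext w : 1
      simp
      congr 1
      ring
    rw [jac_congr h4, jac_comp
      ((col_smooth.differentiable one_ne_zero) _) h6, clm_det_comp, det_tv he]
    ring
  set s := jac (col : E n → _) 0 * S.det
  have h4 : 0 < ∫ v in T, s * jac (fun v => col (fold y e (min (y (S v)) 0) 0 (S v))) v := by
    refine (setIntegral_pos_iff_support_of_nonneg_ae (Eventually.of_forall fun v => ?_)
      (hi.const_mul s)).2 (Measure.measure_pos_of_mem_nhds _ (x := v₀)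
        (inter_mem ?_ (hT.mem_nhds h₀)))
    · rcases lt_or_ge (y (S v)) 0 with h | h
      · simp only [h3 v h, s, Pi.zero_apply]
        nlinarith [mul_nonneg (mul_nonneg (jac_col_sign hn (fold y e (y (S v)) 0 (S v)))
          (neg_nonneg.2 h.le)) (mul_self_nonneg S.det)]
      · rw [jac_const hn (c := pt n), mul_zero]
        · rfl
        filter_upwards [(c.tendsto v).eventually_const_le (show -1 < y (S v) by linarith)] with w hw
        refine col_out (le_trans ?_ ((le_abs_self _).trans (hy _)))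
        rw [y_fold he]
        nlinarith [min_le_right (y (S w)) 0, le_min hw (show (-1 : ℝ) ≤ 0 by norm_num)]
    · have c2 : Continuous fun v => ‖fold y e (y (S v)) 0 (S v)‖ := by unfold fold; fun_prop
      filter_upwards [(c.tendsto v₀).eventually_lt_const h₁,
        (c2.tendsto v₀).eventually_lt_const (show _ < (1 : ℝ) by simp [h₂])] with v h h'
      rw [Function.mem_support, h3 v h]
      exact mul_ne_zero (mul_ne_zero (jac_col_ne (by simp)) hS) (mul_ne_zero (jac_col_ne h')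
        (mul_ne_zero (by linarith) hS))
  rw [integral_const_mul] at h4
  exact fun h => by simp [h] at h4

theorem exists_fold_lip (he : y e = 1) (hy : ∀ v, |y v| ≤ ‖v‖) : ∃ B c : ℝ, 0 ≤ c ∧
    (∀ z : E n × ℝ, 0 ≤ z.2 → ALipAt id c (fun z : E n × ℝ => col (fold y e (y z.1) z.2 z.1)) z) ∧
    ∀ a D u, 0 ≤ D → |y u| ≤ |a| → ‖fold y e a D u‖ ≤ 1 →
      1 ≤ a ^ 2 + D ∧ a ^ 2 + D ≤ 3 ∧ ‖u‖ ≤ B := by
  have h1 : ∀ a D u, 0 ≤ D → |y u| ≤ |a| → ‖fold y e a D u‖ ≤ 1 →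
      1 ≤ a ^ 2 + D ∧ a ^ 2 + D ≤ 3 ∧ ‖u‖ ≤ 1 + 3 * ‖e‖ := fun a D u hD ha h => by
    have h2 := (hy _).trans h
    rw [y_fold he] at h2
    obtain ⟨h3, h4⟩ := abs_le.1 h2
    refine ⟨by linarith, by linarith, ?_⟩
    have h5 : |a| ≤ 2 := abs_le_of_sq_le_sq (by linarith) (by norm_num)
    rw [show u = fold y e a D u - (2 - a ^ 2 - D - y u) • e by simp [fold]]
    refine (norm_sub_le _ _).trans (add_le_add h ?_)
    rw [norm_smul]
    exact mul_le_mul_of_nonneg_right ((abs_sub _ _).trans (by linarith)) (norm_nonneg _)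
  have h2 : ContDiff ℝ 1 fun z : E n × ℝ => fold y e (y z.1) z.2 z.1 := by unfold fold; fun_prop
  obtain ⟨c, hc, h3⟩ := exists_unif (P := id)
    (g := fun z : E n × ℝ => col (fold y e (y z.1) z.2 z.1))
    ((isCompact_closedBall (0 : E n) (1 + 3 * ‖e‖)).prod (isCompact_Icc (a := (0 : ℝ)) (b := 3)))
    fun z _ => al_amb continuousAt_id (ContDiffAt.lipAt (col_smooth.comp h2).contDiffAt)
  refine ⟨_, c, hc, fun z hz => ?_, h1⟩
  rcases le_or_gt ‖fold y e (y z.1) z.2 z.1‖ 1 with h | h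
  · obtain ⟨-, h4, h5⟩ := h1 _ _ _ hz le_rfl h
    exact h3 z ⟨mem_closedBall_zero_iff.2 h5, hz, by nlinarith⟩
  · exact ((aLipAt_const _ (pt n : E (n + 1)) _).congr (((h2.continuous.norm.tendsto
      z).eventually_const_le h).mono fun _ h => (col_out h).symm)).mono hc

end col

theorem Lev.jd_zero {n : ℕ} {A W : Type} [NormedAddCommGroup A] [NormedSpace ℝ A]
    [FiniteDimensional ℝ A] [NormedAddCommGroup W] [NormedSpace ℝ W] [FiniteDimensional ℝ W]
    {L : Lev n A W} {Y Y₀ : Type} [TopologicalSpace Y] [TopologicalSpace Y₀] {p : Y → L.Z}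
    {j : Y₀ → Y} (hj : IsOpenEmbedding j) {g : Y → E (n + 1)} {y : Y₀}
    (h : ∀ e ∈ L.Good (p ∘ j), y ∈ e.source → Jd (g ∘ j) e (e y) = 0) {e : Ch Y (E n)}
    (he : e ∈ L.Good p) (hy : j y ∈ e.source) : Jd g e (e (j y)) = 0 := by
  have : Nonempty Y₀ := ⟨y⟩
  have h1 := h _ (Lev.good_trans (hj.toOpenPartialHomeomorph j) (fun _ _ => rfl) he)
    ⟨mem_univ _, hy⟩
  have h2 : (g ∘ e.symm) =ᶠ[𝓝 (e (j y))]
      (g ∘ j) ∘ ((hj.toOpenPartialHomeomorph j).trans e).symm :=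
    (eventually_chart hy (hj.isOpen_range.mem_nhds (mem_range_self y))).mono fun x hx =>
      congrArg g (hj.toOpenPartialHomeomorph_right_inv j hx).symm
  exact (jac_congr h2).trans h1

namespace Cx

variable {V : Type} [Fintype V] [DecidableEq V] {X : Cx V}

instance (i : V) : T2Space (X.Lift i) := Topology.IsEmbedding.subtypeVal.t2Space

instance : T2Space X.N := Topology.IsEmbedding.subtypeVal.t2Space

theorem N.contAt {T : Type} [TopologicalSpace T] {f : T → X.N} {t : T}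
    (h : ContinuousAt (fun t => ((f t).J : X.Amb)) t) (h' : ContinuousAt (fun t => (f t).q) t) :
    ContinuousAt f t :=
  Topology.IsInducing.subtypeVal.continuousAt_iff.2 (Topology.IsInducing.subtypeVal.continuousAt_iff.2
    ((Topology.IsInducing.subtypeVal.continuousAt_iff.2 h).prodMk h'))

theorem N.al (a : X.N) : AL N.J N.q a :=
  (Lift.al a.1).trans (j := Subtype.val) continuous_subtype_val.continuousAt (aLipAt_self _ _).al

theorem N.ker {a : X.N} (h : X.ρ ^ 2 ≤ DZ a.J) {e : Ch X.N (E X.n)} (he : e ∈ X.lev.Good N.J)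
    (ha : a ∈ e.source) : Ker e a fun a b => a.q = b.q := by
  classical
  obtain ⟨η, h0, h1⟩ : ∃ η : X.κ → ℝ, η ≠ 0 ∧ ∑ b, a.ξ b * η b = 0 := by
    by_cases h2 : a.ξ (Sum.inr 0) = 0
    · exact ⟨Pi.single (Sum.inr 0) 1, by simp, by simp [Pi.single_apply, h2]⟩
    · refine ⟨Pi.single (Sum.inr 0) (a.ξ (Sum.inr 1)) - Pi.single (Sum.inr 1) (a.ξ (Sum.inr 0)),
        fun e => h2 (by simpa using congrFun e (Sum.inr 1)), ?_⟩
      simp [mul_sub, Finset.sum_sub_distrib, Pi.single_apply, mul_comm]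
  have h2 : ∀ t : ℝ, ∑ b, (a.ξ + t • η) b ^ 2 = DZ a.J + t ^ 2 * ∑ b, η b ^ 2 := fun t => by
    have : ∀ b, (a.ξ + t • η) b ^ 2 = a.ξ b ^ 2 + 2 * t * (a.ξ b * η b) + t ^ 2 * η b ^ 2 :=
      fun b => by simp; ring
    simp only [this, Finset.sum_add_distrib, ← Finset.mul_sum, h1, a.sum_ξ, mul_zero, add_zero]
  have h3 : ∀ᶠ t : ℝ in 𝓝 0, OkN a.q (a.ξ + t • η) := by
    have c : Continuous fun t : ℝ => DZ a.J + t ^ 2 * ∑ b, η b ^ 2 := by fun_prop
    filter_upwards [(c.tendsto' 0 (DZ a.J) (by simp)).eventually_lt_const a.2] with t ht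
    have h4 : X.ρ ^ 2 ≤ ∑ b, (a.ξ + t • η) b ^ 2 := by
      rw [h2]; nlinarith [mul_nonneg (sq_nonneg t) (sum_sq_pos h0).le]
    exact ⟨(pow_pos X.ρ_pos 2).trans_le h4, h2 t ▸ ht, by
      rw [a.ok.ph, X.g0_zero h4, X.g0_zero (a.sum_ξ ▸ h), zero_smul, zero_smul]⟩
  have h4 := dir_deriv ((mkA_smooth (k := 1) (p := (a.q, a.ξ)) a.ok.lt.le).differentiableAt
    (by simp)) (0, η)
  simp only [Prod.fst_add, Prod.snd_add, Prod.smul_mk, smul_zero, add_zero] at h4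
  let γ : ℝ → X.N := fun t => if h : OkN a.q (a.ξ + t • η) then h.mk' else a
  have h5 : (fun t => ((γ t).J : X.Amb)) =ᶠ[𝓝 0] fun t => X.mkA a.q (a.ξ + t • η) :=
    h3.mono fun t ht => by simp only [γ, dif_pos ht]; rfl
  have h6 : ∀ t, a.q = (γ t).q := fun t => by simp only [γ]; split_ifs <;> rfl
  refine Lev.ker_curve he ha (γ := γ) (N.contAt (h4.continuousAt.congr h5.symm)
    (by simp only [← h6]; exact continuousAt_const)) ?_ (fun h7 => h0 ?_)
    (h4.congr_of_eventuallyEq h5) (Eventually.of_forall h6)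
  · simp only [γ, dif_pos h3.self_of_nhds]
    exact OkN.eq_mk' _ rfl (by simp)
  · rw [h7] at h4
    have h8 := (((X.xi_smooth (k := 1)).differentiable (by simp) _).hasFDerivAt.comp_hasDerivAt 0
      ((hd_fst (hd_snd h4)).prodMk (hd_fst (hd_snd (hd_snd h4)))))
    exact (line_deriv a.ξ η).unique (hd_congr h8 (fun t => (X.xi_of _).symm) (by
      simp [Prod.mk_zero_zero]))

theorem jP_q (q : X.P0) : (jP q).q = q := rfl

theorem range_jP : range (jP : X.P0 → X.N) = {a | DZ a.J < X.ρ ^ 2} := by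
  refine Subset.antisymm ?_ fun a ha => ?_
  · rintro _ ⟨q, rfl⟩
    have := (ok_xiOf (mem_P0.1 q.2)).2
    rwa [← (ok_xiOf (mem_P0.1 q.2)).1.mk'_ξ, N.sum_ξ] at this
  · have := a.ok.xiOf_eq (a.sum_ξ ▸ ha)
    exact ⟨⟨_, mem_P0.2 this.1⟩, OkN.eq_mk' _ rfl this.2.symm⟩

theorem jP_emb : IsOpenEmbedding (jP : X.P0 → X.N) :=
  ⟨.of_comp jP_cont N.q_cont .subtypeVal, range_jP (X := X) ▸
    isOpen_lt (DZ_cont.comp N.J_cont) continuous_const⟩

theorem chart_int (co : XT X.κ ≃L[ℝ] E X.n) : ∃ s : ℝ, s ≠ 0 ∧ ∀ (G : E X.n → E (X.n + 1)) (M : ℝ),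
    (∀ v, LipAt G v) → (∀ v, M ≤ ‖co.symm v‖ → G v = pt X.n) →
    Ok N.J (chi ∘ N.J) (fun a => G (co a.q)) {a | DZ a.J ≤ 3 * X.ρ ^ 2 ∧ ‖a.q‖ ≤ M} ∧
    IntegrableOn (jac G) (co.symm ⁻¹' X.P0) ∧
    IJ N.J (chi ∘ N.J) (fun a => G (co a.q)) = s * ∫ v in co.symm ⁻¹' X.P0, jac G v := by
  have := isPreconnected_iff_preconnectedSpace.1 (P0_conn (X := X))
  have : Nonempty X.P0 := ⟨⟨0, X.b₀, by simp⟩⟩
  have hc : IsOpenEmbedding fun q : X.P0 => co q :=
    co.toHomeomorph.isOpenEmbedding.comp P0_open.isOpenEmbedding_subtypeVal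
  set c₁ := hc.toOpenPartialHomeomorph
  have t1 : c₁.target = co.symm ⁻¹' X.P0 := by
    rw [hc.toOpenPartialHomeomorph_target]
    ext v
    exact ⟨by rintro ⟨q, rfl⟩; simp, fun h => ⟨⟨_, h⟩, by simp⟩⟩
  have t2 : ∀ v ∈ c₁.target, co (c₁.symm v) = v := fun v hv => c₁.right_inv hv
  have hB : Sys {c₁} := by
    have h1 : ∀ y, (c₁ ∘ c₁.symm) =ᶠ[𝓝 (c₁ y)] id := fun y =>
      c₁.eventually_right_inverse' (mem_univ _)
    refine ⟨fun y => ⟨c₁, rfl, mem_univ _⟩, ?_, ?_⟩ <;> rintro _ rfl _ rfl y - -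
    · exact contDiffAt_id.congr_of_eventuallyEq (h1 y)
    · rw [tdet, (h1 y).fderiv_eq, fderiv_id]; simp [ContinuousLinearMap.det]
  obtain ⟨s, hs, h1⟩ := exists_sign (Lev.sys (N.loc.comp jP_emb.isLocalHomeomorph)) hB (by
    rintro e ⟨Q, hQ⟩ _ rfl y hy -
    constructor
    · obtain ⟨σ, h1, -, h2⟩ := Lift.exists_sec (jP y).1
      have h3 : ContDiffAt ℝ ∞ σ ((N.J ∘ jP) (e.symm (e y))) := by rw [e.left_inv hy]; exact h1
      refine ((co.contDiff.contDiffAt.comp _ (h3.comp (e y) (hQ.smooth _ (e.map_source hy)))).of_le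
        (by simp)).congr_of_eventuallyEq ?_
      exact (eventually_chart hy ((continuous_subtype_val.comp jP_cont).continuousAt.eventually
        h2)).mono fun x hx => congrArg co hx.symm
    · have h2 : ContDiffAt ℝ 1 (fun v => Q (X.mkA (co.symm v) (xiOf (co.symm v).1))) (co y) := by
        refine Q.contDiff.contDiffAt.comp _ ((mkA_smooth (k := 1) (p := (co.symm (co y),
          xiOf (co.symm (co y)).1)) ?_).comp _ (f := fun v => (co.symm v, xiOf (co.symm v).1))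
          (co.symm.contDiff.contDiffAt.prodMk ((xiOf_smooth ?_).comp _ (by fun_prop)))) <;>
          rw [co.symm_apply_apply]
        exacts [(ok_xiOf (mem_P0.1 y.2)).1.lt.le, mem_P0.1 y.2]
      refine (h2.differentiableAt one_ne_zero).congr_of_eventuallyEq ?_
      filter_upwards [eventually_chart (e := c₁) (mem_univ y) (e.open_source.mem_nhds hy),
        c₁.open_target.mem_nhds (c₁.map_source (mem_univ y))] with v h h'
      rw [Function.comp, hQ.eq _ h]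
      nth_rewrite 2 3 [← t2 v h']
      rw [co.symm_apply_apply]
      rfl)
  refine ⟨s, by rcases hs with rfl | rfl <;> norm_num, fun G M hG hM => ?_⟩
  have hO : Ok N.J (chi ∘ N.J) (fun a => G (co a.q)) {a | DZ a.J ≤ 3 * X.ρ ^ 2 ∧ ‖a.q‖ ≤ M} := by
    refine ⟨N.loc, fun a => a.al.comp N.J_cont.continuousAt (G := fun q => G (co q))
      ((hG _).comp' (LipschitzWith.lipAt co.lipschitz _)), (continuous_iff_continuousAt.2
      fun x => (chi_lip x).continuousAt).comp N.J_cont, N.cpt (by linarith [pow_pos X.ρ_pos 2]) _,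
      fun a ha => ?_⟩
    rcases not_and_or.1 ha with h | h
    · exact Or.inl (chi_zero (not_le.1 h).le)
    · exact Or.inr ⟨_, ((N.q_cont.norm.tendsto a).eventually_const_le (not_le.1 h)).mono
        fun b hb => hM _ (by simpa using hb)⟩
  set φ := jP_emb.toOpenPartialHomeomorph (jP : X.P0 → X.N)
  have t3 : (φ.symm.trans c₁).target = co.symm ⁻¹' X.P0 := by simp [φ, t1]
  have h2 := hO.dens.int_chart (Lev.sys N.loc) hs (c := φ.symm.trans c₁) (fun e he y hy hy' => by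
    have h2 := h1 _ (Lev.good_trans φ (fun _ _ => rfl) he) c₁ rfl (φ.symm y) ⟨mem_univ _,
      show φ (φ.symm y) ∈ e.source by rwa [φ.right_inv hy'.1]⟩ (mem_univ _)
    simp only [Dif, tdet, OpenPartialHomeomorph.trans_apply, φ.right_inv hy'.1] at h2
    exact h2) fun e he y hy hy' => by
      have h2 : X.ρ ^ 2 ≤ DZ y.J := not_lt.1 fun h => hy' ⟨by
        simpa [φ, range_jP] using h, mem_univ _⟩
      rw [mulD, (N.ker h2 he hy).jd fun a b h => by rw [h], mul_zero]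
  have h3 : EqOn (mulD (chi ∘ N.J) (Jd fun a => G (co a.q)) (φ.symm.trans c₁)) (jac G)
      (co.symm ⁻¹' X.P0) := fun v hv => by
    have h4 : ((fun a : X.N => G (co a.q)) ∘ (φ.symm.trans c₁).symm) =ᶠ[𝓝 v] G :=
      Filter.eventually_of_mem (c₁.open_target.mem_nhds (t1 ▸ hv)) fun w hw => congrArg G (t2 w hw)
    have h5 : DZ (jP (c₁.symm v)).J < X.ρ ^ 2 := range_jP.subset (mem_range_self _)
    rw [mulD, Jd, jac_congr h4, show (chi ∘ N.J) ((φ.symm.trans c₁).symm v) = 1 from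
      chi_one (h5.le.trans (by linarith [pow_pos X.ρ_pos 2])), one_mul]
  have h4 : MeasurableSet (co.symm ⁻¹' X.P0) := (t1 ▸ c₁.open_target).measurableSet
  rw [t3, setIntegral_congr_fun h4 h3] at h2
  exact ⟨hO, h2.1.congr_fun h3 h4, h2.2⟩

end Cx

end Pool.Agent.Lib.MP_4b70aa_gt
end
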