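import Mathlib

-- part Pool.Agent.Lib.MP_4b70aa_gt.Piola
section

set_option autoImplicit false
set_option linter.unusedSectionVars false

open MeasureTheory Filter Set Topology
open scoped Convolution Matrix

namespace Pool.Agent.Lib.MP_4b70aa_gt

variable {W : Type} [NormedAddCommGroup W] [NormedSpace ℝ W] [FiniteDimensional ℝ W]
  [MeasurableSpace W] [BorelSpace W] (μ : Measure W) [μ.IsAddHaarMeasure]
  {ι : Type} [Fintype ι] [DecidableEq ι]

/-- The matrix of directional derivatives. -/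
noncomputable def dmat (H : ι → W → ℝ) (e : ι → W) (x : W) : Matrix ι ι ℝ :=
  Matrix.of fun j i => fderiv ℝ (H i) x (e j)

theorem contDiff_dir {H : W → ℝ} (hH : ContDiff ℝ 2 H) (v : W) :
    ContDiff ℝ 1 (fun x => fderiv ℝ H x v) :=
  (hH.fderiv_right (m := 1) (by norm_num)).clm_apply contDiff_const

theorem fderiv_dir {H : W → ℝ} (hH : ContDiff ℝ 2 H) (x v w : W) :
    fderiv ℝ (fun x => fderiv ℝ H x v) x w = fderiv ℝ (fderiv ℝ H) x w v := by
  have h1 : DifferentiableAt ℝ (fderiv ℝ H) x :=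
    ((hH.fderiv_right (m := 1) (by norm_num)).differentiable (by norm_num)) x
  rw [fderiv_clm_apply h1 (differentiableAt_const _)]
  simp

theorem star_smooth (H : ι → W → ℝ) (e : ι → W) (i₀ : ι) (hH : ∀ i, ContDiff ℝ 2 (H i))
    (hc : HasCompactSupport (H i₀)) : ∫ x, (dmat H e x).det ∂μ = 0 := by
  set P : Equiv.Perm ι → W → ℝ := fun σ x =>
    ∏ i ∈ Finset.univ.erase i₀, fderiv ℝ (H i) x (e (σ i)) with hP
  have hPc : ∀ σ, ContDiff ℝ 1 (P σ) := fun σ =>
    contDiff_prod fun i _ => contDiff_dir (hH i) _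
  have hdet : ∀ x, (dmat H e x).det = ∑ σ : Equiv.Perm ι,
      (Equiv.Perm.sign σ : ℝ) * (fderiv ℝ (H i₀) x (e (σ i₀)) * P σ x) := by
    intro x
    rw [Matrix.det_apply]
    refine Finset.sum_congr rfl fun σ _ => ?_
    rw [← Finset.mul_prod_erase Finset.univ _ (Finset.mem_univ i₀)]
    simp [dmat, hP, Units.smul_def]
  have hc0 : Continuous (H i₀) := (hH i₀).continuous
  have hint1 : ∀ σ : Equiv.Perm ι,
      Integrable (fun x => fderiv ℝ (H i₀) x (e (σ i₀)) * P σ x) μ := fun σ =>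
    ((contDiff_dir (hH i₀) _).continuous.mul (hPc σ).continuous).integrable_of_hasCompactSupport
      ((hc.fderiv_apply (𝕜 := ℝ) _).mul_right)
  have hint2 : ∀ σ : Equiv.Perm ι,
      Integrable (fun x => H i₀ x * fderiv ℝ (P σ) x (e (σ i₀))) μ := fun σ =>
    (hc0.mul (((hPc σ).continuous_fderiv (by norm_num)).clm_apply
      continuous_const)).integrable_of_hasCompactSupport hc.mul_right
  have hibp : ∀ σ : Equiv.Perm ι, ∫ x, fderiv ℝ (H i₀) x (e (σ i₀)) * P σ x ∂μ =
      - ∫ x, H i₀ x * fderiv ℝ (P σ) x (e (σ i₀)) ∂μ := by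
    intro σ
    rw [integral_mul_fderiv_eq_neg_fderiv_mul_of_integrable (hint1 σ) (hint2 σ)
      ((hc0.mul (hPc σ).continuous).integrable_of_hasCompactSupport hc.mul_right)
      (fun x _ => (hH i₀).differentiable (by norm_num) x)
      (fun x _ => (hPc σ).differentiable (by norm_num) x), neg_neg]
  have hzero : ∀ x, ∑ σ : Equiv.Perm ι,
      (Equiv.Perm.sign σ : ℝ) * fderiv ℝ (P σ) x (e (σ i₀)) = 0 := by
    intro x
    have h1 : ∀ σ : Equiv.Perm ι, fderiv ℝ (P σ) x (e (σ i₀)) =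
        ∑ l ∈ Finset.univ.erase i₀, (∏ i ∈ (Finset.univ.erase i₀).erase l,
          fderiv ℝ (H i) x (e (σ i))) * fderiv ℝ (fderiv ℝ (H l)) x (e (σ i₀)) (e (σ l)) := by
      intro σ
      have := HasFDerivAt.finsetProd (u := Finset.univ.erase i₀)
        (g := fun i x => fderiv ℝ (H i) x (e (σ i)))
        (g' := fun i => fderiv ℝ (fun x => fderiv ℝ (H i) x (e (σ i))) x) (x := x)
        (fun i _ => ((contDiff_dir (hH i) _).differentiable (by norm_num) x).hasFDerivAt)
      rw [show P σ = fun x => ∏ i ∈ Finset.univ.erase i₀, fderiv ℝ (H i) x (e (σ i)) from rfl,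
        this.fderiv]
      simp only [sum_apply, smul_apply, smul_eq_mul]
      refine Finset.sum_congr rfl fun l _ => ?_
      rw [fderiv_dir (hH l)]
    simp_rw [h1, Finset.mul_sum]
    rw [Finset.sum_comm]
    refine Finset.sum_eq_zero fun l hl => ?_
    have hl0 : l ≠ i₀ := Finset.ne_of_mem_erase hl
    set T : Equiv.Perm ι → ℝ := fun σ => (Equiv.Perm.sign σ : ℝ) *
      ((∏ i ∈ (Finset.univ.erase i₀).erase l, fderiv ℝ (H i) x (e (σ i))) *
        fderiv ℝ (fderiv ℝ (H l)) x (e (σ i₀)) (e (σ l))) with hT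
    have hflip : ∀ σ, T (σ * Equiv.swap i₀ l) = - T σ := by
      intro σ
      have hs : (Equiv.Perm.sign (σ * Equiv.swap i₀ l) : ℝ) = - (Equiv.Perm.sign σ : ℝ) := by
        rw [Equiv.Perm.sign_mul, Equiv.Perm.sign_swap hl0.symm]
        simp
      have hp : ∏ i ∈ (Finset.univ.erase i₀).erase l,
          fderiv ℝ (H i) x (e ((σ * Equiv.swap i₀ l) i)) =
          ∏ i ∈ (Finset.univ.erase i₀).erase l, fderiv ℝ (H i) x (e (σ i)) := by
        refine Finset.prod_congr rfl fun i hi => ?_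
        have h1 : i ≠ l := Finset.ne_of_mem_erase hi
        have h2 : i ≠ i₀ := Finset.ne_of_mem_erase (Finset.mem_of_mem_erase hi)
        simp [Equiv.swap_apply_of_ne_of_ne h2 h1]
      have hsym := ((hH l).contDiffAt (x := x)).isSymmSndFDerivAt (by simp)
      simp only [hT]
      rw [hs, hp]
      simp only [Equiv.Perm.coe_mul, Function.comp_apply, Equiv.swap_apply_left,
        Equiv.swap_apply_right]
      rw [hsym.eq (e (σ l)) (e (σ i₀))]
      ring
    have : ∑ σ, T σ = - ∑ σ, T σ := by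
      rw [← Finset.sum_neg_distrib]
      conv_lhs => rw [← Equiv.sum_comp (Equiv.mulRight (Equiv.swap i₀ l)) T]
      exact Finset.sum_congr rfl fun σ _ => hflip σ
    show ∑ σ, T σ = 0
    linarith
  simp_rw [hdet]
  rw [integral_finsetSum _ fun σ _ => (hint1 σ).const_mul _]
  simp_rw [integral_const_mul, hibp, mul_neg, ← integral_const_mul]
  rw [Finset.sum_neg_distrib, ← integral_finsetSum _ fun σ _ => (hint2 σ).const_mul _]
  have : ∀ x, ∑ σ : Equiv.Perm ι, (Equiv.Perm.sign σ : ℝ) *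
      (H i₀ x * fderiv ℝ (P σ) x (e (σ i₀))) = 0 := by
    intro x
    have := hzero x
    calc _ = H i₀ x * ∑ σ : Equiv.Perm ι,
          (Equiv.Perm.sign σ : ℝ) * fderiv ℝ (P σ) x (e (σ i₀)) := by
          rw [Finset.mul_sum]; exact Finset.sum_congr rfl fun σ _ => by ring
      _ = 0 := by rw [this, mul_zero]
  simp [this]

/-- The bump functions used for mollification. -/
noncomputable def bmp (W : Type) [NormedAddCommGroup W] (k : ℕ) : ContDiffBump (0 : W) :=
  ⟨1 / (2 * ((k : ℝ) + 1)), 1 / ((k : ℝ) + 1), by positivity, by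
    rw [div_lt_div_iff₀ (by positivity) (by positivity)]
    have : (0 : ℝ) < (k : ℝ) + 1 := by positivity
    linarith⟩

/-- Mollification. -/
noncomputable def moll (k : ℕ) (H : W → ℝ) : W → ℝ :=
  (bmp W k).normed μ ⋆[ContinuousLinearMap.lsmul ℝ ℝ, μ] H

theorem moll_contDiff (k : ℕ) {H : W → ℝ} (hH : Continuous H) : ContDiff ℝ 2 (moll μ k H) :=
  HasCompactSupport.contDiff_convolution_left (n := 2) _ (bmp W k).hasCompactSupport_normed
    (bmp W k).contDiff_normed hH.locallyIntegrable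

theorem moll_fderiv (k : ℕ) {H : W → ℝ} {K : NNReal} (hH : LipschitzWith K H) (x v : W) :
    fderiv ℝ (moll μ k H) x v = moll μ k (fun y => fderiv ℝ H y v) x := by
  set φ := (bmp W k).normed μ with hφ
  have hφc : Continuous φ := (bmp W k).continuous_normed
  have hφi : Integrable φ μ := (bmp W k).integrable_normed
  have hd : ∀ᵐ t ∂μ, DifferentiableAt ℝ H (x - t) := by
    have := (Measure.measurePreserving_sub_left μ x).quasiMeasurePreserving.ae
      (hH.ae_differentiableAt (μ := μ))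
    exact this
  have key := hasFDerivAt_integral_of_dominated_loc_of_lip' (μ := μ) (𝕜 := ℝ)
    (F := fun y t => φ t • H (y - t)) (F' := fun t => φ t • fderiv ℝ H (x - t)) (x₀ := x)
    (s := univ) (bound := fun t => ‖φ t‖ * K) univ_mem
    (fun y _ => (hφc.smul (hH.continuous.comp (continuous_const.sub
      continuous_id))).aestronglyMeasurable)
    ((hφc.smul (hH.continuous.comp (continuous_const.sub
      continuous_id))).integrable_of_hasCompactSupport
      ((bmp W k).hasCompactSupport_normed.smul_right))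
    (hφc.aestronglyMeasurable.smul ((measurable_fderiv ℝ H).comp
      (measurable_const.sub measurable_id)).aestronglyMeasurable)
    (Eventually.of_forall fun t y _ => by
      rw [← smul_sub, norm_smul, mul_assoc]
      refine mul_le_mul_of_nonneg_left ?_ (norm_nonneg _)
      have := hH.norm_sub_le (y - t) (x - t)
      simpa using this)
    (hφi.norm.mul_const _)
    (hd.mono fun t ht => by
      have h1 : HasFDerivAt (fun y => H (y - t)) (fderiv ℝ H (x - t)) x := by
        have := ht.hasFDerivAt.comp x ((hasFDerivAt_id x).sub_const t)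
        rw [ContinuousLinearMap.comp_id] at this
        exact this
      exact h1.const_smul (φ t))
  have h2 : moll μ k H = fun y => ∫ t, φ t • H (y - t) ∂μ := rfl
  rw [h2, key.2.fderiv, ContinuousLinearMap.integral_apply key.1]
  rfl

theorem moll_lipschitz_bound (k : ℕ) {H : W → ℝ} {K : NNReal} (hH : LipschitzWith K H) (x v : W) :
    |fderiv ℝ (moll μ k H) x v| ≤ K * ‖v‖ := by
  rw [moll_fderiv μ k hH]
  have h1 : ∀ y, |fderiv ℝ H y v| ≤ K * ‖v‖ := fun y =>
    ((fderiv ℝ H y).le_opNorm v).trans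
      (mul_le_mul_of_nonneg_right (norm_fderiv_le_of_lipschitz ℝ hH) (norm_nonneg _))
  show |∫ t, (bmp W k).normed μ t • fderiv ℝ H (x - t) v ∂μ| ≤ _
  calc _ ≤ ∫ t, (bmp W k).normed μ t * (K * ‖v‖) ∂μ := by
        rw [← Real.norm_eq_abs]
        refine norm_integral_le_of_norm_le ((bmp W k).integrable_normed.mul_const _)
          (Eventually.of_forall fun t => ?_)
        rw [norm_smul, Real.norm_of_nonneg ((bmp W k).nonneg_normed t)]
        exact mul_le_mul_of_nonneg_left (h1 _) ((bmp W k).nonneg_normed t)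
    _ = K * ‖v‖ := by rw [integral_mul_const, (bmp W k).integral_normed, one_mul]

theorem moll_tendsto {H : W → ℝ} {K : NNReal} (hH : LipschitzWith K H) (v : W) :
    ∀ᵐ x ∂μ, Tendsto (fun k => fderiv ℝ (moll μ k H) x v) atTop (𝓝 (fderiv ℝ H x v)) := by
  simp_rw [moll_fderiv μ _ hH]
  refine ContDiffBump.ae_convolution_tendsto_right_of_locallyIntegrable (K := 2)
    (φ := fun k => bmp W k) tendsto_one_div_add_atTop_nhds_zero_nat
    (Eventually.of_forall fun k => ?_) ?_
  · show 1 / ((k : ℝ) + 1) ≤ 2 * (1 / (2 * ((k : ℝ) + 1)))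
    apply le_of_eq
    field_simp
  · have hm : Measurable fun y => fderiv ℝ H y v := measurable_fderiv_apply_const ℝ H v
    refine (locallyIntegrable_const (K * ‖v‖ : ℝ)).mono hm.aestronglyMeasurable
      (Eventually.of_forall fun y => ?_)
    rw [Real.norm_of_nonneg (by positivity : (0 : ℝ) ≤ K * ‖v‖)]
    exact ((fderiv ℝ H y).le_opNorm v).trans
      (mul_le_mul_of_nonneg_right (norm_fderiv_le_of_lipschitz ℝ hH) (norm_nonneg _))

theorem abs_det_le (A : Matrix ι ι ℝ) (b : ℝ) (h : ∀ i j, |A i j| ≤ b) :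
    |A.det| ≤ (Nat.factorial (Fintype.card ι) : ℝ) * b ^ Fintype.card ι := by
  have := Matrix.det_le (A := A) (abv := AbsoluteValue.abs) (x := b) h
  simpa using this

/-- The integral of a Jacobian determinant of Lipschitz functions, one of them compactly
supported, vanishes. -/
theorem star_lip (H : ι → W → ℝ) (e : ι → W) (i₀ : ι) {K : NNReal}
    (hH : ∀ i, LipschitzWith K (H i)) (hc : HasCompactSupport (H i₀)) :
    ∫ x, (dmat H e x).det ∂μ = 0 := by
  set S : Set W := Metric.cthickening 1 (tsupport (H i₀)) with hS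
  have hSc : IsCompact S := hc.isCompact.cthickening
  have hsupp : ∀ k, tsupport (moll μ k (H i₀)) ⊆ S := by
    intro k
    refine closure_minimal ?_ Metric.isClosed_cthickening
    refine (support_convolution_subset _).trans ?_
    rintro _ ⟨a, ha, b, hb, rfl⟩
    rw [(bmp W k).support_normed_eq] at ha
    refine Metric.mem_cthickening_of_dist_le _ b _ _ (subset_tsupport _ hb) ?_
    have h1 : ‖a‖ < 1 / ((k : ℝ) + 1) := mem_ball_zero_iff.1 ha
    have h2 : 1 / ((k : ℝ) + 1) ≤ 1 := by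
      rw [div_le_one (by positivity)]; linarith [Nat.cast_nonneg (α := ℝ) k]
    simp only [dist_add_self_left]
    linarith
  have hz : ∀ k, ∫ x, (dmat (fun i => moll μ k (H i)) e x).det ∂μ = 0 := fun k =>
    star_smooth μ _ e i₀ (fun i => moll_contDiff μ k (hH i).continuous)
      (hSc.of_isClosed_subset (isClosed_tsupport _) (hsupp k))
  set b : ℝ := K * ∑ j, ‖e j‖ with hb
  have hlim : Tendsto (fun k => ∫ x, (dmat (fun i => moll μ k (H i)) e x).det ∂μ) atTop
      (𝓝 (∫ x, (dmat H e x).det ∂μ)) := by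
    refine tendsto_integral_of_dominated_convergence
      (S.indicator fun _ => (Nat.factorial (Fintype.card ι) : ℝ) * b ^ Fintype.card ι)
      (fun k => ?_) ?_ (fun k => Eventually.of_forall fun x => ?_) ?_
    · refine Continuous.aestronglyMeasurable (Continuous.matrix_det ?_)
      exact continuous_matrix fun j i =>
        (contDiff_dir (moll_contDiff μ k (hH i).continuous) _).continuous
    · exact (integrable_indicator_iff hSc.measurableSet).2
        (integrableOn_const hSc.measure_lt_top.ne)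
    · by_cases hx : x ∈ S
      · rw [indicator_of_mem hx, Real.norm_eq_abs]
        refine abs_det_le _ _ fun j i => (moll_lipschitz_bound μ k (hH i) x (e j)).trans ?_
        exact mul_le_mul_of_nonneg_left (Finset.single_le_sum (f := fun j => ‖e j‖)
          (fun _ _ => norm_nonneg _) (Finset.mem_univ j)) K.2
      · rw [indicator_of_notMem hx]
        have : fderiv ℝ (moll μ k (H i₀)) x = 0 :=
          fderiv_of_notMem_tsupport ℝ fun h => hx (hsupp k h)
        rw [Matrix.det_eq_zero_of_column_eq_zero i₀ fun j => by simp [dmat, this]]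
        simp
    · have : ∀ᵐ x ∂μ, ∀ i j, Tendsto (fun k => fderiv ℝ (moll μ k (H i)) x (e j)) atTop
          (𝓝 (fderiv ℝ (H i) x (e j))) := by
        rw [ae_all_iff]; intro i; rw [ae_all_iff]; intro j
        exact moll_tendsto μ (hH i) (e j)
      filter_upwards [this] with x hx
      refine (Continuous.matrix_det continuous_id).continuousAt.tendsto.comp ?_
      exact tendsto_pi_nhds.2 fun j => tendsto_pi_nhds.2 fun i => hx i j
  simp_rw [hz] at hlim
  exact (tendsto_nhds_unique tendsto_const_nhds hlim).symm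

/-- The boundary form `G . adj(M) d`. -/
def bform (G : ι → ℝ) (M : Matrix ι ι ℝ) (d : ι → ℝ) : ℝ := G ⬝ᵥ (M.adjugate *ᵥ d)

theorem bform_mul (G : ι → ℝ) (P M : Matrix ι ι ℝ) (d : ι → ℝ) :
    bform G (P * M) (P *ᵥ d) = P.det * bform G M d := by
  unfold bform
  rw [Matrix.adjugate_mul_distrib, Matrix.mulVec_mulVec, Matrix.mul_assoc, Matrix.adjugate_mul,
    Matrix.mul_smul, Matrix.mul_one, Matrix.smul_mulVec, dotProduct_smul, smul_eq_mul]

theorem bform_eq_zero (G : ι → ℝ) (M : Matrix ι ι ℝ) (d p : ι → ℝ) (hp : p ≠ 0)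
    (hM : p ᵥ* M = 0) (hd : p ⬝ᵥ d = 0) : bform G M d = 0 := by
  have hpp : p ⬝ᵥ p ≠ 0 := fun h => hp (dotProduct_self_eq_zero.1 h)
  set q : ι → ℝ := (p ⬝ᵥ p)⁻¹ • p with hq
  set P : Matrix ι ι ℝ := 1 - Matrix.vecMulVec q p with hP
  have h1 : P * M = M := by
    rw [hP, Matrix.sub_mul, Matrix.one_mul, Matrix.vecMulVec_mul, hM]
    simp
  have h2 : P *ᵥ d = d := by
    rw [hP, Matrix.sub_mulVec, Matrix.one_mulVec, Matrix.vecMulVec_mulVec, hd]
    simp
  have h3 : P.det = 0 := by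
    rw [← Matrix.exists_mulVec_eq_zero_iff]
    refine ⟨p, hp, ?_⟩
    rw [hP, Matrix.sub_mulVec, Matrix.one_mulVec, Matrix.vecMulVec_mulVec, hq]
    ext i
    simp only [Pi.sub_apply, Pi.smul_apply, Pi.zero_apply, smul_eq_mul,
      MulOpposite.smul_eq_mul_unop, MulOpposite.unop_op]
    field_simp
    ring
  have := bform_mul G P M d
  rw [h1, h2, h3, zero_mul] at this
  exact this

theorem bform_zero (G : ι → ℝ) (M : Matrix ι ι ℝ) : bform G M (fun _ => 0) = 0 := by
  simp [bform, Matrix.mulVec, dotProduct]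

theorem bform_add (G : ι → ℝ) (M : Matrix ι ι ℝ) (d d' : ι → ℝ) :
    bform G M (d + d') = bform G M d + bform G M d' := by
  simp [bform, Matrix.mulVec_add, dotProduct_add]

theorem bform_smul (G : ι → ℝ) (M : Matrix ι ι ℝ) (c : ℝ) (d : ι → ℝ) :
    bform G M (c • d) = c * bform G M d := by
  simp [bform, Matrix.mulVec_smul, dotProduct_smul]

theorem bform_single (G : ι → ℝ) (M : Matrix ι ι ℝ) (j : ι) :
    bform G M (Pi.single j 1) = (M.updateRow j G).det := by
  rw [← Matrix.cramer_transpose_apply, Matrix.cramer_eq_adjugate_mulVec,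
    ← Matrix.adjugate_transpose, Matrix.mulVec_transpose, bform, Matrix.dotProduct_mulVec]
  simp

theorem lipschitz_mul_of_compact {ψ G : W → ℝ} {K K' : NNReal} (hψ : LipschitzWith K ψ)
    (hG : LipschitzWith K' G) (hc : HasCompactSupport ψ) :
    ∃ L, LipschitzWith L fun x => ψ x * G x := by
  obtain ⟨B, hB⟩ := hc.isCompact.exists_bound_of_continuousOn hG.continuous.continuousOn
  obtain ⟨C, hC⟩ := hc.exists_bound_of_continuous hψ.continuous
  have key : ∀ x y, x ∈ tsupport ψ → dist (ψ x * G x) (ψ y * G y) ≤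
      (K * |B| + |C| * K') * dist x y := by
    intro x y hx
    have h1 := hψ.dist_le_mul x y
    have h2 := hG.dist_le_mul x y
    rw [Real.dist_eq] at h1 h2 ⊢
    have h3 : |G x| ≤ |B| := (hB x hx).trans (le_abs_self _)
    have h4 : |ψ y| ≤ |C| := (hC y).trans (le_abs_self _)
    calc |ψ x * G x - ψ y * G y| = |(ψ x - ψ y) * G x + ψ y * (G x - G y)| := by ring_nf
      _ ≤ |ψ x - ψ y| * |G x| + |ψ y| * |G x - G y| := by
          rw [← abs_mul, ← abs_mul]; exact abs_add_le _ _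
      _ ≤ (K * dist x y) * |B| + |C| * (K' * dist x y) := by gcongr
      _ = _ := by ring
  refine ⟨⟨K * |B| + |C| * K', by positivity⟩, LipschitzWith.of_dist_le_mul fun x y => ?_⟩
  by_cases hx : x ∈ tsupport ψ
  · exact key x y hx
  by_cases hy : y ∈ tsupport ψ
  · rw [dist_comm, dist_comm x y]; exact key y x hy
  rw [image_eq_zero_of_notMem_tsupport hx, image_eq_zero_of_notMem_tsupport hy]
  simp only [zero_mul, dist_self]
  positivity

theorem measurable_det_dmat (H : ι → W → ℝ) (e : ι → W) :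
    Measurable fun x => (dmat H e x).det := by
  have h1 : Continuous fun A : ι → ι → ℝ => (Matrix.of A).det :=
    Continuous.matrix_det (continuous_matrix fun j i => by
      simp only [Matrix.of_apply]; fun_prop)
  exact h1.measurable.comp (f := fun x j i => fderiv ℝ (H i) x (e j))
    (measurable_pi_lambda _ fun j => measurable_pi_lambda _ fun i =>
      measurable_fderiv_apply_const ℝ (H i) (e j))

theorem bform_lip (G : ι → W → ℝ) (ψ : W → ℝ) (e : ι → W) {K K' : NNReal}
    (hG : ∀ i, LipschitzWith K (G i)) (hψ : LipschitzWith K' ψ) (hc : HasCompactSupport ψ)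
    (hdet : ∀ᵐ x ∂μ, ψ x * (dmat G e x).det = 0) :
    ∫ x, bform (fun i => G i x) (dmat G e x) (fun j => fderiv ℝ ψ x (e j)) ∂μ = 0 := by
  choose L hL using fun i => lipschitz_mul_of_compact hψ (hG i) hc
  set H : ι → ι → W → ℝ := fun i => Function.update G i fun x => ψ x * G i x with hH
  have hHl : ∀ i l, LipschitzWith (max K (L i)) (H i l) := by
    intro i l
    by_cases h : l = i
    · subst h; simp only [hH, Function.update_self]; exact (hL l).weaken (le_max_right _ _)
    · simp only [hH, Function.update_of_ne h]; exact (hG l).weaken (le_max_left _ _)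
  have hHc : ∀ i, HasCompactSupport (H i i) := fun i => by
    simp only [hH, Function.update_self]; exact hc.mul_right
  have hz : ∀ i, ∫ x, (dmat (H i) e x).det ∂μ = 0 := fun i => star_lip μ (H i) e i (hHl i) (hHc i)
  have hint : ∀ i, Integrable (fun x => (dmat (H i) e x).det) μ := by
    intro i
    set b : ℝ := (max K (L i) : NNReal) * ∑ j, ‖e j‖ with hb
    refine Integrable.mono' (g := (tsupport (H i i)).indicator fun _ =>
      (Nat.factorial (Fintype.card ι) : ℝ) * b ^ Fintype.card ι) ?_ ?_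
      (Eventually.of_forall fun x => ?_)
    · exact (integrable_indicator_iff (hHc i).isCompact.measurableSet).2
        (integrableOn_const (hHc i).isCompact.measure_lt_top.ne)
    · exact (measurable_det_dmat (H i) e).aestronglyMeasurable
    · by_cases hx : x ∈ tsupport (H i i)
      · rw [indicator_of_mem hx, Real.norm_eq_abs]
        refine abs_det_le _ _ fun j l => ?_
        refine (((fderiv ℝ (H i l) x).le_opNorm (e j)).trans
          (mul_le_mul_of_nonneg_right (norm_fderiv_le_of_lipschitz ℝ (hHl i l))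
          (norm_nonneg _))).trans ?_
        exact mul_le_mul_of_nonneg_left (Finset.single_le_sum (f := fun j => ‖e j‖)
          (fun _ _ => norm_nonneg _) (Finset.mem_univ j)) (NNReal.coe_nonneg _)
      · rw [indicator_of_notMem hx]
        have : fderiv ℝ (H i i) x = 0 := fderiv_of_notMem_tsupport ℝ hx
        rw [Matrix.det_eq_zero_of_column_eq_zero i fun j => by simp [dmat, this]]
        simp
  have hsum : ∫ x, ∑ i, (dmat (H i) e x).det ∂μ = 0 := by
    rw [integral_finsetSum _ fun i _ => hint i]; simp [hz]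
  rw [← hsum]
  have hd : ∀ᵐ x ∂μ, ∀ i, DifferentiableAt ℝ (G i) x :=
    ae_all_iff.2 fun i => (hG i).ae_differentiableAt
  refine integral_congr_ae ?_
  filter_upwards [hd, hψ.ae_differentiableAt (μ := μ), hdet] with x hx hψx hdx
  have h1 : ∀ i, dmat (H i) e x = (dmat G e x).updateCol i
      (ψ x • (fun j => dmat G e x j i) + G i x • fun j => fderiv ℝ ψ x (e j)) := by
    intro i
    ext j l
    by_cases h : l = i
    · subst h
      simp only [dmat, hH, Function.update_self, Matrix.of_apply, Matrix.updateCol_self,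
        Pi.add_apply, Pi.smul_apply, smul_eq_mul]
      rw [fderiv_fun_mul hψx (hx l)]
      simp
    · simp [dmat, hH, Function.update_of_ne h, Matrix.updateCol_ne h]
  simp_rw [h1, Matrix.det_updateCol_add, Matrix.det_updateCol_smul, Matrix.updateCol_eq_self, hdx,
    zero_add]
  simp only [bform, ← Matrix.cramer_eq_adjugate_mulVec, dotProduct, Matrix.cramer_apply]

/-- Local form of Stokes' formula for a locally Lipschitz map to the unit sphere. -/
theorem bform_local (U C : Set W) (hU : IsOpen U) (hC : IsCompact C) (hCU : C ⊆ U)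
    (G : ι → W → ℝ) (ψ : W → ℝ) (e : ι → W) (hG : ∀ i, LocallyLipschitzOn U (G i))
    (hψ : LocallyLipschitzOn U ψ) (h0 : ∀ x ∈ U, x ∉ C → ψ x = 0)
    (hs : ∀ x ∈ U, ∑ i, G i x * G i x = 1) :
    ∫ x in U, bform (fun i => G i x) (dmat G e x) (fun j => fderiv ℝ ψ x (e j)) ∂μ = 0 := by
  classical
  obtain ⟨δ, hδ, hδU⟩ := hC.exists_cthickening_subset_open hU hCU
  have hC' : IsCompact (Metric.cthickening δ C) := hC.cthickening
  have hext : ∀ i, ∃ K, ∃ G' : W → ℝ, LipschitzWith K G' ∧ EqOn (G i) G' (Metric.cthickening δ C) := by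
    intro i
    obtain ⟨K, hK⟩ := ((hG i).mono hδU).exists_lipschitzOnWith_of_compact hC'
    exact ⟨K, hK.extend_real⟩
  choose K G' hG' hGG using hext
  have hG'' : ∀ i, LipschitzWith (Finset.univ.sup K) (G' i) := fun i =>
    (hG' i).weaken (Finset.le_sup (f := K) (Finset.mem_univ i))
  obtain ⟨Kψ, hKψ⟩ := (hψ.mono hδU).exists_lipschitzOnWith_of_compact hC'
  obtain ⟨B, hB⟩ := hC.exists_bound_of_continuousOn (hψ.continuousOn.mono hCU)
  set ψ' : W → ℝ := C.indicator ψ with hψ'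
  have hψe : ∀ x ∈ U, ψ' x = ψ x := by
    intro x hx
    by_cases h : x ∈ C
    · exact indicator_of_mem h _
    · rw [h0 x hx h]; exact indicator_of_notMem h _
  have hkey : ∀ x y, x ∈ C → dist (ψ' x) (ψ' y) ≤ (Kψ + |B| / δ) * dist x y := by
    intro x y hx
    have hnn : 0 ≤ |B| / δ * dist x y := by positivity
    have hnn' : 0 ≤ Kψ * dist x y := by positivity
    by_cases hy : y ∈ Metric.cthickening δ C
    · rw [hψe x (hCU hx), hψe y (hδU hy)]
      have := hKψ.dist_le_mul x (Metric.self_subset_cthickening C hx) y hy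
      linarith
    · have hd : δ ≤ dist x y := by
        by_contra hlt
        exact hy (Metric.mem_cthickening_of_dist_le y x δ C hx (by rw [dist_comm]; linarith))
      have hy' : y ∉ C := fun h => hy (Metric.self_subset_cthickening C h)
      have h1 : ψ' y = 0 := indicator_of_notMem hy' _
      rw [h1, hψe x (hCU hx), dist_zero_right]
      have h2 : |B| ≤ |B| / δ * dist x y := by
        rw [div_mul_eq_mul_div, le_div_iff₀ hδ]; gcongr
      linarith [hB x hx, le_abs_self B]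
  have hψl : LipschitzWith ⟨Kψ + |B| / δ, by positivity⟩ ψ' := by
    refine LipschitzWith.of_dist_le_mul fun x y => ?_
    by_cases hx : x ∈ C
    · exact hkey x y hx
    by_cases hy : y ∈ C
    · rw [dist_comm, dist_comm x y]; exact hkey y x hy
    rw [hψ', indicator_of_notMem hx, indicator_of_notMem hy, dist_self]
    positivity
  have hψc : HasCompactSupport ψ' := HasCompactSupport.intro hC fun x hx => indicator_of_notMem hx _
  have hloc : ∀ x ∈ C, ∀ i, G i =ᶠ[𝓝 x] G' i := by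
    intro x hx i
    filter_upwards [Metric.isOpen_thickening.mem_nhds (Metric.self_subset_thickening hδ C hx)]
      with y hy using hGG i (Metric.thickening_subset_cthickening δ C hy)
  have hdm : ∀ x ∈ C, dmat G e x = dmat G' e x := by
    intro x hx
    ext j i
    simp [dmat, (hloc x hx i).fderiv_eq]
  have hd : ∀ᵐ x ∂μ, ∀ i, DifferentiableAt ℝ (G' i) x :=
    ae_all_iff.2 fun i => (hG' i).ae_differentiableAt
  have key := bform_lip μ G' ψ' e hG'' hψl hψc (by
    filter_upwards [hd] with x hx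
    by_cases hxC : x ∈ C
    · have hsum : (fun y => ∑ i, G' i y * G' i y) =ᶠ[𝓝 x] fun _ => 1 := by
        filter_upwards [hU.mem_nhds (hCU hxC), eventually_all.2 (hloc x hxC)] with y hy hy'
        rw [← hs y hy]
        exact Finset.sum_congr rfl fun i _ => by rw [hy' i]
      have hder := HasFDerivAt.fun_sum (u := Finset.univ)
        fun i _ => (hx i).hasFDerivAt.fun_mul (hx i).hasFDerivAt
      have h2 := hder.fderiv
      rw [hsum.fderiv_eq, fderiv_fun_const] at h2
      have hne : (fun i => G' i x) ≠ 0 := by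
        intro h
        have h3 := hsum.eq_of_nhds
        rw [Finset.sum_eq_zero fun i _ => by rw [congrFun h i]; simp] at h3
        exact zero_ne_one h3
      have : (dmat G' e x).det = 0 := by
        rw [← Matrix.exists_mulVec_eq_zero_iff]
        refine ⟨_, hne, ?_⟩
        ext j
        have h4 := congrArg (fun L : W →L[ℝ] ℝ => L (e j)) h2
        simp only [Pi.zero_apply, zero_apply, sum_apply, add_apply, smul_apply, smul_eq_mul,
          Finset.sum_add_distrib] at h4
        simp only [Matrix.mulVec, dotProduct, dmat, Matrix.of_apply, Pi.zero_apply]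
        have h5 : ∑ i, fderiv ℝ (G' i) x (e j) * G' i x = ∑ i, G' i x * fderiv ℝ (G' i) x (e j) :=
          Finset.sum_congr rfl fun i _ => mul_comm _ _
        linarith
      rw [this, mul_zero]
    · rw [hψ', indicator_of_notMem hxC, zero_mul])
  rw [← key]
  refine Eq.trans ?_ (setIntegral_eq_integral_of_forall_compl_eq_zero (s := U) ?_)
  · refine setIntegral_congr_fun hU.measurableSet fun x hx => ?_
    have h1 : fderiv ℝ ψ x = fderiv ℝ ψ' x := by
      refine Filter.EventuallyEq.fderiv_eq ?_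
      filter_upwards [hU.mem_nhds hx] with y hy using (hψe y hy).symm
    by_cases hxC : x ∈ C
    · simp only [h1, hdm x hxC, fun i => (hloc x hxC i).eq_of_nhds]
    · have h2 : fderiv ℝ ψ' x = 0 := by
        have : ψ' =ᶠ[𝓝 x] fun _ => 0 := by
          filter_upwards [hC.isClosed.isOpen_compl.mem_nhds hxC] with y hy
            using indicator_of_notMem hy _
        rw [this.fderiv_eq]; simp
      simp [h1, h2, bform_zero]
  · intro x hx
    have h2 : fderiv ℝ ψ' x = 0 := by
      have : ψ' =ᶠ[𝓝 x] fun _ => 0 := by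
        filter_upwards [hC.isClosed.isOpen_compl.mem_nhds fun h => hx (hCU h)] with y hy
          using indicator_of_notMem hy _
      rw [this.fderiv_eq]; simp
    simp [h2, bform_zero]

end Pool.Agent.Lib.MP_4b70aa_gt
end

-- part Pool.Agent.Lib.MP_4b70aa_gt.Int
section

set_option autoImplicit false
set_option linter.unusedSectionVars false

open MeasureTheory Filter Set Topology

namespace Pool.Agent.Lib.MP_4b70aa_gt

/-- Lipschitz near a point. -/
def LipAt {A B : Type} [PseudoMetricSpace A] [PseudoMetricSpace B] (f : A → B) (x : A) : Prop :=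
  ∃ K, ∃ t ∈ 𝓝 x, LipschitzOnWith K f t

section LipAt

variable {A B C : Type} [PseudoMetricSpace A] [PseudoMetricSpace B] [PseudoMetricSpace C]

theorem LipAt.continuousAt {f : A → B} {x : A} (h : LipAt f x) : ContinuousAt f x := by
  obtain ⟨K, t, ht, h⟩ := h
  exact h.continuousOn.continuousAt ht

theorem LipAt.comp {g : B → C} {f : A → B} {x : A} (hg : LipAt g (f x)) (hf : LipAt f x) :
    LipAt (g ∘ f) x := by
  have hc := hf.continuousAt
  obtain ⟨K, t, ht, h⟩ := hf
  obtain ⟨K', t', ht', h'⟩ := hg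
  exact ⟨K' * K, t ∩ f ⁻¹' t', inter_mem ht (hc ht'),
    h'.comp (h.mono inter_subset_left) fun _ hy => hy.2⟩

theorem LipAt.comp' {g : B → C} {f : A → B} {x : A} (hg : LipAt g (f x)) (hf : LipAt f x) :
    LipAt (fun y => g (f y)) x := hg.comp hf

theorem LipAt.congr {f g : A → B} {x : A} (h : LipAt f x) (hfg : f =ᶠ[𝓝 x] g) : LipAt g x := by
  obtain ⟨K, t, ht, h⟩ := h
  refine ⟨K, t ∩ {y | f y = g y}, inter_mem ht hfg, fun y hy z hz => ?_⟩
  rw [← hy.2, ← hz.2]
  exact h hy.1 hz.1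

theorem LipschitzWith.lipAt {f : A → B} {K : NNReal} (h : LipschitzWith K f) (x : A) :
    LipAt f x := ⟨K, univ, univ_mem, h.lipschitzOnWith⟩

theorem lipAt_const (c : B) (x : A) : LipAt (fun _ : A => c) x :=
  LipschitzWith.lipAt (LipschitzWith.const c) x

theorem LipAt.prodMk {f : A → B} {g : A → C} {x : A} (hf : LipAt f x) (hg : LipAt g x) :
    LipAt (fun y => (f y, g y)) x := by
  obtain ⟨K, t, ht, h⟩ := hf
  obtain ⟨K', t', ht', h'⟩ := hg
  exact ⟨max K K', t ∩ t', inter_mem ht ht',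
    (h.mono inter_subset_left).prodMk (h'.mono inter_subset_right)⟩

theorem LipAt.eventually {f : A → B} {x : A} (h : LipAt f x) : ∀ᶠ y in 𝓝 x, LipAt f y := by
  obtain ⟨K, t, ht, h⟩ := h
  filter_upwards [eventually_mem_nhds_iff.2 ht] with y hy using ⟨K, t, hy, h⟩

theorem locallyLipschitzOn_of_lipAt {f : A → B} {U : Set A} (h : ∀ x ∈ U, LipAt f x) :
    LocallyLipschitzOn U f := fun x hx => by
  obtain ⟨K, t, ht, h⟩ := h x hx
  exact ⟨K, t, mem_nhdsWithin_of_mem_nhds ht, h⟩

end LipAt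

section LipAt2

variable {A : Type} [PseudoMetricSpace A] {F G : Type} [NormedAddCommGroup F] [NormedSpace ℝ F]
  [NormedAddCommGroup G] [NormedSpace ℝ G]

theorem ContDiffAt.lipAt {f : F → G} {x : F} (h : ContDiffAt ℝ 1 f x) : LipAt f x :=
  h.exists_lipschitzOnWith

theorem LipAt.add {f g : A → F} {x : A} (hf : LipAt f x) (hg : LipAt g x) :
    LipAt (fun y => f y + g y) x :=
  LipAt.comp' (g := fun p : F × F => p.1 + p.2) (ContDiffAt.lipAt (by fun_prop)) (hf.prodMk hg)

theorem LipAt.sub {f g : A → F} {x : A} (hf : LipAt f x) (hg : LipAt g x) :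
    LipAt (fun y => f y - g y) x :=
  LipAt.comp' (g := fun p : F × F => p.1 - p.2) (ContDiffAt.lipAt (by fun_prop)) (hf.prodMk hg)

theorem LipAt.smul {f : A → ℝ} {g : A → F} {x : A} (hf : LipAt f x) (hg : LipAt g x) :
    LipAt (fun y => f y • g y) x :=
  LipAt.comp' (g := fun p : ℝ × F => p.1 • p.2) (ContDiffAt.lipAt (by fun_prop)) (hf.prodMk hg)

theorem LipAt.mul {f g : A → ℝ} {x : A} (hf : LipAt f x) (hg : LipAt g x) :
    LipAt (fun y => f y * g y) x := hf.smul hg

theorem LipAt.inv {f : A → ℝ} {x : A} (hf : LipAt f x) (h0 : f x ≠ 0) :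
    LipAt (fun y => (f y)⁻¹) x :=
  LipAt.comp' (g := fun p : ℝ => p⁻¹) (ContDiffAt.lipAt (contDiffAt_inv ℝ h0)) hf

theorem LipAt.norm {f : A → F} {x : A} (hf : LipAt f x) : LipAt (fun y => ‖f y‖) x :=
  LipAt.comp' (g := fun p : F => ‖p‖) (LipschitzWith.lipAt lipschitzWith_one_norm _) hf

theorem LipAt.max {f g : A → ℝ} {x : A} (hf : LipAt f x) (hg : LipAt g x) :
    LipAt (fun y => max (f y) (g y)) x :=
  LipAt.comp' (g := fun p : ℝ × ℝ => Max.max p.1 p.2) (LipschitzWith.lipAt lipschitzWith_max _)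
    (hf.prodMk hg)

theorem LipAt.min {f g : A → ℝ} {x : A} (hf : LipAt f x) (hg : LipAt g x) :
    LipAt (fun y => min (f y) (g y)) x :=
  LipAt.comp' (g := fun p : ℝ × ℝ => Min.min p.1 p.2) (LipschitzWith.lipAt lipschitzWith_min _)
    (hf.prodMk hg)

theorem LipAt.sum {ι : Type} (s : Finset ι) {f : ι → A → F} {x : A} (hf : ∀ i ∈ s, LipAt (f i) x) :
    LipAt (fun y => ∑ i ∈ s, f i y) x := by
  classical
  induction s using Finset.induction_on with
  | empty => simpa using lipAt_const 0 x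
  | insert a s ha ih =>
    simp only [Finset.sum_insert ha]
    exact (hf a (Finset.mem_insert_self _ _)).add
      (ih fun i hi => hf i (Finset.mem_insert_of_mem hi))

theorem LipAt.clm {f : A → F} {x : A} (L : F →L[ℝ] G) (hf : LipAt f x) :
    LipAt (fun y => L (f y)) x :=
  LipAt.comp' (g := L) (LipschitzWith.lipAt L.lipschitz _) hf

theorem LipAt.fderiv_bound {f : F → G} {x : F} (h : LipAt f x) :
    ∃ C : ℝ, ∀ᶠ y in 𝓝 x, ‖fderiv ℝ f y‖ ≤ C := by
  obtain ⟨K, t, ht, h⟩ := h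
  refine ⟨K, ?_⟩
  filter_upwards [eventually_mem_nhds_iff.2 ht] with y hy
    using norm_fderiv_le_of_lipschitzOn ℝ hy h

end LipAt2

variable {Y : Type} [TopologicalSpace Y] {V : Type} [NormedAddCommGroup V] [NormedSpace ℝ V]
  [FiniteDimensional ℝ V] [MeasurableSpace V] [BorelSpace V] (μ : Measure V) [μ.IsAddHaarMeasure]

theorem ae_differentiableAt_of_lipAt {F : Type} [NormedAddCommGroup F] [NormedSpace ℝ F]
    [FiniteDimensional ℝ F] {f : V → F} {U : Set V} (h : ∀ x ∈ U, LipAt f x) :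
    ∀ᵐ x ∂μ, x ∈ U → DifferentiableAt ℝ f x := by
  rw [ae_iff]
  refine measure_null_of_locally_null _ fun x hx => ?_
  have hxU : x ∈ U := by
    by_contra hh
    exact hx fun h' => absurd h' hh
  obtain ⟨K, t, ht, hK⟩ := h x hxU
  have h1 := (hK.mono interior_subset).ae_differentiableWithinAt_of_mem (μ := μ)
  rw [ae_iff] at h1
  refine ⟨_, ?_, h1⟩
  filter_upwards [self_mem_nhdsWithin, mem_nhdsWithin_of_mem_nhds (interior_mem_nhds.2 ht)]
    with y hy hy'
  intro h2
  exact hy fun _ => (h2 hy').differentiableAt (isOpen_interior.mem_nhds hy')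

theorem tame_of_data {D : Type} [NormedAddCommGroup D] [NormedSpace ℝ D] [FiniteDimensional ℝ D]
    {Φ : D → ℝ} (hΦ : Continuous Φ) {data : V → D} {U : Set V} (hU : IsOpen U)
    (hm : AEStronglyMeasurable data (μ.restrict U))
    (hb : ∀ x ∈ U, ∃ C, ∀ᶠ y in 𝓝 x, ‖data y‖ ≤ C) :
    LocallyIntegrableOn (fun x => Φ (data x)) U μ := by
  intro x hx
  obtain ⟨C, hC⟩ := hb x hx
  have : ProperSpace D := FiniteDimensional.proper_real D
  obtain ⟨B, hB⟩ := (isCompact_closedBall (0 : D) C).exists_bound_of_continuousOn hΦ.continuousOn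
  obtain ⟨r, hr, hrs⟩ := Metric.mem_nhds_iff.1 (inter_mem hC (hU.mem_nhds hx))
  refine ⟨Metric.ball x r, mem_nhdsWithin_of_mem_nhds (Metric.ball_mem_nhds x hr), ?_⟩
  refine IntegrableOn.of_bound measure_ball_lt_top ?_ B ?_
  · exact hΦ.comp_aestronglyMeasurable
      (hm.mono_measure (Measure.restrict_mono (fun y hy => (hrs hy).2) le_rfl))
  · filter_upwards [ae_restrict_mem Metric.isOpen_ball.measurableSet] with y hy
    exact hB _ (mem_closedBall_zero_iff.2 (hrs hy).1)

/-- Charts. -/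
abbrev Ch (Y V : Type) [TopologicalSpace Y] [TopologicalSpace V] := OpenPartialHomeomorph Y V

/-- Both transition maps are differentiable. -/
def Dif (e e' : Ch Y V) (y : Y) : Prop :=
  DifferentiableAt ℝ (e' ∘ e.symm) (e y) ∧ DifferentiableAt ℝ (e ∘ e'.symm) (e' y)

/-- The Jacobian determinant of the transition map. -/
noncomputable def tdet (e e' : Ch Y V) (y : Y) : ℝ := (fderiv ℝ (e' ∘ e.symm) (e y)).det

/-- The charts are compatible, with transition determinants of sign `s`. -/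
def Compat (s : ℝ) (e e' : Ch Y V) : Prop :=
  ∀ y ∈ e.source, y ∈ e'.source → Dif e e' y ∧ 0 < s * tdet e e' y

theorem fderiv_chart {F : Type} [NormedAddCommGroup F] [NormedSpace ℝ F] (h : Y → F)
    {e e' : Ch Y V} {y : Y} (hy : y ∈ e.source) (hy' : y ∈ e'.source) (hd : Dif e e' y) :
    fderiv ℝ (h ∘ e.symm) (e y) =
      (fderiv ℝ (h ∘ e'.symm) (e' y)).comp (fderiv ℝ (e' ∘ e.symm) (e y)) := by
  have key : ∀ {e e' : Ch Y V}, y ∈ e.source → y ∈ e'.source →
      (h ∘ e.symm) =ᶠ[𝓝 (e y)] (h ∘ e'.symm) ∘ (e' ∘ e.symm) := by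
    intro e e' hy hy'
    have : ∀ᶠ x in 𝓝 (e y), e.symm x ∈ e'.source := by
      refine (e.continuousAt_symm (e.map_source hy)).preimage_mem_nhds ?_
      rw [e.left_inv hy]
      exact e'.open_source.mem_nhds hy'
    filter_upwards [this] with x hx
    simp [e'.left_inv hx]
  have h1 : (e' ∘ e.symm) (e y) = e' y := by simp [e.left_inv hy]
  have h2 : (e ∘ e'.symm) (e' y) = e y := by simp [e'.left_inv hy']
  by_cases hh : DifferentiableAt ℝ (h ∘ e'.symm) (e' y)
  · rw [(key hy hy').fderiv_eq, fderiv_comp _ (h1 ▸ hh) hd.1, h1]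
  · have : ¬ DifferentiableAt ℝ (h ∘ e.symm) (e y) := fun h3 =>
      hh (((h2 ▸ h3 : DifferentiableAt ℝ (h ∘ e.symm) ((e ∘ e'.symm) (e' y))).comp _
        hd.2).congr_of_eventuallyEq (key hy' hy))
    rw [fderiv_zero_of_not_differentiableAt hh, fderiv_zero_of_not_differentiableAt this]
    simp

theorem clm_det_comp (A B : V →L[ℝ] V) : (A.comp B).det = A.det * B.det :=
  LinearMap.det_comp (A : V →ₗ[ℝ] V) B

theorem tdet_mul {e e' : Ch Y V} {y : Y} (hy : y ∈ e.source) (hy' : y ∈ e'.source)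
    (hd : Dif e e' y) : tdet e' e y * tdet e e' y = 1 := by
  have h1 := fderiv_chart (h := e) hy hy' hd
  have h2 : (e ∘ e.symm : V → V) =ᶠ[𝓝 (e y)] id := by
    filter_upwards [e.open_target.mem_nhds (e.map_source hy)] with x hx
    simp [e.right_inv hx]
  rw [h2.fderiv_eq, fderiv_id] at h1
  have h3 := congrArg ContinuousLinearMap.det h1
  rw [clm_det_comp] at h3
  exact h3.symm.trans LinearMap.det_id

theorem Compat.symm {s : ℝ} {e e' : Ch Y V} (h : Compat s e e') : Compat s e' e := by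
  intro y hy' hy
  obtain ⟨hd, hs⟩ := h y hy hy'
  refine ⟨⟨hd.2, hd.1⟩, ?_⟩
  have h1 := tdet_mul hy hy' hd
  have h2 : 0 < (s * tdet e' e y) * (tdet e e' y * tdet e e' y) := by
    have : (s * tdet e' e y) * (tdet e e' y * tdet e e' y) =
      (s * tdet e e' y) * (tdet e' e y * tdet e e' y) := by ring
    rw [this, h1, mul_one]; exact hs
  exact (pos_iff_pos_of_mul_pos h2).2 (mul_self_pos.2 fun h0 => by simp [h0] at hs)

/-- A density: a top degree form, written in every chart. -/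
def Law (ω : Ch Y V → V → ℝ) : Prop :=
  ∀ (e e' : Ch Y V) (y : Y), y ∈ e.source → y ∈ e'.source → Dif e e' y →
    ω e (e y) = ω e' (e' y) * tdet e e' y

/-- Product of a function and a density. -/
noncomputable def mulD (h : Y → ℝ) (ω : Ch Y V → V → ℝ) : Ch Y V → V → ℝ :=
  fun e x => h (e.symm x) * ω e x

theorem Law.mulD {ω : Ch Y V → V → ℝ} (hω : Law ω) (h : Y → ℝ) : Law (mulD h ω) := by
  intro e e' y hy hy' hd
  simp only [MP_4b70aa_gt.mulD, e.left_inv hy, e'.left_inv hy', hω e e' y hy hy' hd, mul_assoc]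

theorem change_chart {s : ℝ} (hs : s = 1 ∨ s = -1) {ω : Ch Y V → V → ℝ} (hω : Law ω)
    {e e' : Ch Y V} (hc : Compat s e e') (hv : ∀ y ∈ e.source, y ∉ e'.source → ω e (e y) = 0)
    (hv' : ∀ y ∈ e'.source, y ∉ e.source → ω e' (e' y) = 0) :
    (IntegrableOn (ω e') e'.target μ → IntegrableOn (ω e) e.target μ) ∧
      ∫ x in e.target, ω e x ∂μ = s * ∫ x in e'.target, ω e' x ∂μ := by
  set A : Set V := e.target ∩ e.symm ⁻¹' e'.source with hA
  have hAo : IsOpen A := e.isOpen_inter_preimage_symm e'.open_source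
  set τ : V → V := e' ∘ e.symm with hτ
  have himg : τ '' A = e'.target ∩ e'.symm ⁻¹' e.source := by
    ext x
    constructor
    · rintro ⟨z, ⟨hz, hz'⟩, rfl⟩
      refine ⟨e'.map_source hz', ?_⟩
      show e'.symm (e' (e.symm z)) ∈ e.source
      rw [e'.left_inv hz']; exact e.map_target hz
    · rintro ⟨hx, hx'⟩
      refine ⟨e (e'.symm x), ⟨e.map_source hx', ?_⟩, ?_⟩
      · show e.symm (e (e'.symm x)) ∈ e'.source
        rw [e.left_inv hx']; exact e'.map_target hx
      · show e' (e.symm (e (e'.symm x))) = x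
        rw [e.left_inv hx', e'.right_inv hx]
  have hA' : IsOpen (τ '' A) := himg ▸ e'.isOpen_inter_preimage_symm e.open_source
  have hder : ∀ x ∈ A, HasFDerivWithinAt τ (fderiv ℝ τ x) A x := by
    intro x hx
    have := (hc _ (e.map_target hx.1) hx.2).1.1
    rw [e.right_inv hx.1] at this
    exact this.hasFDerivAt.hasFDerivWithinAt
  have hinj : InjOn τ A := by
    intro x hx z hz h
    have h1 : e.symm x = e.symm z := e'.injOn hx.2 hz.2 h
    rw [← e.right_inv hx.1, h1, e.right_inv hz.1]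
  have hss : s * s = 1 := by rcases hs with h | h <;> simp [h]
  have hpt : ∀ x ∈ A, |(fderiv ℝ τ x).det| • ω e' (τ x) = s * ω e x := by
    intro x hx
    have h1 := hc _ (e.map_target hx.1) hx.2
    have h2 := hω e e' _ (e.map_target hx.1) hx.2 h1.1
    have h3 : tdet e e' (e.symm x) = (fderiv ℝ τ x).det := by
      simp only [tdet, e.right_inv hx.1, hτ]
    rw [e.right_inv hx.1, h3] at h2
    rw [h3] at h1
    have h4 : |(fderiv ℝ τ x).det| = s * (fderiv ℝ τ x).det := by
      rcases hs with h | h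
      · rw [h, one_mul] at h1 ⊢; exact abs_of_pos h1.2
      · rw [h] at h1 ⊢; rw [abs_of_neg (by linarith [h1.2])]; ring
    rw [h2, h4, smul_eq_mul]
    show _ = s * (ω e' (τ x) * _)
    ring
  have hz : ∀ x ∈ e.target \ A, ω e x = 0 := by
    intro x hx
    have := hv _ (e.map_target hx.1) fun h => hx.2 ⟨hx.1, h⟩
    rwa [e.right_inv hx.1] at this
  have hz' : ∀ x ∈ e'.target \ τ '' A, ω e' x = 0 := by
    intro x hx
    have := hv' _ (e'.map_target hx.1) fun h => hx.2 (himg ▸ ⟨hx.1, h⟩)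
    rwa [e'.right_inv hx.1] at this
  constructor
  · intro hi
    have h1 := (integrableOn_image_iff_integrableOn_abs_det_fderiv_smul μ hAo.measurableSet hder
      hinj (ω e')).1 (hi.mono_set (himg ▸ inter_subset_left))
    have h2 : IntegrableOn (fun x => s * (s * ω e x)) A μ :=
      ((h1.congr_fun hpt hAo.measurableSet)).const_mul s
    have h3 : IntegrableOn (ω e) A μ := by
      refine h2.congr_fun (fun x _ => ?_) hAo.measurableSet
      simp only [← mul_assoc, hss, one_mul]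
    exact h3.of_forall_sdiff_eq_zero e.open_target.measurableSet hz
  · rw [setIntegral_eq_of_subset_of_forall_sdiff_eq_zero e.open_target.measurableSet
      inter_subset_left hz,
      setIntegral_eq_of_subset_of_forall_sdiff_eq_zero e'.open_target.measurableSet
      (himg ▸ inter_subset_left : τ '' A ⊆ e'.target) hz',
      integral_image_eq_integral_abs_det_fderiv_smul μ hAo.measurableSet hder hinj,
      setIntegral_congr_fun hAo.measurableSet hpt, integral_const_mul, ← mul_assoc, hss, one_mul]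

theorem integrableOn_target {e : Ch Y V} {φ : V → ℝ} (ht : LocallyIntegrableOn φ e.target μ)
    {C : Set Y} (hC : IsCompact C) (hCe : C ⊆ e.source)
    (hv : ∀ y ∈ e.source, y ∉ C → φ (e y) = 0) : IntegrableOn φ e.target μ := by
  have h1 : IsCompact (e '' C) := hC.image_of_continuousOn (e.continuousOn.mono hCe)
  have h2 : e '' C ⊆ e.target := by
    rintro _ ⟨y, hy, rfl⟩; exact e.map_source (hCe hy)
  refine (ht.integrableOn_compact_subset h2 h1).of_forall_sdiff_eq_zero
    e.open_target.measurableSet fun x hx => ?_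
  have := hv _ (e.map_target hx.1) fun h => hx.2 ⟨_, h, e.right_inv hx.1⟩
  rwa [e.right_inv hx.1] at this

theorem tame_mulD {e : Ch Y V} {ω : Ch Y V → V → ℝ} (ht : LocallyIntegrableOn (ω e) e.target μ)
    {h : Y → ℝ} (hh : ContinuousOn h e.source) : LocallyIntegrableOn (mulD h ω e) e.target μ :=
  ht.continuousOn_mul (hh.comp e.continuousOn_symm fun _ hx => e.map_target hx)
    e.open_target.isLocallyClosed

/-- A finite family of charts with a partition of unity over `K`. -/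
structure Fam {ι : Type} [Fintype ι] (K : Set Y) (e : ι → Ch Y V) (ρ : ι → Y → ℝ) : Prop where
  cont : ∀ i, Continuous (ρ i)
  supp : ∀ i, tsupport (ρ i) ⊆ (e i).source
  one : ∀ y ∈ K, ∑ i, ρ i y = 1

/-- The integral of a density computed with a family. -/
noncomputable def IntF {ι : Type} [Fintype ι] (e : ι → Ch Y V) (ρ : ι → Y → ℝ)
    (ω : Ch Y V → V → ℝ) : ℝ :=
  ∑ i, ∫ x in (e i).target, mulD (ρ i) ω (e i) x ∂μ

theorem Fam.integrableOn [T2Space Y] {ι : Type} [Fintype ι] {K : Set Y} {e : ι → Ch Y V}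
    {ρ : ι → Y → ℝ} (hF : Fam K e ρ) (hK : IsCompact K) {ω : Ch Y V → V → ℝ} (i : ι)
    (ht : LocallyIntegrableOn (ω (e i)) (e i).target μ)
    (hv : ∀ y ∈ (e i).source, y ∉ K → ω (e i) (e i y) = 0) :
    IntegrableOn (mulD (ρ i) ω (e i)) (e i).target μ := by
  refine integrableOn_target μ (tame_mulD μ ht (hF.cont i).continuousOn)
    (hK.inter_right (isClosed_tsupport (ρ i))) (fun y hy => hF.supp i hy.2) fun y hy hy' => ?_
  simp only [mulD, (e i).left_inv hy]
  by_cases h : y ∈ K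
  · rw [image_eq_zero_of_notMem_tsupport fun h' => hy' ⟨h, h'⟩, zero_mul]
  · rw [hv y hy h, mul_zero]

theorem intF_eq_chart [T2Space Y] {s : ℝ} (hs : s = 1 ∨ s = -1) {ι : Type} [Fintype ι] {K : Set Y}
    {e : ι → Ch Y V} {ρ : ι → Y → ℝ} (hF : Fam K e ρ) (hK : IsCompact K) {ω : Ch Y V → V → ℝ}
    (hω : Law ω) (ht : ∀ i, LocallyIntegrableOn (ω (e i)) (e i).target μ)
    (hv : ∀ i, ∀ y ∈ (e i).source, y ∉ K → ω (e i) (e i y) = 0) {c : Ch Y V}
    (hc : ∀ i, Compat s (e i) c) (hvc : ∀ y ∈ c.source, y ∉ K → ω c (c y) = 0)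
    (hv' : ∀ i, ∀ y ∈ (e i).source, y ∉ c.source → ω (e i) (e i y) = 0) :
    IntegrableOn (ω c) c.target μ ∧ IntF μ e ρ ω = s * ∫ x in c.target, ω c x ∂μ := by
  have h1 : ∀ i, ∀ y ∈ (e i).source, y ∉ c.source → mulD (ρ i) ω (e i) (e i y) = 0 := by
    intro i y hy hy'
    simp [mulD, hv' i y hy hy']
  have h2 : ∀ i, ∀ y ∈ c.source, y ∉ (e i).source → mulD (ρ i) ω c (c y) = 0 := by
    intro i y hy hy'
    simp only [mulD, c.left_inv hy]
    rw [image_eq_zero_of_notMem_tsupport fun h' => hy' (hF.supp i h'), zero_mul]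
  have h3 : ∀ i, IntegrableOn (mulD (ρ i) ω c) c.target μ := fun i =>
    (change_chart μ hs (hω.mulD (ρ i)) (hc i).symm (h2 i) (h1 i)).1
      (hF.integrableOn μ hK i (ht i) (hv i))
  have h4 : ∀ x ∈ c.target, ∑ i, mulD (ρ i) ω c x = ω c x := by
    intro x hx
    simp only [mulD, ← Finset.sum_mul]
    by_cases h : c.symm x ∈ K
    · rw [hF.one _ h, one_mul]
    · have := hvc _ (c.map_target hx) h
      rw [c.right_inv hx] at this
      rw [this, mul_zero]
  constructor
  · exact (integrable_finsetSum _ fun i _ => h3 i).congr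
      ((ae_restrict_iff' c.open_target.measurableSet).2 (Eventually.of_forall h4))
  · unfold IntF
    rw [Finset.sum_congr rfl fun i _ =>
      (change_chart μ hs (hω.mulD (ρ i)) (hc i) (h1 i) (h2 i)).2, ← Finset.mul_sum,
      ← integral_finsetSum _ fun i _ => h3 i,
      setIntegral_congr_fun c.open_target.measurableSet h4]

theorem intF_indep [T2Space Y] {s : ℝ} (hs : s = 1 ∨ s = -1) {ι ι' : Type} [Fintype ι] [Fintype ι']
    {K : Set Y} {e : ι → Ch Y V} {ρ : ι → Y → ℝ} (hF : Fam K e ρ) {e' : ι' → Ch Y V}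
    {ρ' : ι' → Y → ℝ} (hF' : Fam K e' ρ') (hK : IsCompact K) {ω : Ch Y V → V → ℝ}
    (hω : Law ω) (ht : ∀ i, LocallyIntegrableOn (ω (e i)) (e i).target μ)
    (hv : ∀ i, ∀ y ∈ (e i).source, y ∉ K → ω (e i) (e i y) = 0)
    (hv' : ∀ i, ∀ y ∈ (e' i).source, y ∉ K → ω (e' i) (e' i y) = 0)
    (hc : ∀ i j, Compat s (e i) (e' j)) : IntF μ e ρ ω = s * IntF μ e' ρ' ω := by
  have hss : s * s = 1 := by rcases hs with h | h <;> simp [h]
  have h1 : ∀ j, IntF μ e ρ (mulD (ρ' j) ω) =
      s * ∫ x in (e' j).target, mulD (ρ' j) ω (e' j) x ∂μ := by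
    intro j
    refine (intF_eq_chart μ hs hF hK (hω.mulD (ρ' j))
      (fun i => tame_mulD μ (ht i) (hF'.cont j).continuousOn) (fun i y hy hy' => ?_)
      (fun i => hc i j) (fun y hy hy' => ?_) (fun i y hy hy' => ?_)).2
    · simp [mulD, hv i y hy hy']
    · simp [mulD, hv' j y hy hy']
    · simp only [mulD, (e i).left_inv hy]
      rw [image_eq_zero_of_notMem_tsupport fun h' => hy' (hF'.supp j h'), zero_mul]
  have h2 : s * IntF μ e' ρ' ω = ∑ j, IntF μ e ρ (mulD (ρ' j) ω) := by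
    rw [IntF, Finset.mul_sum]
    exact Finset.sum_congr rfl fun j _ => (h1 j).symm
  rw [h2]
  unfold IntF
  rw [Finset.sum_comm]
  refine Finset.sum_congr rfl fun i _ => ?_
  rw [← integral_finsetSum _ fun j _ => hF.integrableOn μ hK i
    (tame_mulD μ (ht i) (hF'.cont j).continuousOn) fun y hy hy' => by simp [mulD, hv i y hy hy']]
  refine setIntegral_congr_fun (e i).open_target.measurableSet fun x hx => ?_
  simp only [mulD, ← Finset.mul_sum, ← Finset.sum_mul]
  by_cases h : (e i).symm x ∈ K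
  · rw [hF'.one _ h, one_mul]
  · have := hv i _ ((e i).map_target hx) h
    rw [(e i).right_inv hx] at this
    simp [this]

end Pool.Agent.Lib.MP_4b70aa_gt
end

-- part Pool.Agent.Lib.MP_4b70aa_gt.Sys
section

set_option autoImplicit false
set_option linter.unusedSectionVars false

open MeasureTheory Filter Set Topology

namespace Pool.Agent.Lib.MP_4b70aa_gt

variable {Y : Type} [TopologicalSpace Y] {V : Type} [NormedAddCommGroup V] [NormedSpace ℝ V]
  [FiniteDimensional ℝ V] [MeasurableSpace V] [BorelSpace V] (μ : Measure V) [μ.IsAddHaarMeasure]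

/-- An oriented `C^1` system of charts. -/
structure Sys (𝒜 : Set (Ch Y V)) : Prop where
  cover : ∀ y, ∃ e ∈ 𝒜, y ∈ e.source
  smooth : ∀ e ∈ 𝒜, ∀ e' ∈ 𝒜, ∀ y ∈ e.source, y ∈ e'.source →
    ContDiffAt ℝ 1 (e' ∘ e.symm) (e y)
  pos : ∀ e ∈ 𝒜, ∀ e' ∈ 𝒜, ∀ y ∈ e.source, y ∈ e'.source → 0 < tdet e e' y

theorem Sys.dif {𝒜 : Set (Ch Y V)} (h : Sys 𝒜) {e e' : Ch Y V} (he : e ∈ 𝒜) (he' : e' ∈ 𝒜) {y : Y}
    (hy : y ∈ e.source) (hy' : y ∈ e'.source) : Dif e e' y :=
  ⟨(h.smooth e he e' he' y hy hy').differentiableAt one_ne_zero,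
    (h.smooth e' he' e he y hy' hy).differentiableAt one_ne_zero⟩

theorem Sys.compat {𝒜 : Set (Ch Y V)} (h : Sys 𝒜) {e e' : Ch Y V} (he : e ∈ 𝒜) (he' : e' ∈ 𝒜) :
    Compat 1 e e' := fun y hy hy' =>
  ⟨h.dif he he' hy hy', by rw [one_mul]; exact h.pos e he e' he' y hy hy'⟩

/-- Locally Lipschitz in the charts. -/
def LocLip (𝒜 : Set (Ch Y V)) {Z : Type} [PseudoMetricSpace Z] (g : Y → Z) : Prop :=
  ∀ e ∈ 𝒜, ∀ y ∈ e.source, LipAt (g ∘ e.symm) (e y)

theorem continuousAt_of_chart {Z : Type} [TopologicalSpace Z] {g : Y → Z} {e : Ch Y V} {y : Y}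
    (hy : y ∈ e.source) (h : ContinuousAt (g ∘ e.symm) (e y)) : ContinuousAt g y := by
  refine (h.comp (e.continuousAt hy)).congr ?_
  filter_upwards [e.open_source.mem_nhds hy] with z hz
  simp [e.left_inv hz]

theorem LocLip.continuous {𝒜 : Set (Ch Y V)} (h𝒜 : Sys 𝒜) {Z : Type} [PseudoMetricSpace Z]
    {g : Y → Z} (h : LocLip 𝒜 g) : Continuous g := by
  rw [continuous_iff_continuousAt]
  intro y
  obtain ⟨e, he, hy⟩ := h𝒜.cover y
  exact continuousAt_of_chart hy (h e he y hy).continuousAt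

theorem eventually_chart {e : Ch Y V} {y : Y} (hy : y ∈ e.source) {P : Y → Prop}
    (h : ∀ᶠ z in 𝓝 y, P z) : ∀ᶠ x in 𝓝 (e y), P (e.symm x) := by
  refine (e.continuousAt_symm (e.map_source hy)).eventually ?_
  rwa [e.left_inv hy]

theorem lipAt_chart_congr {Z : Type} [PseudoMetricSpace Z] {g g' : Y → Z} {e : Ch Y V} {y : Y}
    (hy : y ∈ e.source) (h : LipAt (g ∘ e.symm) (e y)) (hg : g =ᶠ[𝓝 y] g') :
    LipAt (g' ∘ e.symm) (e y) := h.congr (eventually_chart hy hg)

theorem Sys.lipAt_change {𝒜 : Set (Ch Y V)} (h𝒜 : Sys 𝒜) {Z : Type} [PseudoMetricSpace Z]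
    {g : Y → Z} {e e' : Ch Y V} (he : e ∈ 𝒜) (he' : e' ∈ 𝒜) {y : Y} (hy : y ∈ e.source)
    (hy' : y ∈ e'.source) (h : LipAt (g ∘ e'.symm) (e' y)) : LipAt (g ∘ e.symm) (e y) := by
  have h1 : LipAt ((g ∘ e'.symm) ∘ (e' ∘ e.symm)) (e y) := by
    refine LipAt.comp ?_ (ContDiffAt.lipAt (h𝒜.smooth e he e' he' y hy hy'))
    simpa [e.left_inv hy] using h
  refine h1.congr ?_
  filter_upwards [eventually_chart hy (e'.open_source.mem_nhds hy')] with x hx
  simp [e'.left_inv hx]

theorem Sys.exists_bump [T2Space Y] {𝒜 : Set (Ch Y V)} (h𝒜 : Sys 𝒜) (y : Y) :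
    ∃ e ∈ 𝒜, ∃ b : Y → ℝ, LocLip 𝒜 b ∧ (∀ z, 0 ≤ b z) ∧ IsCompact (tsupport b) ∧
      tsupport b ⊆ e.source ∧ ∀ᶠ z in 𝓝 y, b z = 1 := by
  classical
  obtain ⟨e, he, hy⟩ := h𝒜.cover y
  obtain ⟨r, hr, hrs⟩ := Metric.nhds_basis_closedBall.mem_iff.1
    (e.open_target.mem_nhds (e.map_source hy))
  have : ProperSpace V := FiniteDimensional.proper_real V
  set β : V → ℝ := fun x => max 0 (min 1 (2 - 2 / r * dist x (e y))) with hβ
  have hβl : ∀ x, LipAt β x := fun x =>
    (lipAt_const 0 x).max ((lipAt_const 1 x).min ((lipAt_const 2 x).sub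
      ((lipAt_const _ x).mul (LipschitzWith.lipAt (LipschitzWith.dist_left (e y)) x))))
  set C : Set Y := e.symm '' Metric.closedBall (e y) r with hC
  have hCc : IsCompact C := (isCompact_closedBall _ _).image_of_continuousOn
    (e.continuousOn_symm.mono hrs)
  have hCs : C ⊆ e.source := by
    rintro _ ⟨x, hx, rfl⟩; exact e.map_target (hrs hx)
  set b : Y → ℝ := e.source.indicator fun z => β (e z) with hb
  have hb0 : ∀ z, z ∉ C → b z = 0 := by
    intro z hz
    by_cases h : z ∈ e.source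
    · rw [hb, indicator_of_mem h]
      have : r < dist (e z) (e y) := by
        by_contra h'
        exact hz ⟨e z, Metric.mem_closedBall.2 (not_lt.1 h'), e.left_inv h⟩
      have h2 : 2 - 2 / r * dist (e z) (e y) ≤ 0 := by
        rw [div_mul_eq_mul_div, sub_nonpos, le_div_iff₀ hr]; linarith
      exact max_eq_left ((min_le_right _ _).trans h2)
    · exact indicator_of_notMem h _
  have hts : tsupport b ⊆ C := closure_minimal (fun z hz => by_contra fun h => hz (hb0 z h))
    hCc.isClosed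
  refine ⟨e, he, b, fun e' he' z hz => ?_, fun z => ?_, hCc.of_isClosed_subset
    (isClosed_tsupport b) hts, hts.trans hCs, ?_⟩
  · by_cases h : z ∈ e.source
    · refine h𝒜.lipAt_change he' he hz h ((hβl (e z)).congr ?_)
      filter_upwards [e.open_target.mem_nhds (e.map_source h)] with x hx
      simp [hb, indicator_of_mem (e.map_target hx), e.right_inv hx]
    · refine lipAt_chart_congr (g := fun _ => 0) hz (lipAt_const 0 _) ?_
      filter_upwards [hCc.isClosed.isOpen_compl.mem_nhds fun h' => h (hCs h')] with w hw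
        using (hb0 w hw).symm
  · exact indicator_nonneg (fun _ _ => le_max_left _ _) z
  · have h1 : ∀ᶠ z in 𝓝 y, e z ∈ Metric.ball (e y) (r / 2) :=
      (e.continuousAt hy).eventually (Metric.ball_mem_nhds _ (by positivity))
    filter_upwards [h1, e.open_source.mem_nhds hy] with z hz hz'
    rw [hb, indicator_of_mem hz']
    have h2 : 1 ≤ 2 - 2 / r * dist (e z) (e y) := by
      have h3 : 2 / r * dist (e z) (e y) ≤ 2 / r * (r / 2) :=
        mul_le_mul_of_nonneg_left (Metric.mem_ball.1 hz).le (by positivity)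
      have h4 : 2 / r * (r / 2) = 1 := by field_simp
      linarith
    simp only [hβ, min_eq_left h2]
    exact max_eq_right zero_le_one

theorem Sys.exists_fam [T2Space Y] {𝒜 : Set (Ch Y V)} (h𝒜 : Sys 𝒜) {K : Set Y} (hK : IsCompact K) :
    ∃ (m : ℕ) (e : Fin m → Ch Y V) (ρ : Fin m → Y → ℝ) (U : Set Y), IsOpen U ∧ K ⊆ U ∧
      (∀ i, e i ∈ 𝒜) ∧ Fam U e ρ ∧ (∀ i, LocLip 𝒜 (ρ i)) ∧ ∀ i, IsCompact (tsupport (ρ i)) := by
  choose e he b hbl hb0 hbc hbs hb1 using h𝒜.exists_bump
  obtain ⟨t, -, ht⟩ := hK.elim_nhds_subcover (fun y => interior {z | b y z = 1})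
    fun y _ => interior_mem_nhds.2 (hb1 y)
  set m := t.card
  set q : Fin m → Y := fun i => (t.equivFin.symm i : Y) with hq
  set S : Y → ℝ := fun z => max (∑ i, b (q i) z) 1 with hS
  have hS0 : ∀ z, S z ≠ 0 := fun z => (zero_lt_one.trans_le (le_max_right _ _)).ne'
  have hl : ∀ i, LocLip 𝒜 fun z => b (q i) z * (S z)⁻¹ := fun i e' he' z hz =>
    (hbl (q i) e' he' z hz).mul (((LipAt.sum Finset.univ fun j _ => hbl (q j) e' he' z hz).max
      (lipAt_const 1 _)).inv (hS0 _))
  have hs : ∀ i, tsupport (fun z => b (q i) z * (S z)⁻¹) ⊆ tsupport (b (q i)) := fun i =>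
    tsupport_mul_subset_left
  refine ⟨m, fun i => e (q i), fun i z => b (q i) z * (S z)⁻¹,
    ⋃ y ∈ t, interior {z | b y z = 1}, isOpen_biUnion fun _ _ => isOpen_interior, ht,
    fun i => he _, ⟨fun i => (hl i).continuous h𝒜, fun i => (hs i).trans (hbs _), ?_⟩, hl,
    fun i => (hbc _).of_isClosed_subset (isClosed_tsupport _) (hs i)⟩
  intro z hz
  obtain ⟨y, hy, hz⟩ := mem_iUnion₂.1 hz
  have h1 : b (q (t.equivFin ⟨y, hy⟩)) z = 1 := by simpa [hq] using interior_subset hz
  have h2 : 1 ≤ ∑ i, b (q i) z := h1 ▸ Finset.single_le_sum (f := fun i => b (q i) z)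
    (fun i _ => hb0 _ _) (Finset.mem_univ _)
  rw [← Finset.sum_mul, hS]
  simp only [max_eq_left h2]
  exact mul_inv_cancel₀ (by linarith)

theorem Fam.mono {ι : Type} [Fintype ι] {K K' : Set Y} {e : ι → Ch Y V} {ρ : ι → Y → ℝ}
    (h : Fam K e ρ) (hK : K' ⊆ K) : Fam K' e ρ := ⟨h.cont, h.supp, fun y hy => h.one y (hK hy)⟩

/-- A locally integrable density vanishing outside the compact set `K`. -/
structure Dens (𝒜 : Set (Ch Y V)) (ω : Ch Y V → V → ℝ) (K : Set Y) : Prop where
  law : Law ω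
  tame : ∀ e ∈ 𝒜, LocallyIntegrableOn (ω e) e.target μ
  van : ∀ e ∈ 𝒜, ∀ y ∈ e.source, y ∉ K → ω e (e y) = 0
  cpt : IsCompact K

/-- The integral of a compactly supported density. -/
noncomputable def Int (𝒜 : Set (Ch Y V)) (ω : Ch Y V → V → ℝ) : ℝ :=
  Classical.epsilon fun D => ∃ K, Dens μ 𝒜 ω K ∧ ∃ (m : ℕ) (e : Fin m → Ch Y V)
    (ρ : Fin m → Y → ℝ), (∀ i, e i ∈ 𝒜) ∧ Fam K e ρ ∧ IntF μ e ρ ω = D

variable {μ}

theorem Dens.mono {𝒜 : Set (Ch Y V)} {ω : Ch Y V → V → ℝ} {K K' : Set Y} (h : Dens μ 𝒜 ω K)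
    (hK : K ⊆ K') (hc : IsCompact K') : Dens μ 𝒜 ω K' :=
  ⟨h.law, h.tame, fun e he y hy hy' => h.van e he y hy fun h' => hy' (hK h'), hc⟩

theorem Dens.int_eq [T2Space Y] {𝒜 : Set (Ch Y V)} (h𝒜 : Sys 𝒜) {ω : Ch Y V → V → ℝ} {K : Set Y}
    (h : Dens μ 𝒜 ω K) {s : ℝ} (hs : s = 1 ∨ s = -1) {ι : Type} [Fintype ι] {e : ι → Ch Y V}
    {ρ : ι → Y → ℝ} (hF : Fam K e ρ) (he : ∀ i, ∀ e' ∈ 𝒜, Compat s e' (e i)) :
    Int μ 𝒜 ω = s * IntF μ e ρ ω := by
  have hex : ∃ D, ∃ K, Dens μ 𝒜 ω K ∧ ∃ (m : ℕ) (e : Fin m → Ch Y V)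
      (ρ : Fin m → Y → ℝ), (∀ i, e i ∈ 𝒜) ∧ Fam K e ρ ∧ IntF μ e ρ ω = D := by
    obtain ⟨m, e, ρ, U, -, hKU, he, hF, -⟩ := h𝒜.exists_fam h.cpt
    exact ⟨_, K, h, m, e, ρ, he, hF.mono hKU, rfl⟩
  obtain ⟨K', h', m, e', ρ', he', hF', hD⟩ := Classical.epsilon_spec hex
  rw [Int, ← hD]
  have hv : ∀ c ∈ 𝒜, ∀ y ∈ c.source, y ∉ K' ∩ K → ω c (c y) = 0 := by
    intro c hc y hy hy'
    by_cases h1 : y ∈ K
    · exact h'.van c hc y hy fun h2 => hy' ⟨h2, h1⟩
    · exact h.van c hc y hy h1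
  refine intF_indep μ hs (hF'.mono inter_subset_left) (hF.mono inter_subset_right)
    (h'.cpt.inter_right h.cpt.isClosed) h.law (fun i => h.tame _ (he' i))
    (fun i => hv _ (he' i)) (fun i y hy hy' => ?_) fun i j => he j _ (he' i)
  obtain ⟨c, hc, hyc⟩ := h𝒜.cover y
  rw [h.law _ c y hy hyc ((he i c hc).symm y hy hyc).1, hv c hc y hyc hy', zero_mul]

theorem Dens.int_eq' [T2Space Y] {𝒜 : Set (Ch Y V)} (h𝒜 : Sys 𝒜) {ω : Ch Y V → V → ℝ} {K : Set Y}
    (h : Dens μ 𝒜 ω K) {ι : Type} [Fintype ι] {e : ι → Ch Y V}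
    {ρ : ι → Y → ℝ} (hF : Fam K e ρ) (he : ∀ i, e i ∈ 𝒜) : Int μ 𝒜 ω = IntF μ e ρ ω := by
  rw [h.int_eq h𝒜 (Or.inl rfl) hF fun i e' he' => h𝒜.compat he' (he i), one_mul]

theorem Dens.int_chart [T2Space Y] {𝒜 : Set (Ch Y V)} (h𝒜 : Sys 𝒜) {ω : Ch Y V → V → ℝ}
    {K : Set Y} (h : Dens μ 𝒜 ω K) {s : ℝ} (hs : s = 1 ∨ s = -1) {c : Ch Y V}
    (hc : ∀ e ∈ 𝒜, Compat s e c) (hv : ∀ e ∈ 𝒜, ∀ y ∈ e.source, y ∉ c.source → ω e (e y) = 0) :
    IntegrableOn (ω c) c.target μ ∧ Int μ 𝒜 ω = s * ∫ x in c.target, ω c x ∂μ := by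
  obtain ⟨m, e, ρ, U, -, hKU, he, hF, -⟩ := h𝒜.exists_fam h.cpt
  rw [h.int_eq' h𝒜 (hF.mono hKU) he]
  refine intF_eq_chart μ hs (hF.mono hKU) h.cpt h.law (fun i => h.tame _ (he i))
    (fun i => h.van _ (he i)) (fun i => hc _ (he i)) (fun y hy hy' => ?_) fun i => hv _ (he i)
  obtain ⟨c', hc', hyc⟩ := h𝒜.cover y
  rw [h.law _ c' y hy hyc ((hc c' hc').symm y hy hyc).1, h.van c' hc' y hyc hy', zero_mul]

theorem Dens.mulD {𝒜 : Set (Ch Y V)} {ω : Ch Y V → V → ℝ} {K : Set Y} (h : Dens μ 𝒜 ω K)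
    {χ : Y → ℝ} (hχ : Continuous χ) : Dens μ 𝒜 (mulD χ ω) K :=
  ⟨h.law.mulD χ, fun e he => tame_mulD μ (h.tame e he) hχ.continuousOn,
    fun e he y hy hy' => by simp [MP_4b70aa_gt.mulD, h.van e he y hy hy'], h.cpt⟩

theorem Dens.indicator {𝒜 : Set (Ch Y V)} {ω : Ch Y V → V → ℝ} {K : Set Y} (h : Dens μ 𝒜 ω K)
    {U : Set Y} (hU : IsOpen U) : Dens μ 𝒜 (MP_4b70aa_gt.mulD (U.indicator 1) ω) K := by
  refine ⟨h.law.mulD _, fun e he x hx => ?_,
    fun e he y hy hy' => by simp [MP_4b70aa_gt.mulD, h.van e he y hy hy'], h.cpt⟩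
  obtain ⟨t, ht, hi⟩ := h.tame e he x hx
  obtain ⟨t', ht', htm, htt⟩ : ∃ t' ∈ 𝓝[e.target] x, MeasurableSet t' ∧ t' ⊆ t ∩ e.target := by
    rw [e.open_target.nhdsWithin_eq hx] at ht ⊢
    exact ⟨interior (t ∩ e.target), interior_mem_nhds.2 (inter_mem ht (e.open_target.mem_nhds hx)),
      isOpen_interior.measurableSet, interior_subset⟩
  refine ⟨t', ht', ?_⟩
  have := (hi.mono_set (htt.trans inter_subset_left)).indicator
    (e.isOpen_inter_preimage_symm hU).measurableSet
  refine this.congr_fun (fun z hz => ?_) htm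
  by_cases hz' : e.symm z ∈ U
  · simp [MP_4b70aa_gt.mulD, indicator_of_mem hz',
      indicator_of_mem (show z ∈ e.target ∩ e.symm ⁻¹' U from ⟨(htt hz).2, hz'⟩)]
  · simp [MP_4b70aa_gt.mulD, indicator_of_notMem hz',
      indicator_of_notMem (show z ∉ e.target ∩ e.symm ⁻¹' U from fun h => hz' h.2)]

theorem int_sum [T2Space Y] {𝒜 : Set (Ch Y V)} (h𝒜 : Sys 𝒜) {κ : Type} (s : Finset κ)
    {ω : Ch Y V → V → ℝ} {ω' : κ → Ch Y V → V → ℝ} {K : Set Y} (h : Dens μ 𝒜 ω K)
    (h' : ∀ k ∈ s, Dens μ 𝒜 (ω' k) K)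
    (hs : ∀ e ∈ 𝒜, ∀ᵐ x ∂μ, x ∈ e.target → ω e x = ∑ k ∈ s, ω' k e x) :
    Int μ 𝒜 ω = ∑ k ∈ s, Int μ 𝒜 (ω' k) := by
  obtain ⟨m, e, ρ, U, -, hKU, he, hF, -⟩ := h𝒜.exists_fam h.cpt
  have hF' := hF.mono hKU
  rw [h.int_eq' h𝒜 hF' he, Finset.sum_congr rfl fun k hk => (h' k hk).int_eq' h𝒜 hF' he]
  unfold IntF
  rw [Finset.sum_comm]
  refine Finset.sum_congr rfl fun i _ => ?_
  rw [← integral_finsetSum _ fun k hk => hF'.integrableOn μ h.cpt i ((h' k hk).tame _ (he i))
    ((h' k hk).van _ (he i))]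
  refine setIntegral_congr_ae (e i).open_target.measurableSet ?_
  filter_upwards [hs _ (he i)] with x hx hx'
  simp only [MP_4b70aa_gt.mulD, hx hx', Finset.mul_sum]

theorem int_zero [T2Space Y] {𝒜 : Set (Ch Y V)} (h𝒜 : Sys 𝒜) {ω : Ch Y V → V → ℝ} {K : Set Y}
    (h : Dens μ 𝒜 ω K) (hs : ∀ e ∈ 𝒜, ∀ y ∈ e.source, ω e (e y) = 0) : Int μ 𝒜 ω = 0 := by
  rw [int_sum h𝒜 (∅ : Finset Unit) (ω' := fun _ => ω) h (by simp)]
  · simp
  · intro e he
    refine Eventually.of_forall fun x hx => ?_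
    have := hs e he _ (e.map_target hx)
    rwa [e.right_inv hx] at this

theorem int_congr [T2Space Y] {𝒜 : Set (Ch Y V)} (h𝒜 : Sys 𝒜) {ω ω' : Ch Y V → V → ℝ}
    {K K' : Set Y} (h : Dens μ 𝒜 ω K) (h' : Dens μ 𝒜 ω' K')
    (hs : ∀ e ∈ 𝒜, ∀ y ∈ e.source, ω e (e y) = ω' e (e y)) : Int μ 𝒜 ω = Int μ 𝒜 ω' := by
  have hc := h.cpt.union h'.cpt
  rw [int_sum h𝒜 (Finset.univ : Finset Unit) (ω' := fun _ => ω') (h.mono subset_union_left hc)
    (fun _ _ => h'.mono subset_union_right hc)]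
  · simp
  · intro e he
    refine Eventually.of_forall fun x hx => ?_
    have := hs e he _ (e.map_target hx)
    rw [e.right_inv hx] at this
    simpa using this

theorem int_transport [T2Space Y] {Y₀ : Type} [TopologicalSpace Y₀] [T2Space Y₀]
    {𝒜 : Set (Ch Y V)} (h𝒜 : Sys 𝒜) {𝒜₀ : Set (Ch Y₀ V)} (h𝒜₀ : Sys 𝒜₀) {j : Y₀ → Y}
    (hj : IsOpenEmbedding j) (hl : ∀ e ∈ 𝒜₀, e.lift_openEmbedding hj ∈ 𝒜)
    {ω : Ch Y V → V → ℝ} {ω₀ : Ch Y₀ V → V → ℝ} {K₀ : Set Y₀} (h₀ : Dens μ 𝒜₀ ω₀ K₀)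
    (h : Dens μ 𝒜 ω (j '' K₀)) (hω : ∀ e ∈ 𝒜₀, ω₀ e = ω (e.lift_openEmbedding hj)) :
    Int μ 𝒜₀ ω₀ = Int μ 𝒜 ω := by
  obtain ⟨m, e, ρ, U, -, hKU, he, hF, -, hc⟩ := h𝒜₀.exists_fam h₀.cpt
  have hF' := hF.mono hKU
  set ρ' : Fin m → Y → ℝ := fun i => Function.extend j (ρ i) 0 with hρ'
  have hρj : ∀ i y, ρ' i (j y) = ρ i y := fun i y => hj.injective.extend_apply _ _ _
  have hρ0 : ∀ i z, z ∉ j '' tsupport (ρ i) → ρ' i z = 0 := by
    intro i z hz
    by_cases hr : ∃ y, j y = z
    · obtain ⟨y, rfl⟩ := hr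
      rw [hρj]
      exact image_eq_zero_of_notMem_tsupport fun h' => hz ⟨y, h', rfl⟩
    · exact Function.extend_apply' _ _ _ hr
  have hcl : ∀ i, IsClosed (j '' tsupport (ρ i)) := fun i =>
    ((hc i).image hj.continuous).isClosed
  have hF2 : Fam (j '' K₀) (fun i => (e i).lift_openEmbedding hj) ρ' := by
    refine ⟨fun i => continuous_iff_continuousAt.2 fun z => ?_, fun i => ?_, ?_⟩
    · by_cases hz : z ∈ j '' tsupport (ρ i)
      · obtain ⟨y, -, rfl⟩ := hz
        rw [← hj.continuousAt_iff]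
        have : ρ' i ∘ j = ρ i := funext (hρj i)
        rw [this]
        exact (hF.cont i).continuousAt
      · refine (continuousAt_const (y := (0 : ℝ))).congr ?_
        filter_upwards [(hcl i).isOpen_compl.mem_nhds hz] with w hw using (hρ0 i w hw).symm
    · refine (closure_minimal (show Function.support (ρ' i) ⊆ j '' tsupport (ρ i) from
        fun z hz => by_contra fun h' => hz (hρ0 i z h')) (hcl i)).trans ?_
      exact image_mono (hF.supp i)
    · rintro _ ⟨y, hy, rfl⟩
      simp only [hρj]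
      exact hF'.one y hy
  rw [h₀.int_eq' h𝒜₀ hF' he, h.int_eq' h𝒜 hF2 fun i => hl _ (he i)]
  refine Finset.sum_congr rfl fun i _ => ?_
  refine setIntegral_congr_fun (e i).open_target.measurableSet fun x _ => ?_
  simp only [MP_4b70aa_gt.mulD, hω _ (he i)]
  congr 1
  exact (hρj i _).symm

end Pool.Agent.Lib.MP_4b70aa_gt
end
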